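import Mathlib

/-!
# Augmented bipartite graphs and Zarankiewicz-type numbers

Definitions of augmented graphs (1-edges, 2-edges and 3-edges on a grid of cells), of the generalized
cycle-free condition and of the numbers `z`, `z3A`, `z3L`, and a block construction of generalized
cycle-free graphs with many 2-edges.
-/

set_option autoImplicit false

namespace Pool.Agent.V11147.AugZ

/-- A cell of the `m × n` grid: a row and a column. -/
abbrev Cell (m n : ℕ) : Type := Fin m × Fin n

/-- An augmented graph: a set of cells (1-edges), a set of 2-element sets of cells (2-edges) and a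
set of 3-element sets of cells (3-edges). -/
structure AugGraph (m n : ℕ) where
  /-- The 1-edges. -/
  E1 : Finset (Cell m n)
  /-- The 2-edges. -/
  E2 : Finset (Finset (Cell m n))
  /-- The 3-edges. -/
  E3 : Finset (Finset (Cell m n))
  card2 : ∀ e ∈ E2, e.card = 2
  card3 : ∀ e ∈ E3, e.card = 3

namespace AugGraph

variable {m n : ℕ}

/-- A cell is occupied if it is a 1-edge or lies in a 2-edge or in a 3-edge. -/
def Occupied (G : AugGraph m n) (c : Cell m n) : Prop :=
  c ∈ G.E1 ∨ (∃ e ∈ G.E2, c ∈ e) ∨ (∃ e ∈ G.E3, c ∈ e)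

/-- A cell is a 1-edge or lies in a 2-edge. -/
def Occupied12 (G : AugGraph m n) (c : Cell m n) : Prop :=
  c ∈ G.E1 ∨ (∃ e ∈ G.E2, c ∈ e)

/-- No cell lies in more than one edge. -/
def Simple (G : AugGraph m n) : Prop :=
  (∀ c ∈ G.E1, ∀ e ∈ G.E2 ∪ G.E3, c ∉ e) ∧
    ∀ e ∈ G.E2 ∪ G.E3, ∀ f ∈ G.E2 ∪ G.E3, e ≠ f → Disjoint e f

/-- Condition 1: four 1-edges forming a rectangle. -/
def HasRect (E : Finset (Cell m n)) : Prop :=
  ∃ i k : Fin m, ∃ j l : Fin n, i ≠ k ∧ j ≠ l ∧ (i, j) ∈ E ∧ (i, l) ∈ E ∧ (k, j) ∈ E ∧ (k, l) ∈ E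

/-- Condition 2: four occupied cells forming a rectangle, covered by exactly two edges among the
2-edges and 3-edges, each of which contains two of the four cells. -/
def Bad2 (G : AugGraph m n) : Prop :=
  ∃ i k : Fin m, ∃ j l : Fin n, i ≠ k ∧ j ≠ l ∧
    (∀ c ∈ ({(i, j), (i, l), (k, j), (k, l)} : Finset (Cell m n)), G.Occupied c) ∧
    ∃ e ∈ G.E2 ∪ G.E3, ∃ f ∈ G.E2 ∪ G.E3, e ≠ f ∧
      (e ∩ {(i, j), (i, l), (k, j), (k, l)}).card = 2 ∧
      (f ∩ {(i, j), (i, l), (k, j), (k, l)}).card = 2 ∧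
      ({(i, j), (i, l), (k, j), (k, l)} : Finset (Cell m n)) ⊆ e ∪ f

/-- Condition 3: a 2-edge with cells `(i, j)`, `(p, q)` and a cell `(k, l)` outside its rows and
columns such that the five cells `(k, j), (k, l), (k, q), (i, l), (p, l)` are all 1-edges or in
2-edges, these five cells being distinct if the 2-edge is non-degenerate. -/
def Bad3 (G : AugGraph m n) : Prop :=
  ∃ i p : Fin m, ∃ j q : Fin n, ∃ k : Fin m, ∃ l : Fin n,
    {(i, j), (p, q)} ∈ G.E2 ∧ k ≠ i ∧ k ≠ p ∧ l ≠ j ∧ l ≠ q ∧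
    (∀ c ∈ ([(k, j), (k, l), (k, q), (i, l), (p, l)] : List (Cell m n)), G.Occupied12 c) ∧
    (i ≠ p ∧ j ≠ q → ([(k, j), (k, l), (k, q), (i, l), (p, l)] : List (Cell m n)).Nodup)

/-- Condition 4: a 3-edge with cells `(i, j)`, `(p, q)`, `(u, v)` and a cell `(k, l)` outside its rows
and columns such that the seven cells `(k, j), (k, l), (k, q), (k, v), (i, l), (p, l), (u, l)` are all
occupied, these seven cells being distinct if the 3-edge is non-degenerate. -/
def Bad4 (G : AugGraph m n) : Prop :=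
  ∃ i p u : Fin m, ∃ j q v : Fin n, ∃ k : Fin m, ∃ l : Fin n,
    {(i, j), (p, q), (u, v)} ∈ G.E3 ∧ k ≠ i ∧ k ≠ p ∧ k ≠ u ∧ l ≠ j ∧ l ≠ q ∧ l ≠ v ∧
    (∀ c ∈ ([(k, j), (k, l), (k, q), (k, v), (i, l), (p, l), (u, l)] : List (Cell m n)),
      G.Occupied c) ∧
    (i ≠ p ∧ i ≠ u ∧ p ≠ u ∧ j ≠ q ∧ j ≠ v ∧ q ≠ v →
      ([(k, j), (k, l), (k, q), (k, v), (i, l), (p, l), (u, l)] : List (Cell m n)).Nodup)

/-- The graph is generalized cycle-free: none of the four conditions occurs. -/
def CycleFree (G : AugGraph m n) : Prop :=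
  ¬ HasRect G.E1 ∧ ¬ G.Bad2 ∧ ¬ G.Bad3 ∧ ¬ G.Bad4

/-- The number of edges of all three kinds. -/
def size (G : AugGraph m n) : ℕ := G.E1.card + G.E2.card + G.E3.card

end AugGraph

open AugGraph

/-- The Zarankiewicz number: the largest number of cells without a rectangle. -/
noncomputable def z (m n : ℕ) : ℕ :=
  sSup {k : ℕ | ∃ E : Finset (Cell m n), ¬ HasRect E ∧ E.card = k}

/-- The largest size of a simple generalized cycle-free augmented graph. -/
noncomputable def z3A (m n : ℕ) : ℕ :=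
  sSup {k : ℕ | ∃ G : AugGraph m n, G.Simple ∧ G.CycleFree ∧ G.size = k}

/-- The largest size of a simple generalized cycle-free augmented graph with `z(m, n)` 1-edges. -/
noncomputable def z3L (m n : ℕ) : ℕ :=
  sSup {k : ℕ | ∃ G : AugGraph m n, G.Simple ∧ G.CycleFree ∧ G.E1.card = z m n ∧ G.size = k}

theorem size_le {m n : ℕ} (G : AugGraph m n) :
    G.size ≤ Fintype.card (Cell m n) + Fintype.card (Finset (Cell m n)) +
      Fintype.card (Finset (Cell m n)) := by
  unfold AugGraph.size
  have h1 := Finset.card_le_univ G.E1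
  have h2 := Finset.card_le_univ G.E2
  have h3 := Finset.card_le_univ G.E3
  omega

theorem le_z3A {m n k : ℕ} (G : AugGraph m n) (h1 : G.Simple) (h2 : G.CycleFree)
    (h3 : k ≤ G.size) : k ≤ z3A m n := by
  refine h3.trans (le_csSup ?_ ⟨G, h1, h2, rfl⟩)
  refine ⟨Fintype.card (Cell m n) + Fintype.card (Finset (Cell m n)) +
      Fintype.card (Finset (Cell m n)), ?_⟩
  rintro _ ⟨G, -, -, rfl⟩
  exact size_le G

theorem le_z3L {m n k : ℕ} (G : AugGraph m n) (h1 : G.Simple) (h2 : G.CycleFree)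
    (h3 : G.E1.card = z m n) (h4 : k ≤ G.size) : k ≤ z3L m n := by
  refine h4.trans (le_csSup ?_ ⟨G, h1, h2, h3, rfl⟩)
  refine ⟨Fintype.card (Cell m n) + Fintype.card (Finset (Cell m n)) +
      Fintype.card (Finset (Cell m n)), ?_⟩
  rintro _ ⟨G, -, -, -, rfl⟩
  exact size_le G

/-- Data for the block construction. -/
structure Blocks (m n h w : ℕ) where
  r1 : Fin h → Fin m
  r2 : Fin h → Fin m
  c1 : Fin w → Fin n
  c2 : Fin w → Fin n
  ir1 : Function.Injective r1
  ir2 : Function.Injective r2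
  ic1 : Function.Injective c1
  ic2 : Function.Injective c2
  dr : ∀ a b, r1 a ≠ r2 b
  dc : ∀ a b, c1 a ≠ c2 b

namespace Blocks

variable {m n h w : ℕ}

/-- The 2-edge of the block construction with index `x`. -/
def edge (B : Blocks m n h w) (x : Fin h × Fin w) : Finset (Cell m n) :=
  {(B.r1 x.1, B.c1 x.2), (B.r2 x.1, B.c2 x.2)}

theorem mem_edge (B : Blocks m n h w) {x : Fin h × Fin w} {c : Cell m n} :
    c ∈ B.edge x ↔ c = (B.r1 x.1, B.c1 x.2) ∨ c = (B.r2 x.1, B.c2 x.2) := by
  simp [edge]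

theorem card_edge (B : Blocks m n h w) (x : Fin h × Fin w) : (B.edge x).card = 2 := by
  refine Finset.card_pair ?_
  intro h
  exact B.dr _ _ (congrArg Prod.fst h)

/-- Two cells in two edges with a common cell force the edges to be equal. -/
theorem edge_unique (B : Blocks m n h w) {x y : Fin h × Fin w} {c : Cell m n}
    (hx : c ∈ B.edge x) (hy : c ∈ B.edge y) : x = y := by
  rw [mem_edge] at hx hy
  rcases hx with rfl | rfl <;> rcases hy with h | h
  · simp only [Prod.mk.injEq] at h
    exact Prod.ext (B.ir1 h.1) (B.ic1 h.2)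
  · simp only [Prod.mk.injEq] at h
    exact absurd h.1 (B.dr _ _)
  · simp only [Prod.mk.injEq] at h
    exact absurd h.1.symm (B.dr _ _)
  · simp only [Prod.mk.injEq] at h
    exact Prod.ext (B.ir2 h.1) (B.ic2 h.2)

/-- The 2-edges of the block construction. -/
def edges (B : Blocks m n h w) : Finset (Finset (Cell m n)) := Finset.univ.image B.edge

theorem mem_edges (B : Blocks m n h w) {e : Finset (Cell m n)} :
    e ∈ B.edges ↔ ∃ x, B.edge x = e := by
  simp [edges]

theorem card_edges (B : Blocks m n h w) : B.edges.card = h * w := by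
  unfold edges
  rw [Finset.card_image_of_injective, Finset.card_univ, Fintype.card_prod, Fintype.card_fin,
    Fintype.card_fin]
  intro x y hxy
  refine B.edge_unique (c := (B.r1 x.1, B.c1 x.2)) ?_ ?_
  · rw [mem_edge]
    exact Or.inl rfl
  · rw [← hxy, mem_edge]
    exact Or.inl rfl

/-- The cells covered by the 2-edges of the block construction. -/
def Cov (B : Blocks m n h w) (c : Cell m n) : Prop :=
  ((∃ a, B.r1 a = c.1) ∧ ∃ b, B.c1 b = c.2) ∨ ((∃ a, B.r2 a = c.1) ∧ ∃ b, B.c2 b = c.2)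

theorem cov_of_mem (B : Blocks m n h w) {x : Fin h × Fin w} {c : Cell m n}
    (hc : c ∈ B.edge x) : B.Cov c := by
  rw [mem_edge] at hc
  rcases hc with rfl | rfl
  · exact Or.inl ⟨⟨_, rfl⟩, ⟨_, rfl⟩⟩
  · exact Or.inr ⟨⟨_, rfl⟩, ⟨_, rfl⟩⟩

theorem cov_of_mem_edges (B : Blocks m n h w) {e : Finset (Cell m n)} {c : Cell m n}
    (he : e ∈ B.edges) (hc : c ∈ e) : B.Cov c := by
  obtain ⟨x, rfl⟩ := B.mem_edges.1 he
  exact B.cov_of_mem hc

/-- The augmented graph of the block construction with prescribed 1-edges. -/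
def graph (B : Blocks m n h w) (E : Finset (Cell m n)) : AugGraph m n where
  E1 := E
  E2 := B.edges
  E3 := ∅
  card2 := by
    intro e he
    obtain ⟨x, rfl⟩ := B.mem_edges.1 he
    exact B.card_edge x
  card3 := by simp

theorem graph_simple (B : Blocks m n h w) (E : Finset (Cell m n))
    (hE : ∀ c ∈ E, ¬ B.Cov c) : (B.graph E).Simple := by
  refine ⟨?_, ?_⟩
  · intro c hc e he hce
    simp only [graph, Finset.union_empty] at he
    exact hE c hc (B.cov_of_mem_edges he hce)
  · intro e he f hf hef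
    simp only [graph, Finset.union_empty] at he hf
    obtain ⟨x, rfl⟩ := B.mem_edges.1 he
    obtain ⟨y, rfl⟩ := B.mem_edges.1 hf
    rw [Finset.disjoint_left]
    intro c hc hc'
    exact hef (by rw [B.edge_unique hc hc'])

theorem graph_cycleFree (B : Blocks m n h w) (E : Finset (Cell m n)) (h1 : ¬ HasRect E)
    (h3 : ∀ (a a' : Fin h) (b b' : Fin w) (k : Fin m) (l : Fin n),
      ((k, B.c1 b) ∈ E ∨ B.Cov (k, B.c1 b)) → ((k, l) ∈ E ∨ B.Cov (k, l)) →
      ((k, B.c2 b') ∈ E ∨ B.Cov (k, B.c2 b')) → ((B.r1 a, l) ∈ E ∨ B.Cov (B.r1 a, l)) →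
      ((B.r2 a', l) ∈ E ∨ B.Cov (B.r2 a', l)) → False) : (B.graph E).CycleFree := by
  have hocc : ∀ c, (B.graph E).Occupied12 c → (c ∈ E ∨ B.Cov c) := by
    intro c hc
    rcases hc with hc | ⟨e, he, hce⟩
    · exact Or.inl hc
    · exact Or.inr (B.cov_of_mem_edges he hce)
  refine ⟨h1, ?_, ?_, ?_⟩
  · rintro ⟨i, k, j, l, hik, hjl, -, e, he, f, hf, hef, hce, hcf, hsub⟩
    simp only [graph, Finset.union_empty] at he hf
    have hcov : ∀ c ∈ ({(i, j), (i, l), (k, j), (k, l)} : Finset (Cell m n)), B.Cov c := by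
      intro c hc
      rcases Finset.mem_union.1 (hsub hc) with h | h
      · exact B.cov_of_mem_edges he h
      · exact B.cov_of_mem_edges hf h
    -- all four cells lie in one of the two blocks
    have hone : ∀ x : Fin h × Fin w, B.edge x ⊆ {(i, j), (i, l), (k, j), (k, l)} → False := by
      intro x hx
      have hx1 : ((B.r1 x.1, B.c1 x.2) : Cell m n) ∈
          ({(i, j), (i, l), (k, j), (k, l)} : Finset (Cell m n)) :=
        hx (B.mem_edge.2 (Or.inl rfl))
      have hx2 : ((B.r2 x.1, B.c2 x.2) : Cell m n) ∈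
          ({(i, j), (i, l), (k, j), (k, l)} : Finset (Cell m n)) :=
        hx (B.mem_edge.2 (Or.inr rfl))
      have hmix : ((B.r1 x.1, B.c2 x.2) : Cell m n) ∈
          ({(i, j), (i, l), (k, j), (k, l)} : Finset (Cell m n)) := by
        simp only [Finset.mem_insert, Finset.mem_singleton, Prod.mk.injEq] at hx1 hx2 ⊢
        rcases hx1 with ⟨p1, p2⟩ | ⟨p1, p2⟩ | ⟨p1, p2⟩ | ⟨p1, p2⟩ <;>
          rcases hx2 with ⟨q1, q2⟩ | ⟨q1, q2⟩ | ⟨q1, q2⟩ | ⟨q1, q2⟩ <;> simp [p1, q2]
      rcases hcov _ hmix with ⟨-, b, hb⟩ | ⟨⟨a, ha⟩, -⟩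
      · exact B.dc _ _ hb
      · exact B.dr _ _ ha.symm
    obtain ⟨x, rfl⟩ := B.mem_edges.1 he
    refine hone x ?_
    have h4 : (B.edge x ∩ {(i, j), (i, l), (k, j), (k, l)}) = B.edge x := by
      refine Finset.eq_of_subset_of_card_le Finset.inter_subset_left ?_
      rw [hce, B.card_edge]
    rw [← h4]
    exact Finset.inter_subset_right
  · rintro ⟨i, p, j, q, k, l, he, -, -, -, -, hall, -⟩
    simp only [graph] at he
    obtain ⟨x, hx⟩ := B.mem_edges.1 he
    have e1 := hocc _ (hall (k, j) (by simp))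
    have e2 := hocc _ (hall (k, l) (by simp))
    have e3 := hocc _ (hall (k, q) (by simp))
    have e4 := hocc _ (hall (i, l) (by simp))
    have e5 := hocc _ (hall (p, l) (by simp))
    have hm1 : ((i, j) : Cell m n) ∈ B.edge x := by rw [hx]; simp
    have hm2 : ((p, q) : Cell m n) ∈ B.edge x := by rw [hx]; simp
    have hne : ((i, j) : Cell m n) ≠ (p, q) := by
      intro h
      have := B.card_edge x
      rw [hx, h] at this
      simp at this
    rw [B.mem_edge] at hm1 hm2
    rcases hm1 with hm1 | hm1 <;> rcases hm2 with hm2 | hm2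
    · exact hne (hm1.trans hm2.symm)
    · obtain ⟨rfl, rfl⟩ := Prod.mk.injEq _ _ _ _ ▸ hm1
      obtain ⟨rfl, rfl⟩ := Prod.mk.injEq _ _ _ _ ▸ hm2
      exact h3 _ _ _ _ _ _ e1 e2 e3 e4 e5
    · obtain ⟨rfl, rfl⟩ := Prod.mk.injEq _ _ _ _ ▸ hm1
      obtain ⟨rfl, rfl⟩ := Prod.mk.injEq _ _ _ _ ▸ hm2
      exact h3 _ _ _ _ _ _ e3 e2 e1 e5 e4
    · exact hne (hm1.trans hm2.symm)
  · rintro ⟨i, p, u, j, q, v, k, l, he, -⟩
    simp [graph] at he

theorem graph_size (B : Blocks m n h w) (E : Finset (Cell m n)) :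
    (B.graph E).size = E.card + h * w := by
  unfold AugGraph.size
  simp only [graph, Finset.card_empty, add_zero]
  rw [B.card_edges]

end Blocks

/-- Consecutive blocks of rows and columns, starting from row `s` and column `t`. -/
def stdBlocks (m n h w s t : ℕ) (hm : s + 2 * h ≤ m) (hn : t + 2 * w ≤ n) : Blocks m n h w where
  r1 a := ⟨s + a.val, by omega⟩
  r2 a := ⟨s + h + a.val, by omega⟩
  c1 b := ⟨t + b.val, by omega⟩
  c2 b := ⟨t + w + b.val, by omega⟩
  ir1 := by
    intro a b hab
    simp only [Fin.mk.injEq] at hab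
    exact Fin.ext (by omega)
  ir2 := by
    intro a b hab
    simp only [Fin.mk.injEq] at hab
    exact Fin.ext (by omega)
  ic1 := by
    intro a b hab
    simp only [Fin.mk.injEq] at hab
    exact Fin.ext (by omega)
  ic2 := by
    intro a b hab
    simp only [Fin.mk.injEq] at hab
    exact Fin.ext (by omega)
  dr := by
    intro a b hab
    simp only [Fin.mk.injEq] at hab
    omega
  dc := by
    intro a b hab
    simp only [Fin.mk.injEq] at hab
    omega

theorem stdBlocks_cov {m n h w s t : ℕ} (hm : s + 2 * h ≤ m) (hn : t + 2 * w ≤ n) (c : Cell m n) :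
    (stdBlocks m n h w s t hm hn).Cov c ↔
      ((s ≤ c.1.val ∧ c.1.val < s + h) ∧ (t ≤ c.2.val ∧ c.2.val < t + w)) ∨
      ((s + h ≤ c.1.val ∧ c.1.val < s + 2 * h) ∧ (t + w ≤ c.2.val ∧ c.2.val < t + 2 * w)) := by
  unfold Blocks.Cov stdBlocks
  simp only [Fin.ext_iff]
  constructor
  · rintro (⟨⟨a, ha⟩, b, hb⟩ | ⟨⟨a, ha⟩, b, hb⟩)
    · left
      omega
    · right
      omega
  · rintro (⟨⟨h1, h2⟩, h3, h4⟩ | ⟨⟨h1, h2⟩, h3, h4⟩)
    · left
      exact ⟨⟨⟨c.1.val - s, by omega⟩, by simp only; omega⟩,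
        ⟨⟨c.2.val - t, by omega⟩, by simp only; omega⟩⟩
    · right
      exact ⟨⟨⟨c.1.val - s - h, by omega⟩, by simp only; omega⟩,
        ⟨⟨c.2.val - t - w, by omega⟩, by simp only; omega⟩⟩

/-- Quadratically many edges: `z_{3A}(m, n) ≥ ⌊m/2⌋ ⌊n/2⌋`. -/
theorem z3A_ge (m n : ℕ) : (m / 2) * (n / 2) ≤ z3A m n := by
  have hm : 0 + 2 * (m / 2) ≤ m := by omega
  have hn : 0 + 2 * (n / 2) ≤ n := by omega
  set B := stdBlocks m n (m / 2) (n / 2) 0 0 hm hn with hB
  refine le_z3A (B.graph ∅) (B.graph_simple ∅ (by simp)) (B.graph_cycleFree ∅ ?_ ?_) ?_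
  · rintro ⟨i, k, j, l, -, -, h, -⟩
    simp at h
  · intro a a' b b' k l e1 _ e3 _ _
    rcases e1 with e1 | e1
    · simp at e1
    rcases e3 with e3 | e3
    · simp at e3
    rw [hB, stdBlocks_cov] at e1 e3
    simp only [stdBlocks] at e1 e3
    have := b.isLt
    have := b'.isLt
    omega
  · rw [B.graph_size]
    simp

/-- The set of 2-element sets of rows. -/
abbrev Pairs (m : ℕ) : Type := {s : Finset (Fin m) // s.card = 2}

theorem card_pairs (m : ℕ) : Fintype.card (Pairs m) = m.choose 2 := by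
  have h : Fintype.card (Pairs m) = (Finset.powersetCard 2 (Finset.univ : Finset (Fin m))).card := by
    rw [Fintype.card_subtype]
    congr 1
    ext s
    simp [Finset.mem_powersetCard]
  rw [h, Finset.card_powersetCard, Finset.card_univ, Fintype.card_fin]

/-- The bound `z(m, n) ≤ n + C(m, 2)`. -/
theorem card_le_of_not_hasRect {m n : ℕ} (E : Finset (Cell m n)) (hE : ¬ HasRect E) :
    E.card ≤ n + m.choose 2 := by
  classical
  set col : Fin n → Finset (Fin m) := fun j => Finset.univ.filter (fun i => (i, j) ∈ E) with hcol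
  have hcard : E.card = ∑ j : Fin n, (col j).card := by
    rw [Finset.card_eq_sum_card_fiberwise (f := Prod.snd) (t := Finset.univ) (by simp)]
    refine Finset.sum_congr rfl ?_
    intro j _
    refine Finset.card_bij (fun c _ => c.1) ?_ ?_ ?_
    · rintro ⟨i, j'⟩ hc
      simp only [Finset.mem_filter] at hc
      obtain ⟨hc1, rfl⟩ := hc
      simpa [hcol] using hc1
    · rintro ⟨i, j'⟩ hc ⟨i', j''⟩ hc' h
      simp only [Finset.mem_filter] at hc hc'
      simp only at h
      rw [Prod.mk.injEq]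
      exact ⟨h, hc.2.trans hc'.2.symm⟩
    · intro i hi
      simp only [hcol, Finset.mem_filter, Finset.mem_univ, true_and] at hi
      exact ⟨(i, j), by simpa using hi, rfl⟩
  have hdisj : ((Finset.univ : Finset (Fin n)) : Set (Fin n)).PairwiseDisjoint
      (fun j => Finset.powersetCard 2 (col j)) := by
    intro j _ l _ hjl
    change Disjoint (Finset.powersetCard 2 (col j)) (Finset.powersetCard 2 (col l))
    rw [Finset.disjoint_left]
    intro s hs hs'
    rw [Finset.mem_powersetCard] at hs hs'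
    obtain ⟨i, k, hik, rfl⟩ := Finset.card_eq_two.1 hs.2
    refine hE ⟨i, k, j, l, hik, hjl, ?_, ?_, ?_, ?_⟩
    · have := hs.1 (Finset.mem_insert_self i {k})
      simpa [hcol] using this
    · have := hs'.1 (Finset.mem_insert_self i {k})
      simpa [hcol] using this
    · have := hs.1 (Finset.mem_insert_of_mem (Finset.mem_singleton_self k))
      simpa [hcol] using this
    · have := hs'.1 (Finset.mem_insert_of_mem (Finset.mem_singleton_self k))
      simpa [hcol] using this
  have hsum : ∑ j : Fin n, (col j).card.choose 2 ≤ m.choose 2 := by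
    calc ∑ j : Fin n, (col j).card.choose 2
        = ∑ j : Fin n, (Finset.powersetCard 2 (col j)).card := by
          refine Finset.sum_congr rfl ?_
          intro j _
          rw [Finset.card_powersetCard]
      _ = (Finset.univ.biUnion (fun j => Finset.powersetCard 2 (col j))).card := by
          rw [Finset.card_biUnion hdisj]
      _ ≤ (Finset.powersetCard 2 (Finset.univ : Finset (Fin m))).card := by
          refine Finset.card_le_card ?_
          intro s hs
          rw [Finset.mem_biUnion] at hs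
          obtain ⟨j, -, hs⟩ := hs
          rw [Finset.mem_powersetCard] at hs ⊢
          exact ⟨Finset.subset_univ _, hs.2⟩
      _ = m.choose 2 := by rw [Finset.card_powersetCard, Finset.card_univ, Fintype.card_fin]
  have hle : ∀ d : ℕ, d ≤ 1 + d.choose 2 := by
    intro d
    induction d with
    | zero => simp
    | succ d ih =>
      rw [Nat.choose_succ_succ' d 1, Nat.choose_one_right]
      rcases Nat.eq_zero_or_pos d with rfl | hd
      · simp
      · omega
  calc E.card = ∑ j : Fin n, (col j).card := hcard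
    _ ≤ ∑ j : Fin n, (1 + (col j).card.choose 2) := Finset.sum_le_sum fun j _ => hle _
    _ = n + ∑ j : Fin n, (col j).card.choose 2 := by
      rw [Finset.sum_add_distrib]
      simp
    _ ≤ n + m.choose 2 := by omega

/-- The extremal set of cells for `n ≥ C(m, 2)`: every pair of rows has its own column, all other
columns have one cell in row `0`. -/
noncomputable def extE (m n : ℕ) : Finset (Cell m n) :=
  open Classical in
  Finset.univ.filter (fun c => (∃ h : c.2.val < m.choose 2,
    c.1 ∈ ((Fintype.equivFinOfCardEq (card_pairs m)).symm ⟨c.2.val, h⟩).val) ∨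
    (m.choose 2 ≤ c.2.val ∧ c.1.val = 0))

theorem mem_extE {m n : ℕ} {i : Fin m} {j : Fin n} : (i, j) ∈ extE m n ↔
    (∃ h : j.val < m.choose 2,
    i ∈ ((Fintype.equivFinOfCardEq (card_pairs m)).symm ⟨j.val, h⟩).val) ∨
    (m.choose 2 ≤ j.val ∧ i.val = 0) := by
  classical
  simp [extE]

theorem extE_not_hasRect (m n : ℕ) : ¬ HasRect (extE m n) := by
  rintro ⟨i, k, j, l, hik, hjl, h1, h2, h3, h4⟩
  rw [mem_extE] at h1 h2 h3 h4
  rcases h1 with ⟨hj, h1⟩ | ⟨hj, h1⟩
  · rcases h3 with ⟨hj', h3⟩ | ⟨hj', h3⟩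
    · rcases h2 with ⟨hl, h2⟩ | ⟨hl, h2⟩
      · rcases h4 with ⟨hl', h4⟩ | ⟨hl', h4⟩
        · have key : ∀ s : Pairs m, i ∈ s.val → k ∈ s.val → s.val = {i, k} := by
            intro s hi hk
            symm
            refine Finset.eq_of_subset_of_card_le ?_ ?_
            · intro x hx
              rw [Finset.mem_insert, Finset.mem_singleton] at hx
              rcases hx with rfl | rfl
              · exact hi
              · exact hk
            · rw [s.2, Finset.card_pair hik]
          have h5 := key _ h1 h3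
          have h6 := key _ h2 h4
          have h7 := Subtype.ext (h5.trans h6.symm)
          have h8 := (Fintype.equivFinOfCardEq (card_pairs m)).symm.injective h7
          rw [Fin.mk.injEq] at h8
          exact hjl (Fin.ext h8)
        · omega
      · rcases h4 with ⟨hl', h4⟩ | ⟨hl', h4⟩
        · omega
        · exact hik (Fin.ext (by omega))
    · omega
  · rcases h3 with ⟨hj', h3⟩ | ⟨hj', h3⟩
    · omega
    · exact hik (Fin.ext (by omega))

theorem extE_card {m n : ℕ} (hm : 0 < m) (hn : m.choose 2 ≤ n) :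
    (extE m n).card = n + m.choose 2 := by
  classical
  have hcard : (extE m n).card = ∑ j : Fin n, if j.val < m.choose 2 then 2 else 1 := by
    rw [Finset.card_eq_sum_card_fiberwise (f := Prod.snd) (t := Finset.univ) (by simp)]
    refine Finset.sum_congr rfl ?_
    intro j _
    split_ifs with hj
    · rw [← ((Fintype.equivFinOfCardEq (card_pairs m)).symm ⟨j.val, hj⟩).2]
      refine Finset.card_bij (fun c _ => c.1) ?_ ?_ ?_
      · rintro ⟨i, j'⟩ hc
        rw [Finset.mem_filter] at hc
        obtain ⟨hc1, rfl⟩ := hc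
        rw [mem_extE] at hc1
        rcases hc1 with ⟨_, hc1⟩ | ⟨hc1, _⟩
        · exact hc1
        · exact absurd hj (by simpa using hc1)
      · rintro ⟨i, j'⟩ hc ⟨i', j''⟩ hc' h
        simp only [Finset.mem_filter] at hc hc'
        simp only at h
        rw [Prod.mk.injEq]
        exact ⟨h, hc.2.trans hc'.2.symm⟩
      · intro i hi
        refine ⟨(i, j), ?_, rfl⟩
        rw [Finset.mem_filter]
        exact ⟨mem_extE.2 (Or.inl ⟨hj, hi⟩), rfl⟩
    · rw [Finset.card_eq_one]
      refine ⟨(⟨0, hm⟩, j), ?_⟩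
      ext ⟨i, j'⟩
      rw [Finset.mem_filter, Finset.mem_singleton, mem_extE, Prod.mk.injEq]
      constructor
      · rintro ⟨⟨h1, _⟩ | ⟨h1, h2⟩, rfl⟩
        · exact absurd h1 hj
        · exact ⟨Fin.ext h2, rfl⟩
      · rintro ⟨rfl, rfl⟩
        exact ⟨Or.inr ⟨by omega, rfl⟩, rfl⟩
  rw [hcard, Fin.sum_univ_eq_sum_range (fun j => if j < m.choose 2 then 2 else 1) n]
  have h2 : ∀ j : ℕ, (if j < m.choose 2 then 2 else 1) = 1 + (if j < m.choose 2 then 1 else 0) := by
    intro j
    split_ifs <;> rfl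
  simp_rw [h2]
  rw [Finset.sum_add_distrib, Finset.sum_const, Finset.card_range, smul_eq_mul, mul_one,
    ← Finset.card_filter]
  congr 1
  have h3 : (Finset.range n).filter (fun j => j < m.choose 2) = Finset.range (m.choose 2) := by
    ext j
    simp only [Finset.mem_filter, Finset.mem_range]
    omega
  rw [h3, Finset.card_range]

/-- `z(m, n) = n + C(m, 2)` for `n ≥ C(m, 2)`. -/
theorem z_eq {m n : ℕ} (hm : 0 < m) (hn : m.choose 2 ≤ n) : z m n = n + m.choose 2 := by
  unfold z
  refine le_antisymm ?_ ?_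
  · refine csSup_le ⟨_, extE m n, extE_not_hasRect m n, rfl⟩ ?_
    rintro _ ⟨E, hE, rfl⟩
    exact card_le_of_not_hasRect E hE
  · refine le_csSup ⟨n + m.choose 2, ?_⟩ ⟨extE m n, extE_not_hasRect m n, extE_card hm hn⟩
    rintro _ ⟨E, hE, rfl⟩
    exact card_le_of_not_hasRect E hE

/-- The lower bound for `z_{3L}(m, n)` when `n ≥ C(m, 2)`. -/
theorem z3L_ge {m n : ℕ} (hm : 0 < m) (hn : m.choose 2 ≤ n) :
    z m n + ((m - 1) / 2) * ((n - m.choose 2) / 2) ≤ z3L m n := by
  have hm' : 1 + 2 * ((m - 1) / 2) ≤ m := by omega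
  have hn' : m.choose 2 + 2 * ((n - m.choose 2) / 2) ≤ n := by omega
  set B := stdBlocks m n ((m - 1) / 2) ((n - m.choose 2) / 2) 1 (m.choose 2) hm' hn' with hB
  have hcard : (extE m n).card = z m n := by rw [extE_card hm hn, z_eq hm hn]
  refine le_z3L (B.graph (extE m n)) (B.graph_simple _ ?_) (B.graph_cycleFree _
    (extE_not_hasRect m n) ?_) hcard ?_
  · rintro ⟨i, j⟩ hc hcov
    rw [hB, stdBlocks_cov] at hcov
    rw [mem_extE] at hc
    simp only at hcov
    rcases hc with ⟨hc, -⟩ | ⟨hc, hc2⟩ <;> omega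
  · intro a a' b b' k l e1 e2 e3 e4 e5
    rw [hB, stdBlocks_cov, mem_extE] at e1 e2 e3 e4 e5
    simp only [stdBlocks] at e1 e2 e3 e4 e5
    have hb := b.isLt
    have hb' := b'.isLt
    have ha := a.isLt
    have ha' := a'.isLt
    have hk : k.val = 0 := by
      rcases e1 with (⟨h, -⟩ | ⟨-, h⟩) | e1
      · omega
      · exact h
      · rcases e3 with (⟨h, -⟩ | ⟨-, h⟩) | e3
        · omega
        · exact h
        · omega
    rcases lt_or_ge l.val (m.choose 2) with hl | hl
    · -- three cells in a dedicated column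
      have f2 : ∃ h : l.val < m.choose 2,
          k ∈ ((Fintype.equivFinOfCardEq (card_pairs m)).symm ⟨l.val, h⟩).val := by
        rcases e2 with (h | ⟨h, -⟩) | h
        · exact h
        · omega
        · omega
      have f4 : ∃ h : l.val < m.choose 2, (⟨1 + a.val, by omega⟩ : Fin m) ∈
          ((Fintype.equivFinOfCardEq (card_pairs m)).symm ⟨l.val, h⟩).val := by
        rcases e4 with (h | ⟨h, -⟩) | h
        · exact h
        · omega
        · omega
      have f5 : ∃ h : l.val < m.choose 2, (⟨1 + (m - 1) / 2 + a'.val, by omega⟩ : Fin m) ∈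
          ((Fintype.equivFinOfCardEq (card_pairs m)).symm ⟨l.val, h⟩).val := by
        rcases e5 with (h | ⟨h, -⟩) | h
        · exact h
        · omega
        · omega
      obtain ⟨_, f2⟩ := f2
      obtain ⟨_, f4⟩ := f4
      obtain ⟨_, f5⟩ := f5
      have hthree : ({k, ⟨1 + a.val, by omega⟩, ⟨1 + (m - 1) / 2 + a'.val, by omega⟩} :
          Finset (Fin m)) ⊆
          ((Fintype.equivFinOfCardEq (card_pairs m)).symm ⟨l.val, hl⟩).val := by
        intro x hx
        simp only [Finset.mem_insert, Finset.mem_singleton] at hx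
        rcases hx with rfl | rfl | rfl
        · exact f2
        · exact f4
        · exact f5
      have h7 := Finset.card_le_card hthree
      rw [((Fintype.equivFinOfCardEq (card_pairs m)).symm ⟨l.val, hl⟩).2,
        Finset.card_eq_three.2 ⟨k, ⟨1 + a.val, by omega⟩, ⟨1 + (m - 1) / 2 + a'.val, by omega⟩,
          ?_, ?_, ?_, rfl⟩] at h7
      · omega
      · intro h
        rw [h] at hk
        simp only at hk
        omega
      · intro h
        rw [h] at hk
        simp only at hk
        omega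
      · intro h
        rw [Fin.mk.injEq] at h
        omega
    · rcases e4 with (⟨h, -⟩ | ⟨-, h⟩) | e4
      · omega
      · omega
      · rcases e5 with (⟨h, -⟩ | ⟨-, h⟩) | e5
        · omega
        · omega
        · omega
  · rw [B.graph_size, hcard]

end Pool.Agent.V11147.AugZ
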