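import Mathlib

open Finset

namespace Pool.Agent.V11147.Bc

/-- layer cake formula -/
theorem lc {C : Type*} [Fintype C] (c : C → ℕ) (M : ℕ) (hc : ∀ x, c x ≤ M) :
    (∑ x, (c x : ℝ)) = ∑ s ∈ range M, (((univ.filter (fun x => s < c x)).card : ℕ) : ℝ) := by
  classical
  have : ∀ x, (c x : ℝ) = ∑ s ∈ range M, (if s < c x then (1 : ℝ) else 0) := by
    intro x
    rw [Finset.sum_ite, Finset.sum_const_zero, add_zero, Finset.sum_const, nsmul_eq_mul, mul_one]
    congr 1
    have : (range M).filter (fun s => s < c x) = range (c x) := by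
      ext s
      simp only [mem_filter, mem_range]
      constructor
      · exact fun h => h.2
      · exact fun h => ⟨lt_of_lt_of_le h (hc x), h⟩
    rw [this, card_range]
  rw [Finset.sum_congr rfl (fun x _ => this x), Finset.sum_comm]
  refine Finset.sum_congr rfl (fun s _ => ?_)
  rw [Finset.sum_ite, Finset.sum_const_zero, add_zero, Finset.sum_const, nsmul_eq_mul, mul_one]

/-- layer-cake inequality for a relation without large rectangles -/
theorem layer {A B : Type*} [Fintype A] [Fintype B] (R0 : A → B → Prop)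
    (a : A → ℕ) (b : B → ℕ) (S : ℕ) (haS : ∀ x, a x ≤ S) (P Q T KA KB : ℝ)
    (hP0 : 0 ≤ P) (hQ0 : 0 ≤ Q) (hT0 : 0 ≤ T)
    (hKA : (Fintype.card A : ℝ) ≤ KA) (hKB : (Fintype.card B : ℝ) ≤ KB)
    (hP : ∀ x y, ¬ R0 x y → (a x : ℝ) * (b y : ℝ) ≤ P)
    (hQ : ∀ x y, (a x : ℝ) * (b y : ℝ) ≤ Q)
    (hT : ∀ (U : Finset A) (V : Finset B), (∀ x ∈ U, ∀ y ∈ V, R0 x y) →
      ((U.card : ℝ) * (V.card : ℝ)) ≤ T) :
    ((∑ x, (a x : ℝ)) * (∑ y, (b y : ℝ))) ≤ T * Q + KA * KB * (P * (1 + Real.log S)) := by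
  classical
  have hKA0 : 0 ≤ KA := le_trans (Nat.cast_nonneg _) hKA
  have hKB0 : 0 ≤ KB := le_trans (Nat.cast_nonneg _) hKB
  have hlogS : 0 ≤ Real.log (S : ℝ) := Real.log_natCast_nonneg S
  have hR0 : 0 ≤ KA * KB * (P * (1 + Real.log S)) := by positivity
  rcases isEmpty_or_nonempty A with hA | hA
  · simp only [univ_eq_empty, sum_empty, zero_mul]
    positivity
  rcases isEmpty_or_nonempty B with hB | hB
  · simp only [univ_eq_empty, sum_empty, mul_zero]
    positivity
  obtain ⟨x0, -, hx0⟩ := Finset.exists_mem_eq_sup (univ : Finset A) univ_nonempty a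
  obtain ⟨y0, -, hy0⟩ := Finset.exists_mem_eq_sup (univ : Finset B) univ_nonempty b
  set am := (univ : Finset A).sup a with ham
  set bm := (univ : Finset B).sup b with hbm
  have ha : ∀ x, a x ≤ am := fun x => Finset.le_sup (mem_univ x)
  have hb : ∀ y, b y ≤ bm := fun y => Finset.le_sup (mem_univ y)
  have hm : (am : ℝ) * bm ≤ Q := by rw [hx0, hy0]; exact hQ x0 y0
  have hamS : am ≤ S := by rw [hx0]; exact haS x0
  rw [lc a am ha, lc b bm hb, Finset.sum_mul_sum]
  have key : ∀ s ∈ range am, ∀ t ∈ range bm,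
      (((univ.filter (fun x => s < a x)).card : ℕ) : ℝ) *
        (((univ.filter (fun y => t < b y)).card : ℕ) : ℝ) ≤
      T + (if ((s : ℝ) + 1) * ((t : ℝ) + 1) ≤ P then KA * KB else 0) := by
    intro s _ t _
    by_cases hst : ((s : ℝ) + 1) * ((t : ℝ) + 1) ≤ P
    · rw [if_pos hst]
      have h1 : (((univ.filter (fun x => s < a x)).card : ℕ) : ℝ) ≤ KA :=
        le_trans (by exact_mod_cast Finset.card_le_univ _) hKA
      have h2 : (((univ.filter (fun y => t < b y)).card : ℕ) : ℝ) ≤ KB :=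
        le_trans (by exact_mod_cast Finset.card_le_univ _) hKB
      have := mul_le_mul h1 h2 (Nat.cast_nonneg _) hKA0
      linarith
    · rw [if_neg hst, add_zero]
      refine hT _ _ ?_
      intro x hx y hy
      by_contra hR
      have h1 := hP x y hR
      have hx' := (mem_filter.1 hx).2
      have hy' := (mem_filter.1 hy).2
      have h2 : ((s : ℝ) + 1) ≤ a x := by exact_mod_cast hx'
      have h3 : ((t : ℝ) + 1) ≤ b y := by exact_mod_cast hy'
      exact hst (le_trans (mul_le_mul h2 h3 (by positivity) (by positivity)) h1)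
  have h1 : (∑ s ∈ range am, ∑ t ∈ range bm,
      (((univ.filter (fun x => s < a x)).card : ℕ) : ℝ) *
        (((univ.filter (fun y => t < b y)).card : ℕ) : ℝ)) ≤
      ∑ s ∈ range am, ∑ t ∈ range bm,
        (T + (if ((s : ℝ) + 1) * ((t : ℝ) + 1) ≤ P then KA * KB else 0)) :=
    Finset.sum_le_sum (fun s hs => Finset.sum_le_sum (fun t ht => key s hs t ht))
  refine le_trans h1 ?_
  have h2 : ∀ s ∈ range am, (∑ t ∈ range bm,
        (T + (if ((s : ℝ) + 1) * ((t : ℝ) + 1) ≤ P then KA * KB else 0))) ≤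
        bm * T + KA * KB * (P * ((s : ℝ) + 1)⁻¹) := by
    intro s _
    rw [Finset.sum_add_distrib, Finset.sum_const, card_range, nsmul_eq_mul]
    have : (∑ t ∈ range bm, (if ((s : ℝ) + 1) * ((t : ℝ) + 1) ≤ P then KA * KB else 0)) ≤
        KA * KB * (P * ((s : ℝ) + 1)⁻¹) := by
      rw [Finset.sum_ite, Finset.sum_const_zero, add_zero, Finset.sum_const, nsmul_eq_mul, mul_comm]
      refine mul_le_mul_of_nonneg_left ?_ (by positivity)
      have hsub : (range bm).filter (fun t : ℕ => ((s : ℝ) + 1) * ((t : ℝ) + 1) ≤ P) ⊆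
          range ⌊P * ((s : ℝ) + 1)⁻¹⌋₊ := by
        intro t ht
        have ht' := (mem_filter.1 ht).2
        rw [mem_range]
        have : ((t + 1 : ℕ) : ℝ) ≤ P * ((s : ℝ) + 1)⁻¹ := by
          rw [← div_eq_mul_inv, le_div_iff₀ (by positivity)]
          push_cast
          linarith [mul_comm ((s : ℝ) + 1) ((t : ℝ) + 1)]
        exact Nat.le_floor this
      calc (((range bm).filter (fun t : ℕ => ((s : ℝ) + 1) * ((t : ℝ) + 1) ≤ P)).card : ℝ)
          ≤ ((range ⌊P * ((s : ℝ) + 1)⁻¹⌋₊).card : ℝ) := by exact_mod_cast Finset.card_le_card hsub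
        _ = (⌊P * ((s : ℝ) + 1)⁻¹⌋₊ : ℝ) := by rw [card_range]
        _ ≤ P * ((s : ℝ) + 1)⁻¹ := Nat.floor_le (by positivity)
    linarith
  refine le_trans (Finset.sum_le_sum h2) ?_
  rw [Finset.sum_add_distrib, Finset.sum_const, card_range, nsmul_eq_mul, ← Finset.mul_sum,
    ← Finset.mul_sum]
  have h3 : (am : ℝ) * (bm * T) ≤ T * Q := by
    have := mul_le_mul_of_nonneg_left hm hT0
    nlinarith
  have h4 : (∑ s ∈ range am, ((s : ℝ) + 1)⁻¹) ≤ 1 + Real.log S := by
    have h5 := harmonic_le_one_add_log am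
    have h6 : ((harmonic am : ℚ) : ℝ) = ∑ s ∈ range am, ((s : ℝ) + 1)⁻¹ := by
      rw [harmonic]
      push_cast
      rfl
    rw [h6] at h5
    refine le_trans h5 ?_
    rcases Nat.eq_zero_or_pos am with h | h
    · rw [h]
      simp only [Nat.cast_zero, Real.log_zero, add_zero]
      linarith
    · have : Real.log (am : ℝ) ≤ Real.log (S : ℝ) :=
        Real.log_le_log (by exact_mod_cast h) (by exact_mod_cast hamS)
      linarith
  have h7 : KA * KB * (P * ∑ s ∈ range am, ((s : ℝ) + 1)⁻¹) ≤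
      KA * KB * (P * (1 + Real.log S)) :=
    mul_le_mul_of_nonneg_left (mul_le_mul_of_nonneg_left h4 hP0) (by positivity)
  linarith

/-- the induction predicate: rectangles are bounded by `M` times the best `R`-free rectangle -/
def Good {α β : Type*} (R : α → β → Prop) (M : ℝ) : Prop :=
  ∀ h : ℝ, 1 ≤ h → ∀ (X : Finset α) (Y : Finset β),
    (∀ X' ⊆ X, ∀ Y' ⊆ Y, (∀ x ∈ X', ∀ y ∈ Y', ¬ R x y) →
      (X'.card : ℝ) * Y'.card ≤ h * (X'.card + Y'.card)) →
    (X.card : ℝ) * Y.card ≤ M * h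

theorem step {A B A' B' : Type*} [Fintype A] [Fintype B] [Fintype A'] [Fintype B']
    (R0 : A → B → Prop) (R' : A' → B' → Prop) (M' T K : ℝ) (N' : ℕ)
    (hM' : 0 ≤ M') (hT0 : 0 ≤ T)
    (hKA : (Fintype.card A : ℝ) ≤ K) (hKB : (Fintype.card B : ℝ) ≤ K)
    (hA' : Fintype.card A' ≤ N') (hB' : Fintype.card B' ≤ N')
    (hT : ∀ (U : Finset A) (V : Finset B), (∀ x ∈ U, ∀ y ∈ V, R0 x y) →
      ((U.card : ℝ) * (V.card : ℝ)) ≤ T)
    (hG : Good R' M') :
    Good (fun (x : A × A') (y : B × B') => R0 x.1 y.1 ∧ R' x.2 y.2)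
      (T * M' + K * K * (2 * N' * (1 + Real.log N'))) := by
  classical
  intro h h1 X Y hfree
  have hK0 : 0 ≤ K := le_trans (Nat.cast_nonneg _) hKA
  set FX : A → Finset (A × A') := fun α => X.filter (fun x => x.1 = α) with hFX
  set FY : B → Finset (B × B') := fun β => Y.filter (fun y => y.1 = β) with hFY
  have hXs : (X.card : ℝ) = ∑ α, ((FX α).card : ℝ) := by
    have := Finset.card_eq_sum_card_fiberwise (f := fun x : A × A' => x.1) (s := X)
      (t := univ) (fun x _ => mem_univ _)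
    rw [this]; push_cast; rfl
  have hYs : (Y.card : ℝ) = ∑ β, ((FY β).card : ℝ) := by
    have := Finset.card_eq_sum_card_fiberwise (f := fun x : B × B' => x.1) (s := Y)
      (t := univ) (fun x _ => mem_univ _)
    rw [this]; push_cast; rfl
  -- fibres as subsets of A'
  have hXi : ∀ α, ((FX α).image Prod.snd).card = (FX α).card := by
    intro α
    refine Finset.card_image_of_injOn ?_
    intro p hp q hq hpq
    have hp' := (mem_filter.1 (mem_coe.1 hp)).2
    have hq' := (mem_filter.1 (mem_coe.1 hq)).2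
    exact Prod.ext (hp'.trans hq'.symm) hpq
  have hYi : ∀ β, ((FY β).image Prod.snd).card = (FY β).card := by
    intro α
    refine Finset.card_image_of_injOn ?_
    intro p hp q hq hpq
    have hp' := (mem_filter.1 (mem_coe.1 hp)).2
    have hq' := (mem_filter.1 (mem_coe.1 hq)).2
    exact Prod.ext (hp'.trans hq'.symm) hpq
  have hXN : ∀ α, (FX α).card ≤ N' := fun α => by
    rw [← hXi α]; exact le_trans (Finset.card_le_univ _) hA'
  have hYN : ∀ β, (FY β).card ≤ N' := fun β => by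
    rw [← hYi β]; exact le_trans (Finset.card_le_univ _) hB'
  have hP : ∀ α β, ¬ R0 α β → ((FX α).card : ℝ) * (FY β).card ≤ 2 * N' * h := by
    intro α β hR
    have := hfree (FX α) (filter_subset _ _) (FY β) (filter_subset _ _) (by
      intro x hx y hy hxy
      have hx' := (mem_filter.1 hx).2
      have hy' := (mem_filter.1 hy).2
      rw [hx', hy'] at hxy
      exact hR hxy.1)
    have h2 : ((FX α).card : ℝ) ≤ N' := by exact_mod_cast hXN α
    have h3 : ((FY β).card : ℝ) ≤ N' := by exact_mod_cast hYN β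
    have h4 : h * (((FX α).card : ℝ) + (FY β).card) ≤ h * (2 * N') :=
      mul_le_mul_of_nonneg_left (by linarith) (by linarith)
    linarith
  have hQ : ∀ α β, ((FX α).card : ℝ) * (FY β).card ≤ M' * h := by
    intro α β
    rw [← hXi α, ← hYi β]
    refine hG h h1 _ _ ?_
    intro X' hX' Y' hY' hf
    have := hfree (X'.image (fun x => (α, x))) ?_ (Y'.image (fun y => (β, y))) ?_ ?_
    · rw [Finset.card_image_of_injective _ (fun p q hpq => (Prod.mk.inj hpq).2),
        Finset.card_image_of_injective _ (fun p q hpq => (Prod.mk.inj hpq).2)] at this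
      exact this
    · intro p hp
      obtain ⟨x, hx, rfl⟩ := mem_image.1 hp
      obtain ⟨q, hq, hq2⟩ := mem_image.1 (hX' hx)
      have hq' := mem_filter.1 hq
      have : q = (α, x) := Prod.ext hq'.2 hq2
      rw [← this]; exact hq'.1
    · intro p hp
      obtain ⟨x, hx, rfl⟩ := mem_image.1 hp
      obtain ⟨q, hq, hq2⟩ := mem_image.1 (hY' hx)
      have hq' := mem_filter.1 hq
      have : q = (β, x) := Prod.ext hq'.2 hq2
      rw [← this]; exact hq'.1
    · intro p hp q hq hR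
      obtain ⟨x, hx, rfl⟩ := mem_image.1 hp
      obtain ⟨y, hy, rfl⟩ := mem_image.1 hq
      exact hf x hx y hy hR.2
  have hh0 : 0 ≤ h := by linarith
  have := layer R0 (fun α => (FX α).card) (fun β => (FY β).card) N' hXN
    (2 * N' * h) (M' * h) T K K (by positivity) (by positivity) hT0 hKA hKB hP hQ hT
  rw [hXs, hYs]
  refine le_trans this (le_of_eq ?_)
  ring

/-! ### Sylvester matrix -/

/-- one entry of the two by two Hadamard matrix -/
def sg (a b : Bool) : ℤ := if a && b then -1 else 1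

/-- the Sylvester sign -/
def chi {m : ℕ} (a b : Fin m → Bool) : ℤ := ∏ i, sg (a i) (b i)

theorem chi_sq {m : ℕ} (a b : Fin m → Bool) : chi a b = 1 ∨ chi a b = -1 := by
  have : ∀ s : Finset (Fin m), (∏ i ∈ s, sg (a i) (b i)) = 1 ∨ (∏ i ∈ s, sg (a i) (b i)) = -1 := by
    intro s
    classical
    induction s using Finset.induction_on with
    | empty => left; simp
    | insert i s hi ih =>
      rw [Finset.prod_insert hi]
      have h1 : sg (a i) (b i) = 1 ∨ sg (a i) (b i) = -1 := by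
        unfold sg; split_ifs <;> simp
      rcases h1 with h1 | h1 <;> rcases ih with h2 | h2 <;> rw [h1, h2] <;> simp
  exact this univ

theorem chi_orth {m : ℕ} (b b' : Fin m → Bool) :
    (∑ a : Fin m → Bool, chi a b * chi a b') = if b = b' then (2 : ℤ) ^ m else 0 := by
  classical
  have h1 : (∑ a : Fin m → Bool, chi a b * chi a b') =
      ∏ i, ∑ c : Bool, sg c (b i) * sg c (b' i) := by
    rw [Finset.prod_univ_sum]
    rw [Fintype.piFinset_univ]
    refine Finset.sum_congr rfl (fun a _ => ?_)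
    unfold chi
    rw [← Finset.prod_mul_distrib]
  have h2 : ∀ c c' : Bool, (∑ x : Bool, sg x c * sg x c') = if c = c' then 2 else 0 := by decide
  rw [h1, Finset.prod_congr rfl (fun i _ => h2 (b i) (b' i))]
  split_ifs with h
  · subst h
    simp
  · obtain ⟨i, hi⟩ := Function.ne_iff.1 h
    exact Finset.prod_eq_zero (mem_univ i) (if_neg hi)

/-- the base relation -/
def R0 {m : ℕ} (a b : Fin m → Bool) : Prop := chi a b = -1

theorem R0_rect {m : ℕ} (U V : Finset (Fin m → Bool)) (h : ∀ x ∈ U, ∀ y ∈ V, R0 x y) :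
    ((U.card : ℝ) * (V.card : ℝ)) ≤ (2 : ℝ) ^ m := by
  classical
  have h1 : (∑ a ∈ U, ∑ b ∈ V, chi a b) = -((U.card : ℤ) * V.card) := by
    rw [Finset.sum_congr rfl (fun a ha => Finset.sum_congr rfl (fun b hb => h a ha b hb))]
    simp
  have h2 : (∑ a ∈ U, ∑ b ∈ V, chi a b) ^ 2 ≤ (U.card : ℤ) * ∑ a ∈ U, (∑ b ∈ V, chi a b) ^ 2 :=
    sq_sum_le_card_mul_sum_sq
  have h3 : (∑ a ∈ U, (∑ b ∈ V, chi a b) ^ 2) ≤ ∑ a : Fin m → Bool, (∑ b ∈ V, chi a b) ^ 2 :=
    Finset.sum_le_sum_of_subset_of_nonneg (subset_univ _) (fun i _ _ => sq_nonneg _)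
  have h4 : (∑ a : Fin m → Bool, (∑ b ∈ V, chi a b) ^ 2) = (V.card : ℤ) * 2 ^ m := by
    have : ∀ a : Fin m → Bool, (∑ b ∈ V, chi a b) ^ 2 = ∑ b ∈ V, ∑ b' ∈ V, chi a b * chi a b' := by
      intro a
      rw [sq, Finset.sum_mul_sum]
    rw [Finset.sum_congr rfl (fun a _ => this a), Finset.sum_comm]
    rw [Finset.sum_congr rfl (fun b _ => Finset.sum_comm)]
    rw [Finset.sum_congr rfl (fun b _ => Finset.sum_congr rfl (fun b' _ => chi_orth b b'))]
    have h5 : ∀ b ∈ V, (∑ b' ∈ V, if b = b' then (2 : ℤ) ^ m else 0) = 2 ^ m := by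
      intro b hb
      rw [Finset.sum_ite_eq, if_pos hb]
    rw [Finset.sum_congr rfl h5, Finset.sum_const, nsmul_eq_mul]
  rw [h1] at h2
  have h6 : ((U.card : ℤ) * V.card) * ((U.card : ℤ) * V.card) ≤
      ((U.card : ℤ) * V.card) * 2 ^ m := by
    have h7 : (U.card : ℤ) * ∑ a ∈ U, (∑ b ∈ V, chi a b) ^ 2 ≤
        (U.card : ℤ) * ((V.card : ℤ) * 2 ^ m) := by
      rw [← h4]
      exact mul_le_mul_of_nonneg_left h3 (by positivity)
    nlinarith
  have h8 : ((U.card : ℤ) * V.card) ≤ 2 ^ m := by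
    rcases eq_or_lt_of_le (show (0 : ℤ) ≤ (U.card : ℤ) * V.card by positivity) with h9 | h9
    · rw [← h9]; positivity
    · exact le_of_mul_le_mul_left h6 h9
  exact_mod_cast h8

theorem chi_zero_right {m : ℕ} (a : Fin m → Bool) : chi a (fun _ => false) = 1 := by
  unfold chi sg
  simp

theorem chi_zero_left {m : ℕ} (a : Fin m → Bool) : chi (fun _ => false) a = 1 := by
  unfold chi sg
  simp

theorem R0_card {m : ℕ} (hm : 1 ≤ m) :
    (2 : ℕ) ^ (2 * m) ≤ 4 * Nat.card {p : (Fin m → Bool) × (Fin m → Bool) // R0 p.1 p.2} := by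
  classical
  rw [Nat.card_eq_fintype_card, Fintype.card_subtype]
  have h1 : (∑ p : (Fin m → Bool) × (Fin m → Bool), chi p.1 p.2) = (2 : ℤ) ^ m := by
    rw [Fintype.sum_prod_type_right]
    have : ∀ b : Fin m → Bool, (∑ a : Fin m → Bool, chi a b) =
        if b = (fun _ => false) then (2 : ℤ) ^ m else 0 := by
      intro b
      rw [← chi_orth b (fun _ => false)]
      refine Finset.sum_congr rfl (fun a _ => ?_)
      rw [chi_zero_right, mul_one]
    simp only
    rw [Finset.sum_congr rfl (fun b _ => this b), Finset.sum_ite_eq', if_pos (mem_univ _)]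
  have h2 : ∀ p : (Fin m → Bool) × (Fin m → Bool), chi p.1 p.2 =
      1 - 2 * (if R0 p.1 p.2 then (1 : ℤ) else 0) := by
    intro p
    unfold R0
    rcases chi_sq p.1 p.2 with h | h <;> rw [h] <;> simp
  rw [Finset.sum_congr rfl (fun p _ => h2 p), Finset.sum_sub_distrib, Finset.sum_const,
    ← Finset.mul_sum, Finset.sum_boole] at h1
  rw [Finset.card_univ, Fintype.card_prod, Fintype.card_fun, Fintype.card_bool, Fintype.card_fin]
    at h1
  simp only [nsmul_eq_mul, mul_one] at h1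
  push_cast at h1
  have h3 : (2 : ℤ) ^ (2 * m) = 2 ^ m * 2 ^ m := by rw [two_mul, pow_add]
  have h4 : (2 : ℤ) ^ m ≥ 2 := by
    calc (2 : ℤ) ^ m ≥ 2 ^ 1 := pow_le_pow_right₀ (by norm_num) hm
      _ = 2 := by norm_num
  have h5 : (2 : ℤ) ^ (2 * m) ≤
      4 * ((univ.filter (fun p : (Fin m → Bool) × (Fin m → Bool) => R0 p.1 p.2)).card : ℤ) := by
    rw [h3]
    nlinarith
  exact_mod_cast h5

end Pool.Agent.V11147.Bc
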