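import Mathlib
import Pool.Agent.V11147.BcA

open Finset

namespace Pool.Agent.V11147.Bc

theorem Good.mono {α β : Type*} {R : α → β → Prop} {M M' : ℝ} (h : Good R M) (hM : M ≤ M') :
    Good R M' := by
  intro t ht X Y hf
  exact le_trans (h t ht X Y hf) (mul_le_mul_of_nonneg_right hM (by linarith))

/-- the bound after `J` steps -/
noncomputable def Mb (m J : ℕ) : ℝ := 2 ^ (m * J) * (1 + 2 * 2 ^ m * J * (1 + m * J))

theorem Mb_nonneg (m J : ℕ) : 0 ≤ Mb m J := by
  unfold Mb; positivity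

theorem tensor (m : ℕ) (hm : 1 ≤ m) (J : ℕ) :
    ∃ (α β : Type) (_ : Fintype α) (_ : Fintype β) (R : α → β → Prop),
      Fintype.card α = 2 ^ (m * J) ∧ Fintype.card β = 2 ^ (m * J) ∧
      2 ^ (2 * m * J) ≤ 4 ^ J * Nat.card {p : α × β // R p.1 p.2} ∧
      Good R (Mb m J) ∧
      (J ≠ 0 → (∃ y0, ∀ x, ¬ R x y0) ∧ (∃ x0, ∀ y, ¬ R x0 y)) := by
  classical
  induction J with
  | zero =>
    refine ⟨Unit, Unit, inferInstance, inferInstance, fun _ _ => True, by simp, by simp, ?_, ?_, ?_⟩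
    · simp
    · intro h h1 X Y _
      have h2 : (X.card : ℝ) ≤ 1 := by
        have := Finset.card_le_univ X
        simp only [Fintype.card_unit] at this
        exact_mod_cast this
      have h3 : (Y.card : ℝ) ≤ 1 := by
        have := Finset.card_le_univ Y
        simp only [Fintype.card_unit] at this
        exact_mod_cast this
      have h4 : (X.card : ℝ) * Y.card ≤ 1 * 1 := mul_le_mul h2 h3 (by positivity) (by norm_num)
      have h5 : Mb m 0 = 1 := by unfold Mb; simp
      rw [h5]; linarith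
    · intro h; exact absurd rfl h
  | succ J ih =>
    obtain ⟨α, β, iα, iβ, R, hα, hβ, hR, hG, -⟩ := ih
    refine ⟨(Fin m → Bool) × α, (Fin m → Bool) × β, inferInstance, inferInstance,
      fun x y => R0 x.1 y.1 ∧ R x.2 y.2, ?_, ?_, ?_, ?_, ?_⟩
    · rw [Fintype.card_prod, hα, Fintype.card_fun, Fintype.card_bool, Fintype.card_fin, ← pow_add]
      congr 1; ring
    · rw [Fintype.card_prod, hβ, Fintype.card_fun, Fintype.card_bool, Fintype.card_fin, ← pow_add]
      congr 1; ring
    · have h1 : Nat.card {p : ((Fin m → Bool) × α) × ((Fin m → Bool) × β) //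
          R0 p.1.1 p.2.1 ∧ R p.1.2 p.2.2} =
          Nat.card {p : (Fin m → Bool) × (Fin m → Bool) // R0 p.1 p.2} *
            Nat.card {p : α × β // R p.1 p.2} := by
        rw [← Nat.card_prod]
        refine Nat.card_congr
          { toFun := fun p => (⟨(p.1.1.1, p.1.2.1), p.2.1⟩, ⟨(p.1.1.2, p.1.2.2), p.2.2⟩)
            invFun := fun q => ⟨((q.1.1.1, q.2.1.1), (q.1.1.2, q.2.1.2)), q.1.2, q.2.2⟩
            left_inv := fun p => rfl
            right_inv := fun q => rfl }
      rw [h1]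
      have h2 := R0_card hm
      calc 2 ^ (2 * m * (J + 1)) = 2 ^ (2 * m) * 2 ^ (2 * m * J) := by
            rw [← pow_add]; congr 1; ring
        _ ≤ (4 * Nat.card {p : (Fin m → Bool) × (Fin m → Bool) // R0 p.1 p.2}) *
            (4 ^ J * Nat.card {p : α × β // R p.1 p.2}) := Nat.mul_le_mul h2 hR
        _ = _ := by ring
    · have h2m : ((2 ^ m : ℕ) : ℝ) = (2 : ℝ) ^ m := by push_cast; rfl
      have hst := step (R0 (m := m)) R (Mb m J) ((2 : ℝ) ^ m) ((2 : ℝ) ^ m) (2 ^ (m * J))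
        (Mb_nonneg m J) (by positivity)
        (by rw [Fintype.card_fun, Fintype.card_bool, Fintype.card_fin, h2m])
        (by rw [Fintype.card_fun, Fintype.card_bool, Fintype.card_fin, h2m])
        (le_of_eq hα) (le_of_eq hβ) R0_rect hG
      refine hst.mono ?_
      have hlog : Real.log ((2 ^ (m * J) : ℕ) : ℝ) ≤ m * J := by
        push_cast
        rw [Real.log_pow]
        have : Real.log 2 ≤ 1 := by
          have := Real.log_two_lt_d9
          linarith
        push_cast
        have h0 : (0 : ℝ) ≤ (m : ℝ) * J := by positivity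
        nlinarith
      unfold Mb
      have h3 : (2 : ℝ) ^ m * (2 : ℝ) ^ m * (2 * ((2 ^ (m * J) : ℕ) : ℝ) *
          (1 + Real.log ((2 ^ (m * J) : ℕ) : ℝ))) ≤
          (2 : ℝ) ^ m * (2 : ℝ) ^ m * (2 * (2 ^ (m * J)) * (1 + m * J)) := by
        refine mul_le_mul_of_nonneg_left ?_ (by positivity)
        push_cast at hlog ⊢
        refine mul_le_mul_of_nonneg_left ?_ (by positivity)
        linarith
      refine le_trans (add_le_add_right h3 _) ?_
      have h4 : (2 : ℝ) ^ (m * (J + 1)) = 2 ^ m * 2 ^ (m * J) := by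
        rw [← pow_add]; congr 1; ring
      rw [h4]
      push_cast
      have hp : (0 : ℝ) ≤ 2 ^ m * 2 ^ (m * J) := by positivity
      have h5 : (2 : ℝ) ^ m * (2 ^ (m * J) * (1 + 2 * 2 ^ m * J * (1 + m * J))) +
          2 ^ m * 2 ^ m * (2 * 2 ^ (m * J) * (1 + m * J)) =
          (2 ^ m * 2 ^ (m * J)) * (1 + 2 * 2 ^ m * (J + 1) * (1 + m * J)) := by ring
      rw [h5]
      refine mul_le_mul_of_nonneg_left ?_ hp
      have h6 : (2 : ℝ) * 2 ^ m * (J + 1) * (1 + m * J) ≤ 2 * 2 ^ m * (J + 1) * (1 + m * (J + 1)) := by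
        refine mul_le_mul_of_nonneg_left ?_ (by positivity)
        have : (0 : ℝ) ≤ m := by positivity
        nlinarith
      linarith
    · intro _
      refine ⟨?_, ?_⟩
      · have : Nonempty β := by
          rw [← Fintype.card_pos_iff, hβ]; positivity
        obtain ⟨b⟩ := this
        refine ⟨(fun _ => false, b), ?_⟩
        rintro x ⟨h, -⟩
        unfold R0 at h
        simp only at h
        rw [chi_zero_right] at h
        norm_num at h
      · have : Nonempty α := by
          rw [← Fintype.card_pos_iff, hα]; positivity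
        obtain ⟨b⟩ := this
        refine ⟨(fun _ => false, b), ?_⟩
        rintro x ⟨h, -⟩
        unfold R0 at h
        simp only at h
        rw [chi_zero_left] at h
        norm_num at h

/-- a random half of `R` -/
theorem half {α β : Type*} [Fintype α] [Fintype β] [DecidableEq α] [DecidableEq β]
    (R : Finset (α × β)) (N L : ℕ)
    (hN : 1 ≤ N) (hα : Fintype.card α ≤ N) (hβ : Fintype.card β ≤ N) (hL : 4 * N ≤ 2 ^ L) :
    ∃ R1 ⊆ R, R.card ≤ 2 * R1.card ∧ ∀ (X : Finset α) (Y : Finset β), X.Nonempty → Y.Nonempty →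
      R ∩ (X ×ˢ Y) ⊆ R1 → (R ∩ (X ×ˢ Y)).card ≤ (L + 1) * (X.card + Y.card) := by
  by_contra hcon
  push Not at hcon
  -- small sets
  set small := R.powerset.filter (fun S => 2 * S.card < R.card) with hsmall
  set PP : Finset (Finset α × Finset β) := univ.filter (fun p =>
    p.1.Nonempty ∧ p.2.Nonempty ∧ (L + 1) * (p.1.card + p.2.card) < (R ∩ (p.1 ×ˢ p.2)).card) with hPP
  set bad := PP.biUnion (fun p => Finset.Icc (R ∩ (p.1 ×ˢ p.2)) R) with hbad
  have hcover : R.powerset ⊆ small ∪ bad := by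
    intro S hS
    have hS' := mem_powerset.1 hS
    rw [mem_union]
    by_cases hs : 2 * S.card < R.card
    · left; exact mem_filter.2 ⟨hS, hs⟩
    · right
      push Not at hs
      obtain ⟨X, Y, hX, hY, hsub, hlt⟩ := hcon S hS' hs
      refine mem_biUnion.2 ⟨(X, Y), mem_filter.2 ⟨mem_univ _, hX, hY, hlt⟩, ?_⟩
      exact Finset.mem_Icc.2 ⟨hsub, hS'⟩
  have hsm : 2 * small.card ≤ 2 ^ R.card := by
    -- complement injects small into its complement
    have h1 : small.card ≤ (R.powerset.filter (fun S => ¬ 2 * S.card < R.card)).card := by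
      refine Finset.card_le_card_of_injOn (fun S => R \ S) ?_ ?_
      · intro S hS
        have hS' := mem_filter.1 (mem_coe.1 hS)
        have hsub := mem_powerset.1 hS'.1
        refine mem_coe.2 (mem_filter.2 ⟨mem_powerset.2 sdiff_subset, ?_⟩)
        simp only [Finset.card_sdiff_of_subset hsub]
        have := hS'.2
        omega
      · intro S hS S' hS' h
        have h1 := mem_powerset.1 (mem_filter.1 (mem_coe.1 hS)).1
        have h2 := mem_powerset.1 (mem_filter.1 (mem_coe.1 hS')).1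
        simp only at h
        rw [← Finset.sdiff_sdiff_eq_self h1, ← Finset.sdiff_sdiff_eq_self h2, h]
    have h2 := Finset.card_filter_add_card_filter_not (s := R.powerset)
      (fun S => 2 * S.card < R.card)
    rw [card_powerset] at h2
    rw [← hsmall] at h2
    omega
  have hbd : (bad.card : ℝ) < 2 ^ R.card / 2 := by
    have h1 : (bad.card : ℝ) ≤ ∑ p ∈ PP, ((Finset.Icc (R ∩ (p.1 ×ˢ p.2)) R).card : ℝ) := by
      have := Finset.card_biUnion_le (s := PP) (t := fun p => Finset.Icc (R ∩ (p.1 ×ˢ p.2)) R)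
      exact_mod_cast this
    have hq0 : (0 : ℝ) < (1 / 2) ^ L := by positivity
    have h2 : ∀ p ∈ PP, ((Finset.Icc (R ∩ (p.1 ×ˢ p.2)) R).card : ℝ) ≤
        2 ^ R.card * (1 / 4) * (((1 / 2 : ℝ) ^ L) ^ p.1.card * ((1 / 2 : ℝ) ^ L) ^ p.2.card) := by
      intro p hp
      obtain ⟨-, hX, hY, hlt⟩ := mem_filter.1 hp
      have hsub : R ∩ (p.1 ×ˢ p.2) ⊆ R := inter_subset_left
      rw [Finset.card_Icc_finset hsub]
      have hle := Finset.card_le_card hsub
      have e1 : ((2 ^ (R.card - (R ∩ (p.1 ×ˢ p.2)).card) : ℕ) : ℝ) =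
          2 ^ R.card * (1 / 2) ^ (R ∩ (p.1 ×ˢ p.2)).card := by
        push_cast
        rw [pow_sub₀ _ (by norm_num) hle, one_div, inv_pow]
      rw [e1, mul_assoc]
      refine mul_le_mul_of_nonneg_left ?_ (by positivity)
      have hc1 : 1 ≤ p.1.card := Finset.card_pos.2 hX
      have hc2 : 1 ≤ p.2.card := Finset.card_pos.2 hY
      have e2 : L * p.1.card + L * p.2.card + 2 ≤ (R ∩ (p.1 ×ˢ p.2)).card := by
        have : (L + 1) * (p.1.card + p.2.card) = L * p.1.card + L * p.2.card +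
          (p.1.card + p.2.card) := by ring
        omega
      calc (1 / 2 : ℝ) ^ (R ∩ (p.1 ×ˢ p.2)).card ≤ (1 / 2 : ℝ) ^ (L * p.1.card + L * p.2.card + 2) :=
            pow_le_pow_of_le_one (by norm_num) (by norm_num) e2
        _ = 1 / 4 * (((1 / 2 : ℝ) ^ L) ^ p.1.card * ((1 / 2 : ℝ) ^ L) ^ p.2.card) := by
            rw [pow_add, pow_add, pow_mul, pow_mul]; norm_num; ring
    have h3 : (∑ p ∈ PP, 2 ^ R.card * (1 / 4) *
        (((1 / 2 : ℝ) ^ L) ^ p.1.card * ((1 / 2 : ℝ) ^ L) ^ p.2.card)) ≤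
        ∑ p : Finset α × Finset β, 2 ^ R.card * (1 / 4) *
        (((1 / 2 : ℝ) ^ L) ^ p.1.card * ((1 / 2 : ℝ) ^ L) ^ p.2.card) :=
      Finset.sum_le_sum_of_subset_of_nonneg (subset_univ _) (fun _ _ _ => by positivity)
    have h4 : (∑ p : Finset α × Finset β, 2 ^ R.card * (1 / 4) *
        (((1 / 2 : ℝ) ^ L) ^ p.1.card * ((1 / 2 : ℝ) ^ L) ^ p.2.card)) =
        2 ^ R.card * (1 / 4) * (((1 / 2 : ℝ) ^ L + 1) ^ Fintype.card α *
          ((1 / 2 : ℝ) ^ L + 1) ^ Fintype.card β) := by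
      rw [← Finset.mul_sum]
      congr 1
      rw [Fintype.sum_prod_type]
      simp only
      rw [← Fintype.sum_pow_mul_eq_add_pow, ← Fintype.sum_pow_mul_eq_add_pow, Finset.sum_mul_sum]
      refine Finset.sum_congr rfl (fun a _ => Finset.sum_congr rfl (fun b _ => ?_))
      simp
    have hqN : ((1 / 2 : ℝ) ^ L) * N ≤ 1 / 4 := by
      have : (4 * N : ℝ) ≤ 2 ^ L := by exact_mod_cast hL
      rw [one_div, inv_pow, inv_mul_le_iff₀ (by positivity)]
      linarith
    have h5 : ∀ c : ℕ, c ≤ N → ((1 / 2 : ℝ) ^ L + 1) ^ c ≤ Real.exp (1 / 4) := by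
      intro c hc
      calc ((1 / 2 : ℝ) ^ L + 1) ^ c ≤ ((1 / 2 : ℝ) ^ L + 1) ^ N :=
            pow_le_pow_right₀ (by linarith) hc
        _ ≤ (Real.exp ((1 / 2 : ℝ) ^ L)) ^ N :=
            pow_le_pow_left₀ (by positivity) (Real.add_one_le_exp _) N
        _ = Real.exp (((1 / 2 : ℝ) ^ L) * N) := by rw [← Real.exp_nat_mul, mul_comm]
        _ ≤ Real.exp (1 / 4) := Real.exp_le_exp.2 hqN
    have h6 : ((1 / 2 : ℝ) ^ L + 1) ^ Fintype.card α * ((1 / 2 : ℝ) ^ L + 1) ^ Fintype.card β ≤
        Real.exp (1 / 4) * Real.exp (1 / 4) :=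
      mul_le_mul (h5 _ hα) (h5 _ hβ) (by positivity) (Real.exp_pos _).le
    have h7 : Real.exp (1 / 4) * Real.exp (1 / 4) < 2 := by
      rw [← Real.exp_add]
      have h8 : Real.exp (1 / 4 + 1 / 4) ^ 2 < 2 ^ 2 := by
        rw [← Real.exp_nat_mul]
        have := Real.exp_one_lt_d9
        have e : ((2 : ℕ) : ℝ) * (1 / 4 + 1 / 4) = 1 := by norm_num
        rw [e]
        linarith
      exact lt_of_pow_lt_pow_left₀ 2 (by norm_num) h8
    have h9 : (2 : ℝ) ^ R.card * (1 / 4) * (((1 / 2 : ℝ) ^ L + 1) ^ Fintype.card α *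
          ((1 / 2 : ℝ) ^ L + 1) ^ Fintype.card β) < 2 ^ R.card / 2 := by
      have hpos : (0 : ℝ) < 2 ^ R.card := by positivity
      have : (2 : ℝ) ^ R.card * (1 / 4) * (((1 / 2 : ℝ) ^ L + 1) ^ Fintype.card α *
          ((1 / 2 : ℝ) ^ L + 1) ^ Fintype.card β) < 2 ^ R.card * (1 / 4) * 2 :=
        mul_lt_mul_of_pos_left (lt_of_le_of_lt h6 h7) (by positivity)
      linarith
    have h10 := Finset.sum_le_sum h2
    linarith [h1, h10, h3, h4, h9]
  have h1 := Finset.card_le_card hcover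
  rw [card_powerset] at h1
  have h2 := Finset.card_union_le small bad
  have h3 : (2 : ℝ) ^ R.card ≤ small.card + bad.card := by exact_mod_cast le_trans h1 h2
  have h4 : 2 * (small.card : ℝ) ≤ 2 ^ R.card := by exact_mod_cast hsm
  linarith

end Pool.Agent.V11147.Bc
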