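import Mathlib
import Pool.Agent.V11147.BcB

open Finset

namespace Pool.Agent.V11147.Bc

/-- `E` is the edge set of a bipartite graph with parts `α`, `β`, with at least one edge and
without isolated vertices -/
def IsBip {α β : Type} (E : Finset (α × β)) : Prop :=
  E.Nonempty ∧ (∀ x, ∃ y, (x, y) ∈ E) ∧ (∀ y, ∃ x, (x, y) ∈ E)

/-- `(X, Y)` is a biclique of the graph with edge set `E` -/
def IsBiclique {α β : Type} (E : Finset (α × β)) (X : Finset α) (Y : Finset β) : Prop :=
  X.Nonempty ∧ Y.Nonempty ∧ ∀ x ∈ X, ∀ y ∈ Y, (x, y) ∈ E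

/-- `H(a,b) = ab/(a+b)` -/
noncomputable def H (a b : ℕ) : ℝ := ((a : ℝ) * (b : ℝ)) / ((a : ℝ) + (b : ℝ))

/-- `κ(G)`, the maximum of `H(|X|,|Y|)` over the bicliques `(X,Y)` -/
noncomputable def kappa {α β : Type} (E : Finset (α × β)) : ℝ :=
  sSup {t | ∃ (X : Finset α) (Y : Finset β), IsBiclique E X Y ∧ t = H X.card Y.card}

open scoped Classical in
/-- the pairs of `E` lying in `X × Y` -/
noncomputable def inside {α β : Type} (E : Finset (α × β)) (X : Finset α) (Y : Finset β) :
    Finset (α × β) := E.filter (fun e => e.1 ∈ X ∧ e.2 ∈ Y)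

/-- `η(E')` in the graph with edge set `E` -/
noncomputable def eta {α β : Type} (E E' : Finset (α × β)) : ℝ :=
  sInf {t | ∃ (X : Finset α) (Y : Finset β), IsBiclique E X Y ∧ (inside E' X Y).Nonempty ∧
    t = ((X.card : ℝ) + Y.card) / (inside E' X Y).card}

/-- `η*(G)`, the maximum of `|E'| η(E')` over the nonempty sets `E'` of edges -/
noncomputable def etaStar {α β : Type} (E : Finset (α × β)) : ℝ :=
  sSup {t | ∃ E' : Finset (α × β), E' ⊆ E ∧ E'.Nonempty ∧ t = (E'.card : ℝ) * eta E E'}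

/-- `μ(G)`, the maximum of `|E(G')|/κ(G')` over the induced subgraphs `G'` with an edge -/
noncomputable def mu {α β : Type} (E : Finset (α × β)) : ℝ :=
  sSup {t | ∃ (X : Finset α) (Y : Finset β), (inside E X Y).Nonempty ∧
    t = ((inside E X Y).card : ℝ) / kappa (inside E X Y)}

/-- `g(n)`, the largest ratio `η*(G)/μ(G)` over the bipartite graphs on at most `n` vertices -/
noncomputable def g (n : ℕ) : ℝ :=
  sSup {t | ∃ (α β : Type) (_ : Fintype α) (_ : Fintype β) (E : Finset (α × β)),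
    IsBip E ∧ Fintype.card α + Fintype.card β ≤ n ∧ t = etaStar E / mu E}

section
variable {α β : Type} [Fintype α] [Fintype β]

theorem H_le (a b : ℕ) : H a b ≤ ((a : ℝ) + b) / 4 := by
  unfold H
  rcases Nat.eq_zero_or_pos (a + b) with h | h
  · have ha : a = 0 := by omega
    have hb : b = 0 := by omega
    subst ha; subst hb; simp
  · have h' : (0 : ℝ) < (a : ℝ) + b := by exact_mod_cast h
    rw [div_le_div_iff₀ h' (by norm_num)]
    nlinarith [sq_nonneg ((a : ℝ) - b)]

theorem bdd_kappa (E : Finset (α × β)) :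
    BddAbove {t | ∃ (X : Finset α) (Y : Finset β), IsBiclique E X Y ∧ t = H X.card Y.card} := by
  refine ⟨((Fintype.card α : ℝ) + Fintype.card β) / 4, ?_⟩
  rintro t ⟨X, Y, -, rfl⟩
  refine le_trans (H_le _ _) ?_
  have h1 : (X.card : ℝ) ≤ Fintype.card α := by exact_mod_cast Finset.card_le_univ X
  have h2 : (Y.card : ℝ) ≤ Fintype.card β := by exact_mod_cast Finset.card_le_univ Y
  linarith

theorem le_kappa {E : Finset (α × β)} {X : Finset α} {Y : Finset β} (h : IsBiclique E X Y) :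
    H X.card Y.card ≤ kappa E := le_csSup (bdd_kappa E) ⟨X, Y, h, rfl⟩

theorem single_bic {E : Finset (α × β)} {e : α × β} (he : e ∈ E) :
    IsBiclique E {e.1} {e.2} := by
  refine ⟨singleton_nonempty _, singleton_nonempty _, ?_⟩
  intro x hx y hy
  rw [mem_singleton] at hx hy
  subst hx; subst hy
  exact he

theorem kappa_half {E : Finset (α × β)} (hE : E.Nonempty) : 1 / 2 ≤ kappa E := by
  obtain ⟨e, he⟩ := hE
  have := le_kappa (single_bic he)
  rw [card_singleton, card_singleton] at this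
  have h2 : H 1 1 = 1 / 2 := by unfold H; norm_num
  rw [h2] at this
  exact this

theorem kappa_le {E : Finset (α × β)} (hE : E.Nonempty) :
    kappa E ≤ ((Fintype.card α : ℝ) + Fintype.card β) / 4 := by
  obtain ⟨e, he⟩ := hE
  refine csSup_le ⟨_, _, _, single_bic he, rfl⟩ ?_
  rintro t ⟨X, Y, -, rfl⟩
  refine le_trans (H_le _ _) ?_
  have h1 : (X.card : ℝ) ≤ Fintype.card α := by exact_mod_cast Finset.card_le_univ X
  have h2 : (Y.card : ℝ) ≤ Fintype.card β := by exact_mod_cast Finset.card_le_univ Y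
  linarith

theorem inside_sub (E : Finset (α × β)) (X : Finset α) (Y : Finset β) : inside E X Y ⊆ E := by
  intro e he
  unfold inside at he
  simp only [mem_filter] at he
  exact he.1

theorem mem_inside {E : Finset (α × β)} {X : Finset α} {Y : Finset β} {e : α × β} :
    e ∈ inside E X Y ↔ e ∈ E ∧ e.1 ∈ X ∧ e.2 ∈ Y := by
  unfold inside
  simp only [mem_filter]

theorem inside_univ (E : Finset (α × β)) : inside E univ univ = E := by
  ext e; rw [mem_inside]; simp

theorem inside_card (E : Finset (α × β)) (X : Finset α) (Y : Finset β) :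
    ((inside E X Y).card : ℝ) ≤ (X.card : ℝ) * Y.card := by
  have : (inside E X Y) ⊆ X ×ˢ Y := by
    intro e he
    rw [mem_inside] at he
    exact mem_product.2 he.2
  have := Finset.card_le_card this
  rw [card_product] at this
  exact_mod_cast this

theorem bdd_mu (E : Finset (α × β)) :
    BddAbove {t | ∃ (X : Finset α) (Y : Finset β), (inside E X Y).Nonempty ∧
    t = ((inside E X Y).card : ℝ) / kappa (inside E X Y)} := by
  refine Set.Finite.bddAbove ?_
  refine (Set.finite_range (fun p : Finset α × Finset β =>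
    ((inside E p.1 p.2).card : ℝ) / kappa (inside E p.1 p.2))).subset ?_
  rintro t ⟨X, Y, -, rfl⟩
  exact ⟨(X, Y), rfl⟩

theorem bdd_etaStar (E : Finset (α × β)) :
    BddAbove {t | ∃ E' : Finset (α × β), E' ⊆ E ∧ E'.Nonempty ∧ t = (E'.card : ℝ) * eta E E'} := by
  classical
  refine Set.Finite.bddAbove ?_
  refine (Set.finite_range (fun E' : Finset (α × β) => (E'.card : ℝ) * eta E E')).subset ?_
  rintro t ⟨E', -, -, rfl⟩
  exact ⟨E', rfl⟩

theorem le_mu {E : Finset (α × β)} (hE : E.Nonempty) : (E.card : ℝ) / kappa E ≤ mu E := by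
  refine le_csSup (bdd_mu E) ⟨univ, univ, ?_, ?_⟩
  · rw [inside_univ]; exact hE
  · rw [inside_univ]

theorem mu_pos {E : Finset (α × β)} (hE : E.Nonempty) : 0 < mu E := by
  refine lt_of_lt_of_le ?_ (le_mu hE)
  have h1 : (0 : ℝ) < E.card := by exact_mod_cast Finset.card_pos.2 hE
  have h2 := kappa_half hE
  have h3 : 0 < kappa E := by linarith
  positivity

theorem eta_nonneg (E E' : Finset (α × β)) : 0 ≤ eta E E' := by
  refine Real.sInf_nonneg ?_
  rintro t ⟨X, Y, -, -, rfl⟩
  positivity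

theorem eta_le_two {E E' : Finset (α × β)} (hE : E' ⊆ E) (hE' : E'.Nonempty) : eta E E' ≤ 2 := by
  obtain ⟨e, he⟩ := hE'
  have hb : BddBelow {t | ∃ (X : Finset α) (Y : Finset β), IsBiclique E X Y ∧
      (inside E' X Y).Nonempty ∧ t = ((X.card : ℝ) + Y.card) / (inside E' X Y).card} := by
    refine ⟨0, ?_⟩
    rintro t ⟨X, Y, -, -, rfl⟩
    positivity
  have hin : (inside E' {e.1} {e.2}).Nonempty := ⟨e, by rw [mem_inside]; simp [he]⟩
  refine le_trans (csInf_le hb ⟨{e.1}, {e.2}, single_bic (hE he), hin, rfl⟩) ?_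
  have h1 : (1 : ℝ) ≤ (inside E' {e.1} {e.2}).card := by exact_mod_cast Finset.card_pos.2 hin
  rw [card_singleton, card_singleton, div_le_iff₀ (by linarith)]
  push_cast
  linarith

theorem etaStar_le {E : Finset (α × β)} (hE : E.Nonempty) : etaStar E ≤ 2 * E.card := by
  refine csSup_le ⟨_, E, Finset.Subset.refl _, hE, rfl⟩ ?_
  rintro t ⟨E', hs, hne, rfl⟩
  have h1 := eta_le_two hs hne
  have h2 : (E'.card : ℝ) ≤ E.card := by exact_mod_cast Finset.card_le_card hs
  have h3 : (0 : ℝ) ≤ E'.card := by positivity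
  have h4 := eta_nonneg E E'
  nlinarith

theorem etaStar_nonneg {E : Finset (α × β)} (hE : E.Nonempty) : 0 ≤ etaStar E := by
  refine le_trans ?_ (le_csSup (bdd_etaStar E) ⟨E, Finset.Subset.refl _, hE, rfl⟩)
  exact mul_nonneg (by positivity) (eta_nonneg _ _)

/-- the known upper bound on the ratio -/
theorem ratio_le {E : Finset (α × β)} (hE : E.Nonempty) {n : ℕ}
    (hn : Fintype.card α + Fintype.card β ≤ n) : etaStar E / mu E ≤ (n : ℝ) / 2 := by
  have hμ := mu_pos hE
  rw [div_le_iff₀ hμ]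
  have h1 := etaStar_le hE
  have h2 := le_mu hE
  have h3 := kappa_le hE
  have h4 := kappa_half hE
  have h5 : 0 < kappa E := by linarith
  rw [div_le_iff₀ h5] at h2
  have h6 : ((Fintype.card α : ℝ) + Fintype.card β) ≤ n := by exact_mod_cast hn
  have h7 : mu E * kappa E ≤ mu E * ((n : ℝ) / 4) :=
    mul_le_mul_of_nonneg_left (by linarith) hμ.le
  linarith

/-- upper bound on `μ` when the graph contains the complement of a good relation -/
theorem mu_le {E : Finset (α × β)} (hE : E.Nonempty) (R : α → β → Prop) {M : ℝ}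
    (hM : Good R M) (hR : ∀ x y, ¬ R x y → (x, y) ∈ E) : mu E ≤ 2 * M := by
  refine csSup_le ⟨_, univ, univ, by rw [inside_univ]; exact hE, rfl⟩ ?_
  rintro t ⟨X, Y, hne, rfl⟩
  have h1 := kappa_half hne
  set κ := kappa (inside E X Y) with hκ
  have h2 := hM (2 * κ) (by linarith) X Y (by
    intro X' hX' Y' hY' hf
    rcases X'.eq_empty_or_nonempty with h | hX1
    · subst h
      simp only [card_empty, Nat.cast_zero, zero_mul, zero_add]
      have : (0 : ℝ) ≤ 2 * κ := by linarith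
      positivity
    rcases Y'.eq_empty_or_nonempty with h | hY1
    · subst h
      simp only [card_empty, Nat.cast_zero, mul_zero, add_zero]
      have : (0 : ℝ) ≤ 2 * κ := by linarith
      positivity
    have hb : IsBiclique (inside E X Y) X' Y' := by
      refine ⟨hX1, hY1, ?_⟩
      intro x hx y hy
      rw [mem_inside]
      exact ⟨hR x y (hf x hx y hy), hX' hx, hY' hy⟩
    have h3 := le_kappa hb
    rw [← hκ] at h3
    unfold H at h3
    have h4 : (0 : ℝ) < (X'.card : ℝ) + Y'.card := by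
      have : (0 : ℝ) < (X'.card : ℝ) := by exact_mod_cast Finset.card_pos.2 hX1
      positivity
    rw [div_le_iff₀ h4] at h3
    nlinarith)
  have h3 := inside_card E X Y
  rw [div_le_iff₀ (by linarith)]
  linarith

theorem etaStar_ge {E R1 : Finset (α × β)} (hs : R1 ⊆ E) (hne : R1.Nonempty) {L : ℝ} (hL : 0 < L)
    (h : ∀ (X : Finset α) (Y : Finset β), IsBiclique E X Y →
      ((inside R1 X Y).card : ℝ) ≤ L * ((X.card : ℝ) + Y.card)) :
    (R1.card : ℝ) / L ≤ etaStar E := by
  refine le_trans ?_ (le_csSup (bdd_etaStar E) ⟨R1, hs, hne, rfl⟩)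
  rw [div_eq_mul_inv]
  refine mul_le_mul_of_nonneg_left ?_ (by positivity)
  obtain ⟨e, he⟩ := hne
  have hin : (inside R1 {e.1} {e.2}).Nonempty := ⟨e, by rw [mem_inside]; simp [he]⟩
  refine le_csInf ⟨_, {e.1}, {e.2}, single_bic (hs he), hin, rfl⟩ ?_
  rintro t ⟨X, Y, hb, hne', rfl⟩
  have h1 : (0 : ℝ) < (inside R1 X Y).card := by exact_mod_cast Finset.card_pos.2 hne'
  have h2 := h X Y hb
  rw [le_div_iff₀ h1, inv_mul_le_iff₀ hL]
  exact h2

end

/-- the graphs with a large ratio -/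
theorem exists_graph (m : ℕ) (hm : 1 ≤ m) :
    ∃ (α β : Type) (_ : Fintype α) (_ : Fintype β) (E : Finset (α × β)),
      IsBip E ∧ Fintype.card α + Fintype.card β = 2 ^ (m * m + 1) ∧
      (2 : ℝ) ^ (m * m) * mu E ≤ 2 ^ (8 * m + 2) * etaStar E := by
  classical
  obtain ⟨α, β, iα, iβ, R, hα, hβ, hR, hG, hiso⟩ := tensor m hm m
  obtain ⟨⟨y0, hy0⟩, ⟨x0, hx0⟩⟩ := hiso (by omega)
  set RF : Finset (α × β) := univ.filter (fun p => R p.1 p.2) with hRF
  have hRFc : RF.card = Nat.card {p : α × β // R p.1 p.2} := by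
    rw [Nat.card_eq_fintype_card, Fintype.card_subtype]
  obtain ⟨R1, hR1, hc, hbic⟩ := half RF (2 ^ (m * m)) (m * m + 2) Nat.one_le_two_pow
    (le_of_eq hα) (le_of_eq hβ) (by rw [pow_add]; omega)
  set E : Finset (α × β) := univ.filter (fun p => R p.1 p.2 → p ∈ R1) with hE
  have hEn : ∀ x y, ¬ R x y → (x, y) ∈ E := by
    intro x y h
    rw [hE, mem_filter]
    exact ⟨mem_univ _, fun h' => absurd h' h⟩
  have hEne : E.Nonempty := ⟨(x0, y0), hEn _ _ (hx0 y0)⟩
  have hR1E : R1 ⊆ E := by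
    intro p hp
    rw [hE, mem_filter]
    exact ⟨mem_univ _, fun _ => hp⟩
  refine ⟨α, β, iα, iβ, E, ⟨hEne, fun x => ⟨y0, hEn _ _ (hy0 x)⟩, fun y => ⟨x0, hEn _ _ (hx0 y)⟩⟩,
    ?_, ?_⟩
  · rw [hα, hβ, pow_succ]; ring
  -- card of R1
  have hR' : 2 ^ (2 * m * m) ≤ 4 ^ m * (2 * R1.card) := by
    rw [hRFc] at hc
    exact le_trans hR (Nat.mul_le_mul_left _ hc)
  have hR1ne : R1.Nonempty := by
    rw [← Finset.card_pos]
    by_contra h0
    have h0' : R1.card = 0 := by omega
    rw [h0'] at hR'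
    have : 0 < 2 ^ (2 * m * m) := by positivity
    omega
  have hmu := mu_le hEne R hG hEn
  have heta := etaStar_ge hR1E hR1ne (L := (m * m + 3 : ℝ)) (by positivity) (by
    intro X Y hb
    have h1 : inside R1 X Y = RF ∩ (X ×ˢ Y) := by
      ext p
      rw [mem_inside, mem_inter, mem_product]
      constructor
      · rintro ⟨h1, h2⟩
        exact ⟨hR1 h1, h2⟩
      · rintro ⟨h1, h2⟩
        have h3 := hb.2.2 p.1 h2.1 p.2 h2.2
        rw [hE, mem_filter] at h3
        rw [hRF, mem_filter] at h1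
        exact ⟨h3.2 h1.2, h2⟩
    have h2 : RF ∩ (X ×ˢ Y) ⊆ R1 := by
      rw [← h1]; exact inside_sub _ _ _
    have h3 := hbic X Y hb.1 hb.2.1 h2
    rw [← h1] at h3
    have h4 : ((inside R1 X Y).card : ℝ) ≤ (((m * m + 2 + 1) * (X.card + Y.card) : ℕ) : ℝ) := by
      exact_mod_cast h3
    push_cast at h4
    linarith)
  have hR1r : (2 : ℝ) ^ (2 * m * m) ≤ 4 ^ m * (2 * R1.card) := by exact_mod_cast hR'
  -- numeric part
  have hm1 : (1 : ℝ) ≤ m := by exact_mod_cast hm
  have hMb : Mb m m ≤ 2 ^ (m * m) * (2 ^ m * (5 * m ^ 3)) := by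
    unfold Mb
    refine mul_le_mul_of_nonneg_left ?_ (by positivity)
    have h1 : (1 : ℝ) ≤ 2 ^ m := one_le_pow₀ (by norm_num)
    have h2 : (1 : ℝ) + 2 * 2 ^ m * m * (1 + m * m) ≤ 2 ^ m * (1 + 2 * m * (1 + m * m)) := by
      nlinarith
    refine le_trans h2 ?_
    refine mul_le_mul_of_nonneg_left ?_ (by positivity)
    have h3 : (m : ℝ) ≤ m ^ 3 := by
      calc (m : ℝ) = m ^ 1 := (pow_one _).symm
        _ ≤ m ^ 3 := pow_le_pow_right₀ hm1 (by norm_num)
    have h4 : (1 : ℝ) ≤ m ^ 3 := one_le_pow₀ hm1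
    nlinarith
  have hm5 : (m : ℝ) ^ 5 * 32 ≤ 2 ^ (5 * m) := by
    have h1 : m * 2 ≤ 2 ^ m := by
      clear * - hm
      induction m with
      | zero => omega
      | succ k ih =>
        rcases Nat.eq_zero_or_pos k with h | h
        · subst h; norm_num
        · have := ih h
          rw [pow_succ]; omega
    have h2 : ((m : ℝ) * 2) ≤ 2 ^ m := by exact_mod_cast h1
    have h3 := pow_le_pow_left₀ (by positivity) h2 5
    rw [mul_pow, ← pow_mul, mul_comm m 5] at h3
    norm_num at h3 ⊢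
    exact h3
  have hL : (0 : ℝ) < m * m + 3 := by positivity
  rw [div_le_iff₀ hL] at heta
  have h5 : (m : ℝ) * m + 3 ≤ 4 * m ^ 2 := by nlinarith
  have hη0 := etaStar_nonneg hEne
  have h4m : (4 : ℝ) ^ m = 2 ^ (2 * m) := by
    rw [pow_mul]; norm_num
  have hA : (2 : ℝ) ^ (2 * m * m) = 2 ^ (m * m) * 2 ^ (m * m) := by
    rw [← pow_add]; congr 1; ring
  -- combine
  calc (2 : ℝ) ^ (m * m) * mu E ≤ 2 ^ (m * m) * (2 * (2 ^ (m * m) * (2 ^ m * (5 * m ^ 3)))) := by
        refine mul_le_mul_of_nonneg_left ?_ (by positivity)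
        linarith
    _ = 2 ^ (2 * m * m) * (10 * 2 ^ m * m ^ 3) := by rw [hA]; ring
    _ ≤ (4 ^ m * (2 * (etaStar E * (m * m + 3)))) * (10 * 2 ^ m * m ^ 3) := by
        refine mul_le_mul_of_nonneg_right ?_ (by positivity)
        refine le_trans hR1r ?_
        refine mul_le_mul_of_nonneg_left ?_ (by positivity)
        linarith
    _ ≤ (4 ^ m * (2 * (etaStar E * (4 * m ^ 2)))) * (10 * 2 ^ m * m ^ 3) := by
        refine mul_le_mul_of_nonneg_right ?_ (by positivity)
        refine mul_le_mul_of_nonneg_left ?_ (by positivity)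
        refine mul_le_mul_of_nonneg_left ?_ (by norm_num)
        exact mul_le_mul_of_nonneg_left h5 hη0
    _ = (2 ^ (2 * m) * 2 ^ m * (80 * m ^ 5)) * etaStar E := by rw [h4m]; ring
    _ ≤ (2 ^ (2 * m) * 2 ^ m * (4 * 2 ^ (5 * m))) * etaStar E := by
        refine mul_le_mul_of_nonneg_right ?_ hη0
        refine mul_le_mul_of_nonneg_left ?_ (by positivity)
        have : (0 : ℝ) ≤ m ^ 5 := by positivity
        linarith
    _ = 2 ^ (8 * m + 2) * etaStar E := by
        congr 1
        have : 8 * m + 2 = 2 * m + m + (2 + 5 * m) := by ring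
        rw [this, pow_add, pow_add, pow_add]
        norm_num

end Pool.Agent.V11147.Bc
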