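import Mathlib

open Finset

namespace Pool.Agent.V11147.Sim

variable {V : Type*} [DecidableEq V]

/-- `M` is a matching of `P`-edges inside `W` -/
structure IsM (P : V → V → Prop) (W : Finset V) (M : Finset (V × V)) : Prop where
  mem : ∀ p ∈ M, p.1 ∈ W ∧ p.2 ∈ W ∧ p.1 ≠ p.2 ∧ P p.1 p.2
  disj : ∀ p ∈ M, ∀ q ∈ M, p ≠ q → p.1 ≠ q.1 ∧ p.1 ≠ q.2 ∧ p.2 ≠ q.1 ∧ p.2 ≠ q.2

/-- the covered vertices -/
def VS (M : Finset (V × V)) : Finset V := M.image Prod.fst ∪ M.image Prod.snd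

theorem mem_VS {M : Finset (V × V)} {v : V} : v ∈ VS M ↔ ∃ p ∈ M, p.1 = v ∨ p.2 = v := by
  unfold VS
  simp only [mem_union, mem_image]
  constructor
  · rintro (⟨p, hp, h⟩ | ⟨p, hp, h⟩)
    · exact ⟨p, hp, Or.inl h⟩
    · exact ⟨p, hp, Or.inr h⟩
  · rintro ⟨p, hp, h | h⟩
    · exact Or.inl ⟨p, hp, h⟩
    · exact Or.inr ⟨p, hp, h⟩

theorem IsM.VS_sub {P : V → V → Prop} {W : Finset V} {M : Finset (V × V)} (h : IsM P W M) :
    VS M ⊆ W := by
  intro v hv
  obtain ⟨p, hp, h1 | h1⟩ := mem_VS.1 hv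
  · rw [← h1]; exact (h.mem p hp).1
  · rw [← h1]; exact (h.mem p hp).2.1

theorem IsM.card_VS {P : V → V → Prop} {W : Finset V} {M : Finset (V × V)} (h : IsM P W M) :
    (VS M).card = 2 * M.card := by
  unfold VS
  rw [card_union_of_disjoint, card_image_of_injOn, card_image_of_injOn]
  · ring
  · intro p hp q hq hpq
    by_contra hne
    exact (h.disj p hp q hq hne).2.2.2 hpq
  · intro p hp q hq hpq
    by_contra hne
    exact (h.disj p hp q hq hne).1 hpq
  · rw [Finset.disjoint_left]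
    intro v hv hv'
    obtain ⟨p, hp, h1⟩ := mem_image.1 hv
    obtain ⟨q, hq, h2⟩ := mem_image.1 hv'
    by_cases hpq : p = q
    · subst hpq
      exact (h.mem p hp).2.2.1 (h1.trans h2.symm)
    · exact (h.disj p hp q hq hpq).2.1 (h1.trans h2.symm)

theorem IsM.restrict {P : V → V → Prop} {W W' : Finset V} {M : Finset (V × V)} (h : IsM P W M)
    (hW : VS M ⊆ W') : IsM P W' M := by
  refine ⟨fun p hp => ⟨hW (mem_VS.2 ⟨p, hp, Or.inl rfl⟩), hW (mem_VS.2 ⟨p, hp, Or.inr rfl⟩),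
    (h.mem p hp).2.2⟩, h.disj⟩

theorem IsM.sub {P : V → V → Prop} {W : Finset V} {M M' : Finset (V × V)} (h : IsM P W M)
    (hM : M' ⊆ M) : IsM P W M' :=
  ⟨fun p hp => h.mem p (hM hp), fun p hp q hq => h.disj p (hM hp) q (hM hq)⟩

theorem IsM.pick {P : V → V → Prop} (hP : ∀ a b, P a b → P b a) {W : Finset V}
    {M : Finset (V × V)} (h : IsM P W M) {v : V} (hv : v ∈ VS M) :
    ∃ u, u ∈ VS M ∧ u ≠ v ∧ P u v ∧ ∃ M', IsM P W M' ∧ M'.card + 1 = M.card ∧
      VS M' = VS M \ {u, v} ∧ M' ⊆ M := by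
  obtain ⟨p, hp, h1⟩ := mem_VS.1 hv
  have hVS : VS (M.erase p) = VS M \ {p.1, p.2} := by
    ext x
    simp only [mem_sdiff, mem_insert, mem_singleton, mem_VS]
    constructor
    · rintro ⟨q, hq, hx⟩
      have hq1 := mem_erase.1 hq
      have hd := h.disj p hp q hq1.2 (Ne.symm hq1.1)
      refine ⟨⟨q, hq1.2, hx⟩, ?_⟩
      rcases hx with hx | hx
      · rw [← hx]; push Not; exact ⟨hd.1.symm, hd.2.2.1.symm⟩
      · rw [← hx]; push Not; exact ⟨hd.2.1.symm, hd.2.2.2.symm⟩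
    · rintro ⟨⟨q, hq, hx⟩, hne⟩
      refine ⟨q, mem_erase.2 ⟨?_, hq⟩, hx⟩
      rintro rfl
      push Not at hne
      rcases hx with hx | hx
      · exact hne.1 hx.symm
      · exact hne.2 hx.symm
  have hc : (M.erase p).card + 1 = M.card := Finset.card_erase_add_one hp
  have hm := h.mem p hp
  rcases h1 with h1 | h1
  · refine ⟨p.2, mem_VS.2 ⟨p, hp, Or.inr rfl⟩, ?_, ?_, M.erase p, h.sub (erase_subset _ _), hc, ?_,
      erase_subset _ _⟩
    · rw [← h1]; exact hm.2.2.1.symm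
    · rw [← h1]; exact hP _ _ hm.2.2.2
    · rw [hVS, ← h1, pair_comm]
  · refine ⟨p.1, mem_VS.2 ⟨p, hp, Or.inl rfl⟩, ?_, ?_, M.erase p, h.sub (erase_subset _ _), hc, ?_,
      erase_subset _ _⟩
    · rw [← h1]; exact hm.2.2.1
    · rw [← h1]; exact hm.2.2.2
    · rw [hVS, ← h1]

theorem IsM.add {P : V → V → Prop} {W : Finset V}
    {M : Finset (V × V)} (h : IsM P W M) {a b : V} (ha : a ∈ W) (hb : b ∈ W) (hab : a ≠ b)
    (hP : P a b) (ha' : a ∉ VS M) (hb' : b ∉ VS M) :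
    ∃ M', IsM P W M' ∧ M'.card = M.card + 1 ∧ VS M' = VS M ∪ {a, b} := by
  have key : ∀ q ∈ M, a ≠ q.1 ∧ a ≠ q.2 ∧ b ≠ q.1 ∧ b ≠ q.2 := by
    intro q hq
    refine ⟨?_, ?_, ?_, ?_⟩
    · rintro rfl; exact ha' (mem_VS.2 ⟨q, hq, Or.inl rfl⟩)
    · rintro rfl; exact ha' (mem_VS.2 ⟨q, hq, Or.inr rfl⟩)
    · rintro rfl; exact hb' (mem_VS.2 ⟨q, hq, Or.inl rfl⟩)
    · rintro rfl; exact hb' (mem_VS.2 ⟨q, hq, Or.inr rfl⟩)
  refine ⟨insert (a, b) M, ⟨?_, ?_⟩, ?_, ?_⟩
  · intro p hp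
    rcases mem_insert.1 hp with rfl | hp
    · exact ⟨ha, hb, hab, hP⟩
    · exact h.mem p hp
  · intro p hp q hq hne
    rcases mem_insert.1 hp with rfl | hp
    · rcases mem_insert.1 hq with rfl | hq
      · exact absurd rfl hne
      · exact key q hq
    · rcases mem_insert.1 hq with rfl | hq
      · have := key p hp
        exact ⟨this.1.symm, this.2.2.1.symm, this.2.1.symm, this.2.2.2.symm⟩
      · exact h.disj p hp q hq hne
  · refine Finset.card_insert_of_notMem ?_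
    intro hmem
    exact (key _ hmem).1 rfl
  · ext x
    simp only [mem_union, mem_VS, mem_insert, mem_singleton]
    constructor
    · rintro ⟨p, rfl | hp, hx⟩
      · rcases hx with hx | hx
        · right; left; exact hx.symm
        · right; right; exact hx.symm
      · left; exact ⟨p, hp, hx⟩
    · rintro (⟨p, hp, hx⟩ | hx | hx)
      · exact ⟨p, Or.inr hp, hx⟩
      · exact ⟨(a, b), Or.inl rfl, Or.inl hx.symm⟩
      · exact ⟨(a, b), Or.inl rfl, Or.inr hx.symm⟩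

theorem IsM.single {P : V → V → Prop} {W : Finset V} {a b : V} (ha : a ∈ W) (hb : b ∈ W)
    (hab : a ≠ b) (hP : P a b) : IsM P W {(a, b)} := by
  refine ⟨?_, ?_⟩
  · intro p hp
    rw [mem_singleton.1 hp]
    exact ⟨ha, hb, hab, hP⟩
  · intro p hp q hq hne
    rw [mem_singleton.1 hp, mem_singleton.1 hq] at hne
    exact absurd rfl hne

/-- shrink a matching to a smaller size -/
theorem IsM.shrink {P : V → V → Prop} {W : Finset V} {M : Finset (V × V)} (h : IsM P W M)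
    {k : ℕ} (hk : k ≤ M.card) : ∃ M', IsM P W M' ∧ M'.card = k := by
  obtain ⟨M', hM', hc⟩ := Finset.exists_subset_card_eq hk
  exact ⟨M', h.sub hM', hc⟩

/-- a cherry with a `P`-edge and a `Q`-edge -/
def Ch (P Q : V → V → Prop) (a b c : V) : Prop := a ≠ b ∧ b ≠ c ∧ a ≠ c ∧ P a b ∧ Q b c

/-- conclusion of the one step reduction -/
def Red (P Q : V → V → Prop) (W : Finset V) (k : ℕ) : Prop :=
  ∃ a b c, a ∈ W ∧ b ∈ W ∧ c ∈ W ∧ Ch P Q a b c ∧
    ∃ M N, IsM P (W \ {a, b, c}) M ∧ IsM Q (W \ {a, b, c}) N ∧ M.card = k ∧ N.card = k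

theorem Red.symm {P Q : V → V → Prop} (hP : ∀ a b, P a b → P b a) (hQ : ∀ a b, Q a b → Q b a)
    {W : Finset V} {k : ℕ} (h : Red P Q W k) : Red Q P W k := by
  obtain ⟨a, b, c, ha, hb, hc, h1, M, N, h2, h3, h4, h5⟩ := h
  have e : ({c, b, a} : Finset V) = {a, b, c} := by
    ext x; simp only [mem_insert, mem_singleton]; tauto
  refine ⟨c, b, a, hc, hb, ha, ⟨h1.2.1.symm, h1.1.symm, h1.2.2.1.symm, hQ _ _ h1.2.2.2.2,
    hP _ _ h1.2.2.2.1⟩, N, M, ?_, ?_, h5, h4⟩
  · rw [e]; exact h3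
  · rw [e]; exact h2

theorem red_of {P Q : V → V → Prop} {W : Finset V} {M N : Finset (V × V)} {k : ℕ}
    (hM : IsM P W M) (hN : IsM Q W N) (hMk : M.card = k) (hNk : N.card = k) {a b c : V}
    (ha : a ∈ W) (hb : b ∈ W) (hc : c ∈ W) (h : Ch P Q a b c)
    (h1 : a ∉ VS M) (h2 : b ∉ VS M) (h3 : c ∉ VS M)
    (h4 : a ∉ VS N) (h5 : b ∉ VS N) (h6 : c ∉ VS N) : Red P Q W k := by
  refine ⟨a, b, c, ha, hb, hc, h, M, N, ?_, ?_, hMk, hNk⟩
  · refine hM.restrict ?_
    intro x hx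
    rw [mem_sdiff, mem_insert, mem_insert, mem_singleton]
    refine ⟨hM.VS_sub hx, ?_⟩
    rintro (rfl | rfl | rfl)
    · exact h1 hx
    · exact h2 hx
    · exact h3 hx
  · refine hN.restrict ?_
    intro x hx
    rw [mem_sdiff, mem_insert, mem_insert, mem_singleton]
    refine ⟨hN.VS_sub hx, ?_⟩
    rintro (rfl | rfl | rfl)
    · exact h4 hx
    · exact h5 hx
    · exact h6 hx

/-- two far edges -/
theorem red_far {P Q : V → V → Prop}
    (hPQ : ∀ a b, a ≠ b → P a b ∨ Q a b) {W : Finset V} {M N : Finset (V × V)} {k : ℕ}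
    (hM : IsM P W M) (hN : IsM Q W N) (hMk : M.card = k + 1) (hNk : N.card = k + 1)
    {p q : V × V} (hp : p ∈ M) (hq : q ∈ N) (hp1 : p.1 ∉ VS N) (hp2 : p.2 ∉ VS N)
    (hq1 : q.1 ∉ VS M) (hq2 : q.2 ∉ VS M) : Red P Q W k := by
  have hp1M : p.1 ∈ VS M := mem_VS.2 ⟨p, hp, Or.inl rfl⟩
  have hp2M : p.2 ∈ VS M := mem_VS.2 ⟨p, hp, Or.inr rfl⟩
  have hq1N : q.1 ∈ VS N := mem_VS.2 ⟨q, hq, Or.inl rfl⟩
  have hq2N : q.2 ∈ VS N := mem_VS.2 ⟨q, hq, Or.inr rfl⟩
  have hMe : ∀ x ∈ VS (M.erase p), x ∈ VS M ∧ x ≠ p.1 ∧ x ≠ p.2 := by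
    intro x hx
    obtain ⟨r, hr, hx'⟩ := mem_VS.1 hx
    have hr1 := mem_erase.1 hr
    have hd := hM.disj r hr1.2 p hp hr1.1
    refine ⟨mem_VS.2 ⟨r, hr1.2, hx'⟩, ?_, ?_⟩
    · rcases hx' with h | h <;> rw [← h]
      · exact hd.1
      · exact hd.2.2.1
    · rcases hx' with h | h <;> rw [← h]
      · exact hd.2.1
      · exact hd.2.2.2
  have hNe : ∀ x ∈ VS (N.erase q), x ∈ VS N ∧ x ≠ q.1 ∧ x ≠ q.2 := by
    intro x hx
    obtain ⟨r, hr, hx'⟩ := mem_VS.1 hx
    have hr1 := mem_erase.1 hr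
    have hd := hN.disj r hr1.2 q hq hr1.1
    refine ⟨mem_VS.2 ⟨r, hr1.2, hx'⟩, ?_, ?_⟩
    · rcases hx' with h | h <;> rw [← h]
      · exact hd.1
      · exact hd.2.2.1
    · rcases hx' with h | h <;> rw [← h]
      · exact hd.2.1
      · exact hd.2.2.2
  have hMc : (M.erase p).card = k := by rw [card_erase_of_mem hp, hMk]; rfl
  have hNc : (N.erase q).card = k := by rw [card_erase_of_mem hq, hNk]; rfl
  have hne : p.2 ≠ q.1 := fun h => hq1 (h ▸ hp2M)
  have hne1 : p.1 ≠ q.1 := fun h => hq1 (h ▸ hp1M)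
  have hne2 : p.2 ≠ q.2 := fun h => hq2 (h ▸ hp2M)
  have hM' := hM.sub (erase_subset p M)
  have hN' := hN.sub (erase_subset q N)
  rcases hPQ p.2 q.1 hne with h | h
  · -- p.2 q.1 is a P edge, cherry p.2 q.1 q.2
    refine red_of hM' hN' hMc hNc (hM.mem p hp).2.1 (hN.mem q hq).1 (hN.mem q hq).2.1
      ⟨hne, (hN.mem q hq).2.2.1, hne2, h, (hN.mem q hq).2.2.2⟩ ?_ ?_ ?_ ?_ ?_ ?_
    · intro h'; exact (hMe _ h').2.2 rfl
    · intro h'; exact hq1 (hMe _ h').1
    · intro h'; exact hq2 (hMe _ h').1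
    · intro h'; exact hp2 (hNe _ h').1
    · intro h'; exact (hNe _ h').2.1 rfl
    · intro h'; exact (hNe _ h').2.2 rfl
  · refine red_of hM' hN' hMc hNc (hM.mem p hp).1 (hM.mem p hp).2.1 (hN.mem q hq).1
      ⟨(hM.mem p hp).2.2.1, hne, hne1, (hM.mem p hp).2.2.2, h⟩ ?_ ?_ ?_ ?_ ?_ ?_
    · intro h'; exact (hMe _ h').2.1 rfl
    · intro h'; exact (hMe _ h').2.2 rfl
    · intro h'; exact hq1 (hMe _ h').1
    · intro h'; exact hp1 (hNe _ h').1
    · intro h'; exact hp2 (hNe _ h').1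
    · intro h'; exact (hNe _ h').2.1 rfl

/-- the case where every edge of `M` meets `N` and there are at most two common vertices -/
theorem red_tight {P Q : V → V → Prop} (hP : ∀ a b, P a b → P b a) (hQ : ∀ a b, Q a b → Q b a)
    (hPQ : ∀ a b, a ≠ b → P a b ∨ Q a b) {W : Finset V} {M N : Finset (V × V)} {k : ℕ}
    (hM : IsM P W M) (hN : IsM Q W N) (hMk : M.card = k + 2) (hNk : N.card = k + 2)
    (hc : (VS M ∩ VS N).card ≤ 2) (hall : ∀ p ∈ M, p.1 ∈ VS N ∨ p.2 ∈ VS N) :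
    Red P Q W (k + 1) := by
  -- a common vertex from a nonempty part of `M`
  have hcom : ∀ M0 : Finset (V × V), M0 ⊆ M → 0 < M0.card → ∃ v, v ∈ VS M0 ∧ v ∈ VS N := by
    intro M0 hM0 h0
    obtain ⟨p, hp⟩ := card_pos.1 h0
    rcases hall p (hM0 hp) with h | h
    · exact ⟨p.1, mem_VS.2 ⟨p, hp, Or.inl rfl⟩, h⟩
    · exact ⟨p.2, mem_VS.2 ⟨p, hp, Or.inr rfl⟩, h⟩
  obtain ⟨v, hvM, hvN⟩ := hcom M (Subset.refl _) (by omega)
  obtain ⟨u, huM, huv, hPuv, M1, hM1, hM1c, hM1V, hM1s⟩ := hM.pick hP hvM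
  obtain ⟨w, hwM1, hwN⟩ := hcom M1 hM1s (by omega)
  obtain ⟨x, hxM1, hxw, hPxw, M2, hM2, hM2c, hM2V, hM2s⟩ := hM1.pick hP hwM1
  have hwM1' := hwM1
  rw [hM1V, mem_sdiff, mem_insert, mem_singleton] at hwM1'
  push Not at hwM1'
  obtain ⟨hwM, hwu, hwv⟩ := hwM1'
  have hxM1' := hxM1
  rw [hM1V, mem_sdiff, mem_insert, mem_singleton] at hxM1'
  push Not at hxM1'
  obtain ⟨hxM, hxu, hxv⟩ := hxM1'
  -- the common vertices are v and w
  have hcommon : ∀ y, y ∈ VS M → y ∈ VS N → y = v ∨ y = w := by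
    intro y hyM hyN
    by_contra hne
    push Not at hne
    have : ({v, w, y} : Finset V) ⊆ VS M ∩ VS N := by
      intro t ht
      rw [mem_insert, mem_insert, mem_singleton] at ht
      rcases ht with rfl | rfl | rfl
      · exact mem_inter.2 ⟨hvM, hvN⟩
      · exact mem_inter.2 ⟨hwM, hwN⟩
      · exact mem_inter.2 ⟨hyM, hyN⟩
    have h3 := card_le_card this
    rw [card_eq_three.2 ⟨v, w, y, hwv.symm, hne.1.symm, hne.2.symm, rfl⟩] at h3
    omega
  have huN : u ∉ VS N := by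
    intro h
    rcases hcommon u huM h with h' | h'
    · exact huv h'
    · exact hwu h'.symm
  have hxN : x ∉ VS N := by
    intro h
    rcases hcommon x hxM h with h' | h'
    · exact hxv h'
    · exact hxw h'
  have hk : k = 0 := by
    by_contra hk
    obtain ⟨y, hyM2, hyN⟩ := hcom M2 (hM2s.trans hM1s) (by omega)
    rw [hM2V, mem_sdiff, hM1V, mem_sdiff, mem_insert, mem_singleton, mem_insert, mem_singleton]
      at hyM2
    push Not at hyM2
    rcases hcommon y hyM2.1.1 hyN with h' | h'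
    · exact hyM2.1.2.2 h'
    · exact hyM2.2.2 h'
  subst hk
  obtain ⟨y0, hy0N, hy0v, hQy0, N1, hN1, hN1c, hN1V, hN1s⟩ := hN.pick hQ hvN
  have huW := hM.VS_sub huM
  have hvW := hM.VS_sub hvM
  have hwW := hM.VS_sub hwM
  have hxW := hM.VS_sub hxM
  by_cases hy0w : y0 = w
  · subst hy0w
    obtain ⟨r, hr⟩ := card_pos.1 (show 0 < N1.card by omega)
    have hrm := hN1.mem r hr
    have hr1 : r.1 ∈ VS N1 := mem_VS.2 ⟨r, hr, Or.inl rfl⟩
    have hr2 : r.2 ∈ VS N1 := mem_VS.2 ⟨r, hr, Or.inr rfl⟩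
    rw [hN1V, mem_sdiff, mem_insert, mem_singleton] at hr1 hr2
    push Not at hr1 hr2
    set y := r.1 with hy
    set z := r.2 with hz
    have hyM : y ∉ VS M := by
      intro h
      rcases hcommon y h hr1.1 with h' | h'
      · exact hr1.2.2 h'
      · exact hr1.2.1 h'
    have hzM : z ∉ VS M := by
      intro h
      rcases hcommon z h hr2.1 with h' | h'
      · exact hr2.2.2 h'
      · exact hr2.2.1 h'
    have hQyz : Q y z := hrm.2.2.2
    have hyz : y ≠ z := hrm.2.2.1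
    have hyW : y ∈ W := hrm.1
    have hzW : z ∈ W := hrm.2.1
    have huy : u ≠ y := fun h => hyM (h ▸ huM)
    have huz : u ≠ z := fun h => hzM (h ▸ huM)
    have hvy : v ≠ y := fun h => hyM (h ▸ hvM)
    have hvz : v ≠ z := fun h => hzM (h ▸ hvM)
    have hwy : y0 ≠ y := fun h => hyM (h ▸ hwM)
    have hwz : y0 ≠ z := fun h => hzM (h ▸ hwM)
    have hxy : x ≠ y := fun h => hyM (h ▸ hxM)
    have hxz : x ≠ z := fun h => hzM (h ▸ hxM)
    have fin : ∀ a b c d e f : V, a ∈ W → b ∈ W → c ∈ W → Ch P Q a b c →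
        d ∈ W → e ∈ W → f ∈ W → d ≠ e → e ≠ f → P d e → Q e f →
        a ≠ d → a ≠ e → a ≠ f → b ≠ d → b ≠ e → b ≠ f → c ≠ d → c ≠ e → c ≠ f →
        Red P Q W (0 + 1) := by
      intro a b c d e f ha hb hc' hch hd he hf hde hef hPde hQef h1 h2 h3 h4 h5 h6 h7 h8 h9
      have hm1 : ∀ t, t ≠ a → t ≠ b → t ≠ c → t ∈ W → t ∈ W \ {a, b, c} := by
        intro t h1 h2 h3 h4
        rw [mem_sdiff, mem_insert, mem_insert, mem_singleton]
        exact ⟨h4, by tauto⟩
      refine ⟨a, b, c, ha, hb, hc', hch, {(d, e)}, {(e, f)}, ?_, ?_, ?_, ?_⟩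
      · exact IsM.single (hm1 d h1.symm h4.symm h7.symm hd) (hm1 e h2.symm h5.symm h8.symm he)
          hde hPde
      · exact IsM.single (hm1 e h2.symm h5.symm h8.symm he) (hm1 f h3.symm h6.symm h9.symm hf)
          hef hQef
      · rw [card_singleton]
      · rw [card_singleton]
    -- first partition: {u,y,z} and {x,w,v}
    rcases hPQ u y huy with h1 | h1
    · exact fin u y z x y0 v huW hyW hzW ⟨huy, hyz, huz, h1, hQyz⟩ hxW hwW hvW hxw hwv
        hPxw hQy0 hxu.symm hwu.symm huv hxy.symm hwy.symm hvy.symm hxz.symm hwz.symm hvz.symm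
    rcases hPQ u z huz with h2 | h2
    · exact fin u z y x y0 v huW hzW hyW ⟨huz, hyz.symm, huy, h2, hQ _ _ hQyz⟩ hxW hwW hvW hxw hwv
        hPxw hQy0 hxu.symm hwu.symm huv hxz.symm hwz.symm hvz.symm hxy.symm hwy.symm hvy.symm
    -- second partition: {x,y,z} and {u,v,w}
    rcases hPQ x y hxy with h3 | h3
    · exact fin x y z u v y0 hxW hyW hzW ⟨hxy, hyz, hxz, h3, hQyz⟩ huW hvW hwW huv hwv.symm
        hPuv (hQ _ _ hQy0) hxu hxv hxw huy.symm hvy.symm hwy.symm huz.symm hvz.symm hwz.symm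
    rcases hPQ x z hxz with h4 | h4
    · exact fin x z y u v y0 hxW hzW hyW ⟨hxz, hyz.symm, hxy, h4, hQ _ _ hQyz⟩ huW hvW hwW huv
        hwv.symm hPuv (hQ _ _ hQy0) hxu hxv hxw huz.symm hvz.symm hwz.symm huy.symm hvy.symm
        hwy.symm
    -- third partition: {v,u,y} and {w,x,z}
    exact fin v u y y0 x z hvW huW hyW ⟨huv.symm, huy, hvy, hP _ _ hPuv, h1⟩ hwW hxW hzW hxw.symm
      hxz (hP _ _ hPxw) h4 hwv.symm hxv.symm hvz hwu.symm hxu.symm huz hwy.symm hxy.symm hyz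
  · -- a path of length two
    have hy0M : y0 ∉ VS M := by
      intro h
      rcases hcommon y0 h hy0N with h' | h'
      · exact hy0v h'
      · exact hy0w h'
    have hy0u : y0 ≠ u := fun h => hy0M (h ▸ huM)
    refine red_of hM1 hN1 (by omega) (by omega) huW hvW (hN.VS_sub hy0N)
      ⟨huv, hy0v.symm, hy0u.symm, hPuv, hQ _ _ hQy0⟩ ?_ ?_ ?_ ?_ ?_ ?_
    · rw [hM1V]; simp
    · rw [hM1V]; simp
    · rw [hM1V]; intro h; exact hy0M (mem_sdiff.1 h).1
    · rw [hN1V]; intro h; exact huN (mem_sdiff.1 h).1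
    · rw [hN1V]; simp
    · rw [hN1V]; simp

/-- one step reduction -/
theorem red_step {P Q : V → V → Prop} (hP : ∀ a b, P a b → P b a) (hQ : ∀ a b, Q a b → Q b a)
    (hPQ : ∀ a b, a ≠ b → P a b ∨ Q a b) {W : Finset V} {k : ℕ} (hW : 4 * k + 6 ≤ W.card)
    (c : ℕ) : ∀ M N : Finset (V × V), (VS M ∩ VS N).card = c →
    IsM P W M → IsM Q W N → M.card = k + 2 → N.card = k + 2 → Red P Q W (k + 1) := by
  induction c using Nat.strong_induction_on with
  | _ c ih =>
  intro M N hcMN hM hN hMk hNk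
  by_cases hZ : ∃ z, z ∈ W ∧ z ∉ VS M ∧ z ∉ VS N
  · obtain ⟨z, hzW, hzM, hzN⟩ := hZ
    by_cases hcom : ∃ v, v ∈ VS M ∧ v ∈ VS N
    · obtain ⟨v, hvM, hvN⟩ := hcom
      obtain ⟨u, huM, huv, hPuv, M1, hM1, hM1c, hM1V, hM1s⟩ := hM.pick hP hvM
      obtain ⟨w, hwN, hwv, hQwv, N1, hN1, hN1c, hN1V, hN1s⟩ := hN.pick hQ hvN
      have hzv : z ≠ v := fun h => hzM (h ▸ hvM)
      have hzu : z ≠ u := fun h => hzM (h ▸ huM)
      have hzw : z ≠ w := fun h => hzN (h ▸ hwN)
      have hvW := hM.VS_sub hvM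
      have huW := hM.VS_sub huM
      have hwW := hN.VS_sub hwN
      -- replacing an edge of M
      have repM : ∀ s : V, s = u ∨ s = v → (∃ o, (o = u ∨ o = v) ∧ o ≠ s ∧ o ∈ VS N) → P z s →
          Red P Q W (k + 1) := by
        rintro s hs ⟨o, ho, hos, hoN⟩ hPzs
        have hsW : s ∈ W := by rcases hs with rfl | rfl <;> assumption
        have hzs : z ≠ s := by rcases hs with rfl | rfl <;> assumption
        obtain ⟨M2, hM2, hM2c, hM2V⟩ := hM1.add hzW hsW hzs hPzs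
          (by rw [hM1V]; intro h; exact hzM (mem_sdiff.1 h).1)
          (by rw [hM1V]; intro h; rw [mem_sdiff, mem_insert, mem_singleton] at h; exact h.2 hs)
        refine ih ((VS M2 ∩ VS N).card) ?_ M2 N rfl hM2 hN (by omega) hNk
        rw [← hcMN]
        refine card_lt_card ?_
        have hoM : o ∈ VS M := by rcases ho with rfl | rfl <;> assumption
        refine (Finset.ssubset_iff_of_subset ?_).2 ⟨o, mem_inter.2 ⟨hoM, hoN⟩, ?_⟩
        · intro t ht
          rw [mem_inter, hM2V, mem_union, hM1V, mem_sdiff, mem_insert, mem_singleton, mem_insert,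
            mem_singleton] at ht
          rw [mem_inter]
          refine ⟨?_, ht.2⟩
          rcases ht.1 with h | h | h
          · exact h.1
          · rw [h] at ht; exact absurd ht.2 hzN
          · rw [h]
            rcases hs with rfl | rfl <;> assumption
        · intro h
          rw [mem_inter, hM2V, mem_union, hM1V, mem_sdiff, mem_insert, mem_singleton, mem_insert,
            mem_singleton] at h
          rcases h.1 with h' | h' | h'
          · exact h'.2 ho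
          · rw [h'] at hoN; exact hzN hoN
          · exact hos h'
      have repN : ∀ s : V, s = w ∨ s = v → (∃ o, (o = w ∨ o = v) ∧ o ≠ s ∧ o ∈ VS M) → Q z s →
          Red P Q W (k + 1) := by
        rintro s hs ⟨o, ho, hos, hoM⟩ hQzs
        have hsW : s ∈ W := by rcases hs with rfl | rfl <;> assumption
        have hzs : z ≠ s := by rcases hs with rfl | rfl <;> assumption
        obtain ⟨N2, hN2, hN2c, hN2V⟩ := hN1.add hzW hsW hzs hQzs
          (by rw [hN1V]; intro h; exact hzN (mem_sdiff.1 h).1)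
          (by rw [hN1V]; intro h; rw [mem_sdiff, mem_insert, mem_singleton] at h; exact h.2 hs)
        refine ih ((VS M ∩ VS N2).card) ?_ M N2 rfl hM hN2 hMk (by omega)
        rw [← hcMN]
        refine card_lt_card ?_
        have hoN : o ∈ VS N := by rcases ho with rfl | rfl <;> assumption
        refine (Finset.ssubset_iff_of_subset ?_).2 ⟨o, mem_inter.2 ⟨hoM, hoN⟩, ?_⟩
        · intro t ht
          rw [mem_inter, hN2V, mem_union, hN1V, mem_sdiff, mem_insert, mem_singleton, mem_insert,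
            mem_singleton] at ht
          rw [mem_inter]
          refine ⟨ht.1, ?_⟩
          rcases ht.2 with h | h | h
          · exact h.1
          · rw [h] at ht; exact absurd ht.1 hzM
          · rw [h]
            rcases hs with rfl | rfl <;> assumption
        · intro h
          rw [mem_inter, hN2V, mem_union, hN1V, mem_sdiff, mem_insert, mem_singleton, mem_insert,
            mem_singleton] at h
          rcases h.2 with h' | h' | h'
          · exact h'.2 ho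
          · rw [h'] at hoM; exact hzM hoM
          · exact hos h'
      have hzM1 : z ∉ VS M1 := by rw [hM1V]; intro h; exact hzM (mem_sdiff.1 h).1
      have hzN1 : z ∉ VS N1 := by rw [hN1V]; intro h; exact hzN (mem_sdiff.1 h).1
      have huM1 : u ∉ VS M1 := by rw [hM1V]; simp
      have hvM1 : v ∉ VS M1 := by rw [hM1V]; simp
      have hwN1 : w ∉ VS N1 := by rw [hN1V]; simp
      have hvN1 : v ∉ VS N1 := by rw [hN1V]; simp
      by_cases huN : u ∈ VS N
      · -- z v must be a Q edge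
        rcases hPQ z v hzv with h1 | h1
        · exact repM v (Or.inr rfl) ⟨u, Or.inl rfl, huv, huN⟩ h1
        · by_cases hwM : w ∈ VS M
          · exact repN v (Or.inr rfl) ⟨w, Or.inl rfl, hwv, hwM⟩ h1
          · rcases hPQ z w hzw with h2 | h2
            · refine red_of hM1 hN1 (by omega) (by omega) hzW hwW hvW
                ⟨hzw, hwv, hzv, h2, hQwv⟩ hzM1 ?_ hvM1 hzN1 hwN1 hvN1
              rw [hM1V]; intro h; exact hwM (mem_sdiff.1 h).1
            · exact repN w (Or.inl rfl) ⟨v, Or.inr rfl, hwv.symm, hvM⟩ h2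
      · have huN1 : u ∉ VS N1 := by rw [hN1V]; intro h; exact huN (mem_sdiff.1 h).1
        by_cases hwM : w ∈ VS M
        · rcases hPQ z v hzv with h1 | h1
          · rcases hPQ z u hzu with h2 | h2
            · exact repM u (Or.inl rfl) ⟨v, Or.inr rfl, huv.symm, hvN⟩ h2
            · exact red_of hM1 hN1 (by omega) (by omega) hvW huW hzW
                ⟨huv.symm, hzu.symm, hzv.symm, hP _ _ hPuv, hQ _ _ h2⟩ hvM1 huM1 hzM1
                hvN1 huN1 hzN1
          · exact repN v (Or.inr rfl) ⟨w, Or.inl rfl, hwv, hwM⟩ h1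
        · have huw : u ≠ w := fun h => huN (h ▸ hwN)
          refine red_of hM1 hN1 (by omega) (by omega) huW hvW hwW
            ⟨huv, hwv.symm, huw, hPuv, hQ _ _ hQwv⟩ huM1 hvM1 ?_ huN1 hvN1 hwN1
          rw [hM1V]; intro h; exact hwM (mem_sdiff.1 h).1
    · push Not at hcom
      obtain ⟨p, hp⟩ := card_pos.1 (show 0 < M.card by omega)
      obtain ⟨q, hq⟩ := card_pos.1 (show 0 < N.card by omega)
      exact red_far hPQ hM hN (by omega) (by omega) hp hq
        (hcom _ (mem_VS.2 ⟨p, hp, Or.inl rfl⟩)) (hcom _ (mem_VS.2 ⟨p, hp, Or.inr rfl⟩))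
        (fun h => hcom _ h (mem_VS.2 ⟨q, hq, Or.inl rfl⟩))
        (fun h => hcom _ h (mem_VS.2 ⟨q, hq, Or.inr rfl⟩))
  · push Not at hZ
    have hsub : W ⊆ VS M ∪ VS N := by
      intro z hz
      rw [mem_union]
      by_cases h : z ∈ VS M
      · exact Or.inl h
      · exact Or.inr (hZ z hz h)
    have h1 := card_le_card hsub
    have h2 := card_union_add_card_inter (VS M) (VS N)
    rw [hM.card_VS, hN.card_VS] at h2
    have hc2 : (VS M ∩ VS N).card ≤ 2 := by omega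
    by_cases hall : ∀ p ∈ M, p.1 ∈ VS N ∨ p.2 ∈ VS N
    · exact red_tight hP hQ hPQ hM hN hMk hNk hc2 hall
    by_cases hall' : ∀ p ∈ N, p.1 ∈ VS M ∨ p.2 ∈ VS M
    · refine Red.symm hQ hP (red_tight hQ hP (fun a b h => (hPQ a b h).symm) hN hM hNk hMk ?_ hall')
      rw [inter_comm]; exact hc2
    push Not at hall hall'
    obtain ⟨p, hp, hp1, hp2⟩ := hall
    obtain ⟨q, hq, hq1, hq2⟩ := hall'
    exact red_far hPQ hM hN (by omega) (by omega) hp hq hp1 hp2 hq1 hq2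

end Pool.Agent.V11147.Sim
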