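import Mathlib
import Pool.Agent.V11147.SimA

open Finset

namespace Pool.Agent.V11147.Sim

variable {V : Type*} [DecidableEq V]

/-- `m` disjoint cherries with a `P`-edge and a `Q`-edge -/
def Tri (P Q : V → V → Prop) (W : Finset V) (m : ℕ) : Prop :=
  ∃ a b c : Fin m → V, (∀ i, a i ∈ W ∧ b i ∈ W ∧ c i ∈ W ∧ Ch P Q (a i) (b i) (c i)) ∧
    ∀ i j, i ≠ j → ∀ x, x ∈ ({a i, b i, c i} : Finset V) → x ∉ ({a j, b j, c j} : Finset V)

theorem Tri.cons {P Q : V → V → Prop} {W : Finset V} {m : ℕ} {a0 b0 c0 : V}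
    (ha : a0 ∈ W) (hb : b0 ∈ W) (hc : c0 ∈ W) (h0 : Ch P Q a0 b0 c0)
    (h : Tri P Q (W \ {a0, b0, c0}) m) : Tri P Q W (m + 1) := by
  obtain ⟨a, b, c, h1, h2⟩ := h
  have key : ∀ i x, x ∈ ({a i, b i, c i} : Finset V) → x ∉ ({a0, b0, c0} : Finset V) := by
    intro i x hx
    rw [mem_insert, mem_insert, mem_singleton] at hx
    rcases hx with rfl | rfl | rfl
    · exact (mem_sdiff.1 (h1 i).1).2
    · exact (mem_sdiff.1 (h1 i).2.1).2
    · exact (mem_sdiff.1 (h1 i).2.2.1).2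
  refine ⟨Fin.cons a0 a, Fin.cons b0 b, Fin.cons c0 c, ?_, ?_⟩
  · intro i
    refine Fin.cases ?_ (fun j => ?_) i
    · exact ⟨ha, hb, hc, h0⟩
    · simp only [Fin.cons_succ]
      exact ⟨(mem_sdiff.1 (h1 j).1).1, (mem_sdiff.1 (h1 j).2.1).1, (mem_sdiff.1 (h1 j).2.2.1).1,
        (h1 j).2.2.2⟩
  · intro i j
    refine Fin.cases ?_ (fun i' => ?_) i
    · refine Fin.cases ?_ (fun j' => ?_) j
      · intro h; exact absurd rfl h
      · intro _ x hx hx'
        simp only [Fin.cons_zero, Fin.cons_succ] at hx hx'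
        exact key j' x hx' hx
    · refine Fin.cases ?_ (fun j' => ?_) j
      · intro _ x hx hx'
        simp only [Fin.cons_zero, Fin.cons_succ] at hx hx'
        exact key i' x hx hx'
      · intro h x hx
        simp only [Fin.cons_succ] at hx ⊢
        exact h2 i' j' (fun h' => h (by rw [h'])) x hx

theorem cherry {P Q : V → V → Prop} (hP : ∀ a b, P a b → P b a) (hQ : ∀ a b, Q a b → Q b a)
    (hPQ : ∀ a b, a ≠ b → P a b ∨ Q a b) {W : Finset V} (hW : 3 ≤ W.card)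
    {a b c d : V} (ha : a ∈ W) (hb : b ∈ W) (hc : c ∈ W) (hd : d ∈ W) (hab : a ≠ b) (hcd : c ≠ d)
    (h1 : P a b) (h2 : Q c d) : ∃ x y z, x ∈ W ∧ y ∈ W ∧ z ∈ W ∧ Ch P Q x y z := by
  -- a version with one end of the second edge outside
  have key : ∀ c d, c ∈ W → d ∈ W → c ≠ d → Q c d → c ≠ a → c ≠ b →
      ∃ x y z, x ∈ W ∧ y ∈ W ∧ z ∈ W ∧ Ch P Q x y z := by
    intro c d hc hd hcd h2 hca hcb
    by_cases hda : d = a
    · subst hda
      exact ⟨b, d, c, hb, hd, hc, hab.symm, hcd.symm, hcb.symm, hP _ _ h1, hQ _ _ h2⟩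
    by_cases hdb : d = b
    · subst hdb
      exact ⟨a, d, c, ha, hd, hc, hab, hcd.symm, hca.symm, h1, hQ _ _ h2⟩
    rcases hPQ b c hcb.symm with h | h
    · exact ⟨b, c, d, hb, hc, hd, hcb.symm, hcd, fun h => hdb h.symm, h, h2⟩
    · exact ⟨a, b, c, ha, hb, hc, hab, hcb.symm, hca.symm, h1, h⟩
  by_cases hc' : c ≠ a ∧ c ≠ b
  · exact key c d hc hd hcd h2 hc'.1 hc'.2
  by_cases hd' : d ≠ a ∧ d ≠ b
  · exact key d c hd hc hcd.symm (hQ _ _ h2) hd'.1 hd'.2
  -- same edge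
  have hQab : Q a b := by
    by_cases h3 : c = a
    · subst h3
      by_cases h4 : d = b
      · subst h4; exact h2
      · exact absurd ⟨hcd.symm, h4⟩ hd'
    · by_cases h4 : c = b
      · subst h4
        by_cases h5 : d = a
        · subst h5; exact hQ _ _ h2
        · exact absurd ⟨h5, hcd.symm⟩ hd'
      · exact absurd ⟨h3, h4⟩ hc'
  obtain ⟨z, hz, hza, hzb⟩ : ∃ z ∈ W, z ≠ a ∧ z ≠ b := by
    by_contra hcon
    push Not at hcon
    have : W ⊆ {a, b} := by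
      intro z hz
      rw [mem_insert, mem_singleton]
      by_cases h : z = a
      · exact Or.inl h
      · exact Or.inr (hcon z hz h)
    have := card_le_card this
    have := card_le_two (a := a) (b := b)
    omega
  rcases hPQ b z hzb.symm with h | h
  · exact ⟨z, b, a, hz, hb, ha, hzb, hab.symm, hza, hP _ _ h, hQ _ _ hQab⟩
  · exact ⟨a, b, z, ha, hb, hz, hab, hzb.symm, hza.symm, h1, h⟩

/-- two colours with large matchings give many disjoint bichromatic cherries -/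
theorem tri_of {P Q : V → V → Prop} (hP : ∀ a b, P a b → P b a) (hQ : ∀ a b, Q a b → Q b a)
    (hPQ : ∀ a b, a ≠ b → P a b ∨ Q a b) (m : ℕ) : ∀ (W : Finset V) (M N : Finset (V × V)),
    3 ≤ W.card → 4 * m + 2 ≤ W.card → IsM P W M → IsM Q W N → M.card = m + 1 →
    N.card = m + 1 → Tri P Q W (m + 1) := by
  induction m with
  | zero =>
    intro W M N h3 _ hM hN hMc hNc
    obtain ⟨p, hp⟩ := card_pos.1 (show 0 < M.card by omega)
    obtain ⟨q, hq⟩ := card_pos.1 (show 0 < N.card by omega)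
    have hp' := hM.mem p hp
    have hq' := hN.mem q hq
    obtain ⟨x, y, z, hx, hy, hz, h⟩ := cherry hP hQ hPQ h3 hp'.1 hp'.2.1 hq'.1 hq'.2.1 hp'.2.2.1
      hq'.2.2.1 hp'.2.2.2 hq'.2.2.2
    refine Tri.cons hx hy hz h ⟨Fin.elim0, Fin.elim0, Fin.elim0, fun i => i.elim0,
      fun i => i.elim0⟩
  | succ m ih =>
    intro W M N h3 hW hM hN hMc hNc
    obtain ⟨a, b, c, ha, hb, hc, hch, M', N', hM', hN', hMc', hNc'⟩ :=
      red_step hP hQ hPQ (W := W) (k := m) (by omega) _ M N rfl hM hN hMc hNc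
    refine Tri.cons ha hb hc hch (ih _ M' N' ?_ ?_ hM' hN' hMc' hNc')
    · have h1 := le_card_sdiff ({a, b, c} : Finset V) W
      have h2 := card_le_three (a := a) (b := b) (c := c)
      omega
    · have h1 := le_card_sdiff ({a, b, c} : Finset V) W
      have h2 := card_le_three (a := a) (b := b) (c := c)
      omega

/-- `D` contains a `P`-edge -/
def HasE (P : V → V → Prop) (D : Finset V) : Prop := ∃ a ∈ D, ∃ b ∈ D, a ≠ b ∧ P a b

theorem HasE.mono {P : V → V → Prop} {D D' : Finset V} (h : HasE P D) (hD : D ⊆ D') :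
    HasE P D' := by
  obtain ⟨a, ha, b, hb, h⟩ := h
  exact ⟨a, hD ha, b, hD hb, h⟩

theorem four {P Q R : V → V → Prop} (hP : ∀ a b, P a b → P b a) (hQ : ∀ a b, Q a b → Q b a)
    (hR : ∀ a b, R a b → R b a)
    (hPQR : ∀ a b, a ≠ b → P a b ∨ Q a b ∨ R a b) {W : Finset V}
    (h1 : HasE P W) (h2 : HasE Q W) (h3 : HasE R W) :
    ∃ D ⊆ W, D.card ≤ 4 ∧ HasE P D ∧ HasE Q D ∧ HasE R D := by
  -- from four vertices
  have mk : ∀ w x y z : V, w ∈ W → x ∈ W → y ∈ W → z ∈ W →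
      HasE P {w, x, y, z} → HasE Q {w, x, y, z} → HasE R {w, x, y, z} →
      ∃ D ⊆ W, D.card ≤ 4 ∧ HasE P D ∧ HasE Q D ∧ HasE R D := by
    intro w x y z hw hx hy hz hp hq hr
    refine ⟨{w, x, y, z}, ?_, card_le_four, hp, hq, hr⟩
    intro t ht
    simp only [mem_insert, mem_singleton] at ht
    rcases ht with rfl | rfl | rfl | rfl <;> assumption
  -- from a cherry
  have ch : ∀ x y z : V, x ∈ W → y ∈ W → z ∈ W → x ≠ y → y ≠ z → P x y → Q y z →
      ∃ D ⊆ W, D.card ≤ 4 ∧ HasE P D ∧ HasE Q D ∧ HasE R D := by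
    intro x y z hx hy hz hxy hyz hPxy hQyz
    obtain ⟨p, hp, q, hq, hpq, hRpq⟩ := h3
    by_cases hpy : p = y
    · subst hpy
      exact mk x p z q hx hp hz hq ⟨x, by simp, p, by simp, hxy, hPxy⟩
        ⟨p, by simp, z, by simp, hyz, hQyz⟩ ⟨p, by simp, q, by simp, hpq, hRpq⟩
    · rcases hPQR p y hpy with h | h | h
      · exact mk p q y z hp hq hy hz ⟨p, by simp, y, by simp, hpy, h⟩
          ⟨y, by simp, z, by simp, hyz, hQyz⟩ ⟨p, by simp, q, by simp, hpq, hRpq⟩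
      · exact mk p q y x hp hq hy hx ⟨x, by simp, y, by simp, hxy, hPxy⟩
          ⟨p, by simp, y, by simp, hpy, h⟩ ⟨p, by simp, q, by simp, hpq, hRpq⟩
      · exact mk p y x z hp hy hx hz ⟨x, by simp, y, by simp, hxy, hPxy⟩
          ⟨y, by simp, z, by simp, hyz, hQyz⟩ ⟨p, by simp, y, by simp, hpy, h⟩
  obtain ⟨a, ha, b, hb, hab, hPab⟩ := h1
  obtain ⟨c, hc, d, hd, hcd, hQcd⟩ := h2
  by_cases hbc : b = c
  · subst hbc
    exact ch a b d ha hb hd hab hcd hPab hQcd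
  · rcases hPQR b c hbc with h | h | h
    · exact ch b c d hb hc hd hbc hcd h hQcd
    · exact ch a b c ha hb hc hab hbc hPab h
    · exact mk a b c d ha hb hc hd ⟨a, by simp, b, by simp, hab, hPab⟩
        ⟨c, by simp, d, by simp, hcd, hQcd⟩ ⟨b, by simp, c, by simp, hbc, h⟩

theorem two {P Q : V → V → Prop} (W : Finset V) :
    ∃ D ⊆ W, D.card ≤ 4 ∧ (HasE P W → HasE P D) ∧ (HasE Q W → HasE Q D) := by
  have one : ∀ P : V → V → Prop, ∃ D ⊆ W, D.card ≤ 2 ∧ (HasE P W → HasE P D) := by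
    intro P
    by_cases h : HasE P W
    · obtain ⟨a, ha, b, hb, hab, hPab⟩ := h
      refine ⟨{a, b}, ?_, card_le_two, fun _ => ⟨a, by simp, b, by simp, hab, hPab⟩⟩
      intro t ht
      simp only [mem_insert, mem_singleton] at ht
      rcases ht with rfl | rfl <;> assumption
    · exact ⟨∅, empty_subset _, by simp, fun h' => absurd h' h⟩
  obtain ⟨D1, h1, h2, h3⟩ := one P
  obtain ⟨D2, h4, h5, h6⟩ := one Q
  refine ⟨D1 ∪ D2, union_subset h1 h4, ?_, fun h => (h3 h).mono subset_union_left,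
    fun h => (h6 h).mono subset_union_right⟩
  have := card_union_le D1 D2
  omega

theorem four' {P Q R : V → V → Prop} (hP : ∀ a b, P a b → P b a) (hQ : ∀ a b, Q a b → Q b a)
    (hR : ∀ a b, R a b → R b a)
    (hPQR : ∀ a b, a ≠ b → P a b ∨ Q a b ∨ R a b) (W : Finset V) :
    ∃ D ⊆ W, D.card ≤ 4 ∧ (HasE P W → HasE P D) ∧ (HasE Q W → HasE Q D) ∧
      (HasE R W → HasE R D) := by
  by_cases h1 : HasE P W
  · by_cases h2 : HasE Q W
    · by_cases h3 : HasE R W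
      · obtain ⟨D, hD, h4, h5, h6, h7⟩ := four hP hQ hR hPQR h1 h2 h3
        exact ⟨D, hD, h4, fun _ => h5, fun _ => h6, fun _ => h7⟩
      · obtain ⟨D, hD, h4, h5, h6⟩ := two (P := P) (Q := Q) W
        exact ⟨D, hD, h4, h5, h6, fun h => absurd h h3⟩
    · obtain ⟨D, hD, h4, h5, h6⟩ := two (P := P) (Q := R) W
      exact ⟨D, hD, h4, h5, fun h => absurd h h2, h6⟩
  · obtain ⟨D, hD, h4, h5, h6⟩ := two (P := Q) (Q := R) W
    exact ⟨D, hD, h4, fun h => absurd h h1, h5, h6⟩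

/-- three colours -/
theorem three {P Q R : V → V → Prop} (hP : ∀ a b, P a b → P b a) (hQ : ∀ a b, Q a b → Q b a)
    (hR : ∀ a b, R a b → R b a)
    (hPQR : ∀ a b, a ≠ b → P a b ∨ Q a b ∨ R a b) (t : ℕ) : ∀ W : Finset V,
    4 * t + 2 ≤ W.card → (∃ M, IsM P W M ∧ M.card = t + 1) ∨ (∃ M, IsM Q W M ∧ M.card = t + 1) ∨
      (∃ M, IsM R W M ∧ M.card = t + 1) := by
  induction t with
  | zero =>
    intro W hW
    obtain ⟨a, ha, b, hb, hab⟩ := Finset.one_lt_card.1 (show 1 < W.card by omega)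
    rcases hPQR a b hab with h | h | h
    · exact Or.inl ⟨_, IsM.single ha hb hab h, card_singleton _⟩
    · exact Or.inr (Or.inl ⟨_, IsM.single ha hb hab h, card_singleton _⟩)
    · exact Or.inr (Or.inr ⟨_, IsM.single ha hb hab h, card_singleton _⟩)
  | succ t ih =>
    intro W hW
    obtain ⟨D, hD, h4, h5, h6, h7⟩ := four' hP hQ hR hPQR W
    have hc : 4 * t + 2 ≤ (W \ D).card := by
      have := le_card_sdiff D W
      omega
    have ext : ∀ S : V → V → Prop, (HasE S W → HasE S D) →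
        (∃ M, IsM S (W \ D) M ∧ M.card = t + 1) → ∃ M, IsM S W M ∧ M.card = t + 1 + 1 := by
      rintro S hS ⟨M, hM, hMc⟩
      obtain ⟨p, hp⟩ := card_pos.1 (show 0 < M.card by omega)
      have hp' := hM.mem p hp
      obtain ⟨a, ha, b, hb, hab, hSab⟩ := hS ⟨p.1, (mem_sdiff.1 hp'.1).1, p.2,
        (mem_sdiff.1 hp'.2.1).1, hp'.2.2.1, hp'.2.2.2⟩
      have hM' : IsM S W M := hM.restrict (hM.VS_sub.trans sdiff_subset)
      obtain ⟨M', h1, h2, -⟩ := hM'.add (hD ha) (hD hb) hab hSab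
        (fun h => (mem_sdiff.1 (hM.VS_sub h)).2 ha) (fun h => (mem_sdiff.1 (hM.VS_sub h)).2 hb)
      exact ⟨M', h1, by omega⟩
    rcases ih (W \ D) hc with h | h | h
    · exact Or.inl (ext P h5 h)
    · exact Or.inr (Or.inl (ext Q h6 h))
    · exact Or.inr (Or.inr (ext R h7 h))

end Pool.Agent.V11147.Sim
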