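import Mathlib

namespace Pool.Agent.V11147.Sim

section tree

variable {N : Type*}

/-- the component of `b` after deleting the edge `ab` -/
def comp (T : SimpleGraph N) (a b : N) : Set N :=
  {v | (T.deleteEdges {s(a, b)}).Reachable b v}

theorem comp_self (T : SimpleGraph N) (a b : N) : b ∈ comp T a b := SimpleGraph.Reachable.refl b

/-- induction principle for reachable vertices -/
theorem reach_ind {G : SimpleGraph N} {b : N} {p : N → Prop} (h0 : p b)
    (hs : ∀ v v', p v → G.Adj v v' → p v') {v : N} (h : G.Reachable b v) : p v := by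
  obtain ⟨w⟩ := h
  have : ∀ {x y : N} (w : G.Walk x y), p x → p y := by
    intro x y w
    induction w with
    | nil => exact id
    | cons hadj _ ih => exact fun hx => ih (hs _ _ hx hadj)
  exact this w h0

theorem comp_union {T : SimpleGraph N} (hT : T.Connected) (a b v : N) :
    v ∈ comp T a b ∨ v ∈ comp T b a := by
  refine reach_ind (G := T) (b := b) (p := fun v => v ∈ comp T a b ∨ v ∈ comp T b a)
    (Or.inl (comp_self T a b)) ?_ (hT.preconnected b v)
  intro v v' hv hadj
  by_cases he : s(v, v') = s(a, b)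
  · rw [Sym2.eq_iff] at he
    rcases he with ⟨_, h⟩ | ⟨_, h⟩
    · left; rw [h]; exact comp_self T a b
    · right; rw [h]; exact comp_self T b a
  · rcases hv with hv | hv
    · left
      refine SimpleGraph.Reachable.trans hv (SimpleGraph.Adj.reachable ?_)
      rw [SimpleGraph.deleteEdges_adj]
      exact ⟨hadj, fun h => he h⟩
    · right
      refine SimpleGraph.Reachable.trans hv (SimpleGraph.Adj.reachable ?_)
      rw [SimpleGraph.deleteEdges_adj]
      refine ⟨hadj, fun h => he ?_⟩
      rw [Set.mem_singleton_iff] at h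
      rw [h, Sym2.eq_swap]

theorem not_mem_comp {T : SimpleGraph N} (hT : T.IsAcyclic) {a b : N} (h : T.Adj a b) :
    a ∉ comp T a b := by
  intro hm
  have := (SimpleGraph.isAcyclic_iff_forall_adj_isBridge.1 hT) h
  rw [SimpleGraph.isBridge_iff] at this
  exact this hm.symm

theorem comp_disj {T : SimpleGraph N} (hT : T.IsAcyclic) {a b : N} (h : T.Adj a b) {v : N}
    (h1 : v ∈ comp T a b) : v ∉ comp T b a := by
  intro h2
  refine not_mem_comp hT h ?_
  have h2' : (T.deleteEdges {s(a, b)}).Reachable a v := by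
    have := h2
    unfold comp at this
    rw [Set.mem_setOf_eq, Sym2.eq_swap] at this
    exact this
  exact SimpleGraph.Reachable.trans h1 h2'.symm

theorem comp_cover {T : SimpleGraph N} {a b v : N} (h : v ∈ comp T a b) :
    v = b ∨ ∃ w, T.Adj b w ∧ w ≠ a ∧ v ∈ comp T b w := by
  refine reach_ind (p := fun v => v = b ∨ ∃ w, T.Adj b w ∧ w ≠ a ∧ v ∈ comp T b w)
    (Or.inl rfl) ?_ h
  intro v v' hv hadj
  rw [SimpleGraph.deleteEdges_adj] at hadj
  obtain ⟨hadj, hne⟩ := hadj
  by_cases hv' : v' = b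
  · exact Or.inl hv'
  right
  rcases hv with hv | ⟨w, hw1, hw2, hw3⟩
  · subst hv
    refine ⟨v', hadj, ?_, comp_self T v v'⟩
    rintro rfl
    exact hne (by rw [Set.mem_singleton_iff, Sym2.eq_swap])
  · by_cases he : s(v, v') = s(b, w)
    · rw [Sym2.eq_iff] at he
      rcases he with ⟨_, h⟩ | ⟨_, h⟩
      · exact ⟨w, hw1, hw2, h ▸ comp_self T b w⟩
      · exact absurd h hv'
    · refine ⟨w, hw1, hw2, SimpleGraph.Reachable.trans hw3 (SimpleGraph.Adj.reachable ?_)⟩
      rw [SimpleGraph.deleteEdges_adj]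
      exact ⟨hadj, fun h => he h⟩

theorem comp_sub {T : SimpleGraph N} (hT : T.IsAcyclic) {a b w : N} (hbw : T.Adj b w)
    (hwa : w ≠ a) : comp T b w ⊆ comp T a b := by
  intro v hv
  have hb : b ∉ comp T b w := not_mem_comp hT hbw
  have : v ∈ comp T b w ∧ v ∈ comp T a b := by
    refine reach_ind (p := fun v => v ∈ comp T b w ∧ v ∈ comp T a b) ?_ ?_ hv
    · refine ⟨comp_self T b w, SimpleGraph.Adj.reachable ?_⟩
      rw [SimpleGraph.deleteEdges_adj]
      refine ⟨hbw, fun h => ?_⟩
      rw [Set.mem_singleton_iff, Sym2.eq_iff] at h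
      rcases h with ⟨h1, h2⟩ | ⟨_, h2⟩
      · exact hbw.ne h2.symm
      · exact hwa h2
    · rintro v v' ⟨h1, h2⟩ hadj
      have h1' : v' ∈ comp T b w := SimpleGraph.Reachable.trans h1 hadj.reachable
      refine ⟨h1', SimpleGraph.Reachable.trans h2 (SimpleGraph.Adj.reachable ?_)⟩
      rw [SimpleGraph.deleteEdges_adj] at hadj ⊢
      refine ⟨hadj.1, fun h => ?_⟩
      rw [Set.mem_singleton_iff, Sym2.eq_iff] at h
      rcases h with ⟨_, h⟩ | ⟨h, _⟩
      · exact hb (h ▸ h1')
      · exact hb (h ▸ h1)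
  exact this.2

/-- existence of a sink -/
theorem sink {T : SimpleGraph N} [Finite N] (hT : T.IsTree) (big : N → N → Prop)
    (hedge : ∃ a b, T.Adj a b)
    (H1 : ∀ a b, T.Adj a b → big a b ∨ big b a) (H2 : ∀ a b, T.Adj a b → big a b → ¬ big b a) :
    ∃ b, ∀ w, T.Adj b w → ¬ big b w := by
  classical
  have hex : ∃ k, ∃ a b, T.Adj a b ∧ big a b ∧ (comp T a b).ncard = k := by
    obtain ⟨a, b, hab⟩ := hedge
    rcases H1 a b hab with h | h
    · exact ⟨_, a, b, hab, h, rfl⟩
    · exact ⟨_, b, a, hab.symm, h, rfl⟩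
  obtain ⟨a, b, hab, hbig, hk⟩ := Nat.find_spec hex
  refine ⟨b, ?_⟩
  intro w hw hbw
  by_cases hwa : w = a
  · subst hwa
    exact H2 _ _ hab hbig hbw
  · have hlt : (comp T b w).ncard < (comp T a b).ncard := by
      refine Set.ncard_lt_ncard ?_ (Set.toFinite _)
      rw [Set.ssubset_iff_of_subset (comp_sub hT.isAcyclic hw hwa)]
      exact ⟨b, comp_self T a b, not_mem_comp hT.isAcyclic hw⟩
    rw [hk] at hlt
    exact Nat.find_min hex hlt ⟨b, w, hw, hbw, rfl⟩

end tree

/-! ### trees from a parent function -/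

section parent

variable {N : Type*} (r : N) (par : N → N) (rank : N → ℕ)

/-- the graph joining every vertex but the root to its parent -/
def pg : SimpleGraph N where
  Adj u v := (v ≠ r ∧ par v = u ∧ u ≠ v) ∨ (u ≠ r ∧ par u = v ∧ u ≠ v)
  symm := ⟨fun u v h => by
    rcases h with ⟨h1, h2, h3⟩ | ⟨h1, h2, h3⟩
    · exact Or.inr ⟨h1, h2, h3.symm⟩
    · exact Or.inl ⟨h1, h2, h3.symm⟩⟩
  loopless := ⟨fun v h => by rcases h with ⟨_, _, h⟩ | ⟨_, _, h⟩ <;> exact h rfl⟩

/-- descendants -/
def desc (v : N) : Set N := {x | ∃ k : ℕ, par^[k] x = v}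

variable {r par rank}

theorem pg_adj (hrank : ∀ v, v ≠ r → rank (par v) < rank v) {v : N} (hv : v ≠ r) :
    (pg r par).Adj (par v) v := by
  refine Or.inl ⟨hv, rfl, ?_⟩
  intro h
  have := hrank v hv
  rw [h] at this
  exact lt_irrefl _ this

theorem pg_adj_iff (hrank : ∀ v, v ≠ r → rank (par v) < rank v) {u v : N} :
    (pg r par).Adj u v ↔ (v ≠ r ∧ par v = u) ∨ (u ≠ r ∧ par u = v) := by
  constructor
  · rintro (⟨h1, h2, _⟩ | ⟨h1, h2, _⟩)
    · exact Or.inl ⟨h1, h2⟩
    · exact Or.inr ⟨h1, h2⟩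
  · rintro (⟨h1, rfl⟩ | ⟨h1, rfl⟩)
    · exact pg_adj hrank h1
    · exact (pg_adj hrank h1).symm

theorem rank_desc (hr : par r = r) (hrank : ∀ v, v ≠ r → rank (par v) < rank v) {v x : N}
    (hx : x ∈ desc par v) : rank v ≤ rank x := by
  obtain ⟨k, hk⟩ := hx
  have : ∀ k x, rank (par^[k] x) ≤ rank x := by
    intro k
    induction k with
    | zero => intro x; exact le_refl _
    | succ k ih =>
      intro x
      rw [Function.iterate_succ_apply]
      refine le_trans (ih (par x)) ?_
      by_cases h : x = r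
      · rw [h, hr]
      · exact (hrank x h).le
  rw [← hk]
  exact this k x

theorem comp_desc (hr : par r = r) (hrank : ∀ v, v ≠ r → rank (par v) < rank v) {v : N}
    (hv : v ≠ r) : comp (pg r par) (par v) v ⊆ desc par v := by
  intro x hx
  refine reach_ind (p := fun x => x ∈ desc par v) ⟨0, rfl⟩ ?_ hx
  intro x y hxd hadj
  rw [SimpleGraph.deleteEdges_adj, pg_adj_iff hrank] at hadj
  obtain ⟨h1, h2⟩ := hadj
  rcases h1 with ⟨_, h1⟩ | ⟨hxr, h1⟩
  · obtain ⟨k, hk⟩ := hxd
    refine ⟨k + 1, ?_⟩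
    rw [Function.iterate_succ_apply, h1, hk]
  · by_cases hxv : x = v
    · exfalso
      subst hxv
      refine h2 ?_
      rw [Set.mem_singleton_iff, ← h1, Sym2.eq_swap]
    · obtain ⟨k, hk⟩ := hxd
      cases k with
      | zero => exact absurd hk hxv
      | succ k =>
        rw [Function.iterate_succ_apply, h1] at hk
        exact ⟨k, hk⟩

theorem pg_tree (hr : par r = r) (hrank : ∀ v, v ≠ r → rank (par v) < rank v) :
    (pg r par).IsTree := by
  refine ⟨?_, ?_⟩
  · have hreach : ∀ n v, rank v = n → (pg r par).Reachable r v := by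
      intro n
      induction n using Nat.strong_induction_on with
      | _ n ih =>
        intro v hv
        by_cases h : v = r
        · rw [h]
        · refine (ih (rank (par v)) ?_ (par v) rfl).trans (pg_adj hrank h).reachable
          rw [← hv]; exact hrank v h
    haveI : Nonempty N := ⟨r⟩
    refine SimpleGraph.Connected.mk ?_
    intro u v
    exact (hreach _ u rfl).symm.trans (hreach _ v rfl)
  · rw [SimpleGraph.isAcyclic_iff_forall_adj_isBridge]
    intro u v huv
    rw [SimpleGraph.isBridge_iff]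
    intro hre
    have key : ∀ w, w ≠ r → par w ∉ comp (pg r par) (par w) w := by
      intro w hw hm
      have := rank_desc hr hrank (comp_desc hr hrank hw hm)
      have := hrank w hw
      omega
    rcases (pg_adj_iff hrank).1 huv with ⟨hv, rfl⟩ | ⟨hu, rfl⟩
    · exact key v hv hre.symm
    · refine key u hu ?_
      show ((pg r par).deleteEdges {s(par u, u)}).Reachable u (par u)
      rw [Sym2.eq_swap]
      exact hre

theorem pg_nbr_root (hr : par r = r) (hrank : ∀ v, v ≠ r → rank (par v) < rank v) :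
    (pg r par).neighborSet r = {u | u ≠ r ∧ par u = r} := by
  ext u
  rw [SimpleGraph.mem_neighborSet, pg_adj_iff hrank]
  simp

theorem pg_nbr (hrank : ∀ v, v ≠ r → rank (par v) < rank v) {v : N} (hv : v ≠ r) :
    (pg r par).neighborSet v = insert (par v) {u | u ≠ r ∧ par u = v} := by
  ext u
  rw [SimpleGraph.mem_neighborSet, pg_adj_iff hrank]
  simp only [Set.mem_insert_iff, Set.mem_setOf_eq]
  constructor
  · rintro (h | h)
    · exact Or.inr h
    · exact Or.inl h.2.symm
  · rintro (h | h)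
    · exact Or.inr ⟨hv, h.symm⟩
    · exact Or.inl h

theorem pg_par_notMem (hrank : ∀ v, v ≠ r → rank (par v) < rank v) {v : N} (hv : v ≠ r) :
    par v ∉ {u | u ≠ r ∧ par u = v} := by
  rintro ⟨h1, h2⟩
  have h3 := hrank (par v) h1
  have h4 := hrank v hv
  rw [h2] at h3
  omega

end parent

end Pool.Agent.V11147.Sim
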