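import Mathlib
import Pool.Agent.V11147.SimC

namespace Pool.Agent.V11147.Sim

/-- A branch decomposition of the vertex set `X`: a finite tree `T` all of whose vertices have
degree `1` or `3`, together with a bijection from `X` to the leaves of `T`. -/
structure BranchDec (X : Type) where
  /-- the nodes -/
  N : Type
  fin : Finite N
  /-- the tree -/
  T : SimpleGraph N
  tree : T.IsTree
  deg : ∀ v, (T.neighborSet v).ncard = 1 ∨ (T.neighborSet v).ncard = 3
  /-- the bijection to the leaves -/
  leaf : X ≃ {v : N // (T.neighborSet v).ncard = 1}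

/-- the elements of `X` whose leaves lie on the side of `b` after deleting the edge `ab` -/
def BranchDec.side {X : Type} (D : BranchDec X) (a b : D.N) : Set X :=
  {x | (D.T.deleteEdges {s(a, b)}).Reachable b (D.leaf x : D.N)}

/-- `G` has an induced matching with `k` edges, each with one end in `A` and one end outside `A`:
its edges are `e i`, `f i` with `e i ∈ A`, `f i ∉ A`. -/
def IsCut {X : Type} (G : SimpleGraph X) (A : Set X) (k : ℕ) : Prop :=
  ∃ e f : Fin k → X, (∀ i, e i ∈ A ∧ f i ∉ A) ∧ (∀ i j, G.Adj (e i) (f j) ↔ i = j) ∧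
    (∀ i j, ¬ G.Adj (e i) (e j)) ∧ (∀ i j, ¬ G.Adj (f i) (f j))

/-- the largest size of an induced matching of `G` across the cut `(A, Aᶜ)` -/
noncomputable def simval {X : Type} (G : SimpleGraph X) (A : Set X) : ℕ := sSup {k | IsCut G A k}

/-- the sim-width of a branch decomposition -/
noncomputable def width {X : Type} (G : SimpleGraph X) (D : BranchDec X) : ℕ :=
  sSup {k | ∃ a b, D.T.Adj a b ∧ k = simval G (D.side a b)}

open scoped Classical in
/-- the sim-width of a graph -/
noncomputable def simw {X : Type} (G : SimpleGraph X) : ℕ :=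
  if Nat.card X ≤ 1 then 0 else sInf {w | ∃ D : BranchDec X, w = width G D}

theorem IsCut.inj_left {X : Type} {G : SimpleGraph X} {k : ℕ} {e f : Fin k → X}
    (h : ∀ i j, G.Adj (e i) (f j) ↔ i = j) : Function.Injective e := by
  intro i j hij
  have h1 : G.Adj (e i) (f i) := (h i i).2 rfl
  rw [hij] at h1
  exact ((h j i).1 h1).symm

theorem IsCut.inj_right {X : Type} {G : SimpleGraph X} {k : ℕ} {e f : Fin k → X}
    (h : ∀ i j, G.Adj (e i) (f j) ↔ i = j) : Function.Injective f := by
  intro i j hij
  have h1 : G.Adj (e i) (f i) := (h i i).2 rfl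
  rw [hij] at h1
  exact (h i j).1 h1

theorem IsCut.le_card {X : Type} [Finite X] {G : SimpleGraph X} {A : Set X} {k : ℕ}
    (h : IsCut G A k) : k ≤ Nat.card X := by
  obtain ⟨e, f, -, h2, -⟩ := h
  have := Nat.card_le_card_of_injective e (IsCut.inj_left h2)
  rwa [Nat.card_eq_fintype_card, Fintype.card_fin] at this

theorem bdd_simval {X : Type} [Finite X] (G : SimpleGraph X) (A : Set X) :
    BddAbove {k | IsCut G A k} := ⟨Nat.card X, fun _ h => h.le_card⟩

theorem simval_le_card {X : Type} [Finite X] (G : SimpleGraph X) (A : Set X) :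
    simval G A ≤ Nat.card X := by
  refine csSup_le ⟨0, ?_⟩ (fun _ h => h.le_card)
  exact ⟨Fin.elim0, Fin.elim0, fun i => i.elim0, fun i => i.elim0, fun i => i.elim0,
    fun i => i.elim0⟩

theorem bdd_width {X : Type} [Finite X] (G : SimpleGraph X) (D : BranchDec X) :
    BddAbove {k | ∃ a b, D.T.Adj a b ∧ k = simval G (D.side a b)} := by
  refine ⟨Nat.card X, ?_⟩
  rintro k ⟨a, b, -, rfl⟩
  exact simval_le_card G _

theorem le_width {X : Type} [Finite X] {G : SimpleGraph X} {D : BranchDec X} {a b : D.N}
    (hab : D.T.Adj a b) {k : ℕ} (h : IsCut G (D.side a b) k) : k ≤ width G D :=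
  le_trans (le_csSup (bdd_simval G _) h) (le_csSup (bdd_width G D) ⟨a, b, hab, rfl⟩)

/-- data of a parent tree with leaves indexed by `S` -/
structure PT {X : Type} (S : Finset X) (leg : X → Fin 3) (N : Type) : Type where
  r : N
  par : N → N
  rank : N → ℕ
  lf : X → N
  lg : N → Fin 3
  hr : par r = r
  hrank : ∀ v, v ≠ r → rank (par v) < rank v
  hroot : ({u | u ≠ r ∧ par u = r} : Set N).ncard = 3
  hch : ∀ v, v ≠ r → ({u | u ≠ r ∧ par u = v} : Set N).ncard = 0 ∨
    ({u | u ≠ r ∧ par u = v} : Set N).ncard = 2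
  hlf : ∀ x ∈ S, lf x ≠ r ∧ ({u | u ≠ r ∧ par u = lf x} : Set N) = ∅
  inj : ∀ x ∈ S, ∀ y ∈ S, lf x = lf y → x = y
  surj : ∀ v, v ≠ r → ({u | u ≠ r ∧ par u = v} : Set N) = ∅ → ∃ x ∈ S, lf x = v
  hlg : ∀ u v, u ≠ r → v ≠ r → par u = v → lg u = lg v
  hlgl : ∀ x ∈ S, lg (lf x) = leg x

theorem pt_base {X : Type} [DecidableEq X] (leg : X → Fin 3) (x0 x1 x2 : X) (h0 : leg x0 = 0)
    (h1 : leg x1 = 1) (h2 : leg x2 = 2) :
    Nonempty (PT ({x0, x1, x2} : Finset X) leg (Option (Fin 3))) := by
  have hinj : ∀ x ∈ ({x0, x1, x2} : Finset X), ∀ y ∈ ({x0, x1, x2} : Finset X),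
      leg x = leg y → x = y := by
    intro x hx y hy hxy
    simp only [Finset.mem_insert, Finset.mem_singleton] at hx hy
    rcases hx with rfl | rfl | rfl <;> rcases hy with rfl | rfl | rfl <;>
      first
        | rfl
        | (exfalso; rw [h0] at hxy; rw [h1] at hxy; exact absurd hxy (by decide))
        | (exfalso; rw [h0] at hxy; rw [h2] at hxy; exact absurd hxy (by decide))
        | (exfalso; rw [h1] at hxy; rw [h2] at hxy; exact absurd hxy (by decide))
  have hempty : ∀ v : Option (Fin 3), v ≠ none →
      ({u | u ≠ none ∧ (none : Option (Fin 3)) = v} : Set (Option (Fin 3))) = ∅ := by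
    intro v hv
    ext u
    simp only [Set.mem_setOf_eq, Set.mem_empty_iff_false, iff_false]
    rintro ⟨_, h⟩
    exact hv h.symm
  refine ⟨{ r := none
            par := fun _ => none
            rank := fun v => if v = none then 0 else 1
            lf := fun x => some (leg x)
            lg := fun v => v.getD 0
            hr := rfl
            hrank := ?_
            hroot := ?_
            hch := ?_
            hlf := ?_
            inj := ?_
            surj := ?_
            hlg := ?_
            hlgl := ?_ }⟩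
  · intro v hv
    simp [hv]
  · have : ({u | u ≠ none ∧ (none : Option (Fin 3)) = none} : Set (Option (Fin 3))) =
        Set.range some := by
      ext u
      simp only [Set.mem_setOf_eq, and_true, Set.mem_range]
      constructor
      · intro h
        obtain ⟨a, ha⟩ := Option.ne_none_iff_exists.1 h
        exact ⟨a, ha⟩
      · rintro ⟨a, rfl⟩
        simp
    rw [this, ← Set.image_univ, Set.ncard_image_of_injective _ (Option.some_injective _),
      Set.ncard_univ, Nat.card_eq_fintype_card, Fintype.card_fin]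
  · intro v hv
    left
    rw [hempty v hv, Set.ncard_empty]
  · intro x _
    exact ⟨by simp, hempty _ (by simp)⟩
  · intro x hx y hy hxy
    exact hinj x hx y hy (Option.some_injective _ hxy)
  · intro v hv _
    obtain ⟨a, rfl⟩ := Option.ne_none_iff_exists'.1 hv
    have : a = 0 ∨ a = 1 ∨ a = 2 := by
      fin_cases a <;> simp
    rcases this with rfl | rfl | rfl
    · exact ⟨x0, by simp, by rw [h0]⟩
    · exact ⟨x1, by simp, by rw [h1]⟩
    · exact ⟨x2, by simp, by rw [h2]⟩
  · intro u v _ hv huv
    exact absurd huv.symm hv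
  · intro x _
    rfl

theorem pt_step {X : Type} [DecidableEq X] {leg : X → Fin 3} {S : Finset X} {N : Type} [Finite N]
    (D : PT S leg N) {x y : X} (hx : x ∈ S) (hy : y ∉ S) (hxy : leg x = leg y) :
    Nonempty (PT (insert y S) leg (N ⊕ Bool)) := by
  classical
  have hxy' : x ≠ y := fun h => hy (h ▸ hx)
  have hl := D.hlf x hx
  -- children sets
  have c1 : ∀ v, v ≠ D.lf x → ({u | u ≠ Sum.inl D.r ∧ (Sum.elim (fun v => Sum.inl (D.par v))
      (fun _ => Sum.inl (D.lf x)) u : N ⊕ Bool) = Sum.inl v} : Set (N ⊕ Bool)) =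
      Sum.inl '' {u | u ≠ D.r ∧ D.par u = v} := by
    intro v hv
    ext u
    cases u with
    | inl u =>
      simp only [Set.mem_setOf_eq, Sum.elim_inl, ne_eq, Sum.inl.injEq, Set.mem_image, exists_eq_right]
    | inr b =>
      simp only [Set.mem_setOf_eq, Sum.elim_inr, ne_eq, reduceCtorEq, not_false_eq_true,
        Sum.inl.injEq, true_and, Set.mem_image, and_false, exists_false, iff_false]
      exact fun h => hv h.symm
  have c2 : ({u | u ≠ Sum.inl D.r ∧ (Sum.elim (fun v => Sum.inl (D.par v))
      (fun _ => Sum.inl (D.lf x)) u : N ⊕ Bool) = Sum.inl (D.lf x)} : Set (N ⊕ Bool)) =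
      {Sum.inr true, Sum.inr false} := by
    ext u
    cases u with
    | inl u =>
      simp only [Set.mem_setOf_eq, Sum.elim_inl, ne_eq, Sum.inl.injEq, Set.mem_insert_iff,
        reduceCtorEq, Set.mem_singleton_iff, or_self, iff_false]
      intro h
      have : u ∈ ({u | u ≠ D.r ∧ D.par u = D.lf x} : Set N) := h
      rw [hl.2] at this
      exact this
    | inr b =>
      cases b <;> simp
  have c3 : ∀ b, ({u | u ≠ Sum.inl D.r ∧ (Sum.elim (fun v => Sum.inl (D.par v))
      (fun _ => Sum.inl (D.lf x)) u : N ⊕ Bool) = Sum.inr b} : Set (N ⊕ Bool)) = ∅ := by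
    intro b
    ext u
    cases u <;> simp
  refine ⟨{ r := Sum.inl D.r
            par := Sum.elim (fun v => Sum.inl (D.par v)) (fun _ => Sum.inl (D.lf x))
            rank := Sum.elim D.rank (fun _ => D.rank (D.lf x) + 1)
            lf := fun z => if z = y then Sum.inr true else if z = x then Sum.inr false
              else Sum.inl (D.lf z)
            lg := Sum.elim D.lg (fun _ => leg y)
            hr := ?_
            hrank := ?_
            hroot := ?_
            hch := ?_
            hlf := ?_
            inj := ?_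
            surj := ?_
            hlg := ?_
            hlgl := ?_ }⟩
  · simp only [Sum.elim_inl, D.hr]
  · intro v hv
    cases v with
    | inl v =>
      simp only [Sum.elim_inl]
      exact D.hrank v (fun h => hv (by rw [h]))
    | inr b => simp
  · rw [c1 D.r (fun h => hl.1 h.symm), Set.ncard_image_of_injective _ Sum.inl_injective]
    exact D.hroot
  · intro v hv
    cases v with
    | inl v =>
      by_cases h : v = D.lf x
      · right
        rw [h, c2, Set.ncard_pair (by simp)]
      · rw [c1 v h, Set.ncard_image_of_injective _ Sum.inl_injective]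
        exact D.hch v (fun h => hv (by rw [h]))
    | inr b =>
      left
      rw [c3, Set.ncard_empty]
  · intro z hz
    by_cases h1 : z = y
    · simp only [h1, if_true]
      exact ⟨by simp, c3 true⟩
    · by_cases h2 : z = x
      · simp only [h2, if_neg hxy', if_true]
        exact ⟨by simp, c3 false⟩
      · simp only [if_neg h1, if_neg h2]
        have hzS : z ∈ S := (Finset.mem_insert.1 hz).resolve_left h1
        have h3 := D.hlf z hzS
        refine ⟨fun h => h3.1 (Sum.inl_injective h), ?_⟩
        rw [c1 (D.lf z) (fun h => h2 (D.inj z hzS x hx h)), h3.2, Set.image_empty]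
  · intro z hz w hw hzw
    have hS : ∀ z ∈ insert y S, z ≠ y → z ∈ S := fun z hz h => (Finset.mem_insert.1 hz).resolve_left h
    by_cases h1 : z = y
    · by_cases h2 : w = y
      · rw [h1, h2]
      · by_cases h3 : w = x
        · simp [h1, h3, hxy'] at hzw
        · simp [h1, h2, h3] at hzw
    · by_cases h2 : w = y
      · by_cases h3 : z = x
        · simp [h2, h3, hxy'] at hzw
        · simp [h1, h2, h3] at hzw
      · by_cases h3 : z = x
        · by_cases h4 : w = x
          · rw [h3, h4]
          · simp [h2, h3, h4, hxy'] at hzw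
        · by_cases h4 : w = x
          · simp [h1, h3, h4, hxy'] at hzw
          · simp only [if_neg h1, if_neg h2, if_neg h3, if_neg h4] at hzw
            exact D.inj z (hS z hz h1) w (hS w hw h2) (Sum.inl_injective hzw)
  · intro v hv hemp
    cases v with
    | inl v =>
      by_cases h : v = D.lf x
      · exfalso
        rw [h, c2] at hemp
        have : (Sum.inr true : N ⊕ Bool) ∈ ({Sum.inr true, Sum.inr false} : Set (N ⊕ Bool)) :=
          Set.mem_insert _ _
        rw [hemp] at this
        exact this
      · rw [c1 v h, Set.image_eq_empty] at hemp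
        obtain ⟨z, hz, hzv⟩ := D.surj v (fun h => hv (by rw [h])) hemp
        refine ⟨z, Finset.mem_insert_of_mem hz, ?_⟩
        have h1 : z ≠ y := fun h => hy (h ▸ hz)
        have h2 : z ≠ x := fun h' => h (by rw [← hzv, h'])
        simp only [if_neg h1, if_neg h2, hzv]
    | inr b =>
      cases b with
      | true => exact ⟨y, Finset.mem_insert_self _ _, by simp⟩
      | false => exact ⟨x, Finset.mem_insert_of_mem hx, by simp [hxy']⟩
  · intro u v hu hv huv
    cases u with
    | inl u =>
      cases v with
      | inl v =>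
        simp only [Sum.elim_inl] at huv ⊢
        exact D.hlg u v (fun h => hu (by rw [h])) (fun h => hv (by rw [h]))
          (Sum.inl_injective huv)
      | inr b => simp at huv
    | inr b =>
      cases v with
      | inl v =>
        simp only [Sum.elim_inl, Sum.elim_inr] at huv ⊢
        rw [← Sum.inl_injective huv, D.hlgl x hx, hxy]
      | inr c => simp at huv
  · intro z hz
    by_cases h1 : z = y
    · simp [h1]
    · by_cases h2 : z = x
      · simp [h2, hxy', hxy]
      · simp only [if_neg h1, if_neg h2, Sum.elim_inl]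
        exact D.hlgl z ((Finset.mem_insert.1 hz).resolve_left h1)

theorem pt_all {X : Type} [Fintype X] [DecidableEq X] (leg : X → Fin 3)
    (hleg : Function.Surjective leg) :
    ∃ (N : Type) (_ : Finite N), Nonempty (PT (Finset.univ : Finset X) leg N) := by
  obtain ⟨x0, h0⟩ := hleg 0
  obtain ⟨x1, h1⟩ := hleg 1
  obtain ⟨x2, h2⟩ := hleg 2
  have key : ∀ S : Finset X, ∃ (N : Type) (_ : Finite N),
      Nonempty (PT (({x0, x1, x2} : Finset X) ∪ S) leg N) := by
    intro S
    induction S using Finset.induction_on with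
    | empty =>
      rw [Finset.union_empty]
      exact ⟨Option (Fin 3), inferInstance, pt_base leg x0 x1 x2 h0 h1 h2⟩
    | insert y S _ ih =>
      obtain ⟨N, hN, ⟨D⟩⟩ := ih
      by_cases hy : y ∈ ({x0, x1, x2} : Finset X) ∪ S
      · have : ({x0, x1, x2} : Finset X) ∪ insert y S = {x0, x1, x2} ∪ S := by
          rw [Finset.union_insert, Finset.insert_eq_self.2 hy]
        rw [this]
        exact ⟨N, hN, ⟨D⟩⟩
      · rw [Finset.union_insert]
        have : ∃ x ∈ ({x0, x1, x2} : Finset X) ∪ S, leg x = leg y := by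
          have h3 : leg y = 0 ∨ leg y = 1 ∨ leg y = 2 := by
            generalize leg y = a
            fin_cases a <;> simp
          rcases h3 with h3 | h3 | h3
          · exact ⟨x0, by simp, by rw [h0, h3]⟩
          · exact ⟨x1, by simp, by rw [h1, h3]⟩
          · exact ⟨x2, by simp, by rw [h2, h3]⟩
        obtain ⟨x, hx, hxy⟩ := this
        haveI := hN
        exact ⟨N ⊕ Bool, inferInstance, pt_step D hx hy hxy⟩
  have := key Finset.univ
  have e : ({x0, x1, x2} : Finset X) ∪ Finset.univ = Finset.univ := by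
    ext z; simp
  rwa [e] at this

/-- a branch decomposition in which every cut has one side inside a leg -/
theorem exists_dec {X : Type} [Fintype X] (leg : X → Fin 3)
    (hleg : Function.Surjective leg) :
    ∃ D : BranchDec X, ∀ a b, D.T.Adj a b →
      ∃ i, (∀ x ∈ D.side a b, leg x = i) ∨ (∀ x ∈ D.side b a, leg x = i) := by
  classical
  obtain ⟨N, hN, ⟨P⟩⟩ := pt_all leg hleg
  haveI := hN
  have hdr : ((pg P.r P.par).neighborSet P.r).ncard = 3 := by
    rw [pg_nbr_root P.hr P.hrank]; exact P.hroot
  have hdv : ∀ v, v ≠ P.r → ((pg P.r P.par).neighborSet v).ncard =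
      ({u | u ≠ P.r ∧ P.par u = v} : Set N).ncard + 1 := by
    intro v hv
    rw [pg_nbr P.hrank hv, Set.ncard_insert_of_notMem (pg_par_notMem P.hrank hv) (Set.toFinite _)]
  have hl : ∀ x : X, ((pg P.r P.par).neighborSet (P.lf x)).ncard = 1 := by
    intro x
    have h := P.hlf x (Finset.mem_univ x)
    rw [hdv _ h.1, h.2, Set.ncard_empty]
  have hdesc : ∀ v, v ≠ P.r → ∀ x, x ∈ desc P.par v → P.lg x = P.lg v := by
    intro v hv x hx
    obtain ⟨k, hk⟩ := hx
    have : ∀ k x, P.par^[k] x = v → P.lg x = P.lg v ∧ x ≠ P.r := by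
      intro k
      induction k with
      | zero => intro x hx; rw [Function.iterate_zero_apply] at hx; rw [hx]; exact ⟨rfl, hv⟩
      | succ k ih =>
        intro x hx
        rw [Function.iterate_succ_apply] at hx
        obtain ⟨h1, h2⟩ := ih _ hx
        have h3 : x ≠ P.r := fun h => h2 (by rw [h, P.hr])
        exact ⟨(P.hlg x _ h3 h2 rfl).trans h1, h3⟩
    exact (this k x hk).1
  refine ⟨{ N := N
            fin := hN
            T := pg P.r P.par
            tree := pg_tree P.hr P.hrank
            deg := ?_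
            leaf := Equiv.ofBijective (fun x => ⟨P.lf x, hl x⟩) ⟨?_, ?_⟩ }, ?_⟩
  · intro v
    by_cases hv : v = P.r
    · right; rw [hv]; exact hdr
    · rw [hdv v hv]
      rcases P.hch v hv with h | h
      · left; rw [h]
      · right; rw [h]
  · intro x y hxy
    exact P.inj x (Finset.mem_univ _) y (Finset.mem_univ _) (Subtype.ext_iff.1 hxy)
  · rintro ⟨v, hv⟩
    have hvr : v ≠ P.r := by
      rintro rfl
      rw [hdr] at hv
      omega
    rw [hdv v hvr] at hv
    have : ({u | u ≠ P.r ∧ P.par u = v} : Set N) = ∅ := by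
      rw [← Set.ncard_eq_zero (Set.toFinite _)]
      omega
    obtain ⟨x, _, hx⟩ := P.surj v hvr this
    exact ⟨x, Subtype.ext hx⟩
  · intro a b hab
    have key : ∀ v, v ≠ P.r → ∀ x : X,
        ((pg P.r P.par).deleteEdges {s(P.par v, v)}).Reachable v (P.lf x) → leg x = P.lg v := by
      intro v hv x hx
      rw [← P.hlgl x (Finset.mem_univ x)]
      exact hdesc v hv _ (comp_desc P.hr P.hrank hv hx)
    rcases (pg_adj_iff P.hrank).1 hab with ⟨hb, rfl⟩ | ⟨ha, rfl⟩
    · exact ⟨P.lg b, Or.inl (fun x hx => key b hb x hx)⟩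
    · exact ⟨P.lg a, Or.inr (fun x hx => key a ha x hx)⟩

/-- upper bound for the sim-width -/
theorem exists_width_le {X : Type} [Fintype X] (G : SimpleGraph X) (leg : X → Fin 3)
    (hleg : Function.Surjective leg) (t : ℕ)
    (hind : ∀ (i : Fin 3) (k : ℕ) (g : Fin k → X), Function.Injective g → (∀ j, leg (g j) = i) →
      (∀ j j', ¬ G.Adj (g j) (g j')) → k ≤ t) :
    ∃ D : BranchDec X, width G D ≤ t := by
  obtain ⟨D, hD⟩ := exists_dec leg hleg
  refine ⟨D, ?_⟩
  have hb : ∀ a b, D.T.Adj a b → simval G (D.side a b) ≤ t := by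
    intro a b hab
    refine csSup_le ⟨0, ?_⟩ ?_
    · exact ⟨Fin.elim0, Fin.elim0, fun i => i.elim0, fun i => i.elim0, fun i => i.elim0,
        fun i => i.elim0⟩
    rintro k ⟨e, f, h1, h2, h3, h4⟩
    obtain ⟨i, h | h⟩ := hD a b hab
    · exact hind i k e (IsCut.inj_left h2) (fun j => h _ (h1 j).1) h3
    · refine hind i k f (IsCut.inj_right h2) (fun j => h _ ?_) h4
      have := comp_union D.tree.connected a b (D.leaf (f j) : D.N)
      rcases this with h' | h'
      · exact absurd h' (h1 j).2
      · exact h'
  have hne : {k | ∃ a b, D.T.Adj a b ∧ k = simval G (D.side a b)}.Nonempty := by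
    obtain ⟨x, -⟩ := hleg 0
    have h1 := (D.leaf x).2
    obtain ⟨b, hb'⟩ := Set.ncard_eq_one.1 h1
    have : b ∈ D.T.neighborSet (D.leaf x : D.N) := by rw [hb']; exact Set.mem_singleton _
    exact ⟨_, _, b, this, rfl⟩
  refine csSup_le hne ?_
  rintro k ⟨a, b, hab, rfl⟩
  exact hb a b hab

end Pool.Agent.V11147.Sim
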