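import Mathlib

/-!
# Blichfeldt's bound for lattices of covolume one (dimension at most 7)
-/

namespace Pool.Agent.V11147.IcA

open MeasureTheory Module Submodule Finset
open scoped ENNReal

/-- The Blichfeldt bump function. -/
noncomputable def bump {m : ℕ} (x : Fin m → ℝ) : ℝ≥0∞ := ENNReal.ofReal (1 - ∑ i, x i ^ 2)

lemma sum_pair_sq {ι : Type*} (s : Finset ι) (a : ι → ℝ) :
    ∑ v ∈ s, ∑ w ∈ s, (a v - a w) ^ 2 = 2 * (s.card : ℝ) * ∑ v ∈ s, a v ^ 2 - 2 * (∑ v ∈ s, a v) ^ 2 := by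
  have h : ∀ v ∈ s, ∑ w ∈ s, (a v - a w) ^ 2
      = (s.card : ℝ) * a v ^ 2 + ∑ w ∈ s, a w ^ 2 - 2 * a v * ∑ w ∈ s, a w := by
    intro v _
    have : ∀ w ∈ s, (a v - a w) ^ 2 = a v ^ 2 + a w ^ 2 - 2 * a v * a w := by
      intro w _; ring
    rw [Finset.sum_congr rfl this, Finset.sum_sub_distrib, Finset.sum_add_distrib,
      Finset.sum_const, nsmul_eq_mul, ← Finset.mul_sum]
  rw [Finset.sum_congr rfl h, Finset.sum_sub_distrib, Finset.sum_add_distrib, Finset.sum_const,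
    nsmul_eq_mul, ← Finset.mul_sum, ← Finset.sum_mul, ← Finset.mul_sum]
  ring

/-- Points at pairwise squared distance at least two: the bumps add up to at most one. -/
lemma sum_le_one {ι : Type*} [DecidableEq ι] {m : ℕ} (s : Finset ι) (a : ι → Fin m → ℝ)
    (h : ∀ v ∈ s, ∀ w ∈ s, v ≠ w → 2 ≤ ∑ i, (a v i - a w i) ^ 2) :
    ∑ v ∈ s, (1 - ∑ i, a v i ^ 2) ≤ 1 := by
  rcases s.eq_empty_or_nonempty with rfl | hs
  · simp
  have hk : (1 : ℝ) ≤ s.card := by exact_mod_cast hs.card_pos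
  have h1 : ∑ v ∈ s, ∑ w ∈ s, ∑ i, (a v i - a w i) ^ 2
      = ∑ i, ∑ v ∈ s, ∑ w ∈ s, (a v i - a w i) ^ 2 := by
    calc ∑ v ∈ s, ∑ w ∈ s, ∑ i, (a v i - a w i) ^ 2
        = ∑ v ∈ s, ∑ i, ∑ w ∈ s, (a v i - a w i) ^ 2 :=
          Finset.sum_congr rfl fun v _ => Finset.sum_comm
      _ = _ := Finset.sum_comm
  have h2 : ∑ v ∈ s, ∑ w ∈ s, ∑ i, (a v i - a w i) ^ 2
      ≤ 2 * (s.card : ℝ) * ∑ v ∈ s, ∑ i, a v i ^ 2 := by
    rw [h1, Finset.sum_comm (s := s) (t := Finset.univ), Finset.mul_sum]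
    refine Finset.sum_le_sum fun i _ => ?_
    rw [sum_pair_sq]
    nlinarith [sq_nonneg (∑ v ∈ s, a v i)]
  have h3 : 2 * (s.card : ℝ) * (s.card - 1) ≤ ∑ v ∈ s, ∑ w ∈ s, ∑ i, (a v i - a w i) ^ 2 := by
    have h4 : ∀ v ∈ s, 2 * ((s.card : ℝ) - 1) ≤ ∑ w ∈ s, ∑ i, (a v i - a w i) ^ 2 := by
      intro v hv
      rw [← Finset.add_sum_erase s _ hv]
      have h5 : ∑ w ∈ s.erase v, (2 : ℝ) ≤ ∑ w ∈ s.erase v, ∑ i, (a v i - a w i) ^ 2 :=
        Finset.sum_le_sum fun w hw =>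
          h v hv w (Finset.mem_of_mem_erase hw) (Finset.ne_of_mem_erase hw).symm
      rw [Finset.sum_const, Finset.card_erase_of_mem hv, nsmul_eq_mul,
        Nat.cast_sub hs.card_pos] at h5
      have h6 : ∑ i, (a v i - a v i) ^ 2 = 0 := by simp
      rw [h6]
      push_cast at h5
      linarith
    calc 2 * (s.card : ℝ) * (s.card - 1) = ∑ v ∈ s, 2 * ((s.card : ℝ) - 1) := by
          rw [Finset.sum_const, nsmul_eq_mul]; ring
      _ ≤ _ := Finset.sum_le_sum h4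
  rw [Finset.sum_sub_distrib, Finset.sum_const, nsmul_eq_mul, mul_one]
  have h7 : 2 * (s.card : ℝ) * (s.card - 1) ≤ 2 * (s.card : ℝ) * ∑ v ∈ s, ∑ i, a v i ^ 2 :=
    h3.trans h2
  have h8 : (s.card : ℝ) - 1 ≤ ∑ v ∈ s, ∑ i, a v i ^ 2 :=
    le_of_mul_le_mul_left h7 (by linarith)
  linarith

lemma tsum_bump_le {ι : Type*} [DecidableEq ι] {m : ℕ} (a : ι → Fin m → ℝ)
    (h : ∀ v w, v ≠ w → 2 ≤ ∑ i, (a v i - a w i) ^ 2) :
    ∑' v, bump (a v) ≤ 1 := by
  rw [ENNReal.tsum_eq_iSup_sum]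
  refine iSup_le fun s => ?_
  classical
  have h1 : ∑ v ∈ s, bump (a v) = ∑ v ∈ s.filter (fun v => 0 ≤ 1 - ∑ i, a v i ^ 2), bump (a v) := by
    rw [Finset.sum_filter]
    refine Finset.sum_congr rfl fun v _ => ?_
    split_ifs with hv
    · rfl
    · unfold bump
      exact ENNReal.ofReal_of_nonpos (by linarith)
  rw [h1]
  unfold bump
  rw [← ENNReal.ofReal_sum_of_nonneg (fun v hv => (Finset.mem_filter.1 hv).2)]
  rw [← ENNReal.ofReal_one]
  exact ENNReal.ofReal_le_ofReal (sum_le_one _ _ fun v _ w _ hvw => h v w hvw)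

lemma measurable_bump {m : ℕ} : Measurable (bump : (Fin m → ℝ) → ℝ≥0∞) := by
  unfold bump
  fun_prop

/-- The integral of the bump over a lattice of covolume one. -/
lemma lintegral_bump_le {m : ℕ} (b : Basis (Fin m) ℝ (Fin m → ℝ))
    (hdet : |(Matrix.of b).det| = 1)
    (hmin : ∀ v ∈ span ℤ (Set.range b), v ≠ 0 → 2 ≤ ∑ i, v i ^ 2) :
    ∫⁻ x, bump x ∂(volume : Measure (Fin m → ℝ)) ≤ 1 := by
  classical
  have hF := ZSpan.isAddFundamentalDomain b (volume : Measure (Fin m → ℝ))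
  have hi1 : MeasurableVAdd (span ℤ (Set.range b)) (Fin m → ℝ) :=
    (inferInstance : MeasurableVAdd (span ℤ (Set.range b)).toAddSubgroup (Fin m → ℝ))
  have hi2 : VAddInvariantMeasure (span ℤ (Set.range b)) (Fin m → ℝ)
      (volume : Measure (Fin m → ℝ)) :=
    (inferInstance : VAddInvariantMeasure (span ℤ (Set.range b)).toAddSubgroup (Fin m → ℝ)
      (volume : Measure (Fin m → ℝ)))
  rw [hF.lintegral_eq_tsum'' bump]
  have hms : ∀ g : span ℤ (Set.range b), Measurable fun x : Fin m → ℝ => bump (g +ᵥ x) := by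
    intro g
    exact measurable_bump.comp (measurable_const_vadd g)
  rw [← lintegral_tsum (fun g => (hms g).aemeasurable)]
  have hle : ∀ x : Fin m → ℝ, ∑' g : span ℤ (Set.range b), bump (g +ᵥ x) ≤ 1 := by
    intro x
    refine tsum_bump_le (fun g : span ℤ (Set.range b) => g +ᵥ x) ?_
    intro v w hvw
    have h1 : (v : Fin m → ℝ) - (w : Fin m → ℝ) ∈ span ℤ (Set.range b) := sub_mem v.2 w.2
    have h2 := hmin _ h1 (by
      intro h
      exact hvw (Subtype.ext (sub_eq_zero.1 h)))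
    refine h2.trans (le_of_eq (Finset.sum_congr rfl fun i _ => ?_))
    simp [Submodule.vadd_def]
  calc ∫⁻ x in ZSpan.fundamentalDomain b, ∑' g : span ℤ (Set.range b), bump (g +ᵥ x) ∂volume
      ≤ ∫⁻ x in ZSpan.fundamentalDomain b, 1 ∂volume := lintegral_mono hle
    _ = volume (ZSpan.fundamentalDomain b) := by simp
    _ = 1 := by
      rw [ZSpan.volume_fundamentalDomain, hdet]
      simp

end Pool.Agent.V11147.IcA
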