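import Mathlib
import Pool.Agent.V11147.IcA

/-!
# Blichfeldt's bound: the integral of the bump
-/

namespace Pool.Agent.V11147.IcB

open MeasureTheory Module Submodule Finset Pool.Agent.V11147.IcA
open scoped ENNReal

lemma bump_eq {m : ℕ} (x : Fin m → ℝ) :
    bump x = ENNReal.ofReal (max 0 (1 - ∑ i, x i ^ 2)) := by
  unfold bump
  rcases le_total 0 (1 - ∑ i, x i ^ 2) with h | h
  · rw [max_eq_right h]
  · rw [max_eq_left h, ENNReal.ofReal_of_nonpos h, ENNReal.ofReal_zero]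

lemma level_set {m : ℕ} {t : ℝ} (ht : 0 < t) :
    {x : Fin m → ℝ | t < max 0 (1 - ∑ i, x i ^ 2)}
      = {x : Fin m → ℝ | (∑ i, |x i| ^ (2 : ℝ)) ^ (1 / (2 : ℝ)) < √(1 - t)} := by
  ext x
  have h1 : ∑ i, |x i| ^ (2 : ℝ) = ∑ i, x i ^ 2 :=
    Finset.sum_congr rfl fun i _ => by
      rw [show (2 : ℝ) = ((2 : ℕ) : ℝ) by norm_num, Real.rpow_natCast, sq_abs]
  have h2 : 0 ≤ ∑ i, x i ^ 2 := Finset.sum_nonneg fun i _ => sq_nonneg _
  simp only [Set.mem_ofPred_eq]
  rw [h1, ← Real.sqrt_eq_rpow, Real.sqrt_lt_sqrt_iff h2]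
  rw [lt_max_iff]
  constructor
  · rintro (h | h)
    · linarith
    · linarith
  · intro h
    right
    linarith

lemma integral_pow_half (m : ℕ) :
    ∫ t in (0 : ℝ)..1, (1 - t) ^ ((m : ℝ) / 2) = 1 / ((m : ℝ) / 2 + 1) := by
  rw [intervalIntegral.integral_comp_sub_left (fun x : ℝ => x ^ ((m : ℝ) / 2)) 1]
  have hm : (0 : ℝ) ≤ (m : ℝ) / 2 := by positivity
  rw [integral_rpow (Or.inl (by linarith))]
  simp only [sub_self, sub_zero, Real.one_rpow]
  rw [Real.zero_rpow (by linarith)]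
  ring

lemma lintegral_ge (m : ℕ) :
    ENNReal.ofReal (1 / ((m : ℝ) / 2 + 1)) ≤ ∫⁻ t in Set.Ioi (0 : ℝ), ENNReal.ofReal (√(1 - t)) ^ m := by
  have h1 : ENNReal.ofReal (1 / ((m : ℝ) / 2 + 1))
      = ∫⁻ t in Set.Ioc (0 : ℝ) 1, ENNReal.ofReal ((1 - t) ^ ((m : ℝ) / 2)) := by
    rw [← integral_pow_half, intervalIntegral.integral_of_le zero_le_one,
      ofReal_integral_eq_lintegral_ofReal]
    · have hc : ContinuousOn (fun t : ℝ => (1 - t) ^ ((m : ℝ) / 2)) (Set.Icc 0 1) := by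
        apply Continuous.continuousOn
        exact Continuous.rpow_const (by fun_prop) (fun x => Or.inr (by positivity))
      exact (hc.integrableOn_Icc).mono_set Set.Ioc_subset_Icc_self
    · filter_upwards [ae_restrict_mem measurableSet_Ioc] with t ht
      exact Real.rpow_nonneg (by linarith [ht.2]) _
  rw [h1]
  calc ∫⁻ t in Set.Ioc (0 : ℝ) 1, ENNReal.ofReal ((1 - t) ^ ((m : ℝ) / 2))
      ≤ ∫⁻ t in Set.Ioc (0 : ℝ) 1, ENNReal.ofReal (√(1 - t)) ^ m := by
        refine setLIntegral_mono' measurableSet_Ioc fun t ht => ?_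
        rw [← ENNReal.ofReal_pow (Real.sqrt_nonneg _)]
        refine ENNReal.ofReal_le_ofReal (le_of_eq ?_)
        have h0 : 0 ≤ 1 - t := by linarith [ht.2]
        rw [Real.sqrt_eq_rpow, ← Real.rpow_natCast, ← Real.rpow_mul h0]
        congr 1
        ring
    _ ≤ _ := lintegral_mono_set Set.Ioc_subset_Ioi_self

/-- The volume constant. -/
noncomputable def cst (m : ℕ) : ℝ :=
  (2 * Real.Gamma (1 / 2 + 1)) ^ m / Real.Gamma ((m : ℝ) / 2 + 1)

lemma lintegral_bump_ge (m : ℕ) (hm : 1 ≤ m) :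
    ENNReal.ofReal (1 / ((m : ℝ) / 2 + 1)) * ENNReal.ofReal (cst m)
      ≤ ∫⁻ x, bump x ∂(volume : Measure (Fin m → ℝ)) := by
  have : Nonempty (Fin m) := ⟨⟨0, hm⟩⟩
  have hf : ∀ x : Fin m → ℝ, bump x = ENNReal.ofReal (max 0 (1 - ∑ i, x i ^ 2)) := bump_eq
  simp_rw [hf]
  rw [lintegral_eq_lintegral_meas_lt]
  · have h1 : ∫⁻ t in Set.Ioi (0 : ℝ),
        volume {x : Fin m → ℝ | t < max 0 (1 - ∑ i, x i ^ 2)}
        = ∫⁻ t in Set.Ioi (0 : ℝ), ENNReal.ofReal (√(1 - t)) ^ m * ENNReal.ofReal (cst m) := by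
      refine setLIntegral_congr_fun measurableSet_Ioi fun t ht => ?_
      show volume _ = _
      rw [level_set ht, volume_sum_rpow_lt (Fin m) (p := 2) (by norm_num) (√(1 - t))]
      simp [cst, Fintype.card_fin]
    rw [h1, lintegral_mul_const]
    · gcongr
      exact lintegral_ge m
    · fun_prop
  · exact Filter.Eventually.of_forall fun x => le_max_left _ _
  · have : Measurable fun x : Fin m → ℝ => max 0 (1 - ∑ i, x i ^ 2) := by fun_prop
    exact this.aemeasurable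

lemma cst_pos (m : ℕ) : 0 < cst m := by
  unfold cst
  have h1 : 0 < Real.Gamma (1 / 2 + 1) := Real.Gamma_pos_of_pos (by norm_num)
  have h2 : 0 < Real.Gamma ((m : ℝ) / 2 + 1) := Real.Gamma_pos_of_pos (by positivity)
  positivity

lemma two_gamma : 2 * Real.Gamma (1 / 2 + 1) = √Real.pi := by
  rw [Real.Gamma_add_one (by norm_num), Real.Gamma_one_half_eq]
  ring

lemma sqrt_pi_sq : √Real.pi ^ 2 = Real.pi := Real.sq_sqrt Real.pi_pos.le

/-- In dimensions one to seven the constant beats one. -/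
lemma cst_big (m : ℕ) (h1 : 1 ≤ m) (h7 : m ≤ 7) : (m : ℝ) / 2 + 1 < cst m := by
  unfold cst
  rw [two_gamma]
  have hp := Real.pi_gt_d4
  have hp2 := Real.pi_lt_d4
  have hs : 0 < √Real.pi := Real.sqrt_pos.2 Real.pi_pos
  have g12 : Real.Gamma (1 / 2) = √Real.pi := Real.Gamma_one_half_eq
  have g32 : Real.Gamma (3 / 2) = √Real.pi / 2 := by
    rw [show (3 / 2 : ℝ) = 1 / 2 + 1 by norm_num, Real.Gamma_add_one (by norm_num), g12]; ring
  have g52 : Real.Gamma (5 / 2) = 3 * √Real.pi / 4 := by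
    rw [show (5 / 2 : ℝ) = 3 / 2 + 1 by norm_num, Real.Gamma_add_one (by norm_num), g32]; ring
  have g72 : Real.Gamma (7 / 2) = 15 * √Real.pi / 8 := by
    rw [show (7 / 2 : ℝ) = 5 / 2 + 1 by norm_num, Real.Gamma_add_one (by norm_num), g52]; ring
  have g92 : Real.Gamma (9 / 2) = 105 * √Real.pi / 16 := by
    rw [show (9 / 2 : ℝ) = 7 / 2 + 1 by norm_num, Real.Gamma_add_one (by norm_num), g72]; ring
  have g2 : Real.Gamma 2 = 1 := by
    rw [show (2 : ℝ) = 1 + 1 by norm_num, Real.Gamma_add_one (by norm_num), Real.Gamma_one]; ring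
  have g3 : Real.Gamma 3 = 2 := by
    rw [show (3 : ℝ) = 2 + 1 by norm_num, Real.Gamma_add_one (by norm_num), g2]; ring
  have g4 : Real.Gamma 4 = 6 := by
    rw [show (4 : ℝ) = 3 + 1 by norm_num, Real.Gamma_add_one (by norm_num), g3]; ring
  have e2 := sqrt_pi_sq
  have hpi2 : (9.8595 : ℝ) < Real.pi ^ 2 := by nlinarith
  have hpi3 : (30.9745 : ℝ) < Real.pi ^ 3 := by nlinarith
  interval_cases m
  · norm_num
    rw [g32, lt_div_iff₀ (by positivity)]
    nlinarith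
  · norm_num
    rw [e2]
    linarith
  · norm_num
    rw [g52, show √Real.pi ^ 3 = √Real.pi ^ 2 * √Real.pi by ring, e2, lt_div_iff₀ (by positivity)]
    nlinarith
  · norm_num
    rw [show √Real.pi ^ 4 = (√Real.pi ^ 2) ^ 2 by ring, e2]
    linarith
  · norm_num
    rw [g72, show √Real.pi ^ 5 = (√Real.pi ^ 2) ^ 2 * √Real.pi by ring, e2,
      lt_div_iff₀ (by positivity)]
    nlinarith
  · norm_num
    rw [show √Real.pi ^ 6 = (√Real.pi ^ 2) ^ 3 by ring, e2]
    linarith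
  · norm_num
    rw [g92, show √Real.pi ^ 7 = (√Real.pi ^ 2) ^ 3 * √Real.pi by ring, e2,
      lt_div_iff₀ (by positivity)]
    nlinarith

/-- A lattice of covolume one in dimension `1 ≤ m ≤ 7` has a nonzero vector of squared length
less than two. -/
theorem exists_short {m : ℕ} (h1 : 1 ≤ m) (h7 : m ≤ 7) (b : Basis (Fin m) ℝ (Fin m → ℝ))
    (hdet : |(Matrix.of b).det| = 1) :
    ∃ v ∈ span ℤ (Set.range b), v ≠ 0 ∧ ∑ i, v i ^ 2 < 2 := by
  by_contra hcon
  push Not at hcon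
  have h2 := (lintegral_bump_ge m h1).trans (lintegral_bump_le b hdet hcon)
  rw [← ENNReal.ofReal_mul (by positivity)] at h2
  rw [ENNReal.ofReal_le_one] at h2
  have h3 := cst_big m h1 h7
  have h4 : 0 < (m : ℝ) / 2 + 1 := by positivity
  rw [one_div, ← div_eq_inv_mul, div_le_one h4] at h2
  linarith

end Pool.Agent.V11147.IcB
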