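import Mathlib

/-!
# Self-dual rational lattices containing a given family of vectors
-/

namespace Pool.Agent.V11147.IcC

open Matrix

/-- A rational number is an integer. -/
def Intg (q : ℚ) : Prop := ∃ n : ℤ, q = n

lemma Intg.add {a b : ℚ} (ha : Intg a) (hb : Intg b) : Intg (a + b) := by
  obtain ⟨x, rfl⟩ := ha
  obtain ⟨y, rfl⟩ := hb
  exact ⟨x + y, by push_cast; ring⟩

lemma Intg.sub {a b : ℚ} (ha : Intg a) (hb : Intg b) : Intg (a - b) := by
  obtain ⟨x, rfl⟩ := ha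
  obtain ⟨y, rfl⟩ := hb
  exact ⟨x - y, by push_cast; ring⟩

lemma Intg.mul {a b : ℚ} (ha : Intg a) (hb : Intg b) : Intg (a * b) := by
  obtain ⟨x, rfl⟩ := ha
  obtain ⟨y, rfl⟩ := hb
  exact ⟨x * y, by push_cast; ring⟩

lemma Intg.neg {a : ℚ} (ha : Intg a) : Intg (-a) := by
  obtain ⟨x, rfl⟩ := ha
  exact ⟨-x, by push_cast; ring⟩

lemma intg_int (n : ℤ) : Intg (n : ℚ) := ⟨n, rfl⟩

lemma intg_zero : Intg 0 := ⟨0, by simp⟩

lemma intg_sum {ι : Type*} (s : Finset ι) (f : ι → ℚ) (h : ∀ i ∈ s, Intg (f i)) :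
    Intg (∑ i ∈ s, f i) := by
  classical
  induction s using Finset.induction_on with
  | empty => simpa using intg_zero
  | insert a s ha ih =>
    rw [Finset.sum_insert ha]
    exact (h a (Finset.mem_insert_self a s)).add
      (ih fun i hi => h i (Finset.mem_insert_of_mem hi))

variable {m : ℕ}

/-- Self-dual lattices. -/
def SD (L : AddSubgroup (Fin m → ℚ)) : Prop :=
  ∀ y, y ∈ L ↔ ∀ z ∈ L, Intg (y ⬝ᵥ z)

/-- Lattices containing a multiple of the integer lattice. -/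
def Full (L : AddSubgroup (Fin m → ℚ)) : Prop :=
  ∃ D : ℕ, 0 < D ∧ ∀ z : Fin m → ℤ, (fun i => (D : ℚ) * (z i : ℚ)) ∈ L

/-- The integer lattice. -/
def stdL (m : ℕ) : AddSubgroup (Fin m → ℚ) where
  carrier := {y | ∀ i, Intg (y i)}
  zero_mem' := fun i => by simpa using intg_zero
  add_mem' := fun {a b} ha hb i => by simpa using (ha i).add (hb i)
  neg_mem' := fun {a} ha i => by simpa using (ha i).neg

lemma mem_stdL (y : Fin m → ℚ) : y ∈ stdL m ↔ ∀ i, Intg (y i) := Iff.rfl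

lemma sd_std : SD (stdL m) := by
  intro y
  constructor
  · intro hy z hz
    exact intg_sum _ _ fun i _ => (hy i).mul (hz i)
  · intro h i
    have h1 := h (Pi.single i 1) (by
      intro j
      rcases eq_or_ne j i with rfl | hj
      · rw [Pi.single_eq_same]; exact ⟨1, by simp⟩
      · rw [Pi.single_eq_of_ne hj]; exact intg_zero)
    simpa using h1

lemma full_std : Full (stdL m) :=
  ⟨1, one_pos, fun z i => ⟨z i, by simp⟩⟩

/-- The neighbour of `L` in the direction `x`. -/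
def nbr (L : AddSubgroup (Fin m → ℚ)) (x : Fin m → ℚ) : AddSubgroup (Fin m → ℚ) where
  carrier := {y | ∃ z ∈ L, Intg (x ⬝ᵥ z) ∧ ∃ n : ℤ, y = z + (n : ℚ) • x}
  zero_mem' := ⟨0, L.zero_mem, by simpa using intg_zero, 0, by simp⟩
  add_mem' := by
    rintro a b ⟨z, hz, hxz, n, rfl⟩ ⟨w, hw, hxw, k, rfl⟩
    refine ⟨z + w, L.add_mem hz hw, ?_, n + k, ?_⟩
    · rw [dotProduct_add]; exact hxz.add hxw
    · push_cast
      rw [add_smul]
      abel
  neg_mem' := by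
    rintro a ⟨z, hz, hxz, n, rfl⟩
    refine ⟨-z, L.neg_mem hz, ?_, -n, ?_⟩
    · rw [dotProduct_neg]; exact hxz.neg
    · push_cast
      rw [neg_smul]
      abel

lemma mem_nbr (L : AddSubgroup (Fin m → ℚ)) (x y : Fin m → ℚ) :
    y ∈ nbr L x ↔ ∃ z ∈ L, Intg (x ⬝ᵥ z) ∧ ∃ n : ℤ, y = z + (n : ℚ) • x := Iff.rfl

lemma self_mem_nbr (L : AddSubgroup (Fin m → ℚ)) (x : Fin m → ℚ) : x ∈ nbr L x :=
  ⟨0, L.zero_mem, by simpa using intg_zero, 1, by simp⟩

lemma mem_nbr_of_mem (L : AddSubgroup (Fin m → ℚ)) (x y : Fin m → ℚ) (hy : y ∈ L)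
    (h : Intg (x ⬝ᵥ y)) : y ∈ nbr L x :=
  ⟨y, hy, h, 0, by simp⟩

lemma exists_denom (x : Fin m → ℚ) : ∃ E : ℕ, 0 < E ∧ ∀ i, Intg ((E : ℚ) * x i) := by
  classical
  refine ⟨∏ i, (x i).den, Finset.prod_pos fun i _ => (x i).den_pos, fun i => ?_⟩
  rw [← Finset.prod_erase_mul _ _ (Finset.mem_univ i)]
  refine ⟨(∏ j ∈ Finset.univ.erase i, ((x j).den : ℤ)) * (x i).num, ?_⟩
  push_cast
  rw [mul_assoc, Rat.den_mul_eq_num]

lemma full_nbr {L : AddSubgroup (Fin m → ℚ)} (hL : Full L) (x : Fin m → ℚ) : Full (nbr L x) := by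
  obtain ⟨D, hD, hmem⟩ := hL
  obtain ⟨E, hE, hden⟩ := exists_denom x
  refine ⟨D * E, Nat.mul_pos hD hE, fun z => ?_⟩
  refine mem_nbr_of_mem L x _ ?_ ?_
  · have h1 := hmem (fun i => (E : ℤ) * z i)
    have h2 : (fun i => (D : ℚ) * (((E : ℤ) * z i : ℤ) : ℚ))
        = fun i => ((D * E : ℕ) : ℚ) * (z i : ℚ) := by
      funext i
      push_cast
      ring
    rw [h2] at h1
    exact h1
  · refine intg_sum _ _ fun i _ => ?_
    have h3 : x i * (((D * E : ℕ) : ℚ) * (z i : ℚ))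
        = ((D : ℤ) : ℚ) * (((E : ℚ) * x i) * ((z i : ℤ) : ℚ)) := by
      push_cast
      ring
    rw [h3]
    exact (intg_int _).mul ((hden i).mul (intg_int _))

/-- A common denominator of the products of `x` with the elements of `L`. -/
lemma exists_common {L : AddSubgroup (Fin m → ℚ)} (hS : SD L) (hL : Full L) (x : Fin m → ℚ) :
    ∃ N : ℕ, 0 < N ∧ ∀ z ∈ L, Intg ((N : ℚ) * (x ⬝ᵥ z)) := by
  obtain ⟨D, hD, hmem⟩ := hL
  obtain ⟨E, hE, hden⟩ := exists_denom x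
  refine ⟨D * E, Nat.mul_pos hD hE, fun z hz => ?_⟩
  have hz2 : ∀ i, Intg ((D : ℚ) * z i) := by
    intro i
    have h1 := (hS z).1 hz _ (hmem (Pi.single i 1))
    have h2 : z ⬝ᵥ (fun j => (D : ℚ) * ((Pi.single i (1 : ℤ) : Fin m → ℤ) j : ℚ))
        = (D : ℚ) * z i := by
      rw [dotProduct, Finset.sum_eq_single i]
      · rw [Pi.single_eq_same]; push_cast; ring
      · intro j _ hj
        rw [Pi.single_eq_of_ne hj]; push_cast; ring
      · intro h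
        exact absurd (Finset.mem_univ i) h
    rw [h2] at h1
    exact h1
  have h3 : ((D * E : ℕ) : ℚ) * (x ⬝ᵥ z) = ∑ i, ((E : ℚ) * x i) * ((D : ℚ) * z i) := by
    rw [dotProduct, Finset.mul_sum]
    refine Finset.sum_congr rfl fun i _ => ?_
    push_cast
    ring
  rw [h3]
  exact intg_sum _ _ fun i _ => (hden i).mul (hz2 i)

lemma key {L : AddSubgroup (Fin m → ℚ)} (hS : SD L) (hL : Full L) (x y : Fin m → ℚ)
    (hy : ∀ z ∈ L, Intg (x ⬝ᵥ z) → Intg (y ⬝ᵥ z)) :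
    ∃ n : ℤ, y - (n : ℚ) • x ∈ L := by
  obtain ⟨N, hN, hden⟩ := exists_common hS hL x
  have hNq : (N : ℚ) ≠ 0 := by exact_mod_cast hN.ne'
  let G : AddSubgroup ℤ :=
    { carrier := {g | ∃ z ∈ L, ∃ c : ℤ, (g : ℚ) = N * (x ⬝ᵥ z) + N * c}
      zero_mem' := ⟨0, L.zero_mem, 0, by simp⟩
      add_mem' := by
        rintro a b ⟨z, hz, c, h1⟩ ⟨w, hw, d, h2⟩
        refine ⟨z + w, L.add_mem hz hw, c + d, ?_⟩
        rw [dotProduct_add]
        push_cast
        rw [h1, h2]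
        ring
      neg_mem' := by
        rintro a ⟨z, hz, c, h1⟩
        refine ⟨-z, L.neg_mem hz, -c, ?_⟩
        rw [dotProduct_neg]
        push_cast
        rw [h1]
        ring }
  obtain ⟨g, hg⟩ := Int.subgroup_cyclic G
  have hgG : g ∈ G := by
    rw [hg]; exact AddSubgroup.subset_closure rfl
  have hdvd : ∀ a ∈ G, ∃ j : ℤ, a = j * g := by
    intro a ha
    rw [hg, AddSubgroup.mem_closure_singleton] at ha
    obtain ⟨j, hj⟩ := ha
    exact ⟨j, by rw [← hj]; simp⟩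
  obtain ⟨z0, hz0, c0, hg0⟩ := hgG
  have hNG : (N : ℤ) ∈ G := ⟨0, L.zero_mem, 1, by simp⟩
  obtain ⟨d, hd⟩ := hdvd _ hNG
  have hdq : (N : ℚ) = (d : ℚ) * (g : ℚ) := by exact_mod_cast hd
  have hd0 : (d : ℚ) ≠ 0 := by
    intro h
    rw [h, zero_mul] at hdq
    exact hNq hdq
  have hgne : (g : ℚ) ≠ 0 := by
    intro h
    rw [h, mul_zero] at hdq
    exact hNq hdq
  -- d z0 is in the sublattice
  have h1 : Intg (x ⬝ᵥ ((d : ℤ) • z0)) := by
    refine ⟨1 - d * c0, ?_⟩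
    have h2 : x ⬝ᵥ ((d : ℤ) • z0) = (d : ℚ) * (x ⬝ᵥ z0) := by
      rw [← Int.cast_smul_eq_zsmul ℚ, dotProduct_smul, smul_eq_mul]
    rw [h2]
    push_cast
    have h3 : (N : ℚ) * (d * (x ⬝ᵥ z0)) = N * (1 - d * c0) := by
      calc (N : ℚ) * (d * (x ⬝ᵥ z0)) = d * (g - N * c0) := by rw [hg0]; ring
        _ = N * (1 - d * c0) := by rw [hdq]; ring
    exact mul_left_cancel₀ hNq h3
  obtain ⟨n, hn⟩ := hy _ (L.zsmul_mem hz0 d) h1
  have hn' : (d : ℚ) * (y ⬝ᵥ z0) = n := by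
    rw [← hn, ← Int.cast_smul_eq_zsmul ℚ, dotProduct_smul, smul_eq_mul]
  refine ⟨n, (hS _).2 fun z hz => ?_⟩
  obtain ⟨a, ha⟩ := hden z hz
  have haG : a ∈ G := ⟨z, hz, 0, by rw [ha]; simp⟩
  obtain ⟨j, hj⟩ := hdvd a haG
  have hjq : (a : ℚ) = j * g := by exact_mod_cast hj
  have hxz : x ⬝ᵥ z = j / d := by
    have : (N : ℚ) * (x ⬝ᵥ z) = N * (j / d) := by
      rw [ha, hjq, hdq]
      field_simp
    exact mul_left_cancel₀ hNq this
  have h5 : Intg (x ⬝ᵥ (z - j • z0)) := by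
    refine ⟨j * c0, ?_⟩
    rw [dotProduct_sub, ← Int.cast_smul_eq_zsmul ℚ, dotProduct_smul, smul_eq_mul]
    have : (N : ℚ) * (x ⬝ᵥ z - j * (x ⬝ᵥ z0)) = N * ((j * c0 : ℤ) : ℚ) := by
      calc (N : ℚ) * (x ⬝ᵥ z - j * (x ⬝ᵥ z0)) = N * (x ⬝ᵥ z) - j * (g - N * c0) := by
            rw [hg0]; ring
        _ = N * ((j * c0 : ℤ) : ℚ) := by rw [ha, hjq]; push_cast; ring
    exact mul_left_cancel₀ hNq this
  obtain ⟨e, he⟩ := hy _ (L.sub_mem hz (L.zsmul_mem hz0 j)) h5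
  rw [dotProduct_sub, ← Int.cast_smul_eq_zsmul ℚ, dotProduct_smul, smul_eq_mul] at he
  refine ⟨e, ?_⟩
  rw [sub_dotProduct, smul_dotProduct, smul_eq_mul, hxz, ← he]
  have h6 : y ⬝ᵥ z0 = n / d := by
    rw [← hn']; field_simp
  rw [h6]
  ring

lemma sd_nbr {L : AddSubgroup (Fin m → ℚ)} (hS : SD L) (hL : Full L) (x : Fin m → ℚ)
    (hx : Intg (x ⬝ᵥ x)) : SD (nbr L x) := by
  intro y
  constructor
  · rintro ⟨z, hz, hxz, n, rfl⟩ _ ⟨w, hw, hxw, k, rfl⟩
    rw [add_dotProduct, dotProduct_add, dotProduct_add, smul_dotProduct, dotProduct_smul,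
      smul_dotProduct, dotProduct_smul, smul_eq_mul, smul_eq_mul, smul_eq_mul, smul_eq_mul]
    rw [dotProduct_comm z x]
    exact (((hS z).1 hz w hw).add ((intg_int k).mul hxz)).add
      (((intg_int n).mul hxw).add ((intg_int n).mul ((intg_int k).mul hx)))
  · intro h
    obtain ⟨n, hn⟩ := key hS hL x y (fun z hz hxz => h z (mem_nbr_of_mem L x z hz hxz))
    refine ⟨y - (n : ℚ) • x, hn, ?_, n, by simp⟩
    rw [dotProduct_sub, dotProduct_smul, smul_eq_mul, dotProduct_comm]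
    exact (h x (self_mem_nbr L x)).sub ((intg_int n).mul hx)

/-- Vectors with pairwise integral products lie in a common self-dual lattice. -/
theorem exists_sd : ∀ l : List (Fin m → ℚ), (∀ x ∈ l, ∀ y ∈ l, Intg (x ⬝ᵥ y)) →
    ∃ L : AddSubgroup (Fin m → ℚ), SD L ∧ Full L ∧ ∀ x ∈ l, x ∈ L
  | [], _ => ⟨stdL m, sd_std, full_std, by simp⟩
  | x :: l, h => by
    obtain ⟨L, hS, hF, hmem⟩ := exists_sd l
      (fun a ha b hb => h a (List.mem_cons_of_mem _ ha) b (List.mem_cons_of_mem _ hb))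
    refine ⟨nbr L x, sd_nbr hS hF x (h x List.mem_cons_self x List.mem_cons_self),
      full_nbr hF x, ?_⟩
    intro a ha
    rcases List.mem_cons.1 ha with rfl | ha'
    · exact self_mem_nbr L _
    · exact mem_nbr_of_mem L x a (hmem a ha') (h x List.mem_cons_self a ha)

end Pool.Agent.V11147.IcC
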