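import Mathlib
import Pool.Agent.V11147.IcB
import Pool.Agent.V11147.IcC

/-!
# A self-dual rational lattice of rank at most seven has a vector of norm one
-/

namespace Pool.Agent.V11147.IcD

open Matrix Module Submodule Pool.Agent.V11147.IcB Pool.Agent.V11147.IcC

variable {m : ℕ}

/-- The real version of a rational vector. -/
def toR (q : Fin m → ℚ) : Fin m → ℝ := fun i => (q i : ℝ)

lemma toR_inj {p q : Fin m → ℚ} (h : toR p = toR q) : p = q := by
  funext i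
  have := congrFun h i
  simpa [toR] using this

lemma toR_add (p q : Fin m → ℚ) : toR (p + q) = toR p + toR q := by
  funext i; simp [toR]

lemma toR_zsmul (n : ℤ) (q : Fin m → ℚ) : toR (n • q) = n • toR q := by
  funext i; simp [toR]

lemma toR_sub (p q : Fin m → ℚ) : toR (p - q) = toR p - toR q := by
  funext i; simp [toR]

/-- The real lattice. -/
def LR (L : AddSubgroup (Fin m → ℚ)) : Submodule ℤ (Fin m → ℝ) where
  carrier := {y | ∃ q ∈ L, y = toR q}
  zero_mem' := ⟨0, L.zero_mem, by funext i; simp [toR]⟩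
  add_mem' := by
    rintro a b ⟨p, hp, rfl⟩ ⟨q, hq, rfl⟩
    exact ⟨p + q, L.add_mem hp hq, (toR_add p q).symm⟩
  smul_mem' := by
    rintro n a ⟨q, hq, rfl⟩
    exact ⟨n • q, L.zsmul_mem hq n, (toR_zsmul n q).symm⟩

lemma mem_LR (L : AddSubgroup (Fin m → ℚ)) (y : Fin m → ℝ) : y ∈ LR L ↔ ∃ q ∈ L, y = toR q :=
  Iff.rfl

lemma sum_sq_toR (q : Fin m → ℚ) : ∑ i, (toR q i) ^ 2 = ((q ⬝ᵥ q : ℚ) : ℝ) := by
  rw [dotProduct]
  push_cast
  exact Finset.sum_congr rfl fun i _ => by simp [toR]; ring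

lemma norm_ge {L : AddSubgroup (Fin m → ℚ)} (hS : SD L) (q : Fin m → ℚ) (hq : q ∈ L)
    (h0 : q ≠ 0) : 1 ≤ q ⬝ᵥ q := by
  obtain ⟨n, hn⟩ := (hS q).1 hq q hq
  have h1 : 0 < q ⬝ᵥ q := by
    rw [dotProduct]
    obtain ⟨i, hi⟩ : ∃ i, q i ≠ 0 := by
      by_contra hcon
      push Not at hcon
      exact h0 (funext hcon)
    exact Finset.sum_pos' (fun j _ => mul_self_nonneg _)
      ⟨i, Finset.mem_univ i, mul_self_pos.2 hi⟩
  rw [hn] at h1 ⊢
  have : 0 < n := by exact_mod_cast h1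
  exact_mod_cast this

lemma discrete_LR {L : AddSubgroup (Fin m → ℚ)} (hm : 1 ≤ m) (hS : SD L) :
    DiscreteTopology (LR L) := by
  have hmR : (0 : ℝ) < m := by exact_mod_cast hm
  refine DiscreteTopology.of_forall_le_dist (r := 1 / (m : ℝ)) (by positivity) ?_
  rintro ⟨_, p, hp, rfl⟩ ⟨_, q, hq, rfl⟩ hne
  have hpq : p - q ≠ 0 := by
    intro h
    apply hne
    rw [sub_eq_zero] at h
    subst h
    rfl
  have h1 := norm_ge hS (p - q) (L.sub_mem hp hq) hpq
  have h2 : (1 : ℝ) ≤ ∑ i, (toR (p - q) i) ^ 2 := by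
    rw [sum_sq_toR]
    exact_mod_cast h1
  rw [Subtype.dist_eq, dist_eq_norm, ← toR_sub]
  by_contra hcon
  push Not at hcon
  have h3 : ∀ i, (toR (p - q) i) ^ 2 < 1 / (m : ℝ) := by
    intro i
    have h4 : ‖toR (p - q) i‖ < 1 / (m : ℝ) := (norm_le_pi_norm _ i).trans_lt hcon
    rw [Real.norm_eq_abs] at h4
    have h5 : (1 : ℝ) / m ≤ 1 := by
      rw [div_le_one hmR]
      exact_mod_cast hm
    rw [← sq_abs]
    have h6 := abs_nonneg (toR (p - q) i)
    nlinarith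
  have h7 : ∑ i, (toR (p - q) i) ^ 2 < ∑ _i : Fin m, 1 / (m : ℝ) := by
    have : Nonempty (Fin m) := ⟨⟨0, hm⟩⟩
    exact Finset.sum_lt_sum_of_nonempty Finset.univ_nonempty fun i _ => h3 i
  rw [Finset.sum_const, Finset.card_univ, Fintype.card_fin, nsmul_eq_mul,
    mul_one_div_cancel hmR.ne'] at h7
  linarith

lemma span_LR {L : AddSubgroup (Fin m → ℚ)} (hF : Full L) :
    span ℝ (LR L : Set (Fin m → ℝ)) = ⊤ := by
  obtain ⟨D, hD, hmem⟩ := hF
  rw [eq_top_iff]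
  rintro y -
  have hDR : (D : ℝ) ≠ 0 := by exact_mod_cast hD.ne'
  have h1 : ∀ i, (Pi.single i (D : ℝ) : Fin m → ℝ) ∈ span ℝ (LR L : Set (Fin m → ℝ)) := by
    intro i
    apply subset_span
    refine ⟨_, hmem (Pi.single i 1), ?_⟩
    funext j
    rcases eq_or_ne j i with rfl | hj
    · simp [toR]
    · simp [toR, Pi.single_eq_of_ne hj]
  have h2 : y = ∑ i, (y i / D) • (Pi.single i (D : ℝ) : Fin m → ℝ) := by
    funext j
    rw [Finset.sum_apply, Finset.sum_eq_single j]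
    · simp; field_simp
    · intro i _ hi
      simp [Pi.single_eq_of_ne hi.symm]
    · intro h; exact absurd (Finset.mem_univ j) h
  rw [h2]
  exact sum_mem fun i _ => smul_mem _ _ (h1 i)

theorem exists_norm_one (h1 : 1 ≤ m) (h7 : m ≤ 7) (L : AddSubgroup (Fin m → ℚ)) (hS : SD L)
    (hF : Full L) : ∃ e ∈ L, e ⬝ᵥ e = 1 := by
  have hd : DiscreteTopology (LR L) := discrete_LR h1 hS
  have hz : IsZLattice ℝ (LR L) := ⟨span_LR hF⟩
  let b0 : Basis (Fin m) ℤ (LR L) := IsZLattice.basis (LR L)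
  let b : Basis (Fin m) ℝ (Fin m → ℝ) := b0.ofZLatticeBasis ℝ (LR L)
  have hb : ∀ i, b i = (b0 i : Fin m → ℝ) := fun i => b0.ofZLatticeBasis_apply ℝ (LR L) i
  have hq : ∀ i, ∃ q ∈ L, (b0 i : Fin m → ℝ) = toR q := fun i => (b0 i).2
  choose q hqL hq using hq
  have hrepr : ∀ z ∈ L, ∃ c : Fin m → ℤ, z = ∑ j, c j • q j := by
    intro z hz'
    let zz : LR L := ⟨toR z, z, hz', rfl⟩
    refine ⟨fun j => b0.repr zz j, ?_⟩
    apply toR_inj
    have h2 := b0.sum_repr zz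
    have h3 : (zz : Fin m → ℝ) = ∑ j, (b0.repr zz j) • (b0 j : Fin m → ℝ) := by
      have h5 := congrArg (Submodule.subtype (LR L)) h2
      rw [map_sum] at h5
      rw [show (zz : Fin m → ℝ) = (LR L).subtype zz from rfl, ← h5]
      refine Finset.sum_congr rfl fun j _ => ?_
      rw [map_smul]
      rfl
    have h4 : toR (∑ j, (b0.repr zz j) • q j) = ∑ j, (b0.repr zz j) • toR (q j) := by
      funext i
      simp [toR]
    rw [h4]
    calc toR z = (zz : Fin m → ℝ) := rfl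
      _ = _ := h3
      _ = _ := Finset.sum_congr rfl fun j _ => by rw [hq j]
  let Q : Matrix (Fin m) (Fin m) ℚ := Matrix.of q
  have hBQ : Matrix.of b = Q.map (fun x : ℚ => (x : ℝ)) := by
    ext i j
    show b i j = ((q i j : ℚ) : ℝ)
    rw [hb, hq]
    rfl
  have hdetR : (Matrix.of b).det = ((Q.det : ℚ) : ℝ) := by
    rw [hBQ]
    exact ((Rat.castHom ℝ).map_det Q).symm
  have hdet0 : (Matrix.of b).det ≠ 0 := by
    have h2 : IsUnit ((Pi.basisFun ℝ (Fin m)).det b) :=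
      (Pi.basisFun ℝ (Fin m)).isUnit_det b
    rw [Pi.basisFun_det_apply] at h2
    exact h2.ne_zero
  have hQ0 : Q.det ≠ 0 := by
    intro h
    rw [hdetR, h] at hdet0
    simp at hdet0
  -- Gram matrix
  have hG : ∀ i j, ∃ n : ℤ, q i ⬝ᵥ q j = n := fun i j => (hS (q i)).1 (hqL i) (q j) (hqL j)
  choose G hG using hG
  let Gz : Matrix (Fin m) (Fin m) ℤ := Matrix.of G
  have hGQ : Gz.map (fun x : ℤ => (x : ℚ)) = Q * Qᵀ := by
    ext i j
    show ((G i j : ℤ) : ℚ) = _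
    rw [← hG i j]
    rfl
  -- dual basis
  have hQT : IsUnit Qᵀ.det := by rw [det_transpose]; exact isUnit_iff_ne_zero.2 hQ0
  let P : Matrix (Fin m) (Fin m) ℚ := (Qᵀ)⁻¹
  have hPQ : P * Qᵀ = 1 := Matrix.nonsing_inv_mul _ hQT
  have hPq : ∀ i j, P i ⬝ᵥ q j = if i = j then 1 else 0 := by
    intro i j
    have h2 := congrFun (congrFun hPQ i) j
    rw [Matrix.one_apply] at h2
    exact h2
  have hPL : ∀ i, P i ∈ L := by
    intro i
    rw [hS]
    intro z hz'
    obtain ⟨c, rfl⟩ := hrepr z hz'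
    refine ⟨c i, ?_⟩
    rw [dotProduct_sum, Finset.sum_eq_single i]
    · rw [← Int.cast_smul_eq_zsmul ℚ, dotProduct_smul, hPq]; simp
    · intro j _ hj
      rw [← Int.cast_smul_eq_zsmul ℚ, dotProduct_smul, hPq]; simp [hj.symm]
    · intro h; exact absurd (Finset.mem_univ i) h
  have hU : ∀ i, ∃ c : Fin m → ℤ, P i = ∑ j, c j • q j := fun i => hrepr _ (hPL i)
  choose U hU using hU
  let Uz : Matrix (Fin m) (Fin m) ℤ := Matrix.of U
  have hPU : P = Uz.map (fun x : ℤ => (x : ℚ)) * Q := by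
    ext i j
    rw [hU i, Matrix.mul_apply, Finset.sum_apply]
    refine Finset.sum_congr rfl fun k _ => ?_
    simp [Uz, Q]
  have hone : Uz.map (fun x : ℤ => (x : ℚ)) * Gz.map (fun x : ℤ => (x : ℚ)) = 1 := by
    rw [hGQ, ← Matrix.mul_assoc, ← hPU, hPQ]
  have hdets : (Uz.det : ℚ) * (Gz.det : ℚ) = 1 := by
    have h2 := congrArg Matrix.det hone
    rw [Matrix.det_mul, Matrix.det_one] at h2
    have h3 : (Uz.map (fun x : ℤ => (x : ℚ))).det = (Uz.det : ℚ) :=
      ((Int.castRingHom ℚ).map_det Uz).symm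
    have h4 : (Gz.map (fun x : ℤ => (x : ℚ))).det = (Gz.det : ℚ) :=
      ((Int.castRingHom ℚ).map_det Gz).symm
    rw [h3, h4] at h2
    exact h2
  have hdets' : Uz.det * Gz.det = 1 := by exact_mod_cast hdets
  have hGd : (Gz.det : ℚ) = Q.det ^ 2 := by
    have h4 : (Gz.map (fun x : ℤ => (x : ℚ))).det = (Gz.det : ℚ) :=
      ((Int.castRingHom ℚ).map_det Gz).symm
    rw [← h4, hGQ, Matrix.det_mul, det_transpose]
    ring
  have hGd1 : Gz.det = 1 := by
    have h5 : (0 : ℚ) ≤ Gz.det := by rw [hGd]; positivity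
    have h6 : 0 ≤ Gz.det := by exact_mod_cast h5
    rcases Int.eq_one_or_neg_one_of_mul_eq_one' hdets' with h | h
    · exact h.2
    · omega
  have hQ1 : Q.det ^ 2 = 1 := by rw [← hGd, hGd1]; simp
  have habs : |(Matrix.of b).det| = 1 := by
    rw [hdetR]
    have h5 : ((Q.det : ℚ) : ℝ) ^ 2 = 1 := by exact_mod_cast hQ1
    have h6 : |((Q.det : ℚ) : ℝ)| ^ 2 = 1 := by rw [sq_abs]; exact h5
    have h8 := abs_nonneg ((Q.det : ℚ) : ℝ)
    nlinarith [sq_nonneg (|((Q.det : ℚ) : ℝ)| - 1)]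
  obtain ⟨v, hv, hv0, hvs⟩ := exists_short h1 h7 b habs
  have hvL : v ∈ LR L := by
    have h5 : span ℤ (Set.range b) = LR L := b0.ofZLatticeBasis_span ℝ
    rw [← h5]; exact hv
  obtain ⟨e, he, rfl⟩ := hvL
  have he0 : e ≠ 0 := by
    rintro rfl
    exact hv0 (by funext i; simp [toR])
  refine ⟨e, he, ?_⟩
  have h9 := norm_ge hS e he he0
  obtain ⟨n, hn⟩ := (hS e).1 he e he
  rw [sum_sq_toR] at hvs
  have h10 : e ⬝ᵥ e < 2 := by exact_mod_cast hvs
  rw [hn] at h9 h10 ⊢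
  have h11 : (1 : ℤ) ≤ n := by exact_mod_cast h9
  have h12 : n < (2 : ℤ) := by exact_mod_cast h10
  have h13 : n = 1 := by omega
  rw [h13]; simp

end Pool.Agent.V11147.IcD
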