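import Mathlib
import Pool.Agent.V11147.IcD

/-!
# Extending orthogonal families of integer vectors of equal norm
-/

namespace Pool.Agent.V11147.IcE

open Matrix Pool.Agent.V11147.IcC Pool.Agent.V11147.IcD

/-- A family of pairwise orthogonal rational vectors of squared length `lam`. -/
def Fr {n k : ℕ} (lam : ℚ) (w : Fin k → Fin n → ℚ) : Prop :=
  ∀ i j, w i ⬝ᵥ w j = if i = j then lam else 0

lemma step {n : ℕ} {lam : ℚ} (w : Fin n → Fin n → ℚ) (hw : Fr lam w) (j : Fin n)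
    (v : Fin n → ℚ) (hv : v ⬝ᵥ v = lam) :
    ∃ w' : Fin n → Fin n → ℚ, Fr lam w' ∧ w' j = v ∧
      ∀ i, i ≠ j → w i ⬝ᵥ v = 0 → w' i = w i := by
  by_cases hu : w j - v = 0
  · exact ⟨w, hw, sub_eq_zero.1 hu, fun i _ _ => rfl⟩
  obtain ⟨u, hu'⟩ : ∃ u, u = w j - v := ⟨_, rfl⟩
  rw [← hu'] at hu
  have huu : u ⬝ᵥ u ≠ 0 := by
    intro h
    rw [dotProduct_self_eq_zero] at h
    exact hu h
  refine ⟨fun i => w i - ((2 * (w i ⬝ᵥ u)) / (u ⬝ᵥ u)) • u, ?_, ?_, ?_⟩
  · intro a b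
    show (w a - _ • u) ⬝ᵥ (w b - _ • u) = _
    rw [← hw a b]
    simp only [sub_dotProduct, dotProduct_sub, smul_dotProduct, dotProduct_smul, smul_eq_mul]
    rw [dotProduct_comm u (w b)]
    field_simp
    ring
  · show w j - _ • u = v
    have h1 : w j ⬝ᵥ w j = lam := by rw [hw]; simp
    have h2 : 2 * (w j ⬝ᵥ u) = u ⬝ᵥ u := by
      rw [hu', dotProduct_sub, sub_dotProduct, dotProduct_sub, dotProduct_sub, h1, hv,
        dotProduct_comm v (w j)]
      ring
    rw [h2, div_self huu, one_smul, hu']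
    abel
  · intro i hi hiv
    show w i - _ • u = w i
    have h1 : w i ⬝ᵥ u = 0 := by
      rw [hu', dotProduct_sub, hiv, hw, if_neg hi]
      ring
    rw [h1]
    simp

lemma extendQ {n k : ℕ} (hk : k ≤ n) {lam : ℚ} (w0 : Fin n → Fin n → ℚ) (hw0 : Fr lam w0)
    (v : Fin k → Fin n → ℚ) (hv : Fr lam v) :
    ∃ w : Fin n → Fin n → ℚ, Fr lam w ∧ ∀ i : Fin k, w (Fin.castLE hk i) = v i := by
  have main : ∀ j ≤ k, ∃ w : Fin n → Fin n → ℚ, Fr lam w ∧
      ∀ i : Fin k, (i : ℕ) < j → w (Fin.castLE hk i) = v i := by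
    intro j
    induction j with
    | zero => intro _; exact ⟨w0, hw0, fun i hi => absurd hi (Nat.not_lt_zero _)⟩
    | succ j ih =>
      intro hj
      obtain ⟨w, hw, hwv⟩ := ih (by omega)
      obtain ⟨w', hw', h1, h2⟩ := step w hw (Fin.castLE hk ⟨j, by omega⟩) (v ⟨j, by omega⟩)
        (by rw [hv]; simp)
      refine ⟨w', hw', fun i hi => ?_⟩
      rcases Nat.lt_succ_iff_lt_or_eq.1 hi with hlt | heq
      · have hne : i ≠ ⟨j, by omega⟩ := by
          intro h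
          rw [h] at hlt
          exact lt_irrefl _ hlt
        rw [h2 (Fin.castLE hk i) (fun h => hne (Fin.castLE_injective hk h))
          (by rw [hwv i hlt, hv, if_neg hne]), hwv i hlt]
      · have : i = ⟨j, by omega⟩ := Fin.ext heq
        rw [this]
        exact h1
  obtain ⟨w, hw, hwv⟩ := main k le_rfl
  exact ⟨w, hw, fun i => hwv i i.2⟩

lemma cols {n : ℕ} {lam : ℚ} (hlam : lam ≠ 0) (w : Fin n → Fin n → ℚ) (hw : Fr lam w)
    (t s : Fin n) : ∑ i, w i t * w i s = if t = s then lam else 0 := by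
  let W : Matrix (Fin n) (Fin n) ℚ := Matrix.of w
  have h1 : W * Wᵀ = lam • (1 : Matrix (Fin n) (Fin n) ℚ) := by
    ext i j
    rw [Matrix.smul_apply, Matrix.one_apply]
    have := hw i j
    rw [show (W * Wᵀ) i j = w i ⬝ᵥ w j from rfl, this]
    split_ifs <;> simp
  have h2 : W * (lam⁻¹ • Wᵀ) = 1 := by
    rw [Matrix.mul_smul, h1, smul_smul, inv_mul_cancel₀ hlam, one_smul]
  have h3 : (lam⁻¹ • Wᵀ) * W = 1 := mul_eq_one_comm.1 h2
  have h4 : Wᵀ * W = lam • (1 : Matrix (Fin n) (Fin n) ℚ) := by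
    rw [← h3, Matrix.smul_mul, smul_smul, mul_inv_cancel₀ hlam, one_smul]
  have h5 := congrFun (congrFun h4 t) s
  rw [Matrix.smul_apply, Matrix.one_apply, Matrix.mul_apply] at h5
  rw [show ∑ i, w i t * w i s = ∑ j, Wᵀ t j * W j s from rfl, h5]
  split_ifs <;> simp

/-- The core step: one more vector. -/
theorem core {n k m : ℕ} (hn : n = k + m) (hm : 1 ≤ m) (hm7 : m ≤ 7) {lam : ℤ} (hlam : 0 < lam)
    (w0 : Fin n → Fin n → ℚ) (hw0 : Fr (lam : ℚ) w0)
    (v : Fin k → Fin n → ℤ) (hv : ∀ i j, v i ⬝ᵥ v j = if i = j then lam else 0) :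
    ∃ b : Fin n → ℤ, b ⬝ᵥ b = lam ∧ ∀ i, b ⬝ᵥ v i = 0 := by
  subst hn
  have hlq : (lam : ℚ) ≠ 0 := by exact_mod_cast hlam.ne'
  let vq : Fin k → Fin (k + m) → ℚ := fun i t => (v i t : ℚ)
  have hvq : Fr (lam : ℚ) vq := by
    intro i j
    have h1 : vq i ⬝ᵥ vq j = ((v i ⬝ᵥ v j : ℤ) : ℚ) := by
      simp [vq, dotProduct]
    rw [h1, hv]
    split_ifs <;> simp
  obtain ⟨w, hw, hwv⟩ := extendQ (Nat.le_add_right k m) w0 hw0 vq hvq
  let r : Fin (k + m) → Fin m → ℚ := fun t j => w (Fin.natAdd k j) t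
  have hcast : ∀ i : Fin k, w (Fin.castAdd m i) = vq i := fun i => hwv i
  have hr : ∀ t s, Intg (r t ⬝ᵥ r s) := by
    intro t s
    have h1 := cols hlq w hw t s
    rw [Fin.sum_univ_add] at h1
    have h2 : r t ⬝ᵥ r s = ∑ j : Fin m, w (Fin.natAdd k j) t * w (Fin.natAdd k j) s := rfl
    rw [h2, eq_sub_of_add_eq' h1]
    refine Intg.sub ?_ ?_
    · split_ifs
      · exact intg_int lam
      · exact intg_zero
    · refine intg_sum _ _ fun i _ => ?_
      rw [hcast]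
      exact (intg_int _).mul (intg_int _)
  obtain ⟨L, hS, hF, hmem⟩ := exists_sd (List.ofFn r) (by
    intro x hx y hy
    rw [List.mem_ofFn] at hx hy
    obtain ⟨t, rfl⟩ := hx
    obtain ⟨s, rfl⟩ := hy
    exact hr t s)
  obtain ⟨e, he, hee⟩ := exists_norm_one hm hm7 L hS hF
  have hb : ∀ t, ∃ c : ℤ, r t ⬝ᵥ e = c := by
    intro t
    exact (hS (r t)).1 (hmem _ (by rw [List.mem_ofFn]; exact ⟨t, rfl⟩)) e he
  choose b hb using hb
  let bq : Fin (k + m) → ℚ := ∑ j : Fin m, e j • w (Fin.natAdd k j)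
  have hbq : ∀ t, bq t = (b t : ℚ) := by
    intro t
    rw [← hb t]
    simp only [bq, Finset.sum_apply, Pi.smul_apply, smul_eq_mul, dotProduct, r]
    exact Finset.sum_congr rfl fun j _ => mul_comm _ _
  have h1 : bq ⬝ᵥ bq = lam := by
    simp only [bq]
    rw [sum_dotProduct]
    have h2 : ∀ i : Fin m, (e i • w (Fin.natAdd k i)) ⬝ᵥ (∑ j : Fin m, e j • w (Fin.natAdd k j))
        = lam * (e i * e i) := by
      intro i
      rw [dotProduct_sum, Finset.sum_eq_single i]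
      · rw [smul_dotProduct, dotProduct_smul, hw]
        simp only [smul_eq_mul, if_true]
        ring
      · intro j _ hj
        rw [smul_dotProduct, dotProduct_smul, hw, if_neg]
        · simp
        · intro h
          exact hj (Fin.natAdd_injective m k h).symm
      · intro h; exact absurd (Finset.mem_univ i) h
    rw [Finset.sum_congr rfl fun i _ => h2 i, ← Finset.mul_sum]
    rw [show ∑ i, e i * e i = e ⬝ᵥ e from rfl, hee, mul_one]
  have h2 : ∀ i, bq ⬝ᵥ vq i = 0 := by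
    intro i
    simp only [bq]
    rw [sum_dotProduct]
    refine Finset.sum_eq_zero fun j _ => ?_
    rw [smul_dotProduct, ← hcast, hw, if_neg]
    · simp
    · intro h
      have := congrArg Fin.val h
      simp only [Fin.val_natAdd, Fin.val_castAdd] at this
      omega
  refine ⟨b, ?_, fun i => ?_⟩
  · have h3 : ((b ⬝ᵥ b : ℤ) : ℚ) = lam := by
      rw [← h1]
      simp only [dotProduct, hbq]
      push_cast
      rfl
    exact_mod_cast h3
  · have h3 : ((b ⬝ᵥ v i : ℤ) : ℚ) = 0 := by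
      rw [← h2 i]
      simp only [dotProduct, hbq, vq]
      push_cast
      rfl
    exact_mod_cast h3

/-- The four squares frame in dimension eight. -/
lemma frame8 (lam : ℤ) (hlam : 0 < lam) : ∃ w : Fin 8 → Fin 8 → ℚ, Fr (lam : ℚ) w := by
  obtain ⟨a, b, c, d, h⟩ := Nat.sum_four_squares lam.toNat
  have h1 : ((a : ℚ) ^ 2 + b ^ 2 + c ^ 2 + d ^ 2) = lam := by
    have h2 : ((a ^ 2 + b ^ 2 + c ^ 2 + d ^ 2 : ℕ) : ℤ) = lam := by
      rw [h]; omega
    exact_mod_cast h2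
  refine ⟨![![a, b, c, d, 0, 0, 0, 0], ![-b, a, -d, c, 0, 0, 0, 0],
    ![-c, d, a, -b, 0, 0, 0, 0], ![-d, -c, b, a, 0, 0, 0, 0],
    ![0, 0, 0, 0, a, b, c, d], ![0, 0, 0, 0, -b, a, -d, c],
    ![0, 0, 0, 0, -c, d, a, -b], ![0, 0, 0, 0, -d, -c, b, a]], ?_⟩
  intro i j
  rw [← h1]
  fin_cases i <;> fin_cases j <;>
    simp [dotProduct, Fin.sum_univ_succ] <;> ring

theorem extend : ∀ (d k : ℕ) (hk : k ≤ 8), k + d = 8 → 1 ≤ k → ∀ (lam : ℤ), 0 < lam →
    ∀ v : Fin k → Fin 8 → ℤ, (∀ i j, v i ⬝ᵥ v j = if i = j then lam else 0) →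
    ∃ w : Fin 8 → Fin 8 → ℤ, (∀ i j, w i ⬝ᵥ w j = if i = j then lam else 0) ∧
      ∀ i : Fin k, w (Fin.castLE hk i) = v i := by
  intro d
  induction d with
  | zero =>
    intro k hk hd _ lam _ v hv
    obtain rfl : k = 8 := by omega
    exact ⟨v, hv, fun i => rfl⟩
  | succ d ih =>
    intro k hk hd h1 lam hlam v hv
    obtain ⟨w0, hw0⟩ := frame8 lam hlam
    obtain ⟨b, hbb, hbv⟩ := core (n := 8) (k := k) (m := d + 1) (by omega) (by omega) (by omega)
      hlam w0 hw0 v hv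
    obtain ⟨w, hw, hwv⟩ := ih (k + 1) (by omega) (by omega) (by omega) lam hlam
      (Fin.snoc v b : Fin (k + 1) → Fin 8 → ℤ) (by
        intro i j
        refine Fin.lastCases ?_ (fun i => ?_) i <;> refine Fin.lastCases ?_ (fun j => ?_) j
        · simp [hbb]
        · rw [Fin.snoc_last, Fin.snoc_castSucc, hbv, if_neg (Fin.castSucc_lt_last j).ne']
        · rw [Fin.snoc_last, Fin.snoc_castSucc, dotProduct_comm, hbv,
            if_neg (Fin.castSucc_lt_last i).ne]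
        · rw [Fin.snoc_castSucc, Fin.snoc_castSucc, hv]
          simp [Fin.castSucc_inj])
    refine ⟨w, hw, fun i => ?_⟩
    have h2 := hwv i.castSucc
    rw [Fin.snoc_castSucc] at h2
    rw [← h2]
    rfl

end Pool.Agent.V11147.IcE
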