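import Mathlib

/-!
# The Turan number of the bowtie

Every graph on `n ≥ 5` vertices with more than `⌊n^2/4⌋ + 1` edges contains two triangles sharing
exactly one vertex.
-/

set_option autoImplicit false

namespace Pool.Agent.V11147.Bow

open Finset

open scoped Classical

variable {V : Type}

/-- The number of ordered pairs of adjacent vertices of `S`. -/
noncomputable def D (G : SimpleGraph V) (S : Finset V) : ℕ :=
  ∑ a ∈ S, ∑ b ∈ S, if G.Adj a b then 1 else 0

/-- There is no bowtie with all its vertices in `S`. -/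
def Free (G : SimpleGraph V) (S : Finset V) : Prop :=
  ∀ c ∈ S, ∀ u ∈ S, ∀ v ∈ S, ∀ u' ∈ S, ∀ v' ∈ S, G.Adj c u → G.Adj c v → G.Adj c u' →
    G.Adj c v' → G.Adj u v → G.Adj u' v' → u ≠ u' → u ≠ v' → v ≠ u' → v ≠ v' → False

theorem Free.mono {G : SimpleGraph V} {S T : Finset V} (h : Free G T) (hST : S ⊆ T) :
    Free G S := by
  intro c hc u hu v hv u' hu' v' hv'
  exact h c (hST hc) u (hST hu) v (hST hv) u' (hST hu') v' (hST hv')

theorem D_erase (G : SimpleGraph V) (S : Finset V) (v : V) (hv : v ∈ S) :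
    D G S = D G (S.erase v) + 2 * (S.filter (fun w => G.Adj v w)).card := by
  have h1 : ∀ f : V → ℕ, ∑ a ∈ S, f a = f v + ∑ a ∈ S.erase v, f a := fun f =>
    (add_sum_erase S f hv).symm
  have hcard : (S.filter (fun w => G.Adj v w)).card = ∑ b ∈ S.erase v, if G.Adj v b then 1 else 0 := by
    rw [card_filter, h1]
    simp
  unfold D
  rw [h1]
  have h2 : ∀ a ∈ S.erase v, (∑ b ∈ S, if G.Adj a b then 1 else 0) =
      (if G.Adj v a then 1 else 0) + ∑ b ∈ S.erase v, if G.Adj a b then 1 else 0 := by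
    intro a _
    rw [h1]
    congr 1
    simp only [G.adj_comm]
  rw [sum_congr rfl h2, sum_add_distrib, ← hcard]
  have h3 : (∑ b ∈ S, if G.Adj v b then 1 else 0) = (S.filter (fun w => G.Adj v w)).card := by
    rw [card_filter]
  rw [h3]
  ring

theorem D_eq_sum (G : SimpleGraph V) (S : Finset V) :
    D G S = ∑ a ∈ S, (S.filter (fun w => G.Adj a w)).card := by
  unfold D
  refine sum_congr rfl fun a _ => ?_
  rw [card_filter]

/-- The star structure of the neighbourhoods. -/
theorem star (G : SimpleGraph V) (S : Finset V) (hfree : Free G S) (v : V) (hv : v ∈ S)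
    (hdeg : 4 ≤ (S.filter (fun w => G.Adj v w)).card)
    (htri : ∀ u ∈ S, G.Adj v u → ∃ w ∈ S, G.Adj v w ∧ G.Adj u w) :
    ∃ c ∈ S, G.Adj v c ∧ (∀ w ∈ S, G.Adj v w → w ≠ c → G.Adj w c) ∧
      ∀ x ∈ S, ∀ y ∈ S, G.Adj v x → G.Adj v y → G.Adj x y → x = c ∨ y = c := by
  have hne : (S.filter (fun w => G.Adj v w)).Nonempty := by
    rw [← card_pos]
    omega
  obtain ⟨a, ha⟩ := hne
  rw [mem_filter] at ha
  obtain ⟨b, hbS, hvb, hab⟩ := htri a ha.1 ha.2
  have hne_ab : a ≠ b := hab.ne
  -- two further neighbours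
  have h2 : 2 ≤ (((S.filter (fun w => G.Adj v w)).erase a).erase b).card := by
    have h3 : b ∈ (S.filter (fun w => G.Adj v w)).erase a := by
      rw [mem_erase, mem_filter]
      exact ⟨hne_ab.symm, hbS, hvb⟩
    have h4 : a ∈ S.filter (fun w => G.Adj v w) := mem_filter.2 ha
    rw [card_erase_of_mem h3, card_erase_of_mem h4]
    omega
  obtain ⟨w1, hw1, w2, hw2, hw12⟩ := one_lt_card.1 h2
  rw [mem_erase, mem_erase, mem_filter] at hw1 hw2
  -- every further neighbour is adjacent to `a` or `b`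
  have hadj : ∀ w ∈ S, G.Adj v w → w ≠ a → w ≠ b → G.Adj w a ∨ G.Adj w b := by
    intro w hw hvw hwa hwb
    obtain ⟨w', hw', hvw', hww'⟩ := htri w hw hvw
    by_cases h1 : w' = a
    · exact Or.inl (h1 ▸ hww')
    · by_cases h2 : w' = b
      · exact Or.inr (h2 ▸ hww')
      · exact (hfree v hv a ha.1 b hbS w hw w' hw' ha.2 hvb hvw hvw' hab hww' hwa.symm
          (Ne.symm h1) hwb.symm (Ne.symm h2)).elim
  -- finish from the knowledge of the centre
  have fin : ∀ c d, c ∈ S → d ∈ S → G.Adj v c → G.Adj v d → G.Adj c d →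
      (∀ w ∈ S, G.Adj v w → w ≠ c → w ≠ d → G.Adj w c) →
      ∃ c ∈ S, G.Adj v c ∧ (∀ w ∈ S, G.Adj v w → w ≠ c → G.Adj w c) ∧
      ∀ x ∈ S, ∀ y ∈ S, G.Adj v x → G.Adj v y → G.Adj x y → x = c ∨ y = c := by
    intro c d hc hd hvc hvd hcd hall
    have hall' : ∀ w ∈ S, G.Adj v w → w ≠ c → G.Adj w c := by
      intro w hw hvw hwc
      by_cases hwd : w = d
      · rw [hwd]
        exact hcd.symm
      · exact hall w hw hvw hwc hwd
    refine ⟨c, hc, hvc, hall', ?_⟩
    intro x hx y hy hvx hvy hxy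
    by_contra hcon
    push Not at hcon
    have h5 : 1 ≤ ((((S.filter (fun w => G.Adj v w)).erase c).erase x).erase y).card := by
      have e1 : c ∈ S.filter (fun w => G.Adj v w) := mem_filter.2 ⟨hc, hvc⟩
      have e2 : x ∈ (S.filter (fun w => G.Adj v w)).erase c :=
        mem_erase.2 ⟨hcon.1, mem_filter.2 ⟨hx, hvx⟩⟩
      have e3 : y ∈ ((S.filter (fun w => G.Adj v w)).erase c).erase x :=
        mem_erase.2 ⟨hxy.ne', mem_erase.2 ⟨hcon.2, mem_filter.2 ⟨hy, hvy⟩⟩⟩
      rw [card_erase_of_mem e3, card_erase_of_mem e2, card_erase_of_mem e1]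
      omega
    obtain ⟨z, hz⟩ := card_pos.1 h5
    rw [mem_erase, mem_erase, mem_erase, mem_filter] at hz
    obtain ⟨hzy, hzx, hzc, hzS, hvz⟩ := hz
    exact hfree v hv x hx y hy z hzS c hc hvx hvy hvz hvc hxy (hall' z hzS hvz hzc) hzx.symm
      hcon.1 hzy.symm hcon.2
  rcases hadj w1 hw1.2.2.1 hw1.2.2.2 hw1.2.1 hw1.1 with h3 | h3
  · refine fin a b ha.1 hbS ha.2 hvb hab ?_
    have h4 : ∀ w ∈ S, G.Adj v w → w ≠ a → w ≠ b → w ≠ w1 → G.Adj w a := by
      intro w hw hvw hwa hwb hww1
      rcases hadj w hw hvw hwa hwb with h5 | h5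
      · exact h5
      · exact (hfree v hv w1 hw1.2.2.1 a ha.1 w hw b hbS hw1.2.2.2 ha.2 hvw hvb h3 h5
          hww1.symm hw1.1 hwa.symm hne_ab).elim
    intro w hw hvw hwa hwb
    by_cases h5 : w = w1
    · rw [h5]
      exact h3
    · exact h4 w hw hvw hwa hwb h5
  · refine fin b a hbS ha.1 hvb ha.2 hab.symm ?_
    have h4 : ∀ w ∈ S, G.Adj v w → w ≠ b → w ≠ a → w ≠ w1 → G.Adj w b := by
      intro w hw hvw hwb hwa hww1
      rcases hadj w hw hvw hwa hwb with h5 | h5
      · exact (hfree v hv w1 hw1.2.2.1 b hbS w hw a ha.1 hw1.2.2.2 hvb hvw ha.2 h3 h5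
          hww1.symm hw1.2.1 hwb.symm hne_ab.symm).elim
      · exact h5
    intro w hw hvw hwb hwa
    by_cases h5 : w = w1
    · rw [h5]
      exact h3
    · exact h4 w hw hvw hwb hwa h5

/-- A graph with large minimum degree contains a bowtie. -/
theorem no_free (G : SimpleGraph V) (S : Finset V) (hS : 6 ≤ S.card)
    (hdeg : ∀ v ∈ S, S.card / 2 + 1 ≤ (S.filter (fun w => G.Adj v w)).card) : ¬ Free G S := by
  intro hfree
  have htri : ∀ v ∈ S, ∀ u ∈ S, G.Adj v u → ∃ w ∈ S, G.Adj v w ∧ G.Adj u w := by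
    intro v hv u hu _
    have h1 := hdeg v hv
    have h2 := hdeg u hu
    have h3 := card_union_add_card_inter (S.filter (fun w => G.Adj v w))
      (S.filter (fun w => G.Adj u w))
    have h4 : (S.filter (fun w => G.Adj v w) ∪ S.filter (fun w => G.Adj u w)).card ≤ S.card :=
      card_le_card (union_subset (filter_subset _ _) (filter_subset _ _))
    have h5 : 0 < (S.filter (fun w => G.Adj v w) ∩ S.filter (fun w => G.Adj u w)).card := by
      omega
    obtain ⟨w, hw⟩ := card_pos.1 h5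
    rw [mem_inter, mem_filter, mem_filter] at hw
    exact ⟨w, hw.1.1, hw.1.2, hw.2.2⟩
  have hstar : ∀ v ∈ S, ∃ c ∈ S, G.Adj v c ∧ (∀ w ∈ S, G.Adj v w → w ≠ c → G.Adj w c) ∧
      ∀ x ∈ S, ∀ y ∈ S, G.Adj v x → G.Adj v y → G.Adj x y → x = c ∨ y = c := by
    intro v hv
    refine star G S hfree v hv ?_ (htri v hv)
    have := hdeg v hv
    omega
  have h4 : ∀ v ∈ S, 4 ≤ (S.filter (fun w => G.Adj v w)).card := by
    intro v hv
    have := hdeg v hv
    omega
  obtain ⟨v, hv⟩ : S.Nonempty := by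
    rw [← card_pos]
    omega
  obtain ⟨c, hc, hvc, hall, hsta⟩ := hstar v hv
  -- a leaf of the star at `v`
  have hleaf : ∀ T : Finset V, T.card ≤ 2 → ∃ w ∈ S, G.Adj v w ∧ w ≠ c ∧ w ∉ T := by
    intro T hT
    have h5 : 0 < (((S.filter (fun w => G.Adj v w)).erase c) \ T).card := by
      have e1 : c ∈ S.filter (fun w => G.Adj v w) := mem_filter.2 ⟨hc, hvc⟩
      have e2 := le_card_sdiff T ((S.filter (fun w => G.Adj v w)).erase c)
      rw [card_erase_of_mem e1] at e2
      have e3 := h4 v hv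
      omega
    obtain ⟨w, hw⟩ := card_pos.1 h5
    rw [mem_sdiff, mem_erase, mem_filter] at hw
    exact ⟨w, hw.1.2.1, hw.1.2.2, hw.1.1, hw.2⟩
  obtain ⟨w, hw, hvw, hwc, -⟩ := hleaf ∅ (by simp)
  have hwc' : G.Adj w c := hall w hw hvw hwc
  -- the star at `c` has centre `v`
  obtain ⟨c'', hc'', hcc'', hall'', hsta''⟩ := hstar c hc
  have hc''v : c'' = v := by
    by_contra hne
    obtain ⟨l1, hl1, hvl1, hl1c, hl1n⟩ := hleaf {c''} (by simp)
    rw [mem_singleton] at hl1n
    have := hsta'' v hv l1 hl1 hvc.symm (hall l1 hl1 hvl1 hl1c).symm hvl1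
    rcases this with h | h
    · exact hne h.symm
    · exact hl1n h
  -- the star at `w`
  obtain ⟨c', hc', hwc'', hall', hsta'⟩ := hstar w hw
  have h6 := hsta' v hv c hc hvw.symm hwc' hvc
  -- a further neighbour of `w`
  have h7 : 0 < (((S.filter (fun x => G.Adj w x)).erase v).erase c).card := by
    have e1 : v ∈ S.filter (fun x => G.Adj w x) := mem_filter.2 ⟨hv, hvw.symm⟩
    have e2 : c ∈ (S.filter (fun x => G.Adj w x)).erase v :=
      mem_erase.2 ⟨hvc.ne', mem_filter.2 ⟨hc, hwc'⟩⟩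
    rw [card_erase_of_mem e2, card_erase_of_mem e1]
    have e3 := h4 w hw
    omega
  obtain ⟨x, hx⟩ := card_pos.1 h7
  rw [mem_erase, mem_erase, mem_filter] at hx
  obtain ⟨hxc, hxv, hxS, hwx⟩ := hx
  rcases h6 with h6 | h6
  · -- the centre of the star at `w` is `v`
    have h8 : G.Adj x v := by
      have := hall' x hxS hwx (by rw [← h6]; exact hxv)
      rw [← h6] at this
      exact this
    rcases hsta x hxS w hw h8.symm hvw hwx.symm with h9 | h9
    · exact hxc h9
    · exact hwc h9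
  · have h8 : G.Adj x c := by
      have := hall' x hxS hwx (by rw [← h6]; exact hxc)
      rw [← h6] at this
      exact this
    rcases hsta'' x hxS w hw h8.symm hwc'.symm hwx.symm with h9 | h9
    · exact hxv (h9.trans hc''v)
    · exact hvw.ne' (h9.trans hc''v)

/-- The base case. -/
theorem base (G : SimpleGraph V) (S : Finset V) (hS : S.card = 5) (hD : 16 ≤ D G S) :
    ¬ Free G S := by
  intro hfree
  -- a vertex of degree four
  have hv : ∃ v ∈ S, 4 ≤ (S.filter (fun w => G.Adj v w)).card := by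
    by_contra hcon
    push Not at hcon
    rw [D_eq_sum] at hD
    have h1 : ∑ a ∈ S, (S.filter (fun w => G.Adj a w)).card ≤ ∑ _a ∈ S, 3 :=
      sum_le_sum fun a ha => by
        have := hcon a ha
        omega
    rw [sum_const, hS, smul_eq_mul] at h1
    omega
  obtain ⟨v, hv, hdeg⟩ := hv
  have hD2 := D_erase G S v hv
  have hle : (S.filter (fun w => G.Adj v w)).card ≤ 4 := by
    have h1 : S.filter (fun w => G.Adj v w) ⊆ S.erase v := by
      intro w hw
      rw [mem_filter] at hw
      exact mem_erase.2 ⟨hw.2.ne', hw.1⟩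
    have h2 := card_le_card h1
    rw [card_erase_of_mem hv, hS] at h2
    exact h2
  have hTeq : S.filter (fun w => G.Adj v w) = S.erase v := by
    refine eq_of_subset_of_card_le ?_ ?_
    · intro w hw
      rw [mem_filter] at hw
      exact mem_erase.2 ⟨hw.2.ne', hw.1⟩
    · rw [card_erase_of_mem hv, hS]
      exact hdeg
  have hT : (S.erase v).card = 4 := by rw [card_erase_of_mem hv, hS]
  have hadj : ∀ w ∈ S.erase v, G.Adj v w := by
    intro w hw
    rw [← hTeq, mem_filter] at hw
    exact hw.2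
  have hDT : 8 ≤ D G (S.erase v) := by omega
  obtain ⟨a, T3, haT, hT3, hc3⟩ := card_eq_succ.1 hT
  obtain ⟨b, c, d, hbc, hbd, hcd, hT4⟩ := card_eq_three.1 hc3
  have hT5 : S.erase v = {a, b, c, d} := by rw [← hT3, hT4]
  rw [hT4] at haT
  simp only [mem_insert, mem_singleton, not_or] at haT
  obtain ⟨hab, hac, had⟩ := haT
  have ma : a ∈ S.erase v := by rw [hT5]; simp
  have mb : b ∈ S.erase v := by rw [hT5]; simp
  have mc : c ∈ S.erase v := by rw [hT5]; simp
  have md : d ∈ S.erase v := by rw [hT5]; simp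
  have sa := (mem_erase.1 ma).2
  have sb := (mem_erase.1 mb).2
  have sc := (mem_erase.1 mc).2
  have sd := (mem_erase.1 md).2
  have k1 : ¬ (G.Adj a b ∧ G.Adj c d) := fun h => hfree v hv a sa b sb c sc d sd (hadj a ma)
    (hadj b mb) (hadj c mc) (hadj d md) h.1 h.2 hac had hbc hbd
  have k2 : ¬ (G.Adj a c ∧ G.Adj b d) := fun h => hfree v hv a sa c sc b sb d sd (hadj a ma)
    (hadj c mc) (hadj b mb) (hadj d md) h.1 h.2 hab had hbc.symm hcd
  have k3 : ¬ (G.Adj a d ∧ G.Adj b c) := fun h => hfree v hv a sa d sd b sb c sc (hadj a ma)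
    (hadj d md) (hadj b mb) (hadj c mc) h.1 h.2 hab hac hbd.symm hcd.symm
  have hsum : D G ({a, b, c, d} : Finset V) =
      2 * (((if G.Adj a b then 1 else 0) + (if G.Adj c d then 1 else 0)) +
        ((if G.Adj a c then 1 else 0) + (if G.Adj b d then 1 else 0)) +
        ((if G.Adj a d then 1 else 0) + (if G.Adj b c then 1 else 0))) := by
    unfold D
    have hs : ∀ f : V → ℕ, ∑ x ∈ ({a, b, c, d} : Finset V), f x = f a + (f b + (f c + f d)) := by
      intro f
      rw [sum_insert (by simp [hab, hac, had]), sum_insert (by simp [hbc, hbd]),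
        sum_insert (by simp [hcd]), sum_singleton]
    rw [hs, hs, hs, hs, hs]
    simp only [SimpleGraph.irrefl, if_false]
    simp only [G.adj_comm b a, G.adj_comm c a, G.adj_comm d a, G.adj_comm c b, G.adj_comm d b,
      G.adj_comm d c]
    ring
  rw [hT5, hsum] at hDT
  have l1 : (if G.Adj a b then 1 else 0) + (if G.Adj c d then 1 else 0) ≤ 1 := by
    split_ifs with e1 e2
    · exact absurd ⟨e1, e2⟩ k1
    all_goals omega
  have l2 : (if G.Adj a c then 1 else 0) + (if G.Adj b d then 1 else 0) ≤ 1 := by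
    split_ifs with e1 e2
    · exact absurd ⟨e1, e2⟩ k2
    all_goals omega
  have l3 : (if G.Adj a d then 1 else 0) + (if G.Adj b c then 1 else 0) ≤ 1 := by
    split_ifs with e1 e2
    · exact absurd ⟨e1, e2⟩ k3
    all_goals omega
  omega

theorem quarter (n : ℕ) : (n + 1) ^ 2 / 4 = n ^ 2 / 4 + (n + 1) / 2 := by
  obtain ⟨k, hk | hk⟩ : ∃ k, n = 2 * k ∨ n = 2 * k + 1 := ⟨n / 2, by omega⟩
  · subst hk
    have h1 : (2 * k + 1) ^ 2 = 4 * (k ^ 2 + k) + 1 := by ring
    have h2 : (2 * k) ^ 2 = 4 * k ^ 2 := by ring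
    rw [h1, h2]
    omega
  · subst hk
    have h1 : (2 * k + 1 + 1) ^ 2 = 4 * (k ^ 2 + 2 * k + 1) := by ring
    have h2 : (2 * k + 1) ^ 2 = 4 * (k ^ 2 + k) + 1 := by ring
    rw [h1, h2]
    omega

theorem main (G : SimpleGraph V) (n : ℕ) (hn : 5 ≤ n) : ∀ S : Finset V, S.card = n →
    Free G S → D G S ≤ 2 * (n ^ 2 / 4 + 1) := by
  induction n, hn using Nat.le_induction with
  | base =>
    intro S hS hfree
    by_contra hcon
    push Not at hcon
    norm_num at hcon
    refine base G S hS ?_ hfree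
    -- parity
    obtain ⟨v, hv⟩ : S.Nonempty := by
      rw [← card_pos]
      omega
    by_contra hlt
    have h15 : D G S = 15 := by omega
    have heven : ∀ T : Finset V, Even (D G T) := by
      intro T
      induction T using Finset.induction_on with
      | empty => simp [D]
      | insert a T ha ih =>
        rw [D_erase G (insert a T) a (mem_insert_self a T), erase_insert ha]
        exact ih.add (even_two_mul _)
    have := heven S
    rw [h15] at this
    exact absurd this (by decide)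
  | succ n hn ih =>
    intro S hS hfree
    by_contra hcon
    push Not at hcon
    by_cases hdeg : ∀ v ∈ S, S.card / 2 + 1 ≤ (S.filter (fun w => G.Adj v w)).card
    · exact no_free G S (by omega) hdeg hfree
    · push Not at hdeg
      obtain ⟨v, hv, hlt⟩ := hdeg
      have h1 := ih (S.erase v) (by rw [card_erase_of_mem hv]; omega)
        (hfree.mono (erase_subset _ _))
      have h2 := D_erase G S v hv
      have h3 := quarter n
      rw [hS] at hlt
      omega

end Pool.Agent.V11147.Bow
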