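import Mathlib
set_option autoImplicit false

namespace Pool.Agent.V11147.CliqueRatio

open Finset Classical

variable {V : Type} [Fintype V]

/-- proper colourings of the subgraph on `S` with the colours `0, …, μ - 1` (value `0` off `S`) -/
noncomputable def Col (G : SimpleGraph V) (S : Finset V) (μ : ℕ) : Finset (V → ℕ) :=
  (Fintype.piFinset fun v => if v ∈ S then range μ else {0}).filter
    fun f => ∀ a ∈ S, ∀ b ∈ S, G.Adj a b → f a ≠ f b

lemma mem_Col {G : SimpleGraph V} {S : Finset V} {μ : ℕ} {f : V → ℕ} :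
    f ∈ Col G S μ ↔ (∀ v ∈ S, f v < μ) ∧ (∀ v, v ∉ S → f v = 0) ∧
      ∀ a ∈ S, ∀ b ∈ S, G.Adj a b → f a ≠ f b := by
  unfold Col
  rw [Finset.mem_filter, Fintype.mem_piFinset]
  constructor
  · rintro ⟨h1, h2⟩
    refine ⟨fun v hv => ?_, fun v hv => ?_, h2⟩
    · have := h1 v
      rw [if_pos hv] at this
      exact Finset.mem_range.1 this
    · have := h1 v
      rw [if_neg hv] at this
      exact Finset.mem_singleton.1 this
  · rintro ⟨h1, h2, h3⟩
    refine ⟨fun v => ?_, h3⟩
    split_ifs with hv
    · exact Finset.mem_range.2 (h1 v hv)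
    · exact Finset.mem_singleton.2 (h2 v hv)

/-- the neighbours of `u` inside `S` -/
noncomputable def Nb (G : SimpleGraph V) (S : Finset V) (u : V) : Finset V :=
  (S.erase u).filter fun w => G.Adj u w

lemma ext_count (G : SimpleGraph V) (S : Finset V) (u : V) (hu : u ∈ S) (μ : ℕ) :
    (Col G S μ).card = ∑ σ ∈ Col G (S.erase u) μ, (μ - ((Nb G S u).image σ).card) := by
  have hmaps : ∀ f ∈ Col G S μ, Function.update f u 0 ∈ Col G (S.erase u) μ := by
    intro f hf
    rw [mem_Col] at hf ⊢
    refine ⟨fun v hv => ?_, fun v hv => ?_, fun a ha b hb hab => ?_⟩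
    · rw [Function.update_of_ne (Finset.ne_of_mem_erase hv)]
      exact hf.1 v (Finset.mem_of_mem_erase hv)
    · by_cases h : v = u
      · rw [h, Function.update_self]
      · rw [Function.update_of_ne h]
        exact hf.2.1 v fun h' => hv (Finset.mem_erase.2 ⟨h, h'⟩)
    · rw [Function.update_of_ne (Finset.ne_of_mem_erase ha),
        Function.update_of_ne (Finset.ne_of_mem_erase hb)]
      exact hf.2.2 a (Finset.mem_of_mem_erase ha) b (Finset.mem_of_mem_erase hb) hab
  rw [Finset.card_eq_sum_card_fiberwise (f := fun f => Function.update f u 0)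
    (fun f hf => Finset.mem_coe.2 (hmaps f (Finset.mem_coe.1 hf)))]
  apply Finset.sum_congr rfl
  intro σ hσ
  have hσ' := mem_Col.1 hσ
  have himg : (Nb G S u).image σ ⊆ range μ := by
    intro c hc
    rw [Finset.mem_image] at hc
    obtain ⟨w, hw, rfl⟩ := hc
    exact Finset.mem_range.2 (hσ'.1 w (Finset.mem_of_mem_filter w hw))
  have h1 : (Col G S μ).filter (fun f => Function.update f u 0 = σ) =
      (range μ \ (Nb G S u).image σ).image (fun c => Function.update σ u c) := by
    ext f
    rw [Finset.mem_filter, Finset.mem_image]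
    constructor
    · rintro ⟨hf, hfu⟩
      have hf' := mem_Col.1 hf
      refine ⟨f u, ?_, ?_⟩
      · rw [Finset.mem_sdiff, Finset.mem_range, Finset.mem_image]
        refine ⟨hf'.1 u hu, ?_⟩
        rintro ⟨w, hw, hw2⟩
        unfold Nb at hw
        rw [Finset.mem_filter] at hw
        rw [← hfu, Function.update_of_ne (Finset.ne_of_mem_erase hw.1)] at hw2
        exact hf'.2.2 u hu w (Finset.mem_of_mem_erase hw.1) hw.2 hw2.symm
      · rw [← hfu]
        simp
    · rintro ⟨c, hc, rfl⟩
      rw [Finset.mem_sdiff, Finset.mem_range, Finset.mem_image] at hc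
      have hu0 : σ u = 0 := hσ'.2.1 u (Finset.notMem_erase u S)
      constructor
      · rw [mem_Col]
        refine ⟨fun v hv => ?_, fun v hv => ?_, fun a ha b hb hab => ?_⟩
        · by_cases h : v = u
          · rw [h, Function.update_self]; exact hc.1
          · rw [Function.update_of_ne h]
            exact hσ'.1 v (Finset.mem_erase.2 ⟨h, hv⟩)
        · have h : v ≠ u := fun h => hv (h ▸ hu)
          rw [Function.update_of_ne h]
          exact hσ'.2.1 v fun h' => hv (Finset.mem_of_mem_erase h')
        · by_cases h1 : a = u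
          · subst h1
            have h2 : b ≠ a := hab.ne'
            rw [Function.update_self, Function.update_of_ne h2]
            intro h3
            apply hc.2
            refine ⟨b, ?_, h3.symm⟩
            unfold Nb
            rw [Finset.mem_filter]
            exact ⟨Finset.mem_erase.2 ⟨h2, hb⟩, hab⟩
          · by_cases h2 : b = u
            · subst h2
              rw [Function.update_self, Function.update_of_ne h1]
              intro h3
              apply hc.2
              refine ⟨a, ?_, h3⟩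
              unfold Nb
              rw [Finset.mem_filter]
              exact ⟨Finset.mem_erase.2 ⟨h1, ha⟩, hab.symm⟩
            · rw [Function.update_of_ne h1, Function.update_of_ne h2]
              exact hσ'.2.2 a (Finset.mem_erase.2 ⟨h1, ha⟩) b (Finset.mem_erase.2 ⟨h2, hb⟩) hab
      · rw [Function.update_idem, ← hu0, Function.update_eq_self]
  rw [h1, Finset.card_image_of_injective _ (Function.update_injective σ u),
    Finset.card_sdiff_of_subset himg, Finset.card_range]

/-- the number of coincidences on `W` -/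
noncomputable def coin (W : Finset V) (σ : V → ℕ) : ℕ := W.card - (W.image σ).card

lemma coin_add (W : Finset V) (σ : V → ℕ) : coin W σ + (W.image σ).card = W.card :=
  Nat.sub_add_cancel Finset.card_image_le

lemma coin_insert (W : Finset V) (b : V) (hb : b ∉ W) (σ : V → ℕ) :
    coin (insert b W) σ = coin W σ + if σ b ∈ W.image σ then 1 else 0 := by
  have h1 := coin_add (insert b W) σ
  have h2 := coin_add W σ
  rw [Finset.card_insert_of_notMem hb, Finset.image_insert] at h1
  split_ifs with h
  · rw [Finset.insert_eq_of_mem h] at h1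
    omega
  · rw [Finset.card_insert_of_notMem h] at h1
    omega

/-- the key estimate: few coincidences on average -/
lemma coincidences (G : SimpleGraph V) (S W : Finset V) (hW : W ⊆ S) (hW0 : W.Nonempty) (μ : ℕ)
    (hμ : S.card + 1 ≤ μ) :
    2 * (∑ σ ∈ Col G S μ, (coin W σ : ℤ)) ≤ ((W.card : ℤ) - 1) * (Col G S μ).card := by
  -- the vertices of `W` whose colour is repeated in `W`, and the others
  let T : (V → ℕ) → Finset V := fun σ => W.filter fun v => ∃ w ∈ W, w ≠ v ∧ σ w = σ v
  let X : (V → ℕ) → Finset V := fun σ => W.filter fun v => ¬ ∃ w ∈ W, w ≠ v ∧ σ w = σ v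
  let T1 : Finset ((_ : V → ℕ) × (V × ℕ)) :=
    (Col G S μ).sigma fun σ => T σ ×ˢ (range μ \ S.image σ)
  let T2 : Finset ((_ : V → ℕ) × (V × ℕ)) :=
    (Col G S μ).sigma fun σ => (X σ ×ˢ W.image σ).filter fun p => p.2 ≠ σ p.1
  have hle : T1.card ≤ T2.card := by
    apply Finset.card_le_card_of_injOn
      (fun t => (⟨Function.update t.1 t.2.1 t.2.2, (t.2.1, t.1 t.2.1)⟩ : (_ : V → ℕ) × (V × ℕ)))
    · rintro ⟨σ, v, c⟩ ht
      rw [Finset.mem_coe, Finset.mem_sigma, Finset.mem_product, Finset.mem_sdiff] at ht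
      obtain ⟨hσ, hv, hc, hc2⟩ := ht
      simp only at hσ hv hc hc2
      have hvW : v ∈ W := Finset.mem_of_mem_filter v hv
      obtain ⟨w, hw, hwv, hwc⟩ := (Finset.mem_filter.1 hv).2
      have hcS : ∀ a ∈ S, σ a ≠ c := fun a ha h => hc2 (Finset.mem_image.2 ⟨a, ha, h⟩)
      have hσ' := mem_Col.1 hσ
      rw [Finset.mem_coe, Finset.mem_sigma, Finset.mem_filter, Finset.mem_product]
      simp only
      refine ⟨?_, ⟨?_, ?_⟩, ?_⟩
      · rw [mem_Col]
        refine ⟨fun a ha => ?_, fun a ha => ?_, fun a ha b hb hab => ?_⟩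
        · by_cases h : a = v
          · rw [h, Function.update_self]; exact Finset.mem_range.1 hc
          · rw [Function.update_of_ne h]; exact hσ'.1 a ha
        · have h : a ≠ v := fun h => ha (h ▸ hW hvW)
          rw [Function.update_of_ne h]; exact hσ'.2.1 a ha
        · by_cases h1 : a = v
          · subst h1
            rw [Function.update_self, Function.update_of_ne hab.ne']
            exact (hcS b hb).symm
          · by_cases h2 : b = v
            · subst h2
              rw [Function.update_self, Function.update_of_ne h1]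
              exact hcS a ha
            · rw [Function.update_of_ne h1, Function.update_of_ne h2]
              exact hσ'.2.2 a ha b hb hab
      · rw [Finset.mem_filter]
        refine ⟨hvW, ?_⟩
        rintro ⟨w', hw', hne, heq⟩
        rw [Function.update_self, Function.update_of_ne hne] at heq
        exact hcS w' (hW hw') heq
      · rw [Finset.mem_image]
        exact ⟨w, hw, by rw [Function.update_of_ne hwv]; exact hwc⟩
      · rw [Function.update_self]
        exact hcS v (hW hvW)
    · rintro ⟨σ, v, c⟩ ht ⟨σ', v', c'⟩ ht' heq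
      simp only [Sigma.mk.injEq, heq_eq_eq, Prod.mk.injEq] at heq
      obtain ⟨h1, h2, h3⟩ := heq
      subst h2
      have hc : c = c' := by
        have := congrFun h1 v
        rwa [Function.update_self, Function.update_self] at this
      subst hc
      have hσ : σ = σ' := by
        funext a
        by_cases h : a = v
        · rw [h]; exact h3
        · have := congrFun h1 a
          rwa [Function.update_of_ne h, Function.update_of_ne h] at this
      subst hσ
      rfl
  have c1 : T1.card = ∑ σ ∈ Col G S μ, (T σ).card * (range μ \ S.image σ).card := by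
    rw [Finset.card_sigma]
    exact Finset.sum_congr rfl fun σ _ => Finset.card_product _ _
  have c2 : T2.card = ∑ σ ∈ Col G S μ, (X σ).card * ((W.image σ).card - 1) := by
    rw [Finset.card_sigma]
    apply Finset.sum_congr rfl
    intro σ _
    rw [Finset.card_filter, Finset.sum_product]
    simp only
    rw [Finset.sum_congr rfl (g := fun _ => (W.image σ).card - 1)]
    · rw [Finset.sum_const, smul_eq_mul]
    · intro v hv
      rw [← Finset.card_filter, ← Finset.card_erase_of_mem (s := W.image σ) (a := σ v)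
        (Finset.mem_image.2 ⟨v, Finset.mem_of_mem_filter v hv, rfl⟩)]
      congr 1
      ext c
      rw [Finset.mem_filter, Finset.mem_erase, and_comm]
  -- pointwise bounds
  have hTX : ∀ σ, (T σ).card + (X σ).card = W.card := fun σ =>
    Finset.card_filter_add_card_filter_not _
  have hXD : ∀ σ, (X σ).card ≤ (W.image σ).card := by
    intro σ
    apply Finset.card_le_card_of_injOn σ
    · intro v hv
      exact Finset.mem_coe.2 (Finset.mem_image.2 ⟨v, Finset.mem_of_mem_filter v hv, rfl⟩)
    · intro v hv v' hv' heq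
      by_contra hne
      exact (Finset.mem_filter.1 (Finset.mem_coe.1 hv)).2
        ⟨v', Finset.mem_of_mem_filter v' hv', fun h => hne h.symm, heq.symm⟩
  have hF : ∀ σ ∈ Col G S μ, coin W σ + 1 ≤ (range μ \ S.image σ).card := by
    intro σ hσ
    have hσ' := mem_Col.1 hσ
    have hsub : S.image σ ⊆ range μ := by
      intro c hc
      obtain ⟨w, hw, rfl⟩ := Finset.mem_image.1 hc
      exact Finset.mem_range.2 (hσ'.1 w hw)
    rw [Finset.card_sdiff_of_subset hsub, Finset.card_range]
    have e1 : S.image σ ⊆ W.image σ ∪ (S \ W).image σ := by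
      rw [← Finset.image_union, Finset.union_sdiff_of_subset hW]
    have e2 := (Finset.card_le_card e1).trans (Finset.card_union_le _ _)
    have e3 : ((S \ W).image σ).card ≤ S.card - W.card := by
      rw [← Finset.card_sdiff_of_subset hW]; exact Finset.card_image_le
    have e4 := coin_add W σ
    have e5 := Finset.card_le_card hW
    omega
  have hD1 : ∀ σ : V → ℕ, 1 ≤ (W.image σ).card := fun σ => Finset.card_pos.2 (hW0.image σ)
  have key : ∑ σ ∈ Col G S μ, ((coin W σ : ℤ) * (1 + coin W σ)) ≤
      ∑ σ ∈ Col G S μ, (((W.card : ℤ) - coin W σ) * ((W.card : ℤ) - coin W σ - 1)) := by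
    have h1 : ∑ σ ∈ Col G S μ, ((coin W σ : ℤ) * (1 + coin W σ)) ≤ (T1.card : ℤ) := by
      rw [c1, Nat.cast_sum]
      apply Finset.sum_le_sum
      intro σ hσ
      rw [Nat.cast_mul]
      have a1 : (coin W σ : ℤ) ≤ (T σ).card := by
        have := hTX σ
        have := hXD σ
        have := coin_add W σ
        omega
      have a2 : (1 + coin W σ : ℤ) ≤ ((range μ \ S.image σ).card : ℤ) := by
        have := hF σ hσ
        omega
      exact mul_le_mul a1 a2 (by positivity) (by positivity)
    have h2 : (T2.card : ℤ) ≤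
        ∑ σ ∈ Col G S μ, (((W.card : ℤ) - coin W σ) * ((W.card : ℤ) - coin W σ - 1)) := by
      rw [c2, Nat.cast_sum]
      apply Finset.sum_le_sum
      intro σ _
      rw [Nat.cast_mul]
      have b1 := coin_add W σ
      have b2 := hXD σ
      have b3 := hD1 σ
      have a1 : ((X σ).card : ℤ) ≤ (W.card : ℤ) - coin W σ := by omega
      have a2 : (((W.image σ).card - 1 : ℕ) : ℤ) ≤ (W.card : ℤ) - coin W σ - 1 := by omega
      exact mul_le_mul a1 a2 (by positivity) (by omega)
    have h3 : (T1.card : ℤ) ≤ T2.card := by exact_mod_cast hle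
    linarith
  have hsum : ∑ σ ∈ Col G S μ, (((W.card : ℤ) - coin W σ) * ((W.card : ℤ) - coin W σ - 1)) -
      ∑ σ ∈ Col G S μ, ((coin W σ : ℤ) * (1 + coin W σ)) =
      (W.card : ℤ) * (((W.card : ℤ) - 1) * (Col G S μ).card - 2 * ∑ σ ∈ Col G S μ, (coin W σ : ℤ)) := by
    rw [← Finset.sum_sub_distrib, mul_sub, ← mul_assoc, ← mul_assoc, Finset.mul_sum,
      show (W.card : ℤ) * ((W.card : ℤ) - 1) * (Col G S μ).card =
        ∑ σ ∈ Col G S μ, (W.card : ℤ) * ((W.card : ℤ) - 1) by
          rw [Finset.sum_const, nsmul_eq_mul, mul_comm], ← Finset.sum_sub_distrib]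
    apply Finset.sum_congr rfl
    intro σ _
    ring
  have hpos : (0 : ℤ) < W.card := by exact_mod_cast Finset.card_pos.2 hW0
  have h0 : 0 ≤ (W.card : ℤ) * (((W.card : ℤ) - 1) * (Col G S μ).card -
      2 * ∑ σ ∈ Col G S μ, (coin W σ : ℤ)) := by
    rw [← hsum]; linarith
  have := nonneg_of_mul_nonneg_right h0 hpos
  linarith

/-- the factor of the claim -/
noncomputable def rho (lam k m : ℕ) : ℝ := (1 - (k : ℝ) / lam) * (1 - 1 / (lam : ℝ)) ^ (m - k)

lemma rho_nonneg {lam k m : ℕ} (h1 : 1 ≤ lam) (hk : k ≤ lam) : 0 ≤ rho lam k m := by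
  have hl : (0 : ℝ) < lam := by exact_mod_cast h1
  have e1 : (k : ℝ) / lam ≤ 1 := by
    rw [div_le_one hl]; exact_mod_cast hk
  have e2 : 1 / (lam : ℝ) ≤ 1 := by
    rw [div_le_one hl]; exact_mod_cast h1
  unfold rho
  exact mul_nonneg (by linarith) (pow_nonneg (by linarith) _)

/-- the graph in which `b` has been merged into `a` and `a` has been joined to `Z` -/
def mrg (G : SimpleGraph V) (a b : V) (Z : Finset V) : SimpleGraph V where
  Adj x y := x ≠ y ∧ (G.Adj x y ∨ (x = a ∧ (G.Adj b y ∨ y ∈ Z)) ∨ (y = a ∧ (G.Adj b x ∨ x ∈ Z)))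
  symm := ⟨fun x y h => ⟨h.1.symm, h.2.elim (fun h => Or.inl h.symm)
    (fun h => Or.inr h.symm)⟩⟩
  loopless := ⟨fun x h => h.1 rfl⟩

/-- colourings in which `b` has the colour of `a` and the colours of `Z` are different -/
noncomputable def Fib (G : SimpleGraph V) (S : Finset V) (a b : V) (Z : Finset V) (μ : ℕ) :
    Finset (V → ℕ) :=
  (Col G S μ).filter fun σ => σ b = σ a ∧ ∀ z ∈ Z, σ b ≠ σ z

lemma fib_empty (G : SimpleGraph V) (S : Finset V) (a b : V) (Z : Finset V) (μ : ℕ) (ha : a ∈ S)
    (hb : b ∈ S) (hab : G.Adj a b) : Fib G S a b Z μ = ∅ := by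
  rw [Finset.eq_empty_iff_forall_notMem]
  intro σ hσ
  unfold Fib at hσ
  rw [Finset.mem_filter] at hσ
  exact (mem_Col.1 hσ.1).2.2 a ha b hb hab hσ.2.1.symm

lemma fib_card (G : SimpleGraph V) (S : Finset V) (a b : V) (Z : Finset V) (μ : ℕ) (ha : a ∈ S)
    (hb : b ∈ S) (hne : a ≠ b) (hab : ¬ G.Adj a b) (hZ : Z ⊆ S) (haZ : a ∉ Z) (hbZ : b ∉ Z) :
    (Fib G S a b Z μ).card = (Col (mrg G a b Z) (S.erase b) μ).card := by
  apply Finset.card_bij (fun σ _ => Function.update σ b 0)
  · intro σ hσ
    unfold Fib at hσ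
    rw [Finset.mem_filter] at hσ
    obtain ⟨h0, h1, h2⟩ := hσ
    have hσ' := mem_Col.1 h0
    rw [mem_Col]
    refine ⟨fun v hv => ?_, fun v hv => ?_, fun x hx y hy hxy => ?_⟩
    · rw [Function.update_of_ne (Finset.ne_of_mem_erase hv)]
      exact hσ'.1 v (Finset.mem_of_mem_erase hv)
    · by_cases h : v = b
      · rw [h, Function.update_self]
      · rw [Function.update_of_ne h]
        exact hσ'.2.1 v fun h' => hv (Finset.mem_erase.2 ⟨h, h'⟩)
    · have hxb := Finset.ne_of_mem_erase hx
      have hyb := Finset.ne_of_mem_erase hy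
      have hxS := Finset.mem_of_mem_erase hx
      have hyS := Finset.mem_of_mem_erase hy
      rw [Function.update_of_ne hxb, Function.update_of_ne hyb]
      obtain ⟨-, h | ⟨rfl, h | h⟩ | ⟨rfl, h | h⟩⟩ := hxy
      · exact hσ'.2.2 x hxS y hyS h
      · rw [← h1]; exact hσ'.2.2 b hb y hyS h
      · rw [← h1]; exact h2 y h
      · rw [← h1]; exact (hσ'.2.2 b hb x hxS h).symm
      · rw [← h1]; exact (h2 x h).symm
  · intro σ hσ σ' hσ' heq
    unfold Fib at hσ hσ'
    rw [Finset.mem_filter] at hσ hσ'
    have hval : ∀ v, v ≠ b → σ v = σ' v := by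
      intro v hv
      have := congrFun heq v
      rwa [Function.update_of_ne hv, Function.update_of_ne hv] at this
    funext v
    by_cases h : v = b
    · rw [h, hσ.2.1, hσ'.2.1]; exact hval a hne
    · exact hval v h
  · intro τ hτ
    have hτ' := mem_Col.1 hτ
    have haE : a ∈ S.erase b := Finset.mem_erase.2 ⟨hne, ha⟩
    refine ⟨Function.update τ b (τ a), ?_, ?_⟩
    · unfold Fib
      rw [Finset.mem_filter, mem_Col]
      refine ⟨⟨fun v hv => ?_, fun v hv => ?_, fun x hx y hy hxy => ?_⟩, ?_, fun z hz => ?_⟩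
      · by_cases h : v = b
        · rw [h, Function.update_self]; exact hτ'.1 a haE
        · rw [Function.update_of_ne h]; exact hτ'.1 v (Finset.mem_erase.2 ⟨h, hv⟩)
      · have h : v ≠ b := fun h => hv (h ▸ hb)
        rw [Function.update_of_ne h]
        exact hτ'.2.1 v fun h' => hv (Finset.mem_of_mem_erase h')
      · by_cases h1 : x = b
        · subst h1
          have hy2 : y ≠ x := hxy.ne'
          have hya : y ≠ a := fun h => hab (h ▸ hxy.symm)
          rw [Function.update_self, Function.update_of_ne hy2]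
          exact hτ'.2.2 a haE y (Finset.mem_erase.2 ⟨hy2, hy⟩)
            ⟨hya.symm, Or.inr (Or.inl ⟨rfl, Or.inl hxy⟩)⟩
        · by_cases h2 : y = b
          · subst h2
            have hxa : x ≠ a := fun h => hab (h ▸ hxy)
            rw [Function.update_self, Function.update_of_ne h1]
            exact hτ'.2.2 x (Finset.mem_erase.2 ⟨h1, hx⟩) a haE
              ⟨hxa, Or.inr (Or.inr ⟨rfl, Or.inl hxy.symm⟩)⟩
          · rw [Function.update_of_ne h1, Function.update_of_ne h2]
            exact hτ'.2.2 x (Finset.mem_erase.2 ⟨h1, hx⟩) y (Finset.mem_erase.2 ⟨h2, hy⟩)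
              ⟨hxy.ne, Or.inl hxy⟩
      · rw [Function.update_self, Function.update_of_ne hne]
      · have hzb : z ≠ b := fun h => hbZ (h ▸ hz)
        have hza : z ≠ a := fun h => haZ (h ▸ hz)
        rw [Function.update_self, Function.update_of_ne hzb]
        exact hτ'.2.2 a haE z (Finset.mem_erase.2 ⟨hzb, hZ hz⟩)
          ⟨hza.symm, Or.inr (Or.inl ⟨rfl, Or.inr hz⟩)⟩
    · rw [Function.update_idem]
      have : τ b = 0 := hτ'.2.1 b (Finset.notMem_erase b S)
      rw [← this, Function.update_eq_self]

/-- the inequality to be proved by induction -/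
def Claim (lam k m : ℕ) : Prop :=
  ∀ (G : SimpleGraph V) (S K : Finset V), S.card = m → K.card = k → K ⊆ S →
    (∀ a ∈ K, ∀ b ∈ K, a ≠ b → G.Adj a b) →
    ((Col G S (lam - 1)).card : ℝ) ≤ rho lam k m * (Col G S lam).card

lemma fib_ineq (lam k m : ℕ) (hlam : 1 ≤ lam) (hm : m + 1 ≤ lam)
    (IH : ∀ m' < m, Claim (V := V) lam k m') (G : SimpleGraph V) (S K : Finset V) (hS : S.card = m)
    (hk : K.card = k) (hKS : K ⊆ S) (hK : ∀ a ∈ K, ∀ b ∈ K, a ≠ b → G.Adj a b)
    (a b : V) (Z : Finset V) (ha : a ∈ S) (hb : b ∈ S) (hne : a ≠ b) (hZ : Z ⊆ S) (haZ : a ∉ Z)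
    (hbZ : b ∉ Z) :
    (1 - 1 / (lam : ℝ)) * (Fib G S a b Z (lam - 1)).card ≤ rho lam k m * (Fib G S a b Z lam).card := by
  by_cases hab : G.Adj a b
  · rw [fib_empty G S a b Z _ ha hb hab, fib_empty G S a b Z _ ha hb hab]
    simp
  · rw [fib_card G S a b Z _ ha hb hne hab hZ haZ hbZ, fib_card G S a b Z _ ha hb hne hab hZ haZ hbZ]
    -- the clique of the merged graph
    have hnot : ¬ (a ∈ K ∧ b ∈ K) := fun h => hab (hK a h.1 b h.2 hne)
    have hkm : k < m := by
      rw [← hk, ← hS]
      apply Finset.card_lt_card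
      rw [Finset.ssubset_iff_of_subset hKS]
      by_cases h : a ∈ K
      · exact ⟨b, hb, fun h' => hnot ⟨h, h'⟩⟩
      · exact ⟨a, ha, h⟩
    have hcard : (S.erase b).card = m - 1 := by rw [Finset.card_erase_of_mem hb, hS]
    have hIH : ((Col (mrg G a b Z) (S.erase b) (lam - 1)).card : ℝ) ≤
        rho lam k (m - 1) * (Col (mrg G a b Z) (S.erase b) lam).card := by
      by_cases hbK : b ∈ K
      · have haK : a ∉ K := fun h => hnot ⟨h, hbK⟩
        have haK' : a ∉ K.erase b := fun h => haK (Finset.mem_of_mem_erase h)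
        apply IH (m - 1) (by omega) _ _ (insert a (K.erase b)) hcard
        · rw [Finset.card_insert_of_notMem haK', Finset.card_erase_add_one hbK, hk]
        · intro x hx
          rw [Finset.mem_insert] at hx
          rcases hx with rfl | hx
          · exact Finset.mem_erase.2 ⟨hne, ha⟩
          · exact Finset.mem_erase.2 ⟨Finset.ne_of_mem_erase hx, hKS (Finset.mem_of_mem_erase hx)⟩
        · intro x hx y hy hxy
          rw [Finset.mem_insert] at hx hy
          rcases hx with rfl | hx
          · rcases hy with rfl | hy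
            · exact absurd rfl hxy
            · exact ⟨hxy, Or.inr (Or.inl ⟨rfl, Or.inl (hK b hbK y (Finset.mem_of_mem_erase hy)
                (Finset.ne_of_mem_erase hy).symm)⟩)⟩
          · rcases hy with rfl | hy
            · exact ⟨hxy, Or.inr (Or.inr ⟨rfl, Or.inl (hK b hbK x (Finset.mem_of_mem_erase hx)
                (Finset.ne_of_mem_erase hx).symm)⟩)⟩
            · exact ⟨hxy, Or.inl (hK x (Finset.mem_of_mem_erase hx) y
                (Finset.mem_of_mem_erase hy) hxy)⟩
      · apply IH (m - 1) (by omega) _ _ K hcard hk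
        · intro x hx
          exact Finset.mem_erase.2 ⟨fun h => hbK (h ▸ hx), hKS hx⟩
        · intro x hx y hy hxy
          exact ⟨hxy, Or.inl (hK x hx y hy hxy)⟩
    have hl : (0 : ℝ) < lam := by exact_mod_cast hlam
    have ha0 : (0 : ℝ) ≤ 1 - 1 / (lam : ℝ) := by
      have e2 : 1 / (lam : ℝ) ≤ 1 := by
        rw [div_le_one hl]; exact_mod_cast hlam
      linarith
    have hrho : rho lam k m = (1 - 1 / (lam : ℝ)) * rho lam k (m - 1) := by
      unfold rho
      have : m - k = (m - 1 - k) + 1 := by omega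
      rw [this, pow_succ]
      ring
    rw [hrho, mul_assoc]
    exact mul_le_mul_of_nonneg_left hIH ha0

lemma coin_ineq (lam k m : ℕ) (hlam : 1 ≤ lam) (hm : m + 1 ≤ lam)
    (IH : ∀ m' < m, Claim (V := V) lam k m') (G : SimpleGraph V) (S K : Finset V) (hS : S.card = m)
    (hk : K.card = k) (hKS : K ⊆ S) (hK : ∀ a ∈ K, ∀ b ∈ K, a ≠ b → G.Adj a b)
    (W : Finset V) (hW : W ⊆ S) :
    (1 - 1 / (lam : ℝ)) * (∑ σ ∈ Col G S (lam - 1), (coin W σ : ℝ)) ≤
      rho lam k m * ∑ σ ∈ Col G S lam, (coin W σ : ℝ) := by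
  -- one vertex `b` against `Z`
  have step : ∀ b ∈ S, ∀ Z : Finset V, Z ⊆ S → b ∉ Z →
      (1 - 1 / (lam : ℝ)) * ((Col G S (lam - 1)).filter fun σ => σ b ∈ Z.image σ).card ≤
        rho lam k m * ((Col G S lam).filter fun σ => σ b ∈ Z.image σ).card := by
    intro b hb Z
    induction Z using Finset.induction_on with
    | empty => intro _ _; simp
    | insert a Z haZ ih =>
      intro hZ hbZ
      have hZ' : Z ⊆ S := fun z hz => hZ (Finset.mem_insert_of_mem hz)
      have hbZ' : b ∉ Z := fun h => hbZ (Finset.mem_insert_of_mem h)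
      have ha : a ∈ S := hZ (Finset.mem_insert_self a Z)
      have hne : a ≠ b := fun h => hbZ (h ▸ Finset.mem_insert_self a Z)
      have hsplit : ∀ μ, ((Col G S μ).filter fun σ => σ b ∈ (insert a Z).image σ).card =
          ((Col G S μ).filter fun σ => σ b ∈ Z.image σ).card + (Fib G S a b Z μ).card := by
        intro μ
        rw [← Finset.card_union_of_disjoint]
        · congr 1
          ext σ
          unfold Fib
          simp only [Finset.mem_union, Finset.mem_filter, Finset.image_insert, Finset.mem_insert]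
          constructor
          · rintro ⟨h1, h2⟩
            by_cases h3 : σ b ∈ Z.image σ
            · exact Or.inl ⟨h1, h3⟩
            · rcases h2 with h2 | h2
              · exact Or.inr ⟨h1, h2, fun z hz h => h3 (Finset.mem_image.2 ⟨z, hz, h.symm⟩)⟩
              · exact absurd h2 h3
          · rintro (⟨h1, h2⟩ | ⟨h1, h2, -⟩)
            · exact ⟨h1, Or.inr h2⟩
            · exact ⟨h1, Or.inl h2⟩
        · rw [Finset.disjoint_left]
          intro σ h1 h2
          unfold Fib at h2
          rw [Finset.mem_filter] at h1 h2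
          obtain ⟨z, hz, hz2⟩ := Finset.mem_image.1 h1.2
          exact h2.2.2 z hz hz2.symm
      rw [hsplit, hsplit]
      push_cast
      have h1 := ih hZ' hbZ'
      have h2 := fib_ineq lam k m hlam hm IH G S K hS hk hKS hK a b Z ha hb hne hZ' haZ hbZ'
      linarith
  induction W using Finset.induction_on with
  | empty => simp [coin]
  | insert b W hbW ih =>
    have hW' : W ⊆ S := fun z hz => hW (Finset.mem_insert_of_mem hz)
    have h1 := ih hW'
    have h2 := step b (hW (Finset.mem_insert_self b W)) W hW' hbW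
    have hs : ∀ μ, ∑ σ ∈ Col G S μ, (coin (insert b W) σ : ℝ) =
        ∑ σ ∈ Col G S μ, (coin W σ : ℝ) + ((Col G S μ).filter fun σ => σ b ∈ W.image σ).card := by
      intro μ
      rw [Finset.card_filter]
      push_cast
      rw [← Finset.sum_add_distrib]
      apply Finset.sum_congr rfl
      intro σ _
      rw [coin_insert W b hbW σ]
      push_cast
      rfl
    rw [hs, hs]
    linarith

/-- the number of colourings of `S` in terms of those of `S - u` -/
lemma ext_real (G : SimpleGraph V) (S : Finset V) (u : V) (hu : u ∈ S) (μ : ℕ) :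
    ((Col G S μ).card : ℝ) = ((μ : ℝ) - (Nb G S u).card) * (Col G (S.erase u) μ).card +
      ∑ σ ∈ Col G (S.erase u) μ, (coin (Nb G S u) σ : ℝ) := by
  rw [ext_count G S u hu μ]
  push_cast
  rw [show ((μ : ℝ) - (Nb G S u).card) * (Col G (S.erase u) μ).card =
    ∑ σ ∈ Col G (S.erase u) μ, ((μ : ℝ) - (Nb G S u).card) by
      rw [Finset.sum_const, nsmul_eq_mul, mul_comm], ← Finset.sum_add_distrib]
  apply Finset.sum_congr rfl
  intro σ hσ
  have hσ' := mem_Col.1 hσ
  have himg : ((Nb G S u).image σ).card ≤ μ := by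
    have : (Nb G S u).image σ ⊆ range μ := by
      intro c hc
      obtain ⟨w, hw, rfl⟩ := Finset.mem_image.1 hc
      exact Finset.mem_range.2 (hσ'.1 w (Finset.mem_of_mem_filter w hw))
    simpa using Finset.card_le_card this
  rw [Nat.cast_sub himg]
  have := coin_add (Nb G S u) σ
  have h2 : (coin (Nb G S u) σ : ℝ) + ((Nb G S u).image σ).card = (Nb G S u).card := by
    exact_mod_cast this
  linarith

theorem main (lam : ℕ) (hlam : 1 ≤ lam) : ∀ m, m ≤ lam → ∀ k, Claim (V := V) lam k m := by
  have hl : (0 : ℝ) < lam := by exact_mod_cast hlam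
  have hcast : ((lam - 1 : ℕ) : ℝ) = (lam : ℝ) - 1 := by
    rw [Nat.cast_sub hlam, Nat.cast_one]
  intro m
  induction m using Nat.strong_induction_on with
  | _ m IH =>
  intro hm k G S K hS hk hKS hK
  rcases Nat.eq_zero_or_pos m with hm0 | hm0
  · -- the empty graph
    subst hm0
    have hS0 : S = ∅ := Finset.card_eq_zero.1 hS
    subst hS0
    have hK0 : K = ∅ := Finset.subset_empty.1 hKS
    subst hK0
    have hk0 : k = 0 := by rw [← hk]; rfl
    subst hk0
    have h1 : ∀ μ, Col G ∅ μ = {fun _ => 0} := by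
      intro μ
      ext f
      rw [mem_Col, Finset.mem_singleton]
      constructor
      · rintro ⟨-, h, -⟩
        funext v
        exact h v (Finset.notMem_empty v)
      · rintro rfl
        exact ⟨fun v hv => absurd hv (Finset.notMem_empty v), fun _ _ => rfl,
          fun v hv => absurd hv (Finset.notMem_empty v)⟩
    rw [h1, h1]
    simp [rho]
  obtain ⟨P0, hP0⟩ : ∃ x : ℝ, x = rho lam k m := ⟨_, rfl⟩
  by_cases hKS' : K = S
  · -- a clique
    have hkm : k = m := by rw [← hk, ← hS, hKS']
    subst hKS'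
    obtain ⟨u, hu⟩ : K.Nonempty := Finset.card_pos.1 (by omega)
    have hNb : Nb G K u = K.erase u := by
      unfold Nb
      apply Finset.filter_true_of_mem
      intro w hw
      exact hK u hu w (Finset.mem_of_mem_erase hw) (Finset.ne_of_mem_erase hw).symm
    have hcoin : ∀ μ, ∑ σ ∈ Col G (K.erase u) μ, (coin (Nb G K u) σ : ℝ) = 0 := by
      intro μ
      apply Finset.sum_eq_zero
      intro σ hσ
      have hσ' := mem_Col.1 hσ
      rw [hNb]
      have : coin (K.erase u) σ = 0 := by
        unfold coin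
        rw [Finset.card_image_of_injOn, Nat.sub_self]
        intro x hx y hy hxy
        by_contra hne
        exact hσ'.2.2 x hx y hy (hK x (Finset.mem_of_mem_erase hx) y
          (Finset.mem_of_mem_erase hy) hne) hxy
      rw [this, Nat.cast_zero]
    have hcard : (K.erase u).card = m - 1 := by rw [Finset.card_erase_of_mem hu, hS]
    have hIH := IH (m - 1) (by omega) (by omega) (m - 1) G (K.erase u) (K.erase u) hcard hcard
      (Finset.Subset.refl _) (fun a ha b hb => hK a (Finset.mem_of_mem_erase ha) b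
        (Finset.mem_of_mem_erase hb))
    rw [ext_real G K u hu, ext_real G K u hu, hcoin, hcoin, hNb, hcard, hkm, hcast, add_zero, add_zero]
    unfold rho at hIH ⊢
    rw [Nat.sub_self, pow_zero, mul_one] at hIH ⊢
    have hm1 : ((m - 1 : ℕ) : ℝ) = (m : ℝ) - 1 := by
      rw [Nat.cast_sub hm0, Nat.cast_one]
    rw [hm1] at hIH ⊢
    have hml : (m : ℝ) ≤ lam := by exact_mod_cast hm
    have h1 : (0:ℝ) ≤ (lam : ℝ) - 1 - ((m : ℝ) - 1) := by linarith
    calc ((lam : ℝ) - 1 - ((m : ℝ) - 1)) * ((Col G (K.erase u) (lam - 1)).card : ℝ)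
        ≤ ((lam : ℝ) - 1 - ((m : ℝ) - 1)) * ((1 - ((m : ℝ) - 1) / lam) *
            (Col G (K.erase u) lam).card) := mul_le_mul_of_nonneg_left hIH h1
      _ = (1 - (m : ℝ) / lam) * (((lam : ℝ) - ((m : ℝ) - 1)) * (Col G (K.erase u) lam).card) := by
          field_simp
          ring
  · -- a vertex outside the clique
    obtain ⟨u, hu, huK⟩ : ∃ u ∈ S, u ∉ K := by
      by_contra h
      push Not at h
      exact hKS' (Finset.Subset.antisymm hKS h)
    have hkm : k < m := by
      rw [← hk, ← hS]
      exact Finset.card_lt_card ((Finset.ssubset_iff_of_subset hKS).2 ⟨u, hu, huK⟩)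
    have hKS2 : K ⊆ S.erase u := fun x hx => Finset.mem_erase.2 ⟨fun h => huK (h ▸ hx), hKS hx⟩
    have hcard : (S.erase u).card = m - 1 := by rw [Finset.card_erase_of_mem hu, hS]
    have hIH := IH (m - 1) (by omega) (by omega) k G (S.erase u) K hcard hk hKS2 hK
    have hY := coin_ineq lam k (m - 1) hlam (by omega) (fun m' hm' => IH m' (by omega) (by omega) k)
      G (S.erase u) K hcard hk hKS2 hK (Nb G S u) (Finset.filter_subset _ _)
    set d := (Nb G S u).card with hd
    set P : ℝ := ((Col G (S.erase u) lam).card : ℝ) with hP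
    set A : ℝ := ((Col G (S.erase u) (lam - 1)).card : ℝ) with hA
    set Y : ℝ := ∑ σ ∈ Col G (S.erase u) lam, (coin (Nb G S u) σ : ℝ) with hYdef
    set YA : ℝ := ∑ σ ∈ Col G (S.erase u) (lam - 1), (coin (Nb G S u) σ : ℝ) with hYAdef
    set r : ℝ := rho lam k (m - 1) with hr
    have hr0 : 0 ≤ r := rho_nonneg hlam (by omega)
    have hPn : 0 ≤ P := Nat.cast_nonneg _
    have hdm : d ≤ m - 1 := by
      rw [hd, ← hcard]
      exact Finset.card_le_card (Finset.filter_subset _ _)
    have hrho : rho lam k m = (1 - 1 / (lam : ℝ)) * r := by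
      rw [hr]
      unfold rho
      have : m - k = (m - 1 - k) + 1 := by omega
      rw [this, pow_succ]
      ring
    rw [ext_real G S u hu, ext_real G S u hu, hcast, hrho]
    have hdl : (d : ℝ) + 1 ≤ lam := by
      have : d + 1 ≤ lam := by omega
      exact_mod_cast this
    rcases Nat.eq_zero_or_pos d with hd0 | hd0
    · have hN : Nb G S u = ∅ := Finset.card_eq_zero.1 hd0
      have hY0 : Y = 0 := by rw [hYdef, hN]; simp [coin]
      have hYA0 : YA = 0 := by rw [hYAdef, hN]; simp [coin]
      rw [← hYdef, ← hYAdef, hY0, hYA0, ← hd, hd0]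
      have e1 : (1 - 1 / (lam : ℝ)) * r * (((lam : ℝ) - ((0 : ℕ) : ℝ)) * P + 0) =
          ((lam : ℝ) - 1) * (r * P) := by
        push_cast
        field_simp
        ring
      rw [e1]
      push_cast
      have : (0:ℝ) ≤ (lam : ℝ) - 1 := by
        have : (1:ℝ) ≤ lam := by exact_mod_cast hlam
        linarith
      have := mul_le_mul_of_nonneg_left hIH this
      linarith
    · have hW0 : (Nb G S u).Nonempty := Finset.card_pos.1 hd0
      have hco := coincidences G (S.erase u) (Nb G S u) (Finset.filter_subset _ _) hW0 lam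
        (by rw [hcard]; omega)
      have hco2 : 2 * Y ≤ ((d : ℝ) - 1) * P := by
        rw [hYdef, hP]
        exact_mod_cast hco
      have hd1 : (1:ℝ) ≤ d := by exact_mod_cast hd0
      have hl1 : (0:ℝ) < (lam : ℝ) - 1 := by linarith
      have hYn : 0 ≤ Y := Finset.sum_nonneg fun σ _ => Nat.cast_nonneg _
      -- `YA ≤ r * (lam / (lam - 1)) * Y`
      have hYA : YA ≤ r * ((lam : ℝ) / (lam - 1)) * Y := by
        have h1 : ((lam : ℝ) - 1) / lam * YA ≤ r * Y := by
          have : (1 - 1 / (lam : ℝ)) = ((lam : ℝ) - 1) / lam := by field_simp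
          rw [this] at hY
          exact hY
        have h2 : YA = ((lam : ℝ) / (lam - 1)) * (((lam : ℝ) - 1) / lam * YA) := by
          field_simp
        rw [h2]
        have h3 : 0 ≤ (lam : ℝ) / (lam - 1) := by positivity
        have := mul_le_mul_of_nonneg_left h1 h3
        linarith
      have hA' : ((lam : ℝ) - 1 - d) * A ≤ ((lam : ℝ) - 1 - d) * (r * P) :=
        mul_le_mul_of_nonneg_left hIH (by linarith)
      have hfin : ((lam : ℝ) - 1 - d) * P + (lam : ℝ) / (lam - 1) * Y ≤
          (1 - 1 / (lam : ℝ)) * (((lam : ℝ) - d) * P + Y) := by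
        have h1 : (2 * (lam : ℝ) - 1) * Y ≤ d * ((lam : ℝ) - 1) * P := by
          have h2 : (2 * (lam : ℝ) - 1) * (2 * Y) ≤ (2 * (lam : ℝ) - 1) * (((d : ℝ) - 1) * P) :=
            mul_le_mul_of_nonneg_left hco2 (by linarith)
          have h3 : (2 * (lam : ℝ) - 1) * (((d : ℝ) - 1) * P) ≤ 2 * (d * ((lam : ℝ) - 1) * P) := by
            have : 0 ≤ (2 * (lam : ℝ) - (d + 1)) * P := mul_nonneg (by linarith) hPn
            nlinarith
          linarith
        rw [← sub_nonneg]
        have h2 : (1 - 1 / (lam : ℝ)) * (((lam : ℝ) - d) * P + Y) -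
            (((lam : ℝ) - 1 - d) * P + (lam : ℝ) / (lam - 1) * Y) =
            (d * ((lam : ℝ) - 1) * P - (2 * (lam : ℝ) - 1) * Y) / (lam * (lam - 1)) := by
          field_simp
          ring
        rw [h2]
        apply div_nonneg (by linarith) (by positivity)
      calc ((lam : ℝ) - 1 - d) * A + YA
          ≤ ((lam : ℝ) - 1 - d) * (r * P) + r * ((lam : ℝ) / (lam - 1)) * Y := add_le_add hA' hYA
        _ = r * (((lam : ℝ) - 1 - d) * P + (lam : ℝ) / (lam - 1) * Y) := by ring
        _ ≤ r * ((1 - 1 / (lam : ℝ)) * (((lam : ℝ) - d) * P + Y)) :=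
            mul_le_mul_of_nonneg_left hfin hr0
        _ = _ := by ring

end Pool.Agent.V11147.CliqueRatio
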