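import Mathlib

/-!
# A Motzkin-Straus argument for linear combinations of clique densities

For every graph `G` and every function `W` of the size, the minimum over the simplex of the polynomial
`∑ W(|S|) ∏_{v ∈ S} x v` (sum over the cliques `S` of `G`) is attained at the uniform weight on some
clique.
-/

set_option autoImplicit false

namespace Pool.Agent.V11147.MS

open Finset

open scoped Classical

variable {V : Type} [Fintype V] [DecidableEq V]

/-- The clique polynomial of `G` with coefficients `W`. -/
noncomputable def P (G : SimpleGraph V) (W : ℕ → ℝ) (x : V → ℝ) : ℝ :=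
  ∑ S : Finset V, (if G.IsClique (S : Set V) then W S.card else 0) * ∏ v ∈ S, x v

/-- Move the amount `t` from `v` to `u`. -/
noncomputable def shift (x : V → ℝ) (u v : V) (t : ℝ) : V → ℝ :=
  fun w => if w = u then x u + t else if w = v then x v - t else x w

theorem prod_two (f : V → ℝ) (u v : V) (huv : u ≠ v) (S : Finset V) :
    ∏ w ∈ S, f w = (if u ∈ S then f u else 1) * (if v ∈ S then f v else 1) *
      ∏ w ∈ (S.erase u).erase v, f w := by
  by_cases hu : u ∈ S
  · rw [if_pos hu, ← mul_prod_erase S f hu]
    by_cases hv : v ∈ S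
    · have hv' : v ∈ S.erase u := mem_erase.2 ⟨huv.symm, hv⟩
      rw [if_pos hv, ← mul_prod_erase (S.erase u) f hv']
      ring
    · have hv' : v ∉ S.erase u := fun h => hv (mem_erase.1 h).2
      rw [if_neg hv, erase_eq_of_notMem hv']
      ring
  · rw [if_neg hu, erase_eq_of_notMem hu]
    by_cases hv : v ∈ S
    · rw [if_pos hv, ← mul_prod_erase S f hv]
      ring
    · rw [if_neg hv, erase_eq_of_notMem hv]
      ring

theorem quad (G : SimpleGraph V) (W : ℕ → ℝ) (x : V → ℝ) (u v : V) (huv : u ≠ v) :
    ∃ α β : ℝ, (∀ t, P G W (shift x u v t) = P G W x + α * t + β * t ^ 2) ∧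
      (¬ G.Adj u v → β = 0) := by
  refine ⟨∑ S : Finset V, (if G.IsClique (S : Set V) then W S.card else 0) *
      ((∏ w ∈ (S.erase u).erase v, x w) *
        ((if u ∈ S then 1 else 0) * (if v ∈ S then x v else 1) -
          (if u ∈ S then x u else 1) * (if v ∈ S then 1 else 0))),
    ∑ S : Finset V, (if G.IsClique (S : Set V) then W S.card else 0) *
      ((∏ w ∈ (S.erase u).erase v, x w) *
        (-((if u ∈ S then 1 else 0) * (if v ∈ S then 1 else 0)))), ?_, ?_⟩
  · intro t
    unfold P
    rw [sum_mul, sum_mul, ← sum_add_distrib, ← sum_add_distrib]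
    refine sum_congr rfl fun S _ => ?_
    have h1 : ∏ w ∈ (S.erase u).erase v, shift x u v t w = ∏ w ∈ (S.erase u).erase v, x w := by
      refine prod_congr rfl fun w hw => ?_
      rw [mem_erase, mem_erase] at hw
      unfold shift
      rw [if_neg hw.2.1, if_neg hw.1]
    rw [prod_two (shift x u v t) u v huv S, prod_two x u v huv S, h1]
    have h2 : shift x u v t u = x u + t := by
      unfold shift
      rw [if_pos rfl]
    have h3 : shift x u v t v = x v - t := by
      unfold shift
      rw [if_neg huv.symm, if_pos rfl]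
    rw [h2, h3]
    split_ifs <;> ring
  · intro hadj
    refine sum_eq_zero fun S _ => ?_
    by_cases hS : G.IsClique (S : Set V)
    · by_cases hu : u ∈ S
      · by_cases hv : v ∈ S
        · exact absurd (hS hu hv huv) hadj
        · rw [if_neg hv]
          ring
      · rw [if_neg hu]
        ring
    · rw [if_neg hS]
      ring

/-- The polynomial without the restriction to cliques. -/
noncomputable def Q (W : ℕ → ℝ) (x : V → ℝ) : ℝ :=
  ∑ S : Finset V, W S.card * ∏ v ∈ S, x v

theorem P_eq_Q (G : SimpleGraph V) (W : ℕ → ℝ) (x : V → ℝ)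
    (h : ∀ u v, u ≠ v → x u ≠ 0 → x v ≠ 0 → G.Adj u v) : P G W x = Q W x := by
  unfold P Q
  refine sum_congr rfl fun S _ => ?_
  by_cases hS : G.IsClique (S : Set V)
  · rw [if_pos hS]
  · rw [if_neg hS]
    have h1 : ∏ v ∈ S, x v = 0 := by
      by_contra hne
      apply hS
      intro u hu v hv huv
      rw [← ne_eq, prod_ne_zero_iff] at hne
      exact h u v huv (hne u hu) (hne v hv)
    rw [h1]
    ring

theorem Q_perm (W : ℕ → ℝ) (x : V → ℝ) (σ : Equiv.Perm V) :
    Q W (fun v => x (σ v)) = Q W x := by
  unfold Q
  refine Fintype.sum_equiv (Equiv.finsetCongr σ) _ _ ?_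
  intro S
  rw [Equiv.finsetCongr_apply, card_map, prod_map]
  rfl

theorem shift_swap (x : V → ℝ) (u v : V) (huv : u ≠ v) :
    shift x u v (x v - x u) = fun w => x (Equiv.swap u v w) := by
  funext w
  unfold shift
  by_cases hu : w = u
  · rw [if_pos hu, hu, Equiv.swap_apply_left]
    ring
  · rw [if_neg hu]
    by_cases hv : w = v
    · rw [if_pos hv, hv, Equiv.swap_apply_right]
      ring
    · rw [if_neg hv, Equiv.swap_apply_of_ne_of_ne hu hv]

theorem shift_mem (x : V → ℝ) (hx : x ∈ stdSimplex ℝ V) (u v : V) (huv : u ≠ v) (t : ℝ)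
    (h1 : -x u ≤ t) (h2 : t ≤ x v) : shift x u v t ∈ stdSimplex ℝ V := by
  refine ⟨?_, ?_⟩
  · intro w
    unfold shift
    split_ifs
    · linarith
    · linarith
    · exact hx.1 w
  · rw [← hx.2]
    have h3 : ∀ f : V → ℝ, ∑ w, f w = f u + (f v + ∑ w ∈ (univ.erase u).erase v, f w) := by
      intro f
      rw [← add_sum_erase univ f (mem_univ u),
        ← add_sum_erase (univ.erase u) f (mem_erase.2 ⟨huv.symm, mem_univ v⟩)]
    rw [h3, h3 x]
    have h4 : ∑ w ∈ (univ.erase u).erase v, shift x u v t w =
        ∑ w ∈ (univ.erase u).erase v, x w := by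
      refine sum_congr rfl fun w hw => ?_
      rw [mem_erase, mem_erase] at hw
      unfold shift
      rw [if_neg hw.2.1, if_neg hw.1]
    rw [h4]
    have h5 : shift x u v t u = x u + t := by
      unfold shift
      rw [if_pos rfl]
    have h6 : shift x u v t v = x v - t := by
      unfold shift
      rw [if_neg huv.symm, if_pos rfl]
    rw [h5, h6]
    ring

/-- The minimum of the clique polynomial over the simplex. -/
theorem main (G : SimpleGraph V) (W : ℕ → ℝ) (c : ℝ)
    (hW : ∀ r : ℕ, 1 ≤ r → c ≤ ∑ k ∈ range (r + 1), (r.choose k : ℝ) * (W k * (1 / (r : ℝ)) ^ k))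
    (x : V → ℝ) (hx : x ∈ stdSimplex ℝ V) : c ≤ P G W x := by
  have hcont : Continuous (P G W) := by
    unfold P
    fun_prop
  obtain ⟨y0, hy0, hmin0⟩ := (isCompact_stdSimplex ℝ V).exists_isMinOn ⟨x, hx⟩ hcont.continuousOn
  set 𝓜 : Set (V → ℝ) := {y | y ∈ stdSimplex ℝ V ∧ ∀ z ∈ stdSimplex ℝ V, P G W y ≤ P G W z}
    with h𝓜
  have hne : 𝓜.Nonempty := ⟨y0, hy0, fun z hz => hmin0 hz⟩
  obtain ⟨y, hy, hymin⟩ :=
    (measure (fun y : V → ℝ => (univ.filter (fun w => y w ≠ 0)).card)).wf.has_min 𝓜 hne
  have hysimp : y ∈ stdSimplex ℝ V := hy.1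
  -- the polynomial cannot be constant in a direction inside the support
  have hkill : ∀ u v, u ≠ v → y u ≠ 0 → y v ≠ 0 →
      P G W (shift y u v (y v)) ≠ P G W y := by
    intro u v huv hu hv heq
    have h1 : shift y u v (y v) ∈ 𝓜 := by
      refine ⟨shift_mem y hysimp u v huv _ ?_ le_rfl, ?_⟩
      · have := hysimp.1 u
        have := hysimp.1 v
        linarith
      · intro z hz
        rw [heq]
        exact hy.2 z hz
    refine hymin _ h1 ?_
    change (univ.filter (fun w => shift y u v (y v) w ≠ 0)).card <
      (univ.filter (fun w => y w ≠ 0)).card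
    refine card_lt_card ?_
    rw [ssubset_iff_of_subset]
    · refine ⟨v, ?_, ?_⟩
      · rw [mem_filter]
        exact ⟨mem_univ _, hv⟩
      · rw [mem_filter]
        rintro ⟨-, h⟩
        apply h
        unfold shift
        rw [if_neg huv.symm, if_pos rfl]
        ring
    · intro w hw
      rw [mem_filter] at hw ⊢
      refine ⟨mem_univ _, ?_⟩
      by_cases hwu : w = u
      · rw [hwu]
        exact hu
      · by_cases hwv : w = v
        · rw [hwv]
          exact hv
        · have h2 := hw.2
          unfold shift at h2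
          rw [if_neg hwu, if_neg hwv] at h2
          exact h2
  have hpos : ∀ u, y u ≠ 0 → 0 < y u := fun u hu => lt_of_le_of_ne (hysimp.1 u) (Ne.symm hu)
  have hclique : ∀ u v, u ≠ v → y u ≠ 0 → y v ≠ 0 → G.Adj u v := by
    intro u v huv hu hv
    by_contra hadj
    obtain ⟨α, β, hquad, hβ⟩ := quad G W y u v huv
    have hβ0 := hβ hadj
    have h1 := hy.2 _ (shift_mem y hysimp u v huv (y v) (by
      have := hysimp.1 u
      have := hysimp.1 v
      linarith) le_rfl)
    have h2 := hy.2 _ (shift_mem y hysimp u v huv (-y u) le_rfl (by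
      have := hysimp.1 u
      have := hysimp.1 v
      linarith))
    rw [hquad, hβ0] at h1 h2
    have hpu := hpos u hu
    have hpv := hpos v hv
    have h3 : 0 ≤ α := by
      by_contra hneg
      push Not at hneg
      nlinarith
    have h4 : α ≤ 0 := by
      by_contra hneg
      push Not at hneg
      nlinarith
    have h5 : α = 0 := le_antisymm h4 h3
    refine hkill u v huv hu hv ?_
    rw [hquad, hβ0, h5]
    ring
  have heqw : ∀ u v, y u ≠ 0 → y v ≠ 0 → y u = y v := by
    intro u v hu hv
    by_cases huv : u = v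
    · rw [huv]
    by_contra hne'
    obtain ⟨α, β, hquad, -⟩ := quad G W y u v huv
    have hpu := hpos u hu
    have hpv := hpos v hv
    have hs : P G W (shift y u v (y v - y u)) = P G W y := by
      rw [shift_swap y u v huv, P_eq_Q G W y hclique, P_eq_Q, Q_perm W y (Equiv.swap u v)]
      intro a b hab ha hb
      by_cases hau : Equiv.swap u v a = Equiv.swap u v b
      · exact absurd ((Equiv.swap u v).injective hau) hab
      · -- the support is invariant under the transposition
        have hinv : ∀ w, y (Equiv.swap u v w) ≠ 0 → y w ≠ 0 := by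
          intro w hw
          by_cases h1 : w = u
          · rw [h1]
            exact hu
          · by_cases h2 : w = v
            · rw [h2]
              exact hv
            · rwa [Equiv.swap_apply_of_ne_of_ne h1 h2] at hw
        exact hclique a b hab (hinv a ha) (hinv b hb)
    rw [hquad] at hs
    have h1 := hy.2 _ (shift_mem y hysimp u v huv (y v) (by linarith) le_rfl)
    have h2 := hy.2 _ (shift_mem y hysimp u v huv ((y v - y u) / 2) (by linarith) (by linarith))
    rw [hquad] at h1 h2
    have hd : y v - y u ≠ 0 := fun h => hne' (by linarith)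
    have hα : α = -β * (y v - y u) := by
      have h3 : (α + β * (y v - y u)) * (y v - y u) = 0 := by linear_combination hs
      rcases mul_eq_zero.1 h3 with h4 | h4
      · linarith
      · exact absurd h4 hd
    have h3 : 0 ≤ β * (y v * y u) := by
      rw [hα] at h1
      nlinarith
    have h4 : 0 ≤ -(β * (y v - y u) ^ 2) := by
      rw [hα] at h2
      nlinarith
    have hβ1 : 0 ≤ β := by
      by_contra hneg
      push Not at hneg
      have := mul_pos hpv hpu
      nlinarith
    have hβ2 : β ≤ 0 := by
      by_contra hneg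
      push Not at hneg
      have := mul_pos hneg (pow_pos (abs_pos.2 hd) 2)
      rw [sq_abs] at this
      linarith
    have hβ0 : β = 0 := le_antisymm hβ2 hβ1
    refine hkill u v huv hu hv ?_
    rw [hquad, hα, hβ0]
    ring
  -- evaluate the polynomial at `y`
  set K : Finset V := univ.filter (fun w => y w ≠ 0) with hK
  have hKne : K.Nonempty := by
    rw [nonempty_iff_ne_empty]
    intro hempty
    have h1 : ∑ w, y w = 0 := by
      refine sum_eq_zero fun w _ => ?_
      by_contra hw
      have : w ∈ K := by
        rw [hK, mem_filter]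
        exact ⟨mem_univ _, hw⟩
      rw [hempty] at this
      simp at this
    rw [hysimp.2] at h1
    exact one_ne_zero h1
  have hr : 1 ≤ K.card := hKne.card_pos
  have hval : ∀ w ∈ K, y w = 1 / (K.card : ℝ) := by
    intro w hw
    have h1 : ∑ v ∈ K, y v = 1 := by
      rw [← hysimp.2]
      refine sum_subset (subset_univ K) fun v _ hv => ?_
      by_contra h
      apply hv
      rw [hK, mem_filter]
      exact ⟨mem_univ _, h⟩
    have h2 : ∑ v ∈ K, y v = (K.card : ℝ) * y w := by
      rw [← nsmul_eq_mul, ← sum_const]
      refine sum_congr rfl fun v hv => ?_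
      rw [hK, mem_filter] at hv hw
      exact heqw v w hv.2 hw.2
    rw [h2] at h1
    have hK0 : (K.card : ℝ) ≠ 0 := by
      have : (0 : ℝ) < (K.card : ℝ) := by exact_mod_cast hr
      exact this.ne'
    field_simp
    linarith
  have hPy : P G W y = ∑ k ∈ range (K.card + 1),
      (K.card.choose k : ℝ) * (W k * (1 / (K.card : ℝ)) ^ k) := by
    rw [P_eq_Q G W y hclique]
    unfold Q
    have h1 : ∑ S : Finset V, W S.card * ∏ v ∈ S, y v =
        ∑ S ∈ K.powerset, W S.card * ∏ v ∈ S, y v := by
      symm
      refine sum_subset (subset_univ _) fun S _ hS => ?_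
      rw [mem_powerset] at hS
      have h2 : ∃ v ∈ S, v ∉ K := by
        by_contra hcon
        push Not at hcon
        exact hS hcon
      obtain ⟨v, hv, hvK⟩ := h2
      have h3 : y v = 0 := by
        by_contra h
        apply hvK
        rw [hK, mem_filter]
        exact ⟨mem_univ _, h⟩
      rw [prod_eq_zero hv h3, mul_zero]
    rw [h1]
    have h2 : ∀ S ∈ K.powerset, W S.card * ∏ v ∈ S, y v =
        (fun k => W k * (1 / (K.card : ℝ)) ^ k) S.card := by
      intro S hS
      rw [mem_powerset] at hS
      simp only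
      congr 1
      rw [← prod_const]
      exact prod_congr rfl fun v hv => hval v (hS hv)
    rw [sum_congr rfl h2]
    refine (sum_powerset_apply_card (fun k => W k * (1 / (K.card : ℝ)) ^ k) (x := K)).trans ?_
    refine sum_congr rfl fun k _ => ?_
    rw [nsmul_eq_mul]
  have h1 := hW K.card hr
  rw [← hPy] at h1
  exact h1.trans (hy.2 x hx)

end Pool.Agent.V11147.MS
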