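import Mathlib

/-!
# Embedding counts in blow-ups of tensor powers of complete graphs
-/

set_option autoImplicit false

namespace Pool.Agent.V11147.TB

open Finset Filter Topology

open scoped Classical

/-- The proper colourings of `F` with `M` colours. -/
noncomputable def cols {A : Type} [Fintype A] [DecidableEq A] (F : SimpleGraph A) (M : ℕ) :
    Finset (A → Fin M) :=
  univ.filter (fun g => ∀ a b, F.Adj a b → g a ≠ g b)

theorem mem_cols {A : Type} [Fintype A] [DecidableEq A] (F : SimpleGraph A) (M : ℕ)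
    (g : A → Fin M) : g ∈ cols F M ↔ ∀ a b, F.Adj a b → g a ≠ g b := by
  rw [cols, mem_filter]
  exact ⟨fun h => h.2, fun h => ⟨mem_univ _, h⟩⟩

/-- An embedding of the vertices of the blow-up. -/
theorem exists_emb (M D n : ℕ) :
    Nonempty (((Fin D → Fin M) × Fin (n / M ^ D)) ↪ Fin n) := by
  apply Function.Embedding.nonempty_of_card_le
  rw [Fintype.card_prod, Fintype.card_fun, Fintype.card_fin, Fintype.card_fin, Fintype.card_fin,
    Fintype.card_fin]
  exact Nat.mul_div_le n (M ^ D)

/-- The chosen embedding. -/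
noncomputable def iota (M D n : ℕ) : ((Fin D → Fin M) × Fin (n / M ^ D)) ↪ Fin n :=
  Classical.choice (exists_emb M D n)

/-- The blow-up of the tensor power, with the remaining vertices isolated. -/
def host (M D n : ℕ) : SimpleGraph (Fin n) where
  Adj u v := u ≠ v ∧ ∃ x y, iota M D n x = u ∧ iota M D n y = v ∧ ∀ i, x.1 i ≠ y.1 i
  symm := ⟨by
    rintro u v ⟨h, x, y, hx, hy, hxy⟩
    exact ⟨h.symm, y, x, hy, hx, fun i => (hxy i).symm⟩⟩
  loopless := ⟨by
    rintro u ⟨h, -⟩
    exact h rfl⟩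

/-- The number of embeddings. -/
noncomputable def emb {A : Type} (F : SimpleGraph A) {n : ℕ} (G : SimpleGraph (Fin n)) : ℕ :=
  Set.ncard {f : A → Fin n | Function.Injective f ∧ ∀ i j, F.Adj i j → G.Adj (f i) (f j)}

/-- The homomorphisms to the tensor power. -/
noncomputable def homs {A : Type} [Fintype A] [DecidableEq A] (F : SimpleGraph A) (M D : ℕ) :
    Finset (A → (Fin D → Fin M)) :=
  univ.filter (fun φ => ∀ a b, F.Adj a b → ∀ i, φ a i ≠ φ b i)

theorem card_homs {A : Type} [Fintype A] [DecidableEq A] (F : SimpleGraph A) (M D : ℕ) :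
    (homs F M D).card = (cols F M).card ^ D := by
  have h1 : (cols F M).card ^ D = (Fintype.piFinset (fun _ : Fin D => cols F M)).card := by
    rw [Fintype.card_piFinset, prod_const, card_univ, Fintype.card_fin]
  rw [h1]
  refine card_bij (fun φ _ i a => φ a i) ?_ ?_ ?_
  · intro φ hφ
    rw [homs, mem_filter] at hφ
    rw [Fintype.mem_piFinset]
    intro i
    rw [cols, mem_filter]
    exact ⟨mem_univ _, fun a b hab => hφ.2 a b hab i⟩
  · intro φ _ ψ _ h
    funext a i
    exact congrFun (congrFun h i) a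
  · intro g hg
    rw [Fintype.mem_piFinset] at hg
    refine ⟨fun a i => g i a, ?_, rfl⟩
    rw [homs, mem_filter]
    refine ⟨mem_univ _, fun a b hab i => ?_⟩
    have := hg i
    rw [cols, mem_filter] at this
    exact this.2 a b hab

theorem emb_le {A : Type} [Fintype A] [DecidableEq A] (F : SimpleGraph A)
    (hiso : ∀ a, ∃ b, F.Adj a b) (M D n : ℕ) :
    emb F (host M D n) ≤ (cols F M).card ^ D * (n / M ^ D) ^ Fintype.card A := by
  have h1 : {f : A → Fin n | Function.Injective f ∧
      ∀ i j, F.Adj i j → (host M D n).Adj (f i) (f j)} ⊆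
      ((((homs F M D) ×ˢ (univ : Finset (A → Fin (n / M ^ D)))).image
        (fun p => fun a => iota M D n (p.1 a, p.2 a)) : Finset (A → Fin n)) : Set (A → Fin n)) := by
    rintro f ⟨-, hf⟩
    have hx : ∀ a, ∃ x, iota M D n x = f a := by
      intro a
      obtain ⟨b, hab⟩ := hiso a
      obtain ⟨-, x, y, hx, -, -⟩ := hf a b hab
      exact ⟨x, hx⟩
    choose x hx using hx
    rw [coe_image, Set.mem_image]
    refine ⟨(fun a => (x a).1, fun a => (x a).2), ?_, ?_⟩
    · rw [mem_coe, mem_product]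
      refine ⟨?_, mem_univ _⟩
      rw [homs, mem_filter]
      refine ⟨mem_univ _, ?_⟩
      intro a b hab i
      obtain ⟨-, x', y', hx', hy', hxy⟩ := hf a b hab
      have e1 : x' = x a := (iota M D n).injective (hx'.trans (hx a).symm)
      have e2 : y' = x b := (iota M D n).injective (hy'.trans (hx b).symm)
      have h3 := hxy i
      rw [e1, e2] at h3
      exact h3
    · funext a
      exact hx a
  unfold emb
  refine (Set.ncard_le_ncard h1 (finite_toSet _)).trans ?_
  rw [Set.ncard_coe_finset]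
  refine card_image_le.trans ?_
  rw [card_product, card_homs, card_univ, Fintype.card_fun, Fintype.card_fin]

theorem le_emb {A : Type} [Fintype A] [DecidableEq A] (F : SimpleGraph A) (M D n : ℕ) :
    (cols F M).card ^ D * (n / M ^ D).descFactorial (Fintype.card A) ≤ emb F (host M D n) := by
  have h1 : ((((homs F M D) ×ˢ (univ : Finset (A ↪ Fin (n / M ^ D)))).image
        (fun p => fun a => iota M D n (p.1 a, p.2 a)) : Finset (A → Fin n)) : Set (A → Fin n)) ⊆
      {f : A → Fin n | Function.Injective f ∧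
      ∀ i j, F.Adj i j → (host M D n).Adj (f i) (f j)} := by
    intro f hf
    rw [coe_image, Set.mem_image] at hf
    obtain ⟨⟨φ, ψ⟩, hp, rfl⟩ := hf
    rw [mem_coe, mem_product, homs, mem_filter] at hp
    have hinj : Function.Injective (fun a => iota M D n (φ a, ψ a)) := by
      intro a b hab
      have := (iota M D n).injective hab
      rw [Prod.mk.injEq] at this
      exact ψ.injective this.2
    refine ⟨hinj, ?_⟩
    intro a b hab
    refine ⟨fun h => hab.ne (hinj h), (φ a, ψ a), (φ b, ψ b), rfl, rfl, ?_⟩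
    exact hp.1.2 a b hab
  unfold emb
  refine le_trans ?_ (Set.ncard_le_ncard h1 (Set.toFinite _))
  rw [Set.ncard_coe_finset, card_image_of_injective, card_product, card_homs, card_univ,
    Fintype.card_embedding_eq, Fintype.card_fin]
  rintro ⟨φ, ψ⟩ ⟨φ', ψ'⟩ h
  have h2 : ∀ a, (φ a, ψ a) = (φ' a, ψ' a) := fun a => (iota M D n).injective (congrFun h a)
  refine Prod.ext ?_ ?_
  · funext a
    have := h2 a
    rw [Prod.mk.injEq] at this
    exact this.1
  · refine DFunLike.ext _ _ fun a => ?_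
    have := h2 a
    rw [Prod.mk.injEq] at this
    exact this.2

theorem descFactorial_cast (r k : ℕ) :
    (r.descFactorial k : ℝ) = ∏ j ∈ range k, ((r : ℝ) - j) := by
  induction k with
  | zero => simp
  | succ k ih =>
    rw [Nat.descFactorial_succ, prod_range_succ, ← ih]
    rcases le_or_gt k r with h | h
    · rw [Nat.cast_mul, Nat.cast_sub h]
      ring
    · rw [Nat.descFactorial_eq_zero_iff_lt.2 h]
      simp

/-- The ratio of the falling factorial to the power. -/
theorem desc_div (r k : ℕ) (hr : 1 ≤ r) :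
    (r.descFactorial k : ℝ) / (r : ℝ) ^ k = ∏ j ∈ range k, (1 - (j : ℝ) / (r : ℝ)) := by
  have hr0 : (r : ℝ) ≠ 0 := by
    have : (0 : ℝ) < (r : ℝ) := by exact_mod_cast hr
    exact this.ne'
  have h1 : (r : ℝ) ^ k = ∏ _j ∈ range k, (r : ℝ) := by
    rw [prod_const, card_range]
  rw [descFactorial_cast, h1, ← prod_div_distrib]
  refine prod_congr rfl fun j _ => ?_
  field_simp

theorem tendsto_desc (k : ℕ) (h : ℕ → ℕ) (hh : Tendsto h atTop atTop) :
    Tendsto (fun n => ((h n).descFactorial k : ℝ) / ((h n : ℕ) : ℝ) ^ k) atTop (𝓝 1) := by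
  have h0 : Tendsto (fun n : ℕ => (n.descFactorial k : ℝ) / (n : ℝ) ^ k) atTop (𝓝 1) := by
    suffices hs : Tendsto (fun n : ℕ => ∏ j ∈ range k, (1 - (j : ℝ) / (n : ℝ)))
        atTop (𝓝 (∏ _j ∈ range k, (1 : ℝ))) by
      rw [prod_const_one] at hs
      refine hs.congr' ?_
      filter_upwards [eventually_ge_atTop 1] with n hn
      rw [desc_div n k hn]
    refine tendsto_finsetProd _ fun j _ => ?_
    have h2 : Tendsto (fun n : ℕ => (j : ℝ) / (n : ℝ)) atTop (𝓝 0) :=
      tendsto_natCast_atTop_atTop.const_div_atTop (j : ℝ)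
    have h3 := h2.const_sub 1
    rw [sub_zero] at h3
    exact h3
  exact h0.comp hh

/-- The main size estimate: `(h m)^k / n^(k) → 1`. -/
theorem tendsto_plus (k : ℕ) (m : ℕ → ℕ) (hm : ∀ n, 0 < m n)
    (hh : Tendsto (fun n => n / m n) atTop atTop) :
    Tendsto (fun n : ℕ => (((n / m n : ℕ) : ℝ) * (m n : ℝ)) ^ k / (n.descFactorial k : ℝ))
      atTop (𝓝 1) := by
  have h1 : Tendsto (fun n : ℕ => ((n / m n : ℕ) : ℝ) * (m n : ℝ) / (n : ℝ)) atTop (𝓝 1) := by
    have hlow : Tendsto (fun n : ℕ => 1 - 1 / (((n / m n : ℕ)) : ℝ)) atTop (𝓝 1) := by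
      have h2 : Tendsto (fun n : ℕ => 1 / (((n / m n : ℕ)) : ℝ)) atTop (𝓝 0) :=
        (tendsto_natCast_atTop_atTop.comp hh).const_div_atTop 1
      have h3 := h2.const_sub 1
      rw [sub_zero] at h3
      exact h3
    refine tendsto_of_tendsto_of_tendsto_of_le_of_le' hlow tendsto_const_nhds ?_ ?_
    · filter_upwards [hh.eventually_ge_atTop 1, eventually_ge_atTop 1] with n hn hn1
      have hn0 : (0 : ℝ) < n := by exact_mod_cast hn1
      have hq0 : (0 : ℝ) < ((n / m n : ℕ) : ℝ) := by exact_mod_cast hn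
      have e1 : n < m n * (n / m n) + m n := by
        have := Nat.lt_mul_div_succ n (hm n)
        rw [Nat.mul_add] at this
        omega
      have e1' : (n : ℝ) < (m n : ℝ) * ((n / m n : ℕ) : ℝ) + (m n : ℝ) := by exact_mod_cast e1
      have e2 : m n * (n / m n) ≤ n := Nat.mul_div_le n (m n)
      have e2' : (m n : ℝ) * ((n / m n : ℕ) : ℝ) ≤ (n : ℝ) := by exact_mod_cast e2
      rw [le_div_iff₀ hn0, sub_mul, one_mul]
      have e3 : (m n : ℝ) ≤ 1 / ((n / m n : ℕ) : ℝ) * (n : ℝ) := by
        rw [div_mul_eq_mul_div, le_div_iff₀ hq0]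
        linarith
      linarith
    · filter_upwards [eventually_ge_atTop 1] with n hn1
      have hn0 : (0 : ℝ) < n := by exact_mod_cast hn1
      have e2 : m n * (n / m n) ≤ n := Nat.mul_div_le n (m n)
      have e2' : (m n : ℝ) * ((n / m n : ℕ) : ℝ) ≤ (n : ℝ) := by exact_mod_cast e2
      rw [div_le_one hn0]
      linarith
  have h2 := (h1.pow k).div (tendsto_desc k (fun n => n) tendsto_id) one_ne_zero
  rw [one_pow, div_one] at h2
  refine h2.congr' ?_
  filter_upwards [eventually_ge_atTop 1] with n hn1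
  have hn0 : (n : ℝ) ≠ 0 := by
    have : (0 : ℝ) < n := by exact_mod_cast hn1
    exact this.ne'
  change (((n / m n : ℕ) : ℝ) * (m n : ℝ) / (n : ℝ)) ^ k / ((n.descFactorial k : ℝ) / (n : ℝ) ^ k) = _
  rw [div_pow, div_div_div_cancel_right₀]
  exact pow_ne_zero k hn0

theorem tendsto_minus (k : ℕ) (m : ℕ → ℕ) (hm : ∀ n, 0 < m n)
    (hh : Tendsto (fun n => n / m n) atTop atTop) :
    Tendsto (fun n : ℕ => ((n / m n).descFactorial k : ℝ) * (m n : ℝ) ^ k /
      (n.descFactorial k : ℝ)) atTop (𝓝 1) := by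
  have h1 := (tendsto_desc k _ hh).mul (tendsto_plus k m hm hh)
  rw [one_mul] at h1
  refine h1.congr' ?_
  filter_upwards [hh.eventually_ge_atTop 1] with n hn
  have hq0 : (((n / m n : ℕ)) : ℝ) ≠ 0 := by
    have : (0 : ℝ) < ((n / m n : ℕ) : ℝ) := by exact_mod_cast hn
    exact this.ne'
  rw [mul_pow]
  have := pow_ne_zero k hq0
  field_simp

/-- Diagonalisation. -/
theorem exists_slow (Q : ℕ → ℕ → Prop) (hQ : ∀ M, ∀ᶠ n in atTop, Q M n) :
    ∃ f : ℕ → ℕ, Tendsto f atTop atTop ∧ ∀ᶠ n in atTop, Q (f n) n := by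
  have h1 : ∀ M, ∃ N, ∀ n, N ≤ n → Q M n := fun M => eventually_atTop.1 (hQ M)
  choose N hN using h1
  refine ⟨fun n => Nat.findGreatest (fun M => N M ≤ n) n, ?_, ?_⟩
  · rw [tendsto_atTop]
    intro b
    filter_upwards [eventually_ge_atTop (max b (N b))] with n hn
    exact Nat.le_findGreatest ((le_max_left _ _).trans hn) ((le_max_right _ _).trans hn)
  · filter_upwards [eventually_ge_atTop (N 0)] with n hn
    refine hN _ n ?_
    exact Nat.findGreatest_spec (P := fun M => N M ≤ n) (Nat.zero_le n) hn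

end Pool.Agent.V11147.TB
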