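import Mathlib

namespace Pool.Agent.V11147.Avoid

open MeasureTheory ProbabilityTheory Set

theorem real_part {p θ : ℝ} (hθ : θ = 1 - p) (hp1 : p < 1) {e : ℕ → ℝ} (h0 : e 0 = p)
    (h1 : e 1 = p) (hrec : ∀ n, e (n + 2) = p * (e (n + 1) + θ * e n))
    (hle : ∀ n, e n ≤ θ ^ n) : p ≤ 1 / 3 := by
  by_contra hcon
  push Not at hcon
  have hθ0 : 0 < θ := by linarith
  set r := p / θ with hr
  have hr2 : 1 < 2 * r := by
    rw [hr, hθ]
    rw [hθ] at hθ0
    rw [← mul_div_assoc, lt_div_iff₀ hθ0]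
    linarith
  have hrθ : r * θ = p := by
    rw [hr]
    field_simp
  set x : ℕ → ℝ := fun n => e n / θ ^ n with hx
  have hxe : ∀ n, x n * θ ^ n = e n := by
    intro n
    simp only [hx]
    field_simp
  have hx1 : ∀ n, x n ≤ 1 := by
    intro n
    have h2 := hle n
    have h3 : 0 < θ ^ n := by positivity
    rw [← hxe n] at h2
    by_contra hc
    push Not at hc
    nlinarith
  have hxr : ∀ n, x (n + 2) = r * (x (n + 1) + x n) := by
    intro n
    have h2 := hrec n
    rw [← hxe, ← hxe, ← hxe] at h2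
    have h3 : 0 < θ ^ n := by positivity
    have h4 : x (n + 2) * (θ ^ n * θ ^ 2) = (r * (x (n + 1) + x n)) * (θ ^ n * θ ^ 2) := by
      have : x (n + 2) * (θ ^ n * θ ^ 2) = x (n + 2) * θ ^ (n + 2) := by ring
      rw [this, h2, ← hrθ]
      ring
    exact mul_right_cancel₀ (by positivity) h4
  have hx0 : x 0 = p := by
    simp only [hx, h0]
    simp
  have hx11 : p ≤ x 1 := by
    simp only [hx, h1, pow_one]
    rw [le_div_iff₀ hθ0]
    nlinarith
  have hgrow : ∀ k, p * (2 * r) ^ k ≤ x (2 * k) ∧ p * (2 * r) ^ k ≤ x (2 * k + 1) := by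
    intro k
    induction k with
    | zero => simpa [hx0] using hx11
    | succ k ih =>
      obtain ⟨h2, h3⟩ := ih
      have h4 : p * (2 * r) ^ (k + 1) ≤ x (2 * k + 2) := by
        rw [hxr (2 * k), pow_succ]
        have : p * ((2 * r) ^ k * (2 * r)) = r * (p * (2 * r) ^ k + p * (2 * r) ^ k) := by ring
        rw [this]
        apply mul_le_mul_of_nonneg_left (by linarith) (by linarith)
      refine ⟨h4, ?_⟩
      have h5 : x (2 * (k + 1) + 1) = r * (x (2 * k + 2) + x (2 * k + 1)) := hxr (2 * k + 1)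
      rw [h5]
      have h6 : 0 ≤ p * (2 * r) ^ k := by positivity
      have h7 : p * (2 * r) ^ (k + 1) = (p * (2 * r) ^ k) * (2 * r) := by ring
      calc p * (2 * r) ^ (k + 1) ≤ r * (p * (2 * r) ^ (k + 1) + p * (2 * r) ^ k) := by
            rw [h7]
            nlinarith [mul_nonneg h6 (show (0:ℝ) ≤ r * (2 * r - 1) by nlinarith)]
        _ ≤ _ := by
            apply mul_le_mul_of_nonneg_left _ (by linarith)
            linarith
  obtain ⟨k, hk⟩ := pow_unbounded_of_one_lt (1 / p) hr2
  have h8 := (hgrow k).1.trans (hx1 _)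
  rw [div_lt_iff₀ (by linarith)] at hk
  linarith

variable {Ω : Type*} [MeasurableSpace Ω] {μ : Measure Ω} [IsProbabilityMeasure μ]

/-- no two consecutive zeros up to time `n` -/
def NN (Y : ℕ → Ω → Bool) (n : ℕ) : Set Ω :=
  {ω | ∀ i < n, ¬ (Y i ω = false ∧ Y (i + 1) ω = false)}

omit [IsProbabilityMeasure μ] in
theorem indep_step {Y : ℕ → Ω → Bool} (hm : ∀ t, Measurable (Y t))
    (hi : iIndepFun (fun t => Y t) μ) (n : ℕ)
    (P : Set ((i : Finset.range (n + 1)) → Bool)) (b : Bool) :
    μ.real ({ω | (fun i : Finset.range (n + 1) => Y i ω) ∈ P} ∩ {ω | Y (n + 1) ω = b}) =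
      μ.real {ω | (fun i : Finset.range (n + 1) => Y i ω) ∈ P} * μ.real {ω | Y (n + 1) ω = b} := by
  have h1 := hi.indepFun_finset (Finset.range (n + 1)) {n + 1} (by simp) hm
  have h2 := h1.measure_inter_preimage_eq_mul P {f | f ⟨n + 1, by simp⟩ = b}
    (Set.toFinite P).measurableSet (Set.toFinite _).measurableSet
  have h3 := congrArg ENNReal.toReal h2
  rw [ENNReal.toReal_mul] at h3
  exact h3

omit [IsProbabilityMeasure μ] in
theorem NN_step {Y : ℕ → Ω → Bool} (hm : ∀ t, Measurable (Y t))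
    (hi : iIndepFun (fun t => Y t) μ) (n : ℕ) (b : Bool) :
    μ.real (NN Y n ∩ {ω | Y (n + 1) ω = b}) = μ.real (NN Y n) * μ.real {ω | Y (n + 1) ω = b} := by
  have h1 : NN Y n = {ω | (fun i : Finset.range (n + 1) => Y i ω) ∈
      {f : (i : Finset.range (n + 1)) → Bool | ∀ i (h : i < n),
        ¬ (f ⟨i, Finset.mem_range.mpr (by omega)⟩ = false ∧
          f ⟨i + 1, Finset.mem_range.mpr (by omega)⟩ = false)}} := rfl
  rw [h1]
  exact indep_step hm hi n _ b

omit [IsProbabilityMeasure μ] in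
theorem E_step {Y : ℕ → Ω → Bool} (hm : ∀ t, Measurable (Y t))
    (hi : iIndepFun (fun t => Y t) μ) (n : ℕ) (b : Bool) :
    μ.real ((NN Y n ∩ {ω | Y n ω = true}) ∩ {ω | Y (n + 1) ω = b}) =
      μ.real (NN Y n ∩ {ω | Y n ω = true}) * μ.real {ω | Y (n + 1) ω = b} := by
  have h1 : NN Y n ∩ {ω | Y n ω = true} = {ω | (fun i : Finset.range (n + 1) => Y i ω) ∈
      {f : (i : Finset.range (n + 1)) → Bool | (∀ i (h : i < n),
        ¬ (f ⟨i, Finset.mem_range.mpr (by omega)⟩ = false ∧
          f ⟨i + 1, Finset.mem_range.mpr (by omega)⟩ = false)) ∧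
        f ⟨n, Finset.mem_range.mpr (by omega)⟩ = true}} := rfl
  rw [h1]
  exact indep_step hm hi n _ b

theorem NN_meas {Y : ℕ → Ω → Bool} (hm : ∀ t, Measurable (Y t)) (n : ℕ) :
    MeasurableSet (NN Y n) := by
  have : NN Y n = ⋂ i, ⋂ (_ : i < n), ({ω | Y i ω = false} ∩ {ω | Y (i + 1) ω = false})ᶜ := by
    ext ω
    simp [NN]
  rw [this]
  refine MeasurableSet.iInter fun i => MeasurableSet.iInter fun _ => ?_
  exact (((hm i) (measurableSet_singleton false)).inter
    ((hm (i + 1)) (measurableSet_singleton false))).compl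

theorem pair_bound {X Y : ℕ → Ω → Bool} {p : ℝ} (hmX : ∀ t, Measurable (X t))
    (hmY : ∀ t, Measurable (Y t)) (hiX : iIndepFun (fun t => X t) μ)
    (hiY : iIndepFun (fun t => Y t) μ) (hX : ∀ t, μ.real {ω | X t ω = true} = p)
    (hY : ∀ t, μ.real {ω | Y t ω = true} = p)
    (hav : ∀ᵐ ω ∂μ, ∀ t, ¬ (X t ω = true ∧ Y t ω = true) ∧
      ¬ (Y t ω = true ∧ X (t + 1) ω = true)) : p ≤ 1 / 3 := by
  have compl_false : ∀ {W : ℕ → Ω → Bool}, (∀ t, Measurable (W t)) →
      (∀ t, μ.real {ω | W t ω = true} = p) → ∀ t, μ.real {ω | W t ω = false} = 1 - p := by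
    intro W hmW hW t
    have h1 : {ω | W t ω = false} = {ω | W t ω = true}ᶜ := by
      ext ω
      simp
    have h2 : μ.real {ω | W t ω = true}ᶜ = 1 - μ.real {ω | W t ω = true} :=
      probReal_compl_eq_one_sub ((hmW t) (measurableSet_singleton true))
    rw [h1, h2, hW]
  set e : ℕ → ℝ := fun n => μ.real (NN Y n ∩ {ω | Y n ω = true}) with he
  have hN0 : NN Y 0 = univ := by
    ext ω
    simp [NN]
  have hE : ∀ n, e (n + 1) = p * μ.real (NN Y n) := by
    intro n
    have h1 : NN Y (n + 1) ∩ {ω | Y (n + 1) ω = true} = NN Y n ∩ {ω | Y (n + 1) ω = true} := by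
      ext ω
      simp only [NN, mem_inter_iff, mem_ofPred_eq]
      constructor
      · rintro ⟨h1, h2⟩
        exact ⟨fun i hi => h1 i (by omega), h2⟩
      · rintro ⟨h1, h2⟩
        refine ⟨fun i hi => ?_, h2⟩
        rcases Nat.lt_succ_iff_lt_or_eq.mp hi with h3 | h3
        · exact h1 i h3
        · subst h3
          rw [h2]
          simp
    simp only [he]
    rw [h1, NN_step hmY hiY n true, hY]
    ring
  have hN : ∀ n, μ.real (NN Y (n + 1)) = e (n + 1) + (1 - p) * e n := by
    intro n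
    have h1 : NN Y (n + 1) = (NN Y (n + 1) ∩ {ω | Y (n + 1) ω = true}) ∪
        ((NN Y n ∩ {ω | Y n ω = true}) ∩ {ω | Y (n + 1) ω = false}) := by
      ext ω
      simp only [NN, mem_union, mem_inter_iff, mem_ofPred_eq]
      constructor
      · intro h1
        rcases Bool.eq_false_or_eq_true (Y (n + 1) ω) with h2 | h2
        · exact Or.inl ⟨h1, h2⟩
        · right
          refine ⟨⟨fun i hi => h1 i (by omega), ?_⟩, h2⟩
          by_contra hc
          exact h1 n (by omega) ⟨by simpa using hc, h2⟩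
      · rintro (⟨h1, _⟩ | ⟨⟨h1, h2⟩, h3⟩)
        · exact h1
        · intro i hi
          rcases Nat.lt_succ_iff_lt_or_eq.mp hi with h4 | h4
          · exact h1 i h4
          · subst h4
            rw [h2]
            simp
    have h2 : Disjoint (NN Y (n + 1) ∩ {ω | Y (n + 1) ω = true})
        ((NN Y n ∩ {ω | Y n ω = true}) ∩ {ω | Y (n + 1) ω = false}) := by
      rw [disjoint_left]
      rintro ω ⟨_, h3⟩ ⟨_, h4⟩
      have h3' : Y (n + 1) ω = true := h3
      have h4' : Y (n + 1) ω = false := h4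
      rw [h3'] at h4'
      exact absurd h4' (by simp)
    rw [h1, measureReal_union h2 (((NN_meas hmY n).inter
      ((hmY n) (measurableSet_singleton true))).inter
      ((hmY (n + 1)) (measurableSet_singleton false))), E_step hmY hiY n false,
      compl_false hmY hY]
    simp only [he]
    rw [mul_comm (1 - p)]
  have hup : ∀ n, μ.real (NN Y n) ≤ (1 - p) ^ n := by
    intro n
    have h1 := hiX.measure_inter_preimage_eq_mul ((Finset.range n).image (fun i => i + 1))
      (sets := fun _ => {false}) (fun _ _ => measurableSet_singleton false)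
    have h2 := congrArg ENNReal.toReal h1
    rw [ENNReal.toReal_prod, Finset.prod_image (by intro a _ b _ h; simpa using h)] at h2
    have h3 : ∏ i ∈ Finset.range n, (μ (X (i + 1) ⁻¹' {false})).toReal = (1 - p) ^ n := by
      have h4 : ∀ i, (μ (X (i + 1) ⁻¹' {false})).toReal = 1 - p :=
        fun i => compl_false hmX hX (i + 1)
      rw [Finset.prod_congr rfl (fun i _ => h4 i)]
      simp
    rw [h3] at h2
    rw [← h2]
    apply ENNReal.toReal_mono (measure_ne_top μ _)
    apply measure_mono_ae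
    filter_upwards [hav] with ω hω hNN
    have hNN' : ∀ i < n, ¬ (Y i ω = false ∧ Y (i + 1) ω = false) := hNN
    show ω ∈ ⋂ i ∈ (Finset.range n).image (fun i => i + 1), X i ⁻¹' {false}
    rw [mem_iInter₂]
    intro j hj
    rw [Finset.mem_image] at hj
    obtain ⟨i, hi, rfl⟩ := hj
    rw [Finset.mem_range] at hi
    show X (i + 1) ω = false
    by_contra hc
    have hc' : X (i + 1) ω = true := by simpa using hc
    have h4 := (hω i).2
    have h5 := (hω (i + 1)).1
    apply hNN' i hi
    constructor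
    · by_contra hd
      exact h4 ⟨by simpa using hd, hc'⟩
    · by_contra hd
      exact h5 ⟨hc', by simpa using hd⟩
  have hle : ∀ n, e n ≤ (1 - p) ^ n := fun n =>
    (measureReal_mono inter_subset_left).trans (hup n)
  have h0 : e 0 = p := by
    simp only [he]
    rw [hN0, univ_inter, hY]
  have h1 : e 1 = p := by
    rw [hE 0, hN0, probReal_univ, mul_one]
  by_cases hp1 : p < 1
  · refine real_part rfl hp1 h0 h1 (fun n => ?_) hle
    rw [hE (n + 1), hN n]
  · have h2 : p ≤ 1 := by
      rw [← hX 0]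
      exact measureReal_le_one
    have h3 : p = 1 := le_antisymm h2 (not_lt.mp hp1)
    have h4 := hle 1
    rw [h1, h3] at h4
    norm_num at h4

end Pool.Agent.V11147.Avoid
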