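import Mathlib

namespace Pool.Agent.V11147.Avoid

open MeasureTheory ProbabilityTheory Set

variable {Ω : Type*} [MeasurableSpace Ω] {μ : Measure Ω} [IsProbabilityMeasure μ]

/-- walker `j` makes the values 1, 0 at times 0, 1, and 1 at time 2 unless it is the last one -/
def FF {k : ℕ} (X : Fin k → ℕ → Ω → Bool) (j : Fin k) : Set Ω :=
  {ω | X j 0 ω = true ∧ X j 1 ω = false ∧ ((j : ℕ) + 1 < k → X j 2 ω = true)}

/-- the events of the union bound -/
def SS {k : ℕ} (X : Fin k → ℕ → Ω → Bool) : Fin k ⊕ Fin k → Set Ω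
  | Sum.inl j => {ω | X j 1 ω = true}
  | Sum.inr j => FF X j

theorem FF_real {k : ℕ} {X : Fin k → ℕ → Ω → Bool} {p : ℝ} (hm : ∀ j t, Measurable (X j t))
    (hi : ∀ j, iIndepFun (fun t => X j t) μ)
    (hp : ∀ j t, μ.real {ω | X j t ω = true} = p) (j : Fin k) :
    μ.real (FF X j) = if (j : ℕ) + 1 < k then p ^ 2 * (1 - p) else p * (1 - p) := by
  have hf : ∀ t, μ.real {ω | X j t ω = false} = 1 - p := by
    intro t
    have h1 : {ω | X j t ω = false} = {ω | X j t ω = true}ᶜ := by
      ext ω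
      simp
    have h2 : μ.real {ω | X j t ω = true}ᶜ = 1 - μ.real {ω | X j t ω = true} :=
      probReal_compl_eq_one_sub ((hm j t) (measurableSet_singleton true))
    rw [h1, h2, hp]
  split_ifs with hj
  · have h1 := (hi j).measure_inter_preimage_eq_mul ({0, 1, 2} : Finset ℕ)
      (sets := fun t => if t = 1 then {false} else {true}) (fun _ _ => (Set.toFinite _).measurableSet)
    have h2 := congrArg ENNReal.toReal h1
    rw [ENNReal.toReal_prod, Finset.prod_insert (by simp), Finset.prod_insert (by simp),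
      Finset.prod_singleton] at h2
    have h3 : (⋂ i ∈ ({0, 1, 2} : Finset ℕ), X j i ⁻¹' (if i = 1 then {false} else {true})) =
        FF X j := by
      ext ω
      simp [FF, hj]
    rw [h3] at h2
    have h4 : (μ (X j 0 ⁻¹' (if 0 = 1 then {false} else {true}))).toReal = p := hp j 0
    have h5 : (μ (X j 1 ⁻¹' (if 1 = 1 then {false} else {true}))).toReal = 1 - p := hf 1
    have h6 : (μ (X j 2 ⁻¹' (if 2 = 1 then {false} else {true}))).toReal = p := hp j 2
    rw [h4, h5, h6] at h2
    show (μ (FF X j)).toReal = _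
    rw [h2]
    ring
  · have h1 := (hi j).measure_inter_preimage_eq_mul ({0, 1} : Finset ℕ)
      (sets := fun t => if t = 1 then {false} else {true}) (fun _ _ => (Set.toFinite _).measurableSet)
    have h2 := congrArg ENNReal.toReal h1
    rw [ENNReal.toReal_prod, Finset.prod_insert (by simp), Finset.prod_singleton] at h2
    have h3 : (⋂ i ∈ ({0, 1} : Finset ℕ), X j i ⁻¹' (if i = 1 then {false} else {true})) =
        FF X j := by
      ext ω
      simp [FF, hj]
    rw [h3] at h2
    have h4 : (μ (X j 0 ⁻¹' (if 0 = 1 then {false} else {true}))).toReal = p := hp j 0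
    have h5 : (μ (X j 1 ⁻¹' (if 1 = 1 then {false} else {true}))).toReal = 1 - p := hf 1
    rw [h4, h5] at h2
    exact h2

theorem SS_meas {k : ℕ} {X : Fin k → ℕ → Ω → Bool} (hm : ∀ j t, Measurable (X j t))
    (a : Fin k ⊕ Fin k) : MeasurableSet (SS X a) := by
  rcases a with j | j
  · exact (hm j 1) (measurableSet_singleton true)
  · show MeasurableSet (FF X j)
    have h0 : MeasurableSet {ω | X j 0 ω = true} := (hm j 0) (measurableSet_singleton true)
    have h1 : MeasurableSet {ω | X j 1 ω = false} := (hm j 1) (measurableSet_singleton false)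
    have h2 : MeasurableSet {ω | X j 2 ω = true} := (hm j 2) (measurableSet_singleton true)
    by_cases hj : (j : ℕ) + 1 < k
    · have : FF X j = {ω | X j 0 ω = true} ∩ ({ω | X j 1 ω = false} ∩ {ω | X j 2 ω = true}) := by
        ext ω
        simp [FF, hj]
      rw [this]
      exact h0.inter (h1.inter h2)
    · have : FF X j = {ω | X j 0 ω = true} ∩ {ω | X j 1 ω = false} := by
        ext ω
        simp [FF, hj]
      rw [this]
      exact h0.inter h1

theorem general_bound {k : ℕ} {X : Fin k → ℕ → Ω → Bool} {p : ℝ} (hk : 1 ≤ k)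
    (hm : ∀ j t, Measurable (X j t)) (hi : ∀ j, iIndepFun (fun t => X j t) μ)
    (hp : ∀ j t, μ.real {ω | X j t ω = true} = p)
    (hav : ∀ᵐ ω ∂μ, ∀ (j j' : Fin k) (t t' : ℕ), t * k + (j : ℕ) < t' * k + (j' : ℕ) →
      t' * k + (j' : ℕ) < t * k + (j : ℕ) + k → ¬ (X j t ω = true ∧ X j' t' ω = true)) :
    k * p + p * (1 - p) * (1 + (k - 1) * p) ≤ 1 := by
  have hdis : ∀ᵐ ω ∂μ, ∀ a b : Fin k ⊕ Fin k, a ≠ b → ¬ (ω ∈ SS X a ∧ ω ∈ SS X b) := by
    filter_upwards [hav] with ω hω
    have same : ∀ (j j' : Fin k) (t : ℕ), j ≠ j' → ¬ (X j t ω = true ∧ X j' t ω = true) := by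
      intro j j' t hne
      have hj := j.2
      have hj' := j'.2
      rcases lt_or_gt_of_ne (fun h => hne (Fin.ext h) : (j : ℕ) ≠ j') with h | h
      · exact hω j j' t t (by omega) (by omega)
      · intro h2
        exact hω j' j t t (by omega) (by omega) ⟨h2.2, h2.1⟩
    have mixed : ∀ j j' : Fin k, ω ∈ FF X j → ¬ X j' 1 ω = true := by
      rintro j j' ⟨h0, h1, h2⟩ hc
      have hj := j.2
      have hj' := j'.2
      rcases lt_trichotomy (j' : ℕ) j with h | h | h
      · exact hω j j' 0 1 (by omega) (by omega) ⟨h0, hc⟩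
      · have : j' = j := Fin.ext h
        rw [this, h1] at hc
        exact absurd hc (by simp)
      · exact hω j' j 1 2 (by omega) (by omega) ⟨hc, h2 (by omega)⟩
    rintro (j | j) (j' | j') hne ⟨ha, hb⟩
    · exact same j j' 1 (fun h => hne (by rw [h])) ⟨ha, hb⟩
    · exact mixed j' j hb ha
    · exact mixed j j' ha hb
    · exact same j j' 0 (fun h => hne (by rw [h])) ⟨ha.1, hb.1⟩
  have hunion : μ (⋃ a, SS X a) = ∑' a, μ (SS X a) := by
    apply measure_iUnion₀
    · intro a b hab
      show μ (SS X a ∩ SS X b) = 0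
      rw [← nonpos_iff_eq_zero, ← measure_empty (μ := μ)]
      apply measure_mono_ae
      filter_upwards [hdis] with ω hω h
      exact hω a b hab h
    · exact fun a => (SS_meas hm a).nullMeasurableSet
  have h1 : μ.real (⋃ a, SS X a) = ∑ a, μ.real (SS X a) := by
    show (μ (⋃ a, SS X a)).toReal = ∑ a, (μ (SS X a)).toReal
    rw [hunion, tsum_fintype, ENNReal.toReal_sum (fun _ _ => measure_ne_top μ _)]
  have h2 : μ.real (⋃ a, SS X a) ≤ 1 := measureReal_le_one
  rw [h1, Fintype.sum_sum_type] at h2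
  have h3 : ∑ j : Fin k, μ.real (SS X (Sum.inl j)) = k * p := by
    have h30 : ∀ j : Fin k, μ.real (SS X (Sum.inl j)) = p := fun j => hp j 1
    rw [Finset.sum_congr rfl (fun j _ => h30 j)]
    simp
  have h4 : ∑ j : Fin k, μ.real (SS X (Sum.inr j)) = p * (1 - p) * (1 + (k - 1) * p) := by
    have h40 : ∀ j : Fin k, μ.real (SS X (Sum.inr j)) =
        if (j : ℕ) + 1 < k then p ^ 2 * (1 - p) else p * (1 - p) :=
      fun j => FF_real hm hi hp j
    rw [Finset.sum_congr rfl (fun j _ => h40 j)]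
    obtain ⟨n, rfl⟩ : ∃ n, k = n + 1 := ⟨k - 1, by omega⟩
    rw [Fin.sum_univ_castSucc]
    have h5 : ∀ i : Fin n, (if ((Fin.castSucc i : Fin (n + 1)) : ℕ) + 1 < n + 1 then
        p ^ 2 * (1 - p) else p * (1 - p)) = p ^ 2 * (1 - p) := by
      intro i
      rw [if_pos]
      have := i.2
      simp only [Fin.val_castSucc]
      omega
    rw [Finset.sum_congr rfl (fun i _ => h5 i)]
    simp
    ring
  rw [h3, h4] at h2
  exact h2

theorem lt_of_bound {k : ℕ} (hk : 3 ≤ k) {p : ℝ} (hp0 : 0 ≤ p) (hp1 : p ≤ 1)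
    (h : k * p + p * (1 - p) * (1 + (k - 1) * p) ≤ 1) : p < 1 / (k + 1) := by
  by_contra hc
  push Not at hc
  have hk' : (3 : ℝ) ≤ k := by exact_mod_cast hk
  rw [div_le_iff₀ (by linarith)] at hc
  have h5 : 0 ≤ 1 + (k - 1) * p := by nlinarith
  have h6 : 0 ≤ p * (1 - p) * (1 + (k - 1) * p) :=
    mul_nonneg (mul_nonneg hp0 (by linarith)) h5
  have h7 : k * p ≤ 1 := by linarith
  have h8 : 0 < p := by
    rcases hp0.lt_or_eq with h9 | h9
    · exact h9
    · rw [← h9] at hc
      simp at hc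
      linarith
  have e : k * p + p * (1 - p) * (1 + (k - 1) * p) =
      p * (k + 1) + p ^ 2 * (k - 2 - k * p + p) := by ring
  have h9 : 0 < p ^ 2 * (k - 2 - k * p + p) := mul_pos (by positivity) (by linarith)
  linarith

end Pool.Agent.V11147.Avoid
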