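import Mathlib

/-! Thue-Morse word, cube-freeness, and a binary word avoiding cubes with holes. -/

namespace Pool.Agent.V11147.Bic

/-- The Thue-Morse word. -/
def tm : ℕ → Bool
  | 0 => false
  | n + 1 => xor (tm ((n + 1) / 2)) (decide ((n + 1) % 2 = 1))
decreasing_by omega

theorem tm_eq (n : ℕ) : tm n = xor (tm (n / 2)) (decide (n % 2 = 1)) := by
  cases n with
  | zero => simp [tm]
  | succ n => rw [tm]

theorem tm_even (n : ℕ) : tm (2 * n) = tm n := by
  rw [tm_eq]
  have h1 : 2 * n / 2 = n := by omega
  have h2 : 2 * n % 2 = 0 := by omega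
  rw [h1, h2]
  simp

theorem tm_odd (n : ℕ) : tm (2 * n + 1) = !(tm n) := by
  rw [tm_eq]
  have h1 : (2 * n + 1) / 2 = n := by omega
  have h2 : (2 * n + 1) % 2 = 1 := by omega
  rw [h1, h2]
  simp

theorem tm_ne {n : ℕ} (h : n % 2 = 0) : tm n ≠ tm (n + 1) := by
  obtain ⟨m, rfl⟩ : ∃ m, n = 2 * m := ⟨n / 2, by omega⟩
  rw [tm_even, tm_odd]
  cases tm m <;> simp

theorem tm_no3 (s : ℕ) : ¬ (tm s = tm (s + 1) ∧ tm (s + 1) = tm (s + 2)) := by
  rintro ⟨h1, h2⟩
  rcases Nat.even_or_odd' s with ⟨m, hm | hm⟩
  · exact tm_ne (n := s) (by omega) h1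
  · exact tm_ne (n := s + 1) (by omega) h2

theorem tm_cubefree : ∀ l : ℕ, 1 ≤ l → ∀ s : ℕ,
    ¬ (∀ i < 2 * l, tm (s + i) = tm (s + i + l)) := by
  intro l
  induction l using Nat.strong_induction_on with
  | _ l ih =>
  intro hl s h
  rcases Nat.even_or_odd' l with ⟨m, hm | hm⟩
  · -- even
    have hs : ∃ s', s ≤ 2 * s' ∧ 2 * s' ≤ s + 1 := ⟨(s + 1) / 2, by omega, by omega⟩
    obtain ⟨s', h1, h2⟩ := hs
    apply ih m (by omega) (by omega) s'
    intro i hi
    have := h (2 * s' - s + 2 * i) (by omega)
    have e1 : s + (2 * s' - s + 2 * i) = 2 * (s' + i) := by omega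
    have e2 : 2 * (s' + i) + l = 2 * (s' + i + m) := by omega
    rw [e1, e2, tm_even, tm_even] at this
    exact this
  · by_cases h1 : l = 1
    · subst h1
      have a := h 0 (by omega)
      have b := h 1 (by omega)
      exact tm_no3 s ⟨by simpa using a, by simpa using b⟩
    · -- odd l ≥ 3
      have key : ∀ j, s ≤ j → j < s + 2 * l - 1 → tm j ≠ tm (j + 1) := by
        intro j hj1 hj2
        by_cases hp : j % 2 = 0
        · exact tm_ne hp
        · have a := h (j - s) (by omega)
          have b := h (j + 1 - s) (by omega)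
          have e1 : s + (j - s) = j := by omega
          have e2 : s + (j + 1 - s) = j + 1 := by omega
          rw [e1] at a
          rw [e2] at b
          have c := tm_ne (n := j + l) (by omega)
          have e3 : j + 1 + l = j + l + 1 := by omega
          rw [e3] at b
          rw [a, b]
          exact c
      have hs : ∃ s', s ≤ 2 * s' ∧ 2 * s' ≤ s + 1 := ⟨(s + 1) / 2, by omega, by omega⟩
      obtain ⟨s', h1', h2'⟩ := hs
      have k0 := key (2 * s') (by omega) (by omega)
      have k1 := key (2 * s' + 1) (by omega) (by omega)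
      have k2 := key (2 * s' + 2) (by omega) (by omega)
      have k3 := key (2 * s' + 3) (by omega) (by omega)
      apply tm_no3 s'
      have e0 := tm_even s'
      have e1 := tm_even (s' + 1)
      have e2 := tm_even (s' + 2)
      have f1 : 2 * (s' + 1) = 2 * s' + 2 := by ring
      have f2 : 2 * (s' + 2) = 2 * s' + 4 := by ring
      rw [f1] at e1
      rw [f2] at e2
      rw [← e0, ← e1, ← e2]
      have g1 : 2 * s' + 1 + 1 = 2 * s' + 2 := by ring
      have g2 : 2 * s' + 2 + 1 = 2 * s' + 3 := by ring
      have g3 : 2 * s' + 3 + 1 = 2 * s' + 4 := by ring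
      rw [g1] at k1
      rw [g2] at k2
      rw [g3] at k3
      revert k0 k1 k2 k3
      cases tm (2 * s') <;> cases tm (2 * s' + 1) <;> cases tm (2 * s' + 2) <;>
        cases tm (2 * s' + 3) <;> cases tm (2 * s' + 4) <;> simp

/-- The derived word: letter blocks of length four. -/
def W (x : ℕ) : Bool :=
  if x % 4 = 0 then tm (x / 4) else if x % 4 = 1 then true
  else if x % 4 = 2 then !(tm (x / 4)) else false

theorem W0 {x : ℕ} (h : x % 4 = 0) : W x = tm (x / 4) := by simp [W, h]
theorem W1 {x : ℕ} (h : x % 4 = 1) : W x = true := by simp [W, h]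
theorem W2 {x : ℕ} (h : x % 4 = 2) : W x = !(tm (x / 4)) := by simp [W, h]
theorem W3 {x : ℕ} (h : x % 4 = 3) : W x = false := by simp [W, h]

theorem W_odd_ne {x y : ℕ} (hx : x % 2 = 1) (hy : y % 4 = (x + 2) % 4) : W x ≠ W y := by
  have : x % 4 = 1 ∨ x % 4 = 3 := by omega
  rcases this with h | h
  · rw [W1 h, W3 (by omega)]; simp
  · rw [W3 h, W1 (by omega)]; simp

/-- `W` contains no cube with holes. -/
theorem W_holefree (l : ℕ) (hl : 2 ≤ l) (s : ℕ) :
    ¬ (∀ i, i < 2 * l - 1 → i ≠ l - 1 → W (s + i) = W (s + i + l)) := by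
  intro h
  have hmod : l % 4 = 0 ∨ l % 4 = 2 ∨ l % 2 = 1 := by omega
  rcases hmod with h0 | h2 | h1
  · obtain ⟨m, rfl⟩ : ∃ m, l = 4 * m := ⟨l / 4, by omega⟩
    by_cases hs : s % 4 = 1
    · apply tm_cubefree m (by omega) (s / 4)
      intro i hi
      have := h (1 + 4 * i) (by omega) (by omega)
      rw [W2 (by omega), W2 (by omega)] at this
      have e1 : (s + (1 + 4 * i)) / 4 = s / 4 + i := by omega
      have e2 : (s + (1 + 4 * i) + 4 * m) / 4 = s / 4 + i + m := by omega
      rw [e1, e2] at this
      simpa using this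
    · apply tm_cubefree m (by omega) ((s + 3) / 4)
      intro i hi
      have := h (4 * ((s + 3) / 4) - s + 4 * i) (by omega) (by omega)
      rw [W0 (by omega), W0 (by omega)] at this
      have e1 : (s + (4 * ((s + 3) / 4) - s + 4 * i)) / 4 = (s + 3) / 4 + i := by omega
      have e2 : (s + (4 * ((s + 3) / 4) - s + 4 * i) + 4 * m) / 4 = (s + 3) / 4 + i + m := by
        omega
      rw [e1, e2] at this
      exact this
  · by_cases hs : s % 2 = 1
    · exact W_odd_ne (x := s) (y := s + l) hs (by omega) (by simpa using h 0 (by omega) (by omega))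
    · by_cases hl2 : l = 2
      · subst hl2
        have a := h 0 (by omega) (by omega)
        have b := h 2 (by omega) (by omega)
        simp only [add_zero] at a
        have : s % 4 = 0 ∨ s % 4 = 2 := by omega
        rcases this with h4 | h4
        · rw [W0 h4, W2 (by omega)] at a
          have : (s + 2) / 4 = s / 4 := by omega
          rw [this] at a
          revert a
          cases tm (s / 4) <;> simp
        · rw [W0 (by omega), W2 (by omega)] at b
          have : (s + 2 + 2) / 4 = (s + 2) / 4 := by omega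
          rw [this] at b
          revert b
          cases tm ((s + 2) / 4) <;> simp
      · exact W_odd_ne (x := s + 1) (y := s + 1 + l) (by omega) (by omega)
          (h 1 (by omega) (by omega))
  · -- odd
    have hj : ∃ i, i ≤ 1 ∧ (s + i) % 2 = 1 := by
      by_cases hs : s % 2 = 1
      · exact ⟨0, by omega, by omega⟩
      · exact ⟨1, by omega, by omega⟩
    obtain ⟨i, hi, hj⟩ := hj
    have a := h i (by omega) (by omega)
    have b := h (i + l) (by omega) (by omega)
    have e : s + (i + l) = s + i + l := by omega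
    rw [e, ← a] at b
    exact W_odd_ne (x := s + i) (y := s + i + l + l) hj (by omega) b

end Pool.Agent.V11147.Bic
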