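import Pool.Agent.V11147.BicA

/-! Words with long increasing runs at both ends and the coded Thue-Morse word inside. -/

namespace Pool.Agent.V11147.Bic

/-- A `k`-th power with holes, of block length `l`, starting at `g`, in the word `v`. -/
def HP (v : ℕ → Bool) (k l g : ℕ) : Prop :=
  ∀ r < k, ∀ r' < k, ∀ i, i + 1 < l → v (g + r * l + i) = v (g + r' * l + i)

theorem hp_start (κ M : ℕ) (v : ℕ → Bool)
    (h1 : ∀ j < 2 * κ + 4, v j = false) (h2 : v (2 * κ + 4) = true)
    (h2' : v (2 * κ + 5) = true)
    (h3 : ∀ e, 2 * κ + 6 ≤ e → e + 3 < M → v e = false → v (e + 1) = false →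
      v (e + 2) = false → v (e + 3) = false → ∀ j, e ≤ j → j < M → v j = false)
    (l g : ℕ) (hl : 2 ≤ l) (hg : g < 2 * κ + 1) (hM : g + (κ + 3) * l ≤ M + 1)
    (hp : HP v (κ + 3) l g) : False := by
  obtain ⟨Q, hQ⟩ : ∃ Q, g + Q = 2 * κ + 4 := ⟨2 * κ + 4 - g, by omega⟩
  have hM' : g + 3 * l ≤ M + 1 := by
    have : (κ + 3) * l = κ * l + 3 * l := by ring
    have h0 : 0 ≤ κ * l := Nat.zero_le _
    omega
  by_cases hl2 : l = 2
  · subst hl2
    have : ∃ j, (j = Q ∨ j = Q + 1) ∧ j % 2 = 0 := by
      by_cases h : Q % 2 = 0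
      · exact ⟨Q, Or.inl rfl, h⟩
      · exact ⟨Q + 1, Or.inr rfl, by omega⟩
    obtain ⟨j, hj, hj2⟩ := this
    have a := hp (j / 2) (by omega) 0 (by omega) 0 (by omega)
    have e1 : g + j / 2 * 2 + 0 = g + j := by omega
    rw [e1] at a
    have hv : v (g + j) = true := by
      rcases hj with h | h
      · rw [h, hQ]; exact h2
      · rw [h, ← add_assoc, hQ]; exact h2'
    rw [hv, h1 _ (by omega)] at a
    exact absurd a (by simp)
  · by_cases hQl : l - 1 ≤ Q
    · have : ∃ j, (j = Q ∨ j = Q + 1) ∧ j % l + 1 < l := by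
        by_cases h : Q % l = l - 1
        · refine ⟨Q + 1, Or.inr rfl, ?_⟩
          have : (Q + 1) % l = 0 := by
            rw [Nat.add_mod, h, Nat.mod_eq_of_lt (by omega : 1 < l)]
            have : l - 1 + 1 = l := by omega
            rw [this, Nat.mod_self]
          omega
        · refine ⟨Q, Or.inl rfl, ?_⟩
          have := Nat.mod_lt Q (by omega : 0 < l)
          omega
      obtain ⟨j, hj, hj2⟩ := this
      have hjl : j / l < κ + 3 := by
        rw [Nat.div_lt_iff_lt_mul (by omega)]
        have : (κ + 3) * 3 ≤ (κ + 3) * l := Nat.mul_le_mul_left _ (by omega)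
        omega
      have a := hp (j / l) hjl 0 (by omega) (j % l) hj2
      have e1 : g + j / l * l + j % l = g + j := by
        have := Nat.div_add_mod j l
        rw [mul_comm] at this
        omega
      rw [e1] at a
      have hv : v (g + j) = true := by
        rcases hj with h | h
        · rw [h, hQ]; exact h2
        · rw [h, ← add_assoc, hQ]; exact h2'
      rw [hv, h1 _ (by omega)] at a
      exact absurd a (by simp)
    · have b : ∀ i, i < Q → v (g + l + i) = false := by
        intro i hi
        have a := hp 1 (by omega) 0 (by omega) i (by omega)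
        rw [one_mul, zero_mul, add_zero] at a
        rw [a]
        exact h1 _ (by omega)
      have c := h3 (g + l) (by omega) (by omega) (by simpa using b 0 (by omega))
        (b 1 (by omega)) (b 2 (by omega)) (b 3 (by omega)) (g + l + Q) (by omega) (by omega)
      have a := hp 1 (by omega) 0 (by omega) Q (by omega)
      rw [one_mul, zero_mul, add_zero, c, hQ, h2] at a
      exact absurd a (by simp)

/-- Letters of the middle part: `true` means descent. -/
def lt (κ β q : ℕ) : Bool :=
  decide (2 * κ + 4 ≤ q) && decide (q < 2 * κ + 4 * β + 12) && W (q + 8 - 2 * κ)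

theorem tm0 : tm 0 = false := by rw [tm]
theorem tm1 : tm 1 = true := by
  have := tm_odd 0
  simpa [tm0] using this
theorem tm2 : tm 2 = true := by
  have := tm_even 1
  simpa [tm1] using this
theorem tm3 : tm 3 = false := by
  have := tm_odd 1
  simpa [tm1] using this

theorem lt_out {κ β q : ℕ} (h : q < 2 * κ + 4 ∨ 2 * κ + 4 * β + 12 ≤ q) :
    lt κ β q = false := by
  unfold lt
  rcases h with h | h
  · have : decide (2 * κ + 4 ≤ q) = false := by simp; omega
    rw [this]; simp
  · have : decide (q < 2 * κ + 4 * β + 12) = false := by simp; omega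
    rw [this]; simp

theorem lt_in {κ β q : ℕ} (h : 2 * κ + 4 ≤ q) (h' : q < 2 * κ + 4 * β + 12) :
    lt κ β q = W (q + 8 - 2 * κ) := by
  unfold lt
  simp [h, h']

section
variable {κ β : ℕ} (hb1 : tm (β + 4) = true) (hb2 : tm (β + 5) = false)

theorem lt_s1 {q : ℕ} (h : q < 2 * κ + 5) : lt κ β q = false := by
  by_cases h' : q < 2 * κ + 4
  · exact lt_out (Or.inl h')
  · rw [lt_in (by omega) (by omega), W0 (by omega)]
    have : (q + 8 - 2 * κ) / 4 = 3 := by omega
    rw [this, tm3]

theorem lt_s2 : lt κ β (2 * κ + 5) = true := by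
  rw [lt_in (by omega) (by omega), W1 (by omega)]

theorem lt_s3 : lt κ β (2 * κ + 6) = true := by
  rw [lt_in (by omega) (by omega), W2 (by omega)]
  have : (2 * κ + 6 + 8 - 2 * κ) / 4 = 3 := by omega
  rw [this, tm3]; simp

include hb1 in
theorem lt_e1 {q : ℕ} (h : 2 * κ + 4 * β + 10 ≤ q) : lt κ β q = false := by
  by_cases h1 : 2 * κ + 4 * β + 12 ≤ q
  · exact lt_out (Or.inr h1)
  · rw [lt_in (by omega) (by omega)]
    by_cases h2 : q = 2 * κ + 4 * β + 10
    · rw [W2 (by omega)]
      have : (q + 8 - 2 * κ) / 4 = β + 4 := by omega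
      rw [this, hb1]; simp
    · rw [W3 (by omega)]

include hb1 in
theorem lt_e2 : lt κ β (2 * κ + 4 * β + 8) = true := by
  rw [lt_in (by omega) (by omega), W0 (by omega)]
  have : (2 * κ + 4 * β + 8 + 8 - 2 * κ) / 4 = β + 4 := by omega
  rw [this, hb1]

theorem lt_e3 : lt κ β (2 * κ + 4 * β + 9) = true := by
  rw [lt_in (by omega) (by omega), W1 (by omega)]

include hb2 in
theorem lt_mid {q : ℕ} (h : 2 * κ + 2 ≤ q) (h' : q ≤ 2 * κ + 4 * β + 12) :
    lt κ β q = W (q + 8 - 2 * κ) := by
  by_cases h1 : 2 * κ + 4 ≤ q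
  · by_cases h2 : q < 2 * κ + 4 * β + 12
    · exact lt_in h1 h2
    · rw [lt_out (by omega), W0 (by omega)]
      have : (q + 8 - 2 * κ) / 4 = β + 5 := by omega
      rw [this, hb2]
  · rw [lt_out (by omega)]
    by_cases h2 : q = 2 * κ + 2
    · rw [W2 (by omega)]
      have : (q + 8 - 2 * κ) / 4 = 2 := by omega
      rw [this, tm2]; simp
    · rw [W3 (by omega)]

include hb2 in
theorem lt_four {e : ℕ} (h : 2 * κ + 2 ≤ e) (h' : e + 3 ≤ 2 * κ + 4 * β + 12)
    (a0 : lt κ β e = false) (a1 : lt κ β (e + 1) = false) (a2 : lt κ β (e + 2) = false)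
    (a3 : lt κ β (e + 3) = false) : False := by
  rw [lt_mid hb2 (by omega) (by omega)] at a0 a1 a2 a3
  have : (e + 8 - 2 * κ) % 4 = 1 ∨ (e + 1 + 8 - 2 * κ) % 4 = 1 ∨ (e + 2 + 8 - 2 * κ) % 4 = 1
    ∨ (e + 3 + 8 - 2 * κ) % 4 = 1 := by omega
  rcases this with h | h | h | h
  · rw [W1 h] at a0; exact absurd a0 (by simp)
  · rw [W1 h] at a1; exact absurd a1 (by simp)
  · rw [W1 h] at a2; exact absurd a2 (by simp)
  · rw [W1 h] at a3; exact absurd a3 (by simp)

include hb1 hb2 in
theorem lt_noHP (l g : ℕ) (hl : 2 ≤ l) (hg : 1 ≤ g)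
    (hg' : g + (κ + 3) * l ≤ 4 * κ + 4 * β + 15)
    (hp : HP (lt κ β) (κ + 3) l g) : False := by
  by_cases hA : g < 2 * κ + 2
  · refine hp_start κ (4 * κ + 4 * β + 13) (fun j => lt κ β (j + 1)) ?_ ?_ ?_ ?_ l (g - 1) hl
      (by omega) (by omega) ?_
    · intro j hj
      exact lt_s1 (by omega)
    · exact lt_s2
    · exact lt_s3
    · intro e he he3 a0 a1 a2 a3 j hj hjM
      by_cases h : 2 * κ + 4 * β + 10 ≤ e + 1
      · exact lt_e1 hb1 (by omega)
      · exfalso
        exact lt_four hb2 (e := e + 1) (by omega) (by omega) a0 a1 a2 a3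
    · intro r hr r' hr' i hi
      have := hp r hr r' hr' i hi
      simp only
      have e1 : g - 1 + r * l + i + 1 = g + r * l + i := by omega
      have e2 : g - 1 + r' * l + i + 1 = g + r' * l + i := by omega
      rw [e1, e2]; exact this
  · by_cases hB : 2 * κ + 4 * β + 14 < g + (κ + 3) * l
    · refine hp_start κ (4 * κ + 4 * β + 13) (fun j => lt κ β (4 * κ + 4 * β + 13 - j))
        ?_ ?_ ?_ ?_ l (4 * κ + 4 * β + 15 - (g + (κ + 3) * l)) hl
        (by omega) (by omega) ?_
      · intro j hj
        exact lt_e1 hb1 (by omega)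
      · have : 4 * κ + 4 * β + 13 - (2 * κ + 4) = 2 * κ + 4 * β + 9 := by omega
        simp only [this]
        exact lt_e3
      · have : 4 * κ + 4 * β + 13 - (2 * κ + 5) = 2 * κ + 4 * β + 8 := by omega
        simp only [this]
        exact lt_e2 hb1
      · intro e he he3 a0 a1 a2 a3 j hj hjM
        by_cases h : 2 * κ + 2 ≤ 4 * κ + 4 * β + 13 - (e + 3)
        · exfalso
          refine lt_four hb2 (e := 4 * κ + 4 * β + 13 - (e + 3)) h (by omega) a3 ?_ ?_ ?_
          · have : 4 * κ + 4 * β + 13 - (e + 3) + 1 = 4 * κ + 4 * β + 13 - (e + 2) := by omega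
            rw [this]; exact a2
          · have : 4 * κ + 4 * β + 13 - (e + 3) + 2 = 4 * κ + 4 * β + 13 - (e + 1) := by omega
            rw [this]; exact a1
          · have : 4 * κ + 4 * β + 13 - (e + 3) + 3 = 4 * κ + 4 * β + 13 - e := by omega
            rw [this]; exact a0
        · exact lt_s1 (by omega)
      · intro r hr r' hr' i hi
        simp only
        have key : ∀ r < κ + 3, 4 * κ + 4 * β + 13 -
            (4 * κ + 4 * β + 15 - (g + (κ + 3) * l) + r * l + i) =
            g + (κ + 2 - r) * l + (l - 2 - i) := by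
          intro r hr
          have e1 : (κ + 3) * l = (κ + 2 - r) * l + r * l + l := by
            obtain ⟨d, hd⟩ : ∃ d, κ + 2 = r + d := ⟨κ + 2 - r, by omega⟩
            have e2 : κ + 2 - r = d := by omega
            have e3 : κ + 3 = r + d + 1 := by omega
            rw [e2, e3]; ring
          omega
        rw [key r hr, key r' hr']
        exact hp _ (by omega) _ (by omega) _ (by omega)
    · -- inside
      apply W_holefree l hl (g + 8 - 2 * κ)
      have h3l : g + 3 * l ≤ 2 * κ + 4 * β + 14 := by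
        have : (κ + 3) * l = κ * l + 3 * l := by ring
        have h0 : 0 ≤ κ * l := Nat.zero_le _
        omega
      intro i hi hi'
      have e1 : g + 8 - 2 * κ + i = (g + i) + 8 - 2 * κ := by omega
      have e2 : g + 8 - 2 * κ + i + l = (g + i + l) + 8 - 2 * κ := by omega
      rw [e1]
      have e3 : g + i + 8 - 2 * κ + l = (g + i + l) + 8 - 2 * κ := by omega
      rw [e3, ← lt_mid hb2 (by omega) (by omega), ← lt_mid hb2 (by omega) (by omega)]
      by_cases h : i < l
      · have := hp 0 (by omega) 1 (by omega) i (by omega)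
        rw [zero_mul, add_zero, one_mul] at this
        rw [this]
        congr 1
        omega
      · have := hp 1 (by omega) 2 (by omega) (i - l) (by omega)
        have e4 : g + 1 * l + (i - l) = g + i := by omega
        have e5 : g + 2 * l + (i - l) = g + i + l := by omega
        rw [e4, e5] at this
        exact this

end

end Pool.Agent.V11147.Bic
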