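import Pool.Agent.V11147.BicB

/-! The values of the permutation and absence of k-th powers. -/

namespace Pool.Agent.V11147.Bic

/-- Displacement in the coded part. -/
def dis (x : ℕ) : ℤ :=
  if x % 4 = 0 then (if tm (x / 4) = true then 2 else 0)
  else if x % 4 = 1 then (if tm (x / 4) = true then 0 else 2)
  else if x % 4 = 2 then (if tm (x / 4) = true then -2 else 0)
  else (if tm (x / 4) = true then 0 else -2)

theorem dis0 {x : ℕ} (h : x % 4 = 0) : dis x = if tm (x / 4) = true then 2 else 0 := by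
  simp [dis, h]
theorem dis1 {x : ℕ} (h : x % 4 = 1) : dis x = if tm (x / 4) = true then 0 else 2 := by
  simp [dis, h]
theorem dis2 {x : ℕ} (h : x % 4 = 2) : dis x = if tm (x / 4) = true then -2 else 0 := by
  simp [dis, h]
theorem dis3 {x : ℕ} (h : x % 4 = 3) : dis x = if tm (x / 4) = true then 0 else -2 := by
  simp [dis, h]

theorem dis_bd (x : ℕ) : dis x = -2 ∨ dis x = 0 ∨ dis x = 2 := by
  unfold dis; split_ifs <;> simp

/-- adjacent comparison -/
theorem dis_adj (x : ℕ) : (x + 1 + dis (x + 1) < x + dis x) ↔ W x = true := by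
  have hx : x % 4 = 0 ∨ x % 4 = 1 ∨ x % 4 = 2 ∨ x % 4 = 3 := by omega
  rcases hx with h | h | h | h
  · rw [dis0 h, dis1 (by omega), W0 h]
    have : (x + 1) / 4 = x / 4 := by omega
    rw [this]
    cases tm (x / 4) <;> simp <;> omega
  · rw [dis1 h, dis2 (by omega), W1 h]
    have : (x + 1) / 4 = x / 4 := by omega
    rw [this]
    cases tm (x / 4) <;> simp <;> omega
  · rw [dis2 h, dis3 (by omega), W2 h]
    have : (x + 1) / 4 = x / 4 := by omega
    rw [this]
    cases tm (x / 4) <;> simp <;> omega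
  · rw [dis3 h, dis0 (by omega), W3 h]
    cases tm (x / 4) <;> cases tm ((x + 1) / 4) <;> simp <;> omega

theorem dis_d2 (x : ℕ) : x + dis x ≠ x + 2 + dis (x + 2) := by
  have hx : x % 4 = 0 ∨ x % 4 = 1 ∨ x % 4 = 2 ∨ x % 4 = 3 := by omega
  rcases hx with h | h | h | h
  · rw [dis0 h, dis2 (by omega)]
    have : (x + 2) / 4 = x / 4 := by omega
    rw [this]
    cases tm (x / 4) <;> simp
  · rw [dis1 h, dis3 (by omega)]
    have : (x + 2) / 4 = x / 4 := by omega
    rw [this]
    cases tm (x / 4) <;> simp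
  · rw [dis2 h, dis0 (by omega)]
    cases tm (x / 4) <;> cases tm ((x + 2) / 4) <;> simp <;> omega
  · rw [dis3 h, dis1 (by omega)]
    cases tm (x / 4) <;> cases tm ((x + 2) / 4) <;> simp <;> omega

theorem dis_d3 (x : ℕ) : dis x ≤ dis (x + 3) + 2 := by
  have hx : x % 4 = 0 ∨ x % 4 = 1 ∨ x % 4 = 2 ∨ x % 4 = 3 := by omega
  rcases hx with h | h | h | h
  · rw [dis0 h, dis3 (by omega)]
    have : (x + 3) / 4 = x / 4 := by omega
    rw [this]
    cases tm (x / 4) <;> simp
  · rw [dis1 h, dis0 (by omega)]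
    cases tm (x / 4) <;> cases tm ((x + 3) / 4) <;> simp
  · rw [dis2 h, dis1 (by omega)]
    cases tm (x / 4) <;> cases tm ((x + 3) / 4) <;> simp
  · rw [dis3 h, dis2 (by omega)]
    cases tm (x / 4) <;> cases tm ((x + 3) / 4) <;> simp

theorem dis_d4 (x : ℕ) : dis x ≤ dis (x + 4) + 2 := by
  have hx : x % 4 = 0 ∨ x % 4 = 1 ∨ x % 4 = 2 ∨ x % 4 = 3 := by omega
  rcases hx with h | h | h | h
  · rw [dis0 h, dis0 (by omega)]
    cases tm (x / 4) <;> cases tm ((x + 4) / 4) <;> simp
  · rw [dis1 h, dis1 (by omega)]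
    cases tm (x / 4) <;> cases tm ((x + 4) / 4) <;> simp
  · rw [dis2 h, dis2 (by omega)]
    cases tm (x / 4) <;> cases tm ((x + 4) / 4) <;> simp
  · rw [dis3 h, dis3 (by omega)]
    cases tm (x / 4) <;> cases tm ((x + 4) / 4) <;> simp

/-- Displacement in the middle part, as function of the offset in the copy. -/
def del (κ β q : ℕ) : ℤ :=
  if 2 * κ + 4 ≤ q ∧ q < 2 * κ + 4 * β + 12 then dis (q + 8 - 2 * κ) else 0

theorem del_in {κ β q : ℕ} (h : 2 * κ + 4 ≤ q) (h' : q < 2 * κ + 4 * β + 12) :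
    del κ β q = dis (q + 8 - 2 * κ) := by
  simp [del, h, h']

theorem del_out {κ β q : ℕ} (h : q < 2 * κ + 4 ∨ 2 * κ + 4 * β + 12 ≤ q) :
    del κ β q = 0 := by
  unfold del
  rw [if_neg]
  omega

theorem del_bd (κ β q : ℕ) : del κ β q = -2 ∨ del κ β q = 0 ∨ del κ β q = 2 := by
  unfold del; split_ifs
  · exact dis_bd _
  · simp

theorem dis12 : dis 12 = 0 := by rw [dis0 (by omega)]; simp [tm3]
theorem dis13 : dis 13 = 2 := by rw [dis1 (by omega)]; simp [tm3]
theorem dis14 : dis 14 = 0 := by rw [dis2 (by omega)]; simp [tm3]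

theorem dis_nonpos {x : ℕ} (h : x % 4 = 2 ∨ x % 4 = 3) : dis x ≤ 0 := by
  rcases h with h | h
  · rw [dis2 h]; split_ifs <;> simp
  · rw [dis3 h]; split_ifs <;> simp

theorem del_adj (κ β q : ℕ) :
    ((q : ℤ) + 1 + del κ β (q + 1) < q + del κ β q) ↔ lt κ β q = true := by
  by_cases h1 : 2 * κ + 4 ≤ q
  · by_cases h2 : q + 1 < 2 * κ + 4 * β + 12
    · rw [del_in (by omega) (by omega), del_in (by omega) (by omega), lt_in (by omega) (by omega)]
      obtain ⟨x, hx⟩ : ∃ x, x = q + 8 - 2 * κ := ⟨_, rfl⟩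
      have e1 : q + 1 + 8 - 2 * κ = x + 1 := by omega
      rw [← hx, e1, ← dis_adj x]
      constructor <;> intro h <;> omega
    · by_cases h3 : q < 2 * κ + 4 * β + 12
      · rw [del_out (q := q + 1) (by omega), del_in h1 h3, lt_in h1 h3]
        have : dis (q + 8 - 2 * κ) ≤ 0 := dis_nonpos (by omega)
        rw [W3 (by omega)]
        simp
        omega
      · rw [del_out (by omega), del_out (by omega), lt_out (by omega)]
        simp
  · rw [lt_out (by omega), del_out (q := q) (by omega)]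
    by_cases h3 : 2 * κ + 4 ≤ q + 1
    · rw [del_in (by omega) (by omega)]
      have : q + 1 + 8 - 2 * κ = 12 := by omega
      rw [this, dis12]; simp
    · rw [del_out (by omega)]; simp

theorem del_d2 (κ β q : ℕ) : (q : ℤ) + del κ β q ≠ q + 2 + del κ β (q + 2) := by
  by_cases h1 : 2 * κ + 4 ≤ q
  · by_cases h2 : q + 2 < 2 * κ + 4 * β + 12
    · rw [del_in (by omega) (by omega), del_in (by omega) (by omega)]
      obtain ⟨x, hx⟩ : ∃ x, x = q + 8 - 2 * κ := ⟨_, rfl⟩
      have e1 : q + 2 + 8 - 2 * κ = x + 2 := by omega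
      rw [← hx, e1]
      have := dis_d2 x
      omega
    · rw [del_out (q := q + 2) (by omega)]
      by_cases h3 : q < 2 * κ + 4 * β + 12
      · rw [del_in h1 h3]
        have : dis (q + 8 - 2 * κ) ≤ 0 := dis_nonpos (by omega)
        omega
      · rw [del_out (by omega)]; simp
  · rw [del_out (q := q) (by omega)]
    by_cases h3 : 2 * κ + 4 ≤ q + 2
    · rw [del_in (by omega) (by omega)]
      have : q + 2 + 8 - 2 * κ = 12 ∨ q + 2 + 8 - 2 * κ = 13 := by omega
      rcases this with h | h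
      · rw [h, dis12]; simp
      · rw [h, dis13]; omega
    · rw [del_out (by omega)]; simp

theorem del_d3 (κ β q : ℕ) : (q : ℤ) + del κ β q < q + 3 + del κ β (q + 3) := by
  by_cases h1 : 2 * κ + 4 ≤ q
  · by_cases h2 : q + 3 < 2 * κ + 4 * β + 12
    · rw [del_in (by omega) (by omega), del_in (by omega) (by omega)]
      obtain ⟨x, hx⟩ : ∃ x, x = q + 8 - 2 * κ := ⟨_, rfl⟩
      have e1 : q + 3 + 8 - 2 * κ = x + 3 := by omega
      rw [← hx, e1]
      have := dis_d3 x
      omega
    · rw [del_out (q := q + 3) (by omega)]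
      have := del_bd κ β q
      omega
  · rw [del_out (q := q) (by omega)]
    have := del_bd κ β (q + 3)
    omega

theorem del_d4 (κ β q : ℕ) : (q : ℤ) + del κ β q < q + 4 + del κ β (q + 4) := by
  by_cases h1 : 2 * κ + 4 ≤ q
  · by_cases h2 : q + 4 < 2 * κ + 4 * β + 12
    · rw [del_in (by omega) (by omega), del_in (by omega) (by omega)]
      obtain ⟨x, hx⟩ : ∃ x, x = q + 8 - 2 * κ := ⟨_, rfl⟩
      have e1 : q + 4 + 8 - 2 * κ = x + 4 := by omega
      rw [← hx, e1]
      have := dis_d4 x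
      omega
    · rw [del_out (q := q + 4) (by omega)]
      have := del_bd κ β q
      omega
  · rw [del_out (q := q) (by omega)]
    have := del_bd κ β (q + 4)
    omega

/-- values within the middle part are distinct -/
theorem del_inj (κ β q q' : ℕ) (h : q < q') :
    (q : ℤ) + del κ β q ≠ q' + del κ β q' := by
  have b1 := del_bd κ β q
  have b2 := del_bd κ β q'
  by_cases h5 : q + 5 ≤ q'
  · omega
  · have : q' = q + 1 ∨ q' = q + 2 ∨ q' = q + 3 ∨ q' = q + 4 := by omega
    rcases this with h | h | h | h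
    · subst h; push_cast; omega
    · subst h
      have := del_d2 κ β q
      push_cast; omega
    · subst h
      have := del_d3 κ β q
      push_cast; omega
    · subst h
      have := del_d4 κ β q
      push_cast; omega

/-- Length of a copy. -/
def LL (κ β : ℕ) : ℕ := 4 * κ + 4 * β + 17

/-- Class of an offset. -/
def cls (κ β q : ℕ) : ℕ :=
  if q = 0 then 0 else if q ≤ 4 * κ + 4 * β + 14 then 1
  else if q = 4 * κ + 4 * β + 15 then 2 else 3

/-- Level of a position. -/
def lev (κ β p : ℕ) : ℕ := 4 * (p / LL κ β) + cls κ β (p % LL κ β)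

/-- Value of a position. -/
def val (κ β p : ℕ) : ℤ :=
  ((p % LL κ β : ℕ) : ℤ) + del κ β (p % LL κ β) - 3 * (LL κ β : ℤ) * (lev κ β p : ℤ)

theorem dmc {L c q : ℕ} (hq : q < L) : (L * c + q) / L = c ∧ (L * c + q) % L = q := by
  have hL : 0 < L := by omega
  refine ⟨?_, ?_⟩
  · rw [Nat.mul_add_div hL, Nat.div_eq_of_lt hq, add_zero]
  · rw [Nat.mul_add_mod, Nat.mod_eq_of_lt hq]

theorem mod_shift {L p i : ℕ} (hL : 0 < L) (hi : i < L) :
    (p % L + i < L ∧ (p + i) % L = p % L + i ∧ (p + i) / L = p / L) ∨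
    (L ≤ p % L + i ∧ (p + i) % L = p % L + i - L ∧ (p + i) / L = p / L + 1) := by
  have h1 := Nat.div_add_mod p L
  have h2 := Nat.mod_lt p hL
  by_cases h : p % L + i < L
  · left
    have e : p + i = L * (p / L) + (p % L + i) := by omega
    have h3 := dmc (c := p / L) h
    rw [← e] at h3
    exact ⟨h, h3.2, h3.1⟩
  · right
    have hq : p % L + i - L < L := by omega
    have h3 := dmc (c := p / L + 1) hq
    have e : p + i = L * (p / L + 1) + (p % L + i - L) := by
      rw [mul_add, mul_one]; omega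
    rw [← e] at h3
    exact ⟨by omega, h3.2, h3.1⟩

/-- Special gaps. -/
def spq (κ β q : ℕ) : Prop := q = 0 ∨ 4 * κ + 4 * β + 14 ≤ q

def sp (κ β g : ℕ) : Prop := spq κ β (g % LL κ β)

theorem cls_le (κ β q : ℕ) : cls κ β q ≤ 3 := by
  unfold cls; split_ifs <;> omega

theorem lev_step (κ β g : ℕ) :
    (sp κ β g → lev κ β g < lev κ β (g + 1)) ∧
    (¬ sp κ β g → lev κ β (g + 1) = lev κ β g ∧ (g + 1) % LL κ β = g % LL κ β + 1) := by
  have hLL : LL κ β = 4 * κ + 4 * β + 17 := rfl
  have h2 := Nat.mod_lt g (by omega : 0 < LL κ β)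
  rcases mod_shift (p := g) (by omega : 0 < LL κ β) (by omega : 1 < LL κ β) with
    ⟨h, e1, e2⟩ | ⟨h, e1, e2⟩
  · unfold lev sp spq
    rw [e1, e2]
    refine ⟨?_, ?_⟩
    · intro h3
      unfold cls
      split_ifs <;> first | omega | contradiction
    · intro h3
      refine ⟨?_, rfl⟩
      unfold cls
      split_ifs <;> first | omega | contradiction
  · unfold lev sp spq
    rw [e1, e2]
    have := cls_le κ β (g % LL κ β)
    refine ⟨?_, ?_⟩
    · intro h3
      omega
    · intro h3
      omega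

theorem lev_mono (κ β : ℕ) : Monotone (lev κ β) := by
  apply monotone_nat_of_le_succ
  intro g
  by_cases h : sp κ β g
  · exact ((lev_step κ β g).1 h).le
  · rw [((lev_step κ β g).2 h).1]

theorem val_lt_of_lev {κ β p p' : ℕ} (h : lev κ β p < lev κ β p') : val κ β p' < val κ β p := by
  unfold val
  have hLL : LL κ β = 4 * κ + 4 * β + 17 := rfl
  have h1 := Nat.mod_lt p (by omega : 0 < LL κ β)
  have h2 := Nat.mod_lt p' (by omega : 0 < LL κ β)
  have b1 := del_bd κ β (p % LL κ β)
  have b2 := del_bd κ β (p' % LL κ β)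
  have h3 : (3 * (LL κ β : ℤ)) * ((lev κ β p : ℤ) + 1) ≤ 3 * (LL κ β : ℤ) * (lev κ β p' : ℤ) := by
    apply mul_le_mul_of_nonneg_left
    · exact_mod_cast h
    · positivity
  have h4 : (3 * (LL κ β : ℤ)) * ((lev κ β p : ℤ) + 1) =
      3 * (LL κ β : ℤ) * (lev κ β p : ℤ) + 3 * (LL κ β : ℤ) := by ring
  rw [h4] at h3
  have h5 : ((p % LL κ β : ℕ) : ℤ) < (LL κ β : ℤ) := by exact_mod_cast h1
  have h6 : ((p' % LL κ β : ℕ) : ℤ) < (LL κ β : ℤ) := by exact_mod_cast h2
  have h7 : (0 : ℤ) ≤ ((p % LL κ β : ℕ) : ℤ) := by positivity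
  have h8 : (17 : ℤ) ≤ (LL κ β : ℤ) := by
    have : 17 ≤ LL κ β := by omega
    exact_mod_cast this
  clear hLL
  generalize 3 * (LL κ β : ℤ) * (lev κ β p : ℤ) = X at *
  generalize 3 * (LL κ β : ℤ) * (lev κ β p' : ℤ) = Y at *
  omega

/-- special gaps are skew cuts -/
theorem sp_cut {κ β g x y : ℕ} (hg : sp κ β g) (hx : x ≤ g) (hy : g < y) :
    val κ β y < val κ β x := by
  apply val_lt_of_lev
  have h1 := lev_mono κ β hx
  have h2 := lev_mono κ β (by omega : g + 1 ≤ y)
  have h3 := (lev_step κ β g).1 hg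
  omega

/-- letters -/
noncomputable def D (κ β p : ℕ) : Bool :=
  decide (p % LL κ β = 0 ∨ 4 * κ + 4 * β + 14 ≤ p % LL κ β) || lt κ β (p % LL κ β)

theorem D_sp {κ β p : ℕ} (h : sp κ β p) : D κ β p = true := by
  unfold D sp spq at *
  simp [h]

theorem D_nsp {κ β p : ℕ} (h : ¬ sp κ β p) : D κ β p = lt κ β (p % LL κ β) := by
  unfold D sp spq at *
  simp only [h, decide_false, Bool.false_or]

theorem val_adj (κ β p : ℕ) : (val κ β (p + 1) < val κ β p) ↔ D κ β p = true := by
  by_cases h : sp κ β p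
  · rw [D_sp h]
    simp only [iff_true]
    exact sp_cut h le_rfl (by omega)
  · rw [D_nsp h, ← del_adj]
    obtain ⟨e1, e2⟩ := (lev_step κ β p).2 h
    unfold val
    rw [e1, e2]
    push_cast
    constructor <;> intro h <;> linarith

theorem val_inj (κ β : ℕ) : Function.Injective (val κ β) := by
  have key : ∀ p p', p < p' → val κ β p ≠ val κ β p' := by
    intro p p' hpp
    rcases lt_or_eq_of_le (lev_mono κ β hpp.le) with h | h
    · exact (val_lt_of_lev h).ne'
    · -- same level
      have h1 : ∀ d, p + d ≤ p' → lev κ β (p + d) = lev κ β p ∧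
          (p + d) % LL κ β = p % LL κ β + d := by
        intro d
        induction d with
        | zero => intro _; simp
        | succ d ih =>
          intro hd
          obtain ⟨i1, i2⟩ := ih (by omega)
          have : ¬ sp κ β (p + d) := by
            intro hs
            have h3 := (lev_step κ β (p + d)).1 hs
            have h4 := lev_mono κ β (by omega : p + d + 1 ≤ p')
            omega
          obtain ⟨e1, e2⟩ := (lev_step κ β (p + d)).2 this
          rw [← add_assoc, e1, e2, i1, i2]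
          exact ⟨rfl, by omega⟩
      obtain ⟨i1, i2⟩ := h1 (p' - p) (by omega)
      have e : p + (p' - p) = p' := by omega
      rw [e] at i1 i2
      have := del_inj κ β (p % LL κ β) (p' % LL κ β) (by omega)
      unfold val
      rw [i1]
      intro h5
      apply this
      linarith
  intro p p' hpp
  rcases lt_trichotomy p p' with h | h | h
  · exact absurd hpp (key _ _ h)
  · exact h
  · exact absurd hpp.symm (key _ _ h)

/-- a descent gap which is not special is crossed by an increasing pair at distance three -/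
theorem far {κ β g x : ℕ} (hg : ¬ sp κ β g) (hD : D κ β g = true) (hx : x ≤ g) (hx' : g ≤ x + 2) :
    val κ β x < val κ β (x + 3) := by
  rw [D_nsp hg] at hD
  have hq : 2 * κ + 4 ≤ g % LL κ β ∧ g % LL κ β < 2 * κ + 4 * β + 12 := by
    by_contra hcon
    rw [lt_out (by omega)] at hD
    exact absurd hD (by simp)
  obtain ⟨j, hj, hjg⟩ : ∃ j, j ≤ 2 ∧ x + j = g := ⟨g - x, by omega, by omega⟩
  have hLL : LL κ β = 4 * κ + 4 * β + 17 := rfl
  have hL : 0 < LL κ β := by omega
  have hxm := Nat.mod_lt x hL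
  -- x % L = g % L - j
  have hxq : x % LL κ β + j = g % LL κ β ∧ x / LL κ β = g / LL κ β := by
    rcases mod_shift (p := x) hL (by omega : j < LL κ β) with ⟨h, e1, e2⟩ | ⟨h, e1, e2⟩
    · rw [hjg] at e1 e2
      exact ⟨by omega, by omega⟩
    · rw [hjg] at e1
      omega
  have hx3 : (x + 3) % LL κ β = x % LL κ β + 3 ∧ (x + 3) / LL κ β = x / LL κ β := by
    rcases mod_shift (p := x) hL (by omega : 3 < LL κ β) with ⟨h, e1, e2⟩ | ⟨h, e1, e2⟩
    · exact ⟨e1, e2⟩
    · omega
  have hlev : lev κ β (x + 3) = lev κ β x := by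
    unfold lev
    rw [hx3.1, hx3.2]
    unfold cls
    split_ifs <;> first | omega | contradiction
  have := del_d3 κ β (x % LL κ β)
  unfold val
  rw [hlev, hx3.1]
  push_cast
  linarith

end Pool.Agent.V11147.Bic
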