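import Pool.Agent.V11147.BicC

/-! Absence of k-th powers. -/

namespace Pool.Agent.V11147.Bic

/-- `k` consecutive order-isomorphic blocks of length `l` starting at `s`. -/
def KP (a : ℕ → ℤ) (k l s : ℕ) : Prop :=
  ∀ r < k, ∀ r' < k, ∀ i < l, ∀ j < l,
    (a (s + r * l + i) < a (s + r * l + j) ↔ a (s + r' * l + i) < a (s + r' * l + j))

theorem KP_HP {κ β k l s : ℕ} (hp : KP (val κ β) k l s) : HP (D κ β) k l s := by
  intro r hr r' hr' i hi
  have h := hp r hr r' hr' (i + 1) (by omega) i (by omega)
  rw [← add_assoc, ← add_assoc, val_adj, val_adj] at h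
  rw [Bool.eq_iff_iff]
  exact h

theorem res (κ β p i : ℕ) (hi : i < 17) :
    (p % LL κ β + i < LL κ β → (p + i) % LL κ β = p % LL κ β + i) ∧
    (LL κ β ≤ p % LL κ β + i → (p + i) % LL κ β = p % LL κ β + i - LL κ β) := by
  have hLL : LL κ β = 4 * κ + 4 * β + 17 := rfl
  rcases mod_shift (p := p) (by omega : 0 < LL κ β) (by omega : i < LL κ β) with
    ⟨h, e1, e2⟩ | ⟨h, e1, e2⟩
  · exact ⟨fun _ => e1, fun h' => by omega⟩
  · exact ⟨fun h' => by omega, fun _ => e1⟩

section
variable {κ β : ℕ} (hb1 : tm (β + 4) = true) (hb2 : tm (β + 5) = false)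

theorem Dtrue {p : ℕ} (h : p % LL κ β = 0 ∨ 4 * κ + 4 * β + 14 ≤ p % LL κ β) :
    D κ β p = true := D_sp h

include hb1 in
theorem Dfalse {p : ℕ} (h : (1 ≤ p % LL κ β ∧ p % LL κ β ≤ 4) ∨
    (4 * κ + 4 * β + 10 ≤ p % LL κ β ∧ p % LL κ β ≤ 4 * κ + 4 * β + 13)) :
    D κ β p = false := by
  rw [D_nsp (by unfold sp spq; omega)]
  rcases h with h | h
  · exact lt_s1 (by omega)
  · exact lt_e1 hb1 (by omega)

theorem near {p j : ℕ} (h1 : p ≤ j) (h2 : j ≤ p + 4) (h : sp κ β j) :
    p % LL κ β = 0 ∨ 4 * κ + 4 * β + 10 ≤ p % LL κ β := by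
  have hLL : LL κ β = 4 * κ + 4 * β + 17 := rfl
  have hm := Nat.mod_lt p (by omega : 0 < LL κ β)
  obtain ⟨i, rfl⟩ : ∃ i, j = p + i := ⟨j - p, by omega⟩
  have r := res κ β p i (by omega)
  unfold sp spq at h
  by_cases hc : p % LL κ β + i < LL κ β
  · have := r.1 hc
    rw [this] at h
    omega
  · omega

include hb1 in
theorem Z2 {p : ℕ} (h1 : D κ β p = D κ β (p + 2)) (h2 : D κ β (p + 2) = D κ β (p + 4))
    (j : ℕ) (hj : p ≤ j) (hj' : j ≤ p + 4) : ¬ sp κ β j := by
  intro h
  have hLL : LL κ β = 4 * κ + 4 * β + 17 := rfl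
  have hn := near hj hj' h
  have hm := Nat.mod_lt p (by omega : 0 < LL κ β)
  have r2 := res κ β p 2 (by omega)
  have r4 := res κ β p 4 (by omega)
  have hcases : p % LL κ β = 0 ∨ p % LL κ β = 4 * κ + 4 * β + 10 ∨
    p % LL κ β = 4 * κ + 4 * β + 11 ∨ p % LL κ β = 4 * κ + 4 * β + 12 ∨
    p % LL κ β = 4 * κ + 4 * β + 13 ∨ p % LL κ β = 4 * κ + 4 * β + 14 ∨
    p % LL κ β = 4 * κ + 4 * β + 15 ∨ p % LL κ β = 4 * κ + 4 * β + 16 := by omega
  rcases hcases with hc | hc | hc | hc | hc | hc | hc | hc
  · have := r2.1 (by omega)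
    rw [Dtrue (p := p) (by omega), Dfalse hb1 (p := p + 2) (by omega)] at h1
    exact absurd h1 (by simp)
  · have := r4.1 (by omega)
    rw [← h1, Dfalse hb1 (p := p) (by omega), Dtrue (p := p + 4) (by omega)] at h2
    exact absurd h2 (by simp)
  · have := r4.1 (by omega)
    rw [← h1, Dfalse hb1 (p := p) (by omega), Dtrue (p := p + 4) (by omega)] at h2
    exact absurd h2 (by simp)
  · have := r2.1 (by omega)
    rw [Dfalse hb1 (p := p) (by omega), Dtrue (p := p + 2) (by omega)] at h1
    exact absurd h1 (by simp)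
  · have := r2.1 (by omega)
    rw [Dfalse hb1 (p := p) (by omega), Dtrue (p := p + 2) (by omega)] at h1
    exact absurd h1 (by simp)
  · have := r2.1 (by omega)
    have := r4.2 (by omega)
    rw [Dtrue (p := p + 2) (by omega), Dfalse hb1 (p := p + 4) (by omega)] at h2
    exact absurd h2 (by simp)
  · have := r2.2 (by omega)
    have := r4.2 (by omega)
    rw [Dtrue (p := p + 2) (by omega), Dfalse hb1 (p := p + 4) (by omega)] at h2
    exact absurd h2 (by simp)
  · have := r2.2 (by omega)
    rw [Dtrue (p := p) (by omega), Dfalse hb1 (p := p + 2) (by omega)] at h1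
    exact absurd h1 (by simp)

include hb1 in
theorem Z3 {p : ℕ} (h1 : D κ β p = D κ β (p + 3)) (h2 : D κ β (p + 1) = D κ β (p + 4))
    (j : ℕ) (hj : p ≤ j) (hj' : j ≤ p + 4) : ¬ sp κ β j := by
  intro h
  have hLL : LL κ β = 4 * κ + 4 * β + 17 := rfl
  have hn := near hj hj' h
  have hm := Nat.mod_lt p (by omega : 0 < LL κ β)
  have r1 := res κ β p 1 (by omega)
  have r3 := res κ β p 3 (by omega)
  have r4 := res κ β p 4 (by omega)
  have hcases : p % LL κ β = 0 ∨ p % LL κ β = 4 * κ + 4 * β + 10 ∨
    p % LL κ β = 4 * κ + 4 * β + 11 ∨ p % LL κ β = 4 * κ + 4 * β + 12 ∨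
    p % LL κ β = 4 * κ + 4 * β + 13 ∨ p % LL κ β = 4 * κ + 4 * β + 14 ∨
    p % LL κ β = 4 * κ + 4 * β + 15 ∨ p % LL κ β = 4 * κ + 4 * β + 16 := by omega
  rcases hcases with hc | hc | hc | hc | hc | hc | hc | hc
  · have := r3.1 (by omega)
    rw [Dtrue (p := p) (by omega), Dfalse hb1 (p := p + 3) (by omega)] at h1
    exact absurd h1 (by simp)
  · have := r1.1 (by omega)
    have := r4.1 (by omega)
    rw [Dfalse hb1 (p := p + 1) (by omega), Dtrue (p := p + 4) (by omega)] at h2
    exact absurd h2 (by simp)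
  · have := r3.1 (by omega)
    rw [Dfalse hb1 (p := p) (by omega), Dtrue (p := p + 3) (by omega)] at h1
    exact absurd h1 (by simp)
  · have := r3.1 (by omega)
    rw [Dfalse hb1 (p := p) (by omega), Dtrue (p := p + 3) (by omega)] at h1
    exact absurd h1 (by simp)
  · have := r3.1 (by omega)
    rw [Dfalse hb1 (p := p) (by omega), Dtrue (p := p + 3) (by omega)] at h1
    exact absurd h1 (by simp)
  · have := r1.1 (by omega)
    have := r4.2 (by omega)
    rw [Dtrue (p := p + 1) (by omega), Dfalse hb1 (p := p + 4) (by omega)] at h2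
    exact absurd h2 (by simp)
  · have := r3.2 (by omega)
    rw [Dtrue (p := p) (by omega), Dfalse hb1 (p := p + 3) (by omega)] at h1
    exact absurd h1 (by simp)
  · have := r3.2 (by omega)
    rw [Dtrue (p := p) (by omega), Dfalse hb1 (p := p + 3) (by omega)] at h1
    exact absurd h1 (by simp)

theorem sp_iff {b i l : ℕ} (hl : 4 ≤ l) (hi : i + 1 < l) :
    sp κ β (b + i) ↔ ∀ x ≤ i, ∀ y, i < y → y < l → val κ β (b + y) < val κ β (b + x) := by
  constructor
  · intro h x hx y hy hyl
    exact sp_cut h (by omega) (by omega)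
  · intro h
    by_contra hn
    have h0 := h i le_rfl (i + 1) (by omega) hi
    rw [← add_assoc, val_adj] at h0
    by_cases h2 : 2 ≤ i
    · have h3 := h (i - 2) (by omega) (i + 1) (by omega) hi
      have h4 := far (x := b + (i - 2)) hn h0 (by omega) (by omega)
      have e : b + (i - 2) + 3 = b + (i + 1) := by omega
      rw [e] at h4
      exact absurd h3 (not_lt.mpr h4.le)
    · have h3 := h 0 (by omega) 3 (by omega) (by omega)
      have h4 := far (x := b + 0) hn h0 (by omega) (by omega)
      rw [add_zero] at h4 h3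
      exact absurd h3 (not_lt.mpr h4.le)

/-- No special gap can occur in a cube of block length at least four. -/
theorem no_sp {l s : ℕ} (hl : 4 ≤ l) (hlL : l < LL κ β)
    (h1 : ∀ i, i + 1 < l → (sp κ β (s + i) ↔ sp κ β (s + l + i)))
    (h2 : ∀ i, i + 1 < l → (sp κ β (s + i) ↔ sp κ β (s + 2 * l + i)))
    (i : ℕ) (hi : i + 1 < l) : ¬ sp κ β (s + i) := by
  intro h
  have hLL : LL κ β = 4 * κ + 4 * β + 17 := rfl
  have hL : 0 < LL κ β := by omega
  have a1 := (h1 i hi).1 h
  have a2 := (h2 i hi).1 h
  have hm := Nat.mod_lt (s + i) hL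
  have r1 := mod_shift (p := s + i) hL hlL
  have r2 := mod_shift (p := s + i + l) hL hlL
  have e1 : s + l + i = s + i + l := by ring
  have e2 : s + 2 * l + i = s + i + l + l := by ring
  rw [e1] at a1
  rw [e2] at a2
  unfold sp spq at h a1 a2
  have hlast : l + 1 = LL κ β := by
    generalize (s + i + l + l) % LL κ β = q2 at *
    generalize (s + i + l) % LL κ β = q1 at *
    generalize (s + i) % LL κ β = q0 at *
    omega
  -- choose a bad index
  have hms := Nat.mod_lt s hL
  obtain ⟨j, hj, hj2⟩ : ∃ j, j + 1 < l ∧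
      ((s + j) % LL κ β = 1 ∨ (s + j) % LL κ β = 4 * κ + 4 * β + 14) := by
    by_cases c1 : s % LL κ β ≤ 1
    · refine ⟨1 - s % LL κ β, by omega, Or.inl ?_⟩
      rcases mod_shift (p := s) hL (by omega : 1 - s % LL κ β < LL κ β) with
        ⟨h, e1, e2⟩ | ⟨h, e1, e2⟩
      · omega
      · omega
    · by_cases c2 : s % LL κ β ≤ 4 * κ + 4 * β + 14
      · refine ⟨4 * κ + 4 * β + 14 - s % LL κ β, by omega, Or.inr ?_⟩
        rcases mod_shift (p := s) hL (by omega : 4 * κ + 4 * β + 14 - s % LL κ β < LL κ β) with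
          ⟨h, e1, e2⟩ | ⟨h, e1, e2⟩
        · omega
        · omega
      · refine ⟨LL κ β + 1 - s % LL κ β, by omega, Or.inl ?_⟩
        rcases mod_shift (p := s) hL (by omega : LL κ β + 1 - s % LL κ β < LL κ β) with
          ⟨h, e1, e2⟩ | ⟨h, e1, e2⟩
        · omega
        · omega
  have b := h1 j hj
  have e3 : s + l + j = s + j + l := by ring
  rw [e3] at b
  have r3 := mod_shift (p := s + j) hL hlL
  unfold sp spq at b
  generalize (s + j + l) % LL κ β = q1 at *
  generalize (s + j) % LL κ β = q0 at *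
  omega

end

section
variable {κ β : ℕ} (hb1 : tm (β + 4) = true) (hb2 : tm (β + 5) = false)

include hb1 in
/-- No special gap inside a power. -/
theorem power_no_sp {l s : ℕ} (hl : 2 ≤ l) (hlL : l < LL κ β)
    (hp : KP (val κ β) (κ + 3) l s) (j : ℕ) (hj : s ≤ j) (hj' : j + 2 ≤ s + (κ + 3) * l) :
    ¬ sp κ β j := by
  have hD := KP_HP hp
  have hLL : LL κ β = 4 * κ + 4 * β + 17 := rfl
  by_cases hl2 : l = 2
  · subst hl2
    obtain ⟨r, hr, h1, h2⟩ : ∃ r, r ≤ κ ∧ s + r * 2 ≤ j ∧ j ≤ s + r * 2 + 4 := by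
      by_cases h : (j - s) / 2 ≤ κ
      · exact ⟨(j - s) / 2, h, by omega, by omega⟩
      · exact ⟨κ, le_rfl, by omega, by omega⟩
    refine Z2 hb1 (p := s + r * 2) ?_ ?_ j h1 h2
    · have := hD r (by omega) (r + 1) (by omega) 0 (by omega)
      have e : s + (r + 1) * 2 + 0 = s + r * 2 + 2 := by ring
      rw [e, add_zero] at this
      exact this
    · have := hD (r + 1) (by omega) (r + 2) (by omega) 0 (by omega)
      have e : s + (r + 1) * 2 + 0 = s + r * 2 + 2 := by ring
      have e' : s + (r + 2) * 2 + 0 = s + r * 2 + 4 := by ring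
      rw [e, e'] at this
      exact this
  · by_cases hl3 : l = 3
    · subst hl3
      obtain ⟨r, hr, h1, h2⟩ : ∃ r, r ≤ κ + 1 ∧ s + r * 3 ≤ j ∧ j ≤ s + r * 3 + 4 := by
        by_cases h : (j - s) / 3 ≤ κ + 1
        · exact ⟨(j - s) / 3, h, by omega, by omega⟩
        · exact ⟨κ + 1, le_rfl, by omega, by omega⟩
      refine Z3 hb1 (p := s + r * 3) ?_ ?_ j h1 h2
      · have := hD r (by omega) (r + 1) (by omega) 0 (by omega)
        have e : s + (r + 1) * 3 + 0 = s + r * 3 + 3 := by ring
        rw [e, add_zero] at this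
        exact this
      · have := hD r (by omega) (r + 1) (by omega) 1 (by omega)
        have e : s + (r + 1) * 3 + 1 = s + r * 3 + 4 := by ring
        rw [e] at this
        exact this
    · have hl4 : 4 ≤ l := by omega
      have heq : ∀ r < κ + 3, ∀ r' < κ + 3, ∀ i, i + 1 < l →
          (sp κ β (s + r * l + i) ↔ sp κ β (s + r' * l + i)) := by
        intro r hr r' hr' i hi
        rw [sp_iff hl4 hi, sp_iff hl4 hi]
        constructor
        · intro h x hx y hy hyl
          exact (hp r hr r' hr' y hyl x (by omega)).1 (h x hx y hy hyl)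
        · intro h x hx y hy hyl
          exact (hp r' hr' r hr y hyl x (by omega)).1 (h x hx y hy hyl)
      have h0 : ∀ i, i + 1 < l → ¬ sp κ β (s + i) := by
        apply no_sp hl4 hlL
        · intro i hi
          have := heq 0 (by omega) 1 (by omega) i hi
          simpa using this
        · intro i hi
          have := heq 0 (by omega) 2 (by omega) i hi
          simpa using this
      have hall : ∀ r < κ + 3, ∀ i, i + 1 < l → ¬ sp κ β (s + r * l + i) := by
        intro r hr i hi h
        have := (heq r hr 0 (by omega) i hi).1 h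
        rw [zero_mul, add_zero] at this
        exact h0 i hi this
      -- the position of j
      have hdm := Nat.div_add_mod (j - s) l
      have hml := Nat.mod_lt (j - s) (by omega : 0 < l)
      have hr : (j - s) / l < κ + 3 := by
        rw [Nat.div_lt_iff_lt_mul (by omega)]
        omega
      rw [mul_comm] at hdm
      by_cases hin : (j - s) % l + 1 < l
      · have := hall _ hr _ hin
        have e : s + (j - s) / l * l + (j - s) % l = j := by omega
        rw [e] at this
        exact this
      · intro h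
        -- hole; a neighbouring gap is special
        have hprev := hall _ hr (l - 2) (by omega)
        have hr1 : (j - s) / l + 1 < κ + 3 := by
          by_contra hcon
          have : (j - s) / l = κ + 2 := by omega
          rw [this] at hdm
          have : (κ + 3) * l = (κ + 2) * l + l := by ring
          omega
        have hnext := hall _ hr1 0 (by omega)
        have e1 : s + (j - s) / l * l + (l - 2) = j - 1 := by omega
        have e2 : s + ((j - s) / l + 1) * l + 0 = j + 1 := by
          rw [add_mul, one_mul]; omega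
        rw [e1] at hprev
        rw [e2] at hnext
        have hm := Nat.mod_lt j (by omega : 0 < LL κ β)
        have hm' := Nat.mod_lt (j - 1) (by omega : 0 < LL κ β)
        have rn := res κ β j 1 (by omega)
        have rp := res κ β (j - 1) 1 (by omega)
        have e3 : j - 1 + 1 = j := by omega
        rw [e3] at rp
        unfold sp spq at h hprev hnext
        generalize (j + 1) % LL κ β = q2 at *
        generalize (j - 1) % LL κ β = q0 at *
        generalize j % LL κ β = q1 at *
        omega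

include hb1 hb2 in
theorem nopower {l s : ℕ} (hl : 2 ≤ l) (hlL : l < LL κ β) :
    ¬ KP (val κ β) (κ + 3) l s := by
  intro hp
  have hD := KP_HP hp
  have hns := power_no_sp hb1 hl hlL hp
  have hLL : LL κ β = 4 * κ + 4 * β + 17 := rfl
  have h3l : 3 * l ≤ (κ + 3) * l := Nat.mul_le_mul_right _ (by omega)
  -- consecutive residues
  have hres : ∀ d, d + 1 ≤ (κ + 3) * l → (s + d) % LL κ β = s % LL κ β + d := by
    intro d
    induction d with
    | zero => intro _; simp
    | succ d ih =>
      intro hd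
      have h1 := ih (by omega)
      have h2 := hns (s + d) (by omega) (by omega)
      have h3 := ((lev_step κ β (s + d)).2 h2).2
      rw [← add_assoc, h3, h1, add_assoc]
  have hs0 := hns s le_rfl (by omega)
  have hlast := hns (s + ((κ + 3) * l - 2)) (by omega) (by omega)
  have hr2 := hres ((κ + 3) * l - 2) (by omega)
  unfold sp spq at hs0 hlast
  rw [hr2] at hlast
  refine lt_noHP (κ := κ) hb1 hb2 l (s % LL κ β) hl (by omega) (by omega) ?_
  intro r hr r' hr' i hi
  have key : ∀ r < κ + 3, lt κ β (s % LL κ β + r * l + i) = D κ β (s + r * l + i) := by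
    intro r hr
    have hb : r * l + l ≤ (κ + 3) * l := by
      have : (r + 1) * l ≤ (κ + 3) * l := Nat.mul_le_mul_right _ (by omega)
      rw [add_mul, one_mul] at this
      exact this
    rw [D_nsp (hns _ (by omega) (by omega))]
    have := hres (r * l + i) (by omega)
    rw [add_assoc s, this, add_assoc]
  rw [key r hr, key r' hr']
  exact hD r hr r' hr' i hi

end

end Pool.Agent.V11147.Bic
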