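import Mathlib

namespace Pool.Agent.V11147.Cof

open Set

/-- the Cantor space -/
abbrev Can := ℕ → Bool

/-- closed under taking subsets -/
def SubClosed (J : Set (Set Can)) : Prop := ∀ A ∈ J, ∀ B, B ⊆ A → B ∈ J

/-- an ideal -/
def IsIdeal (J : Set (Set Can)) : Prop :=
  ∅ ∈ J ∧ (∀ A ∈ J, ∀ B, B ⊆ A → B ∈ J) ∧ ∀ A ∈ J, ∀ B ∈ J, A ∪ B ∈ J

/-- a sigma-ideal -/
def IsSigmaIdeal (J : Set (Set Can)) : Prop :=
  IsIdeal J ∧ ∀ f : ℕ → Set Can, (∀ n, f n ∈ J) → (⋃ n, f n) ∈ J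

/-- a Borel sigma-ideal -/
def IsBorelSigmaIdeal (J : Set (Set Can)) : Prop :=
  IsSigmaIdeal J ∧ ∀ A ∈ J, ∃ B ∈ J, A ⊆ B ∧ @MeasurableSet Can (borel Can) B

/-- there is a strictly increasing sequence of length `γ`, with union `I`, of families with `Q` -/
def HasSeq (Q : Set (Set Can) → Prop) (I : Set (Set Can)) (γ : Ordinal.{0}) : Prop :=
  ∃ J : Ordinal.{0} → Set (Set Can), (∀ α < γ, Q (J α)) ∧ (∀ A, A ∈ I ↔ ∃ α < γ, A ∈ J α) ∧
    ∀ α β, α < β → β < γ → J α ⊂ J β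

/-- as `HasSeq IsSigmaIdeal I γ`, and all singletons belong to the first member -/
def HasSeqPlus (I : Set (Set Can)) (γ : Ordinal.{0}) : Prop :=
  ∃ J : Ordinal.{0} → Set (Set Can), (∀ α < γ, IsSigmaIdeal (J α)) ∧ (∀ x, {x} ∈ J 0) ∧
    (∀ A, A ∈ I ↔ ∃ α < γ, A ∈ J α) ∧ ∀ α β, α < β → β < γ → J α ⊂ J β

/-- the least limit ordinal with `H` exists and is smaller than every limit ordinal with `H'`
(if there is none with `H'`, its least value counts as infinite) -/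
def LeastLT (H H' : Ordinal.{0} → Prop) : Prop :=
  ∃ γ, Order.IsSuccLimit γ ∧ H γ ∧ ∀ γ' ≤ γ, Order.IsSuccLimit γ' → ¬ H' γ'

/-- eventual domination -/
def LeStar (f g : ℕ → ℕ) : Prop := ∃ N, ∀ n, N ≤ n → f n ≤ g n

/-- groupwise dense families of infinite sets of natural numbers -/
def GroupwiseDense (G : Set (Set ℕ)) : Prop :=
  (∀ Z ∈ G, Z.Infinite) ∧ (∀ Z ∈ G, ∀ Z' : Set ℕ, Z'.Infinite → (Z' \ Z).Finite → Z' ∈ G) ∧
    ∀ e : ℕ → ℕ, StrictMono e → e 0 = 0 →
      ∃ S : Set ℕ, S.Infinite ∧ (⋃ n ∈ S, Ico (e n) (e (n + 1))) ∈ G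

/-- the bounding number -/
noncomputable def bNum : Cardinal.{0} :=
  sInf {κ | ∃ F : Set (ℕ → ℕ), Cardinal.mk F = κ ∧ ¬ ∃ g, ∀ f ∈ F, LeStar f g}

/-- the groupwise density number -/
noncomputable def gNum : Cardinal.{0} :=
  sInf {κ | ∃ D : Set (Set (Set ℕ)), Cardinal.mk D = κ ∧ (∀ G ∈ D, GroupwiseDense G) ∧
    ⋂₀ D = ∅}

/-- a Borel surjection from the Cantor space onto the Baire space -/
noncomputable def dec (x : Can) (k : ℕ) : ℕ := sInf {j | x (Nat.pair k j) = true}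

theorem dec_surj (h : ℕ → ℕ) : ∃ x : Can, dec x = h := by
  refine ⟨fun n => decide ((Nat.unpair n).2 = h (Nat.unpair n).1), ?_⟩
  funext k
  unfold dec
  have : {j | decide ((Nat.unpair (Nat.pair k j)).2 = h (Nat.unpair (Nat.pair k j)).1) = true} =
      {h k} := by
    ext j
    simp
  rw [this]
  exact csInf_singleton _

theorem meas_bit (n : ℕ) : MeasurableSet {x : Can | x n = true} := by
  have h : Measurable (fun x : Can => x n) := measurable_pi_apply n
  exact measurableSet_eq_fun h measurable_const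

theorem meas_dec (k m : ℕ) : MeasurableSet {x : Can | dec x k < m} := by
  have : {x : Can | dec x k < m} =
      (⋃ j, ⋃ (_ : j < m), {x : Can | x (Nat.pair k j) = true}) ∪
      (⋂ j, {x : Can | x (Nat.pair k j) = true}ᶜ) ∩ (if 0 < m then univ else ∅) := by
    ext x
    simp only [mem_ofPred_eq, mem_union, mem_iUnion, mem_inter_iff, mem_iInter, mem_compl_iff,
      exists_prop]
    constructor
    · intro h
      by_cases hne : ∃ j, x (Nat.pair k j) = true
      · left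
        refine ⟨dec x k, h, ?_⟩
        exact Nat.sInf_mem (s := {j | x (Nat.pair k j) = true}) hne
      · right
        push Not at hne
        refine ⟨fun j => hne j, ?_⟩
        rw [if_pos (by omega)]
        trivial
    · rintro (⟨j, hj, hx⟩ | ⟨h1, h2⟩)
      · exact lt_of_le_of_lt (Nat.sInf_le hx) hj
      · have e : {j | x (Nat.pair k j) = true} = ∅ := by
          ext j
          simp only [mem_ofPred_eq, mem_empty_iff_false, iff_false]
          exact h1 j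
        unfold dec
        rw [e, Nat.sInf_empty]
        by_contra hc
        rw [if_neg hc] at h2
        exact h2
  rw [this]
  apply MeasurableSet.union
  · exact MeasurableSet.iUnion fun j => MeasurableSet.iUnion fun _ => meas_bit _
  · apply MeasurableSet.inter
    · exact MeasurableSet.iInter fun j => (meas_bit _).compl
    · split_ifs
      · exact MeasurableSet.univ
      · exact MeasurableSet.empty

/-- the set of points that are infinitely often below `g` -/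
def Bs (g : ℕ → ℕ) : Set Can := {x | ∀ N, ∃ k, N ≤ k ∧ dec x k < g k}

theorem meas_Bs (g : ℕ → ℕ) : @MeasurableSet Can (borel Can) (Bs g) := by
  have h1 : Bs g = ⋂ N, ⋃ k, ⋃ (_ : N ≤ k), {x : Can | dec x k < g k} := by
    ext x
    simp [Bs]
  have h2 : MeasurableSet (Bs g) := by
    rw [h1]
    exact MeasurableSet.iInter fun N => MeasurableSet.iUnion fun k =>
      MeasurableSet.iUnion fun _ => meas_dec k (g k)
  rw [← (inferInstance : BorelSpace Can).measurable_eq]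
  exact h2

theorem Bs_mono {g h : ℕ → ℕ} (hgh : LeStar g h) : Bs g ⊆ Bs h := by
  obtain ⟨M, hM⟩ := hgh
  intro x hx N
  obtain ⟨k, hk, hk'⟩ := hx (max N M)
  exact ⟨k, le_trans (le_max_left _ _) hk,
    lt_of_lt_of_le hk' (hM k (le_trans (le_max_right _ _) hk))⟩

theorem Bs_cover {g a b : ℕ → ℕ} (h : ∀ n, g n ≤ a n ∨ g n ≤ b n) : Bs g ⊆ Bs a ∪ Bs b := by
  intro x hx
  by_contra hc
  simp only [mem_union, not_or, Bs, mem_ofPred_eq, not_forall, not_exists, not_and, not_lt] at hc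
  obtain ⟨⟨N, hN⟩, ⟨M, hM⟩⟩ := hc
  obtain ⟨k, hk, hk'⟩ := hx (max N M)
  have h1 := hN k (le_trans (le_max_left _ _) hk)
  have h2 := hM k (le_trans (le_max_right _ _) hk)
  rcases h k with h3 | h3 <;> omega

theorem le_of_Bs {g h : ℕ → ℕ} (hs : Bs g ⊆ Bs h) : LeStar g h := by
  by_contra hc
  obtain ⟨x, hx⟩ := dec_surj h
  have h1 : x ∈ Bs g := by
    intro N
    by_contra hN
    push Not at hN
    apply hc
    refine ⟨N, fun n hn => ?_⟩
    have := hN n hn
    rw [hx] at this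
    exact this
  obtain ⟨k, _, hk⟩ := hs h1 0
  rw [hx] at hk
  exact lt_irrefl _ hk

/-- the ideal of non-dominating sets -/
def ND : Set (Set Can) := {A | ∃ g, A ⊆ Bs g}

theorem Bs_mem (g : ℕ → ℕ) : Bs g ∈ ND := ⟨g, Subset.rfl⟩

theorem ND_ideal : IsBorelSigmaIdeal ND := by
  refine ⟨⟨⟨⟨0, empty_subset _⟩, ?_, ?_⟩, ?_⟩, ?_⟩
  · rintro A ⟨g, hg⟩ B hB
    exact ⟨g, hB.trans hg⟩
  · rintro A ⟨g, hg⟩ B ⟨h, hh⟩
    refine ⟨fun n => max (g n) (h n), union_subset (hg.trans (Bs_mono ?_)) (hh.trans (Bs_mono ?_))⟩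
    · exact ⟨0, fun n _ => le_max_left _ _⟩
    · exact ⟨0, fun n _ => le_max_right _ _⟩
  · intro f hf
    choose g hg using hf
    refine ⟨fun k => (Finset.range (k + 1)).sup (fun n => g n k), ?_⟩
    apply iUnion_subset
    intro n
    refine (hg n).trans (Bs_mono ⟨n, fun k hk => ?_⟩)
    exact Finset.le_sup (f := fun n => g n k) (Finset.mem_range.mpr (by omega))
  · rintro A ⟨g, hg⟩
    exact ⟨Bs g, Bs_mem g, hg, meas_Bs g⟩

/-- the collapse of a rank function to a strictly increasing sequence -/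
theorem collapse {Q : Set (Set Can) → Prop} {I : Set (Set Can)} {r : Set Can → Ordinal.{0}}
    {δ : Ordinal.{0}} (hδ : Order.IsSuccLimit δ) (h1 : ∀ A ∈ I, r A < δ)
    (h2 : ∀ ξ < δ, ∃ A ∈ I, ξ ≤ r A) (h3 : ∀ s < δ, Q {A | A ∈ I ∧ r A ≤ s}) :
    ∃ γ ≤ δ, Order.IsSuccLimit γ ∧ HasSeq Q I γ := by
  set S : Set Ordinal.{0} := {ξ | ∃ A ∈ I, r A = ξ} ∪ Ici δ with hS
  have hub : ¬ BddAbove S := by
    rintro ⟨b, hb⟩
    have h4 : max δ (Order.succ b) ∈ S := Or.inr (mem_Ici.mpr (le_max_left _ _))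
    have h5 := hb h4
    have h6 := (le_max_right δ (Order.succ b)).trans h5
    exact absurd (Order.lt_succ b) (not_lt.mpr h6)
  have hδS : δ ∈ S := Or.inr (mem_Ici.mpr le_rfl)
  have hr := Ordinal.range_enumOrd hub
  have hm := Ordinal.enumOrd_strictMono hub
  rw [← hr] at hδS
  obtain ⟨γ, hγ⟩ := hδS
  have hlt : ∀ α, α < γ ↔ Ordinal.enumOrd S α < δ := by
    intro α
    rw [← hγ]
    exact hm.lt_iff_lt.symm
  have hmem : ∀ α < γ, ∃ A ∈ I, r A = Ordinal.enumOrd S α := by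
    intro α hα
    have h4 : Ordinal.enumOrd S α ∈ S := Ordinal.enumOrd_mem hub α
    rcases h4 with h4 | h4
    · exact h4
    · exact absurd ((hlt α).1 hα) (not_lt.mpr h4)
  have hex : ∀ A ∈ I, ∃ α < γ, Ordinal.enumOrd S α = r A := by
    intro A hA
    have h4 : r A ∈ S := Or.inl ⟨A, hA, rfl⟩
    rw [← hr] at h4
    obtain ⟨α, hα⟩ := h4
    refine ⟨α, (hlt α).2 ?_, hα⟩
    rw [hα]
    exact h1 A hA
  have h0 : (0 : Ordinal.{0}) < δ := by
    have := hδ.1
    rw [isMin_iff_eq_bot] at this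
    exact bot_lt_iff_ne_bot.mpr this
  refine ⟨γ, ?_, ?_, fun α => {A | A ∈ I ∧ r A ≤ Ordinal.enumOrd S α}, ?_, ?_, ?_⟩
  · rw [← hγ]
    exact hm.le_apply
  · refine ⟨?_, ?_⟩
    · intro hmin
      obtain ⟨A, hA, _⟩ := h2 0 h0
      obtain ⟨α, hα, _⟩ := hex A hA
      exact absurd (hmin hα.le) (not_le.mpr hα)
    · intro β hβ
      have h4 : Ordinal.enumOrd S β < δ := (hlt β).1 hβ.1
      have h5 : Order.succ (Ordinal.enumOrd S β) < δ := hδ.succ_lt h4
      obtain ⟨A, hA, hA'⟩ := h2 _ h5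
      obtain ⟨α, hα, hα'⟩ := hex A hA
      have h6 : Ordinal.enumOrd S β < Ordinal.enumOrd S α := by
        rw [hα']
        exact lt_of_lt_of_le (Order.lt_succ _) hA'
      exact hβ.2 (hm.lt_iff_lt.1 h6) hα
  · intro α hα
    exact h3 _ ((hlt α).1 hα)
  · intro A
    constructor
    · intro hA
      obtain ⟨α, hα, hα'⟩ := hex A hA
      exact ⟨α, hα, hA, hα'.ge⟩
    · rintro ⟨α, _, hA, _⟩
      exact hA
  · intro α β hαβ hβ
    rw [ssubset_iff_of_subset]
    · obtain ⟨A, hA, hA'⟩ := hmem β hβ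
      refine ⟨A, ⟨hA, hA'.le⟩, ?_⟩
      rintro ⟨_, h4⟩
      rw [hA'] at h4
      exact absurd (hm hαβ) (not_lt.mpr h4)
    · rintro A ⟨hA, hA'⟩
      exact ⟨hA, hA'.trans (hm hαβ).le⟩

end Pool.Agent.V11147.Cof
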