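import Pool.Agent.V11147.CofA

namespace Pool.Agent.V11147.Cof

open Set

/-- the ideal of countable sets -/
def Ctb : Set (Set Can) := {A | A.Countable}

theorem Ctb_ideal : IsBorelSigmaIdeal Ctb := by
  refine ⟨⟨⟨?_, ?_, ?_⟩, ?_⟩, ?_⟩
  · exact countable_empty
  · intro A hA B hB
    exact Set.Countable.mono hB hA
  · intro A hA B hB
    exact Set.Countable.union hA hB
  · intro f hf
    exact Set.countable_iUnion hf
  · intro A hA
    refine ⟨A, hA, Subset.rfl, ?_⟩
    rw [← (inferInstance : BorelSpace Can).measurable_eq]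
    exact Set.Countable.measurableSet hA

/-- a rank function onto the countable ordinals -/
theorem exists_rank : ∃ r : Can → Ordinal.{0}, (∀ x, r x < Ordinal.omega 1) ∧
    ∀ β < Ordinal.omega 1, ∃ x, r x = β := by
  have hc : Cardinal.mk (Ordinal.omega.{0} 1).ToType ≤ Cardinal.mk Can := by
    rw [Cardinal.mk_toType, Ordinal.card_omega]
    have : Cardinal.mk Can = Cardinal.continuum := by simp [Can]
    rw [this]
    exact Cardinal.aleph_one_le_continuum
  obtain ⟨i⟩ := hc
  have hpos : (0 : Ordinal.{0}) < Ordinal.omega 1 := Ordinal.omega_pos 1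
  have : Nonempty (Ordinal.omega.{0} 1).ToType := ⟨Ordinal.ToType.mk ⟨0, hpos⟩⟩
  refine ⟨fun x => (Ordinal.ToType.mk.symm (Function.invFun i x)).1, ?_, ?_⟩
  · intro x
    exact (Ordinal.ToType.mk.symm (Function.invFun i x)).2
  · intro β hβ
    refine ⟨i (Ordinal.ToType.mk ⟨β, hβ⟩), ?_⟩
    simp only
    rw [Function.leftInverse_invFun i.injective]
    simp

theorem partC : LeastLT (HasSeq IsSigmaIdeal Ctb) (HasSeqPlus Ctb) := by
  obtain ⟨r, hr1, hr2⟩ := exists_rank
  have hlim : Order.IsSuccLimit (Ordinal.omega.{0} 1) := by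
    rw [← Cardinal.ord_aleph]
    exact Cardinal.isSuccLimit_ord (Cardinal.aleph0_le_aleph 1)
  refine ⟨Ordinal.omega 1, hlim, ?_, ?_⟩
  · refine ⟨fun α => {A | A.Countable ∧ ∀ x ∈ A, r x ≤ α}, ?_, ?_, ?_⟩
    · intro α _
      refine ⟨⟨⟨countable_empty, by simp⟩, ?_, ?_⟩, ?_⟩
      · rintro A ⟨h1, h2⟩ B hB
        exact ⟨Set.Countable.mono hB h1, fun x hx => h2 x (hB hx)⟩
      · rintro A ⟨h1, h2⟩ B ⟨h3, h4⟩
        refine ⟨Set.Countable.union h1 h3, ?_⟩
        rintro x (hx | hx)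
        · exact h2 x hx
        · exact h4 x hx
      · intro f hf
        refine ⟨Set.countable_iUnion fun n => (hf n).1, ?_⟩
        intro x hx
        rw [mem_iUnion] at hx
        obtain ⟨n, hn⟩ := hx
        exact (hf n).2 x hn
    · intro A
      constructor
      · intro hA
        have hA' : A.Countable := hA
        rcases A.eq_empty_or_nonempty with hE | hE
        · exact ⟨0, Ordinal.omega_pos 1, hA', by rw [hE]; simp⟩
        · obtain ⟨f, hf⟩ := hA'.exists_eq_range hE
          refine ⟨⨆ n, r (f n), Ordinal.iSup_lt_omega_one (fun n => hr1 (f n)), hA', ?_⟩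
          intro x hx
          rw [hf] at hx
          obtain ⟨n, rfl⟩ := hx
          exact Ordinal.le_iSup (fun n => r (f n)) n
      · rintro ⟨α, _, hA, _⟩
        exact hA
    · intro α β hαβ hβ
      rw [ssubset_iff_of_subset]
      · obtain ⟨x, hx⟩ := hr2 β hβ
        refine ⟨{x}, ⟨countable_singleton x, ?_⟩, ?_⟩
        · intro y hy
          rw [mem_singleton_iff] at hy
          rw [hy, hx]
        · rintro ⟨_, h⟩
          have := h x (mem_singleton x)
          rw [hx] at this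
          exact absurd hαβ (not_lt.mpr this)
      · rintro A ⟨h1, h2⟩
        exact ⟨h1, fun x hx => (h2 x hx).trans hαβ.le⟩
  · rintro γ' _ hγ' ⟨J, h1, h2, h3, h4⟩
    have h0 : (0 : Ordinal.{0}) < γ' := by
      have := hγ'.1
      rw [isMin_iff_eq_bot] at this
      exact bot_lt_iff_ne_bot.mpr this
    have hone : Order.succ (0 : Ordinal.{0}) < γ' := hγ'.succ_lt h0
    have hss := h4 0 (Order.succ 0) (Order.lt_succ 0) hone
    apply hss.2
    intro A hA
    have hAC : A.Countable := (h3 A).2 ⟨_, hone, hA⟩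
    rcases A.eq_empty_or_nonempty with hE | hE
    · rw [hE]
      exact (h1 0 h0).1.1
    · obtain ⟨f, hf⟩ := hAC.exists_eq_range hE
      have h5 : A = ⋃ n, {f n} := by
        rw [hf]
        ext x
        simp [eq_comm]
      rw [h5]
      exact (h1 0 h0).2 _ (fun n => h2 (f n))

/-- the next element of `Z` -/
noncomputable def nu (Z : Set ℕ) (n : ℕ) : ℕ := sInf {m | m ∈ Z ∧ n ≤ m}

theorem nu_spec {Z : Set ℕ} (hZ : Z.Infinite) (n : ℕ) : nu Z n ∈ Z ∧ n ≤ nu Z n := by
  have : {m | m ∈ Z ∧ n ≤ m}.Nonempty := by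
    obtain ⟨m, hm, hm'⟩ := hZ.exists_gt n
    exact ⟨m, hm, hm'.le⟩
  exact Nat.sInf_mem this

theorem nu_le {Z : Set ℕ} {n m : ℕ} (hm : m ∈ Z) (hn : n ≤ m) : nu Z n ≤ m :=
  Nat.sInf_le ⟨hm, hn⟩

theorem nu_mono {Z Z' : Set ℕ} (hZ' : Z'.Infinite) (h : (Z' \ Z).Finite) :
    LeStar (nu Z) (nu Z') := by
  obtain ⟨N, hN⟩ := h.bddAbove
  refine ⟨N + 1, fun n hn => ?_⟩
  have h1 := nu_spec hZ' n
  have h2 : nu Z' n ∈ Z := by
    by_contra hc
    have := hN ⟨h1.1, hc⟩
    omega
  exact nu_le h2 h1.2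

end Pool.Agent.V11147.Cof
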