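import Pool.Agent.V11147.CofB

namespace Pool.Agent.V11147.Cof

open Set

/-- a fast growing sequence of indices -/
def cc (e g : ℕ → ℕ) : ℕ → ℕ
  | 0 => 0
  | k + 1 => cc e g k + (Finset.range (e (cc e g k) + 1)).sup g + 1

theorem cc_mono (e g : ℕ → ℕ) : StrictMono (cc e g) := by
  apply strictMono_nat_of_lt_succ
  intro k
  show cc e g k < cc e g k + (Finset.range (e (cc e g k) + 1)).sup g + 1
  omega

theorem cc_spec {e : ℕ → ℕ} (he : StrictMono e) (g : ℕ → ℕ) {k n : ℕ} (hn : n ≤ e (cc e g k)) :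
    g n < e (cc e g (k + 1)) := by
  have h1 : g n ≤ (Finset.range (e (cc e g k) + 1)).sup g :=
    Finset.le_sup (f := g) (Finset.mem_range.mpr (by omega))
  have h2 : cc e g (k + 1) = cc e g k + (Finset.range (e (cc e g k) + 1)).sup g + 1 := rfl
  have h3 := he.le_apply (x := cc e g (k + 1))
  omega

/-- the indices of the blocks congruent to `i` modulo 3 -/
def SS (e g : ℕ → ℕ) (i : ℕ) : Set ℕ := {j | ∃ k, k % 3 = i ∧ cc e g k ≤ j ∧ j < cc e g (k + 1)}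

/-- the union of the blocks congruent to `i` modulo 3 -/
def ZZ (e g : ℕ → ℕ) (i : ℕ) : Set ℕ := ⋃ j ∈ SS e g i, Ico (e j) (e (j + 1))

theorem SS_inf (e g : ℕ → ℕ) {i : ℕ} (hi : i < 3) : (SS e g i).Infinite := by
  apply Set.infinite_of_injective_forall_mem (f := fun t => cc e g (3 * t + i))
  · intro s t hst
    have := (cc_mono e g).injective hst
    omega
  · intro t
    exact ⟨3 * t + i, by omega, le_rfl, cc_mono e g (by omega)⟩

theorem ZZ_inf {e : ℕ → ℕ} (he : StrictMono e) (g : ℕ → ℕ) {i : ℕ} (hi : i < 3) :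
    (ZZ e g i).Infinite := by
  apply Set.infinite_of_injective_forall_mem (f := fun t => e (cc e g (3 * t + i)))
  · intro s t hst
    have := (cc_mono e g).injective (he.injective hst)
    omega
  · intro t
    simp only [ZZ, mem_iUnion, mem_Ico, exists_prop]
    exact ⟨cc e g (3 * t + i), ⟨3 * t + i, by omega, le_rfl, cc_mono e g (by omega)⟩, le_rfl,
      he (by omega)⟩

theorem ZZ_block {e : ℕ → ℕ} (he : StrictMono e) (g : ℕ → ℕ) {i m : ℕ} (hm : m ∈ ZZ e g i) :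
    ∃ k, k % 3 = i ∧ e (cc e g k) ≤ m ∧ m < e (cc e g (k + 1)) := by
  simp only [ZZ, mem_iUnion, mem_Ico, exists_prop] at hm
  obtain ⟨j, ⟨k, hk, h1, h2⟩, h3, h4⟩ := hm
  refine ⟨k, hk, (he.monotone h1).trans h3, lt_of_lt_of_le h4 (he.monotone h2)⟩

theorem cover3 {e : ℕ → ℕ} (he : StrictMono e) (he0 : e 0 = 0) (g : ℕ → ℕ) (n : ℕ) :
    ∃ i < 3, g n ≤ nu (ZZ e g i) n := by
  have hex : ∃ k, n < e (cc e g k) :=
    ⟨n + 1, lt_of_lt_of_le (Nat.lt_succ_self n)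
      (((cc_mono e g).le_apply (x := n + 1)).trans (he.le_apply))⟩
  set K := Nat.find hex with hK
  have hK1 : n < e (cc e g K) := Nat.find_spec hex
  have hK0 : K ≠ 0 := by
    intro h0
    rw [h0] at hK1
    have : cc e g 0 = 0 := rfl
    rw [this, he0] at hK1
    omega
  obtain ⟨k, hk⟩ : ∃ k, K = k + 1 := ⟨K - 1, by omega⟩
  have hk2 : e (cc e g k) ≤ n := by
    have := Nat.find_min hex (m := k) (by omega)
    omega
  rw [hk] at hK1
  have hg := cc_spec he g (k := k + 1) (n := n) hK1.le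
  refine ⟨(k + 2) % 3, Nat.mod_lt _ (by norm_num), ?_⟩
  have h1 := nu_spec (ZZ_inf he g (Nat.mod_lt (k + 2) (by norm_num))) n
  obtain ⟨k', h2, h3, h4⟩ := ZZ_block he g h1.1
  have h5 : k ≤ k' := by
    by_contra hc
    have h6 : cc e g (k' + 1) ≤ cc e g k := (cc_mono e g).monotone (by omega)
    have h7 := he.monotone h6
    have h8 := h1.2
    omega
  have h6 : k + 2 ≤ k' := by omega
  have h7 : cc e g (k + 2) ≤ cc e g k' := (cc_mono e g).monotone h6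
  have h8 := he.monotone h7
  have h9 : cc e g (k + 1 + 1) = cc e g (k + 2) := rfl
  rw [h9] at hg
  omega

theorem gd {J : Set (Set Can)} (hJ : IsIdeal J) {g : ℕ → ℕ} (hg : Bs g ∉ J) :
    GroupwiseDense {Z | Z.Infinite ∧ Bs (nu Z) ∉ J} := by
  refine ⟨fun Z hZ => hZ.1, ?_, ?_⟩
  · rintro Z ⟨h1, h2⟩ Z' h3 h4
    refine ⟨h3, fun hc => h2 ?_⟩
    exact hJ.2.1 _ hc _ (Bs_mono (nu_mono h3 h4))
  · intro e he he0
    by_contra hcon
    push Not at hcon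
    have h1 : ∀ i < 3, Bs (nu (ZZ e g i)) ∈ J := by
      intro i hi
      by_contra hc
      exact hcon (SS e g i) (SS_inf e g hi) ⟨ZZ_inf he g hi, hc⟩
    apply hg
    have h2 := hJ.2.2 _ (h1 0 (by norm_num)) _ (hJ.2.2 _ (h1 1 (by norm_num)) _
      (h1 2 (by norm_num)))
    refine hJ.2.1 _ h2 _ ?_
    have h3 : Bs g ⊆ Bs (nu (ZZ e g 0)) ∪
        Bs (fun n => max (nu (ZZ e g 1) n) (nu (ZZ e g 2) n)) := by
      apply Bs_cover
      intro n
      obtain ⟨i, hi, hi'⟩ := cover3 he he0 g n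
      interval_cases i
      · exact Or.inl hi'
      · exact Or.inr (hi'.trans (le_max_left _ _))
      · exact Or.inr (hi'.trans (le_max_right _ _))
    have h4 : Bs (fun n => max (nu (ZZ e g 1) n) (nu (ZZ e g 2) n)) ⊆
        Bs (nu (ZZ e g 1)) ∪ Bs (nu (ZZ e g 2)) := by
      apply Bs_cover
      intro n
      exact le_total (nu (ZZ e g 2) n) (nu (ZZ e g 1) n) |>.imp (fun h => (max_eq_left h).le)
        (fun h => (max_eq_right h).le)
    exact h3.trans (union_subset_union_right _ h4)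

theorem card_small {γ : Ordinal.{0}} {β : Type} (f : Ordinal.{0} → β) :
    Cardinal.mk (f '' Iio γ) ≤ γ.card := by
  have h1 := Cardinal.mk_image_le_lift (f := f) (s := Iio γ)
  rw [Cardinal.mk_Iio_ordinal] at h1
  rw [← Cardinal.lift_le.{1}]
  simpa using h1

theorem no_chain {γ : Ordinal.{0}} (hγ : Order.IsSuccLimit γ) (hc : γ.card < gNum) :
    ¬ HasSeq IsIdeal ND γ := by
  rintro ⟨J, h1, h2, h3⟩
  set f : Ordinal.{0} → Set (Set ℕ) := fun α => {Z | Z.Infinite ∧ Bs (nu Z) ∉ J α} with hf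
  have hgd : ∀ G ∈ f '' Iio γ, GroupwiseDense G := by
    rintro G ⟨α, hα, rfl⟩
    have hα' : Order.succ α < γ := hγ.succ_lt hα
    obtain ⟨A, hA, hA'⟩ := exists_of_ssubset (h3 α (Order.succ α) (Order.lt_succ α) hα')
    have hND : A ∈ ND := (h2 A).2 ⟨_, hα', hA⟩
    obtain ⟨g, hg⟩ := hND
    exact gd (h1 α hα) (g := g) (fun hc' => hA' ((h1 α hα).2.1 _ hc' _ hg))
  have hne : ⋂₀ (f '' Iio γ) ≠ ∅ := by
    intro he
    have h4 : gNum ≤ Cardinal.mk (f '' Iio γ) := csInf_le' ⟨f '' Iio γ, rfl, hgd, he⟩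
    exact absurd (h4.trans (card_small f)) (not_le.mpr hc)
  rw [← nonempty_iff_ne_empty] at hne
  obtain ⟨Z, hZ⟩ := hne
  rw [mem_sInter] at hZ
  obtain ⟨α, hα, hα'⟩ := (h2 _).1 (Bs_mem (nu Z))
  have h5 := hZ (f α) ⟨α, hα, rfl⟩
  exact h5.2 hα'

theorem bNum_spec : ∃ F : Set (ℕ → ℕ), Cardinal.mk F = bNum ∧ ¬ ∃ g, ∀ f ∈ F, LeStar f g := by
  have hne : {κ : Cardinal.{0} | ∃ F : Set (ℕ → ℕ), Cardinal.mk F = κ ∧
      ¬ ∃ g, ∀ f ∈ F, LeStar f g}.Nonempty := by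
    refine ⟨_, univ, rfl, ?_⟩
    rintro ⟨g, hg⟩
    obtain ⟨N, hN⟩ := hg (fun n => g n + 1) (mem_univ _)
    have h : g N + 1 ≤ g N := hN N le_rfl
    omega
  exact csInf_mem hne

theorem bounded_of_lt {F : Set (ℕ → ℕ)} (hF : Cardinal.mk F < bNum) :
    ∃ g, ∀ f ∈ F, LeStar f g := by
  by_contra hc
  exact absurd (csInf_le' ⟨F, rfl, hc⟩ : bNum ≤ Cardinal.mk F) (not_le.mpr hF)

theorem aleph0_le_bNum : Cardinal.aleph0 ≤ bNum := by
  by_contra hc
  push Not at hc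
  obtain ⟨F, hF, hF'⟩ := bNum_spec
  rw [← hF, Cardinal.lt_aleph0_iff_set_finite] at hc
  apply hF'
  refine ⟨hc.toFinset.sup id, fun f hf => ⟨0, fun n _ => ?_⟩⟩
  exact (Finset.le_sup (f := id) (hc.mem_toFinset.mpr hf) : f ≤ _) n

theorem chainA : ∃ γ ≤ bNum.ord, Order.IsSuccLimit γ ∧ HasSeq SubClosed ND γ := by
  obtain ⟨F, hF, hF'⟩ := bNum_spec
  have heq : Nonempty (bNum.ord.ToType ≃ F) := by
    rw [← Cardinal.eq, Cardinal.mk_ord_toType, hF]
  obtain ⟨e⟩ := heq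
  set δ := bNum.ord with hδ
  have hlim : Order.IsSuccLimit δ := Cardinal.isSuccLimit_ord aleph0_le_bNum
  classical
  set u : Ordinal.{0} → (ℕ → ℕ) := fun ξ =>
    if h : ξ < δ then (e (Ordinal.ToType.mk ⟨ξ, h⟩)).1 else 0 with hu
  have hu1 : ∀ f ∈ F, ∃ ξ < δ, u ξ = f := by
    intro f hf
    refine ⟨(Ordinal.ToType.mk.symm (e.symm ⟨f, hf⟩)).1,
      (Ordinal.ToType.mk.symm (e.symm ⟨f, hf⟩)).2, ?_⟩
    have h1 : ((Ordinal.ToType.mk.symm (e.symm ⟨f, hf⟩)).1 : Ordinal) < δ :=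
      (Ordinal.ToType.mk.symm (e.symm ⟨f, hf⟩)).2
    simp only [hu]
    rw [dif_pos h1]
    simp
  have hne : ∀ A ∈ ND, {ξ | ξ < δ ∧ ¬ Bs (u ξ) ⊆ A}.Nonempty := by
    rintro A ⟨g, hg⟩
    by_contra hc
    rw [not_nonempty_iff_eq_empty] at hc
    apply hF'
    refine ⟨g, fun f hf => ?_⟩
    obtain ⟨ξ, hξ, rfl⟩ := hu1 f hf
    apply le_of_Bs
    by_contra h2
    have h3 : ξ ∈ {ξ | ξ < δ ∧ ¬ Bs (u ξ) ⊆ A} := ⟨hξ, fun h4 => h2 (h4.trans hg)⟩
    rw [hc] at h3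
    exact h3
  refine collapse (r := fun A => sInf {ξ | ξ < δ ∧ ¬ Bs (u ξ) ⊆ A}) hlim ?_ ?_ ?_
  · intro A hA
    exact (csInf_mem (hne A hA)).1
  · intro ξ hξ
    have h1 : Cardinal.mk (u '' Iio ξ) < bNum :=
      lt_of_le_of_lt (card_small u) (Cardinal.lt_ord.1 hξ)
    obtain ⟨g, hg⟩ := bounded_of_lt h1
    refine ⟨Bs g, Bs_mem g, ?_⟩
    apply le_csInf (hne _ (Bs_mem g))
    rintro η ⟨_, hη⟩
    by_contra hlt
    push Not at hlt
    exact hη (Bs_mono (hg _ ⟨η, hlt, rfl⟩))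
  · rintro s _ A ⟨h1, h2⟩ B hB
    have hBN : B ∈ ND := ND_ideal.1.1.2.1 A h1 B hB
    refine ⟨hBN, le_trans ?_ h2⟩
    have h3 := csInf_mem (hne A h1)
    apply csInf_le'
    exact ⟨h3.1, fun h4 => h3.2 (h4.trans hB)⟩

theorem partA (h : bNum < gNum) : LeastLT (HasSeq SubClosed ND) (HasSeq IsIdeal ND) := by
  obtain ⟨γ, hγ, hl, hs⟩ := chainA
  refine ⟨γ, hl, hs, ?_⟩
  intro γ' hγ' hl'
  apply no_chain hl'
  have h1 : γ'.card ≤ bNum.ord.card := Ordinal.card_le_card (hγ'.trans hγ)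
  rw [Cardinal.card_ord] at h1
  exact lt_of_le_of_lt h1 h

end Pool.Agent.V11147.Cof
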