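import Pool.Agent.V11147.CofC

namespace Pool.Agent.V11147.Cof

open Set

/-- the ideal of the sets that are countable on one half and non-dominating on the other half -/
def MX : Set (Set Can) :=
  {A | (A ∩ {x | x 0 = false}).Countable ∧ A ∩ {x | x 0 = true} ∈ ND}

theorem split2 (A : Set Can) : A = A ∩ {x | x 0 = false} ∪ A ∩ {x | x 0 = true} := by
  ext x
  simp only [mem_union, mem_inter_iff, mem_ofPred_eq]
  rcases Bool.eq_false_or_eq_true (x 0) with h | h <;> simp [h]

theorem MX_ideal : IsBorelSigmaIdeal MX := by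
  refine ⟨⟨⟨?_, ?_, ?_⟩, ?_⟩, ?_⟩
  · refine ⟨by simp, ?_⟩
    rw [empty_inter]
    exact ND_ideal.1.1.1
  · rintro A ⟨h1, h2⟩ B hB
    exact ⟨h1.mono (inter_subset_inter_left _ hB),
      ND_ideal.1.1.2.1 _ h2 _ (inter_subset_inter_left _ hB)⟩
  · rintro A ⟨h1, h2⟩ B ⟨h3, h4⟩
    refine ⟨?_, ?_⟩
    · rw [union_inter_distrib_right]
      exact h1.union h3
    · rw [union_inter_distrib_right]
      exact ND_ideal.1.1.2.2 _ h2 _ h4
  · intro f hf
    refine ⟨?_, ?_⟩
    · rw [iUnion_inter]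
      exact countable_iUnion fun n => (hf n).1
    · rw [iUnion_inter]
      exact ND_ideal.1.2 _ fun n => (hf n).2
  · rintro A ⟨h1, h2⟩
    obtain ⟨g, hg⟩ := h2
    refine ⟨A ∩ {x | x 0 = false} ∪ Bs g ∩ {x | x 0 = true}, ⟨?_, ?_⟩, ?_, ?_⟩
    · refine h1.mono ?_
      rintro x ⟨hx | hx, hx'⟩
      · exact hx
      · have h3 : x 0 = true := hx.2
        have h4 : x 0 = false := hx'
        rw [h3] at h4
        exact absurd h4 (by simp)
    · refine ⟨g, ?_⟩
      rintro x ⟨hx | hx, hx'⟩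
      · have h3 : x 0 = false := hx.2
        have h4 : x 0 = true := hx'
        rw [h3] at h4
        exact absurd h4 (by simp)
      · exact hx.1
    · intro x hx
      rw [split2 A] at hx
      rcases hx with hx | hx
      · exact Or.inl hx
      · exact Or.inr ⟨hg hx, hx.2⟩
    · have h3 : MeasurableSet (A ∩ {x : Can | x 0 = false}) := h1.measurableSet
      have h4 : MeasurableSet (Bs g) := by
        have := meas_Bs g
        rw [← (inferInstance : BorelSpace Can).measurable_eq] at this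
        exact this
      have h5 : MeasurableSet (A ∩ {x : Can | x 0 = false} ∪ Bs g ∩ {x | x 0 = true}) :=
        h3.union (h4.inter (meas_bit 0))
      rw [← (inferInstance : BorelSpace Can).measurable_eq]
      exact h5

theorem pos_of_limit {γ : Ordinal.{0}} (h : Order.IsSuccLimit γ) : 0 < γ := by
  have := h.1
  rw [isMin_iff_eq_bot] at this
  exact bot_lt_iff_ne_bot.mpr this

theorem limit_omega1 : Order.IsSuccLimit (Ordinal.omega.{0} 1) := by
  rw [← Cardinal.ord_aleph]
  exact Cardinal.isSuccLimit_ord (Cardinal.aleph0_le_aleph 1)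

theorem MX_short : HasSeq IsSigmaIdeal MX (Ordinal.omega 1) := by
  obtain ⟨r, hr1, hr2⟩ := exists_rank
  set r' : Can → Ordinal.{0} := fun x => r (fun n => x (n + 1)) with hr'
  refine ⟨fun α => {A | A ∈ MX ∧ ∀ x ∈ A, x 0 = false → r' x ≤ α}, ?_, ?_, ?_⟩
  · intro α _
    refine ⟨⟨⟨MX_ideal.1.1.1, by simp⟩, ?_, ?_⟩, ?_⟩
    · rintro A ⟨h1, h2⟩ B hB
      exact ⟨MX_ideal.1.1.2.1 _ h1 _ hB, fun x hx => h2 x (hB hx)⟩
    · rintro A ⟨h1, h2⟩ B ⟨h3, h4⟩
      refine ⟨MX_ideal.1.1.2.2 _ h1 _ h3, ?_⟩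
      rintro x (hx | hx)
      · exact h2 x hx
      · exact h4 x hx
    · intro f hf
      refine ⟨MX_ideal.1.2 _ fun n => (hf n).1, ?_⟩
      intro x hx
      rw [mem_iUnion] at hx
      obtain ⟨n, hn⟩ := hx
      exact (hf n).2 x hn
  · intro A
    constructor
    · intro hA
      rcases (A ∩ {x | x 0 = false}).eq_empty_or_nonempty with hE | hE
      · refine ⟨0, Ordinal.omega_pos 1, hA, ?_⟩
        intro x hx h0
        have : x ∈ A ∩ {x | x 0 = false} := ⟨hx, h0⟩
        rw [hE] at this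
        exact this.elim
      · obtain ⟨f, hf⟩ := hA.1.exists_eq_range hE
        refine ⟨⨆ n, r' (f n), Ordinal.iSup_lt_omega_one (fun n => hr1 _), hA, ?_⟩
        intro x hx h0
        have h1 : x ∈ A ∩ {x | x 0 = false} := ⟨hx, h0⟩
        rw [hf] at h1
        obtain ⟨n, rfl⟩ := h1
        exact Ordinal.le_iSup (fun n => r' (f n)) n
    · rintro ⟨α, _, hA, _⟩
      exact hA
  · intro α β hαβ hβ
    rw [ssubset_iff_of_subset]
    · obtain ⟨y, hy⟩ := hr2 β hβ
      set x : Can := fun n => Nat.casesOn n false (fun m => y m) with hx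
      have hx0 : x 0 = false := rfl
      have hxr : r' x = β := hy
      refine ⟨{x}, ⟨⟨?_, ?_⟩, ?_⟩, ?_⟩
      · exact (countable_singleton x).mono inter_subset_left
      · have h1 : ({x} : Set Can) ∩ {x | x 0 = true} = ∅ := by
          ext z
          simp only [mem_inter_iff, mem_singleton_iff, mem_ofPred_eq, mem_empty_iff_false,
            iff_false, not_and]
          rintro rfl
          rw [hx0]
          simp
        rw [h1]
        exact ND_ideal.1.1.1
      · intro z hz _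
        rw [mem_singleton_iff] at hz
        rw [hz, hxr]
      · rintro ⟨_, h⟩
        have := h x (mem_singleton x) hx0
        rw [hxr] at this
        exact absurd hαβ (not_lt.mpr this)
    · rintro A ⟨h1, h2⟩
      exact ⟨h1, fun x hx h0 => (h2 x hx h0).trans hαβ.le⟩

theorem countable_mem {J : Set (Set Can)} (hJ : IsSigmaIdeal J) (h : ∀ x, {x} ∈ J) {A : Set Can}
    (hA : A.Countable) : A ∈ J := by
  rcases A.eq_empty_or_nonempty with hE | hE
  · rw [hE]
    exact hJ.1.1
  · obtain ⟨f, hf⟩ := hA.exists_eq_range hE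
    have h5 : A = ⋃ n, {f n} := by
      rw [hf]
      ext x
      simp [eq_comm]
    rw [h5]
    exact hJ.2 _ (fun n => h (f n))

theorem MX_plus_lower {γ : Ordinal.{0}} (hγ : Order.IsSuccLimit γ) (hc : γ.card < gNum) :
    ¬ HasSeqPlus MX γ := by
  rintro ⟨J, h1, h2, h3, h4⟩
  have h0 := pos_of_limit hγ
  have hsing : ∀ α < γ, ∀ x, {x} ∈ J α := by
    intro α hα x
    rcases eq_or_lt_of_le (zero_le (a := α)) with h | h
    · rw [← h]
      exact h2 x
    · exact (h4 0 α h hα).1 (h2 x)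
  apply no_chain hγ hc
  refine ⟨fun α => {A | A ∈ ND ∧ A ∩ {x | x 0 = true} ∈ J α}, ?_, ?_, ?_⟩
  · intro α hα
    refine ⟨⟨ND_ideal.1.1.1, ?_⟩, ?_, ?_⟩
    · rw [empty_inter]
      exact (h1 α hα).1.1
    · rintro A ⟨h5, h6⟩ B hB
      exact ⟨ND_ideal.1.1.2.1 _ h5 _ hB,
        (h1 α hα).1.2.1 _ h6 _ (inter_subset_inter_left _ hB)⟩
    · rintro A ⟨h5, h6⟩ B ⟨h7, h8⟩
      refine ⟨ND_ideal.1.1.2.2 _ h5 _ h7, ?_⟩
      rw [union_inter_distrib_right]
      exact (h1 α hα).1.2.2 _ h6 _ h8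
  · intro A
    constructor
    · intro hA
      have h5 : A ∩ {x | x 0 = true} ∈ MX := by
        refine ⟨?_, ?_⟩
        · have : A ∩ {x | x 0 = true} ∩ {x | x 0 = false} = ∅ := by
            ext z
            simp only [mem_inter_iff, mem_ofPred_eq, mem_empty_iff_false, iff_false, not_and]
            rintro ⟨_, h5⟩
            rw [h5]
            simp
          rw [this]
          exact countable_empty
        · exact ND_ideal.1.1.2.1 _ hA _ (inter_subset_left.trans inter_subset_left)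
      obtain ⟨α, hα, hα'⟩ := (h3 _).1 h5
      exact ⟨α, hα, hA, hα'⟩
    · rintro ⟨α, _, hA, _⟩
      exact hA
  · intro α β hαβ hβ
    have hss := h4 α β hαβ hβ
    rw [ssubset_iff_of_subset]
    · obtain ⟨B, hB, hB'⟩ := exists_of_ssubset hss
      have hBM : B ∈ MX := (h3 B).2 ⟨β, hβ, hB⟩
      refine ⟨B ∩ {x | x 0 = true}, ⟨hBM.2, ?_⟩, ?_⟩
      · exact (h1 β hβ).1.2.1 _ hB _ (inter_subset_left.trans inter_subset_left)
      · rintro ⟨_, h5⟩
        rw [inter_assoc, inter_self] at h5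
        apply hB'
        rw [split2 B]
        exact (h1 α (hαβ.trans hβ)).1.2.2 _
          (countable_mem (h1 α (hαβ.trans hβ)) (hsing α (hαβ.trans hβ)) hBM.1) _ h5
    · rintro A ⟨h5, h6⟩
      exact ⟨h5, hss.1 h6⟩

end Pool.Agent.V11147.Cof
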