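import Pool.Agent.V11147.CofD

namespace Pool.Agent.V11147.Cof

open Set

/-- the running maximum of a sequence of functions -/
def GG (g : ℕ → ℕ → ℕ) (n : ℕ) : ℕ → ℕ := (Finset.range (n + 1)).sup g

theorem le_GG (g : ℕ → ℕ → ℕ) {m n : ℕ} (h : m ≤ n) (k : ℕ) : g m k ≤ GG g n k :=
  (Finset.le_sup (f := g) (Finset.mem_range.mpr (by omega)) : g m ≤ GG g n) k

/-- a fast sequence -/
def ks (kk : ℕ → ℕ → ℕ) : ℕ → ℕ
  | 0 => kk 0 1
  | n + 1 => kk (n + 1) (ks kk n + 2)

theorem avoid {h : ℕ → ℕ} {g : ℕ → ℕ → ℕ} (hg : ∀ n, ¬ LeStar h (GG g n)) (c : ℕ → Can) :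
    ∃ x : Can, x 0 = true ∧ x ∈ Bs h ∧ (∀ n, x ∉ Bs (g n)) ∧ ∀ n, x ≠ c n := by
  classical
  have h1 : ∀ n M, ∃ k, M ≤ k ∧ GG g n k < h k := by
    intro n M
    by_contra hc
    push Not at hc
    exact hg n ⟨M, fun k hk => hc k hk⟩
  choose kk hk1 hk2 using h1
  set s := ks kk with hs
  have hs0 : 1 ≤ s 0 := hk1 0 1
  have hss : ∀ n, s n + 2 ≤ s (n + 1) := fun n => hk1 (n + 1) (s n + 2)
  have hmono : StrictMono s := strictMono_nat_of_lt_succ fun n => by have := hss n; omega
  have hsg : ∀ n, GG g n (s n) < h (s n) := by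
    intro n
    rcases n with _ | n
    · exact hk2 0 1
    · exact hk2 (n + 1) (s n + 2)
  set f : ℕ → ℕ := fun m => if hm : ∃ n, s n = m then GG g hm.choose m
    else GG g m m + (Finset.range (m + 1)).sup (fun i => dec (c i) m) + 1 with hf
  have hf1 : ∀ n, f (s n) = GG g n (s n) := by
    intro n
    have hm : ∃ n', s n' = s n := ⟨n, rfl⟩
    have h2 : f (s n) = GG g hm.choose (s n) := dif_pos hm
    rw [h2, hmono.injective hm.choose_spec]
  have hf2 : ∀ m, (¬ ∃ n, s n = m) →
      f m = GG g m m + (Finset.range (m + 1)).sup (fun i => dec (c i) m) + 1 := by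
    intro m hm
    exact dif_neg hm
  set x : Can := fun n => decide (n = 0 ∨ (Nat.unpair n).2 = f (Nat.unpair n).1) with hx
  have hdec : ∀ k, 1 ≤ k → dec x k = f k := by
    intro k hk
    unfold dec
    have : {j | x (Nat.pair k j) = true} = {f k} := by
      ext j
      have h3 : k ≤ Nat.pair k j := Nat.left_le_pair k j
      have h4 : Nat.pair k j ≠ 0 := by omega
      simp [hx, h4]
    rw [this]
    exact csInf_singleton _
  have hsn : ∀ n, n + 1 ≤ s n := by
    intro n
    induction n with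
    | zero => exact hs0
    | succ n ih => have := hss n; omega
  refine ⟨x, by simp [hx], ?_, ?_, ?_⟩
  · intro N
    refine ⟨s N, by have := hsn N; omega, ?_⟩
    rw [hdec _ (by have := hsn N; omega), hf1]
    exact hsg N
  · intro n hn
    obtain ⟨k, hk, hk'⟩ := hn (max (n + 1) (s n))
    have hk3 : n + 1 ≤ k := le_trans (le_max_left _ _) hk
    have hk4 : s n ≤ k := le_trans (le_max_right _ _) hk
    rw [hdec k (by omega)] at hk'
    by_cases hm : ∃ m, s m = k
    · obtain ⟨m, rfl⟩ := hm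
      rw [hf1] at hk'
      have h5 : n ≤ m := hmono.le_iff_le.1 hk4
      have := le_GG g h5 (s m)
      omega
    · rw [hf2 k hm] at hk'
      have := le_GG g (show n ≤ k by omega) k
      omega
  · intro n hn
    have h5 : ¬ ∃ m, s m = s n + 1 := by
      rintro ⟨m, hm⟩
      rcases lt_trichotomy m n with h6 | h6 | h6
      · have := hmono h6
        omega
      · rw [h6] at hm
        omega
      · have h7 := hmono.monotone (show n + 1 ≤ m by omega)
        have := hss n
        omega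
    have h6 := hf2 _ h5
    rw [← hdec _ (by omega)] at h6
    have h7 : dec (c n) (s n + 1) ≤
        (Finset.range (s n + 1 + 1)).sup (fun i => dec (c i) (s n + 1)) := by
      have := hsn n
      exact Finset.le_sup (f := fun i => dec (c i) (s n + 1)) (Finset.mem_range.mpr (by omega))
    rw [hn] at h6
    omega

/-- finite maxima of members of `U` are dominating -/
def Gen (U : Set (ℕ → ℕ)) : Prop :=
  ∀ h : ℕ → ℕ, ∃ F : Finset (ℕ → ℕ), (F : Set (ℕ → ℕ)) ⊆ U ∧ LeStar h (F.sup id)

/-- `A` is covered by countably many of the sets coded by members of `U` and a countable set -/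
def Cov (U : Set (ℕ → ℕ)) (A : Set Can) : Prop :=
  ∃ S : Set (ℕ → ℕ), S ⊆ U ∧ S.Countable ∧ ∃ C : Set Can, C.Countable ∧
    A ⊆ (⋃ g ∈ S, Bs g) ∪ C

open Classical in
theorem GG_eq (g : ℕ → ℕ → ℕ) (n : ℕ) :
    GG g n = (((Finset.range (n + 1)).image g).sup id) := by
  rw [Finset.sup_image]
  rfl

theorem exists_uncov {U : Set (ℕ → ℕ)} (hU : ¬ Gen U) : ∃ A ∈ MX, ¬ Cov U A := by
  classical
  unfold Gen at hU
  push Not at hU
  obtain ⟨h, hh⟩ := hU
  refine ⟨Bs h ∩ {x | x 0 = true}, ⟨?_, ?_⟩, ?_⟩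
  · have : Bs h ∩ {x | x 0 = true} ∩ {x | x 0 = false} = ∅ := by
      ext z
      simp only [mem_inter_iff, mem_ofPred_eq, mem_empty_iff_false, iff_false, not_and]
      rintro ⟨_, h5⟩
      rw [h5]
      simp
    rw [this]
    exact countable_empty
  · exact ⟨h, inter_subset_left.trans inter_subset_left⟩
  · rintro ⟨S, hS, hSc, C, hC, hcov⟩
    obtain ⟨c, hc⟩ := countable_iff_exists_subset_range.1 hC
    rcases S.eq_empty_or_nonempty with hE | hE
    · have hg : ∀ n, ¬ LeStar h (GG (fun _ _ => 0) n) := by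
        intro n hn
        refine hh ∅ (by simp) ?_
        obtain ⟨N, hN⟩ := hn
        refine ⟨N, fun k hk => ?_⟩
        have h2 := hN k hk
        have h3 : GG (fun _ _ => 0) n k = 0 := by
          unfold GG
          simp [Finset.sup_apply]
        omega
      obtain ⟨x, hx0, hx1, _, hx3⟩ := avoid hg c
      rcases hcov ⟨hx1, hx0⟩ with h4 | h4
      · rw [hE] at h4
        simp at h4
      · obtain ⟨n, hn⟩ := hc h4
        exact hx3 n hn.symm
    · obtain ⟨g, hg⟩ := hSc.exists_eq_range hE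
      have hg' : ∀ n, ¬ LeStar h (GG g n) := by
        intro n
        rw [GG_eq]
        apply hh
        intro u hu
        rw [Finset.mem_coe, Finset.mem_image] at hu
        obtain ⟨i, _, rfl⟩ := hu
        apply hS
        rw [hg]
        exact mem_range_self i
      obtain ⟨x, hx0, hx1, hx2, hx3⟩ := avoid hg' c
      rcases hcov ⟨hx1, hx0⟩ with h4 | h4
      · rw [mem_iUnion₂] at h4
        obtain ⟨u, hu, hxu⟩ := h4
        rw [hg] at hu
        obtain ⟨n, rfl⟩ := hu
        exact hx2 n hxu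
      · obtain ⟨n, hn⟩ := hc h4
        exact hx3 n hn.symm

theorem Bs_sup (F : Finset (ℕ → ℕ)) : Bs (F.sup id) ⊆ ⋃ g ∈ (F : Set (ℕ → ℕ)), Bs g := by
  classical
  induction F using Finset.induction_on with
  | empty =>
    intro x hx
    obtain ⟨k, _, hk⟩ := hx 0
    have : (∅ : Finset (ℕ → ℕ)).sup id k = 0 := rfl
    omega
  | insert a F ha ih =>
    have h1 : Bs ((insert a F).sup id) ⊆ Bs a ∪ Bs (F.sup id) := by
      apply Bs_cover
      intro n
      rw [Finset.sup_insert]
      show a n ⊔ (F.sup id) n ≤ a n ∨ a n ⊔ (F.sup id) n ≤ (F.sup id) n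
      rcases le_total (a n) ((F.sup id) n) with h2 | h2
      · right
        rw [sup_eq_right.mpr h2]
      · left
        rw [sup_eq_left.mpr h2]
    refine h1.trans ?_
    intro x hx
    rw [mem_iUnion₂]
    rcases hx with hx | hx
    · exact ⟨a, by simp, hx⟩
    · have := ih hx
      rw [mem_iUnion₂] at this
      obtain ⟨u, hu, hu'⟩ := this
      refine ⟨u, ?_, hu'⟩
      rw [Finset.mem_coe] at hu ⊢
      exact Finset.mem_insert_of_mem hu

theorem Cov_mono {U V : Set (ℕ → ℕ)} (h : U ⊆ V) {A : Set Can} (hA : Cov U A) : Cov V A := by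
  obtain ⟨S, h1, h2⟩ := hA
  exact ⟨S, h1.trans h, h2⟩

theorem Cov_countable {U : Set (ℕ → ℕ)} {f : ℕ → Set Can} (h : ∀ n, Cov U (f n)) :
    Cov U (⋃ n, f n) := by
  choose S h1 h2 C h3 h4 using h
  refine ⟨⋃ n, S n, iUnion_subset h1, countable_iUnion h2, ⋃ n, C n, countable_iUnion h3, ?_⟩
  intro x hx
  rw [mem_iUnion] at hx
  obtain ⟨n, hn⟩ := hx
  rcases h4 n hn with h5 | h5
  · left
    rw [mem_iUnion₂] at h5 ⊢
    obtain ⟨u, hu, hu'⟩ := h5
    exact ⟨u, mem_iUnion.mpr ⟨n, hu⟩, hu'⟩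
  · right
    exact mem_iUnion.mpr ⟨n, h5⟩

theorem Cov_union {U : Set (ℕ → ℕ)} {A B : Set Can} (hA : Cov U A) (hB : Cov U B) :
    Cov U (A ∪ B) := by
  have : A ∪ B = ⋃ n : ℕ, (if n = 0 then A else B) := by
    ext x
    simp only [mem_union, mem_iUnion]
    constructor
    · rintro (h | h)
      · exact ⟨0, by simpa using h⟩
      · exact ⟨1, by simpa using h⟩
    · rintro ⟨n, hn⟩
      split_ifs at hn with h0
      · exact Or.inl hn
      · exact Or.inr hn
  rw [this]
  apply Cov_countable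
  intro n
  split_ifs
  · exact hA
  · exact hB

theorem Cov_sub {U : Set (ℕ → ℕ)} {A B : Set Can} (hA : Cov U A) (hB : B ⊆ A) : Cov U B := by
  obtain ⟨S, h1, h2, C, h3, h4⟩ := hA
  exact ⟨S, h1, h2, C, h3, hB.trans h4⟩

theorem Cov_of_countable (U : Set (ℕ → ℕ)) {A : Set Can} (hA : A.Countable) : Cov U A :=
  ⟨∅, empty_subset _, countable_empty, A, hA, subset_union_right⟩

end Pool.Agent.V11147.Cof
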