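import Pool.Agent.V11147.CofE

namespace Pool.Agent.V11147.Cof

open Set

theorem fin_bound {δ : Ordinal.{0}} (hδ : Order.IsSuccLimit δ) {u : Ordinal.{0} → ℕ → ℕ}
    (F : Finset (ℕ → ℕ)) (hF : (F : Set (ℕ → ℕ)) ⊆ u '' Iio δ) :
    ∃ α < δ, (F : Set (ℕ → ℕ)) ⊆ u '' Iio α := by
  classical
  induction F using Finset.induction_on with
  | empty => exact ⟨0, pos_of_limit hδ, by simp⟩
  | insert a F ha ih =>
    rw [Finset.coe_insert] at hF ⊢
    obtain ⟨α, hα, h⟩ := ih ((subset_insert _ _).trans hF)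
    obtain ⟨ξ, hξ, hξ'⟩ := hF (mem_insert a _)
    refine ⟨max α (Order.succ ξ), max_lt hα (hδ.succ_lt hξ), ?_⟩
    intro v hv
    rcases hv with hv | hv
    · rw [hv]
      exact ⟨ξ, mem_Iio.mpr (lt_of_lt_of_le (Order.lt_succ ξ) (le_max_right _ _)), hξ'⟩
    · obtain ⟨η, hη, hη'⟩ := h hv
      exact ⟨η, mem_Iio.mpr (lt_of_lt_of_le (mem_Iio.1 hη) (le_max_left _ _)), hη'⟩

/-- the least size of a set of functions whose finite maxima are dominating -/
noncomputable def dNum : Cardinal.{0} :=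
  sInf {κ | ∃ U : Set (ℕ → ℕ), Cardinal.mk U = κ ∧ Gen U}

theorem Gen_univ : Gen univ := by
  intro h
  exact ⟨{h}, subset_univ _, 0, fun n _ => by simp⟩

theorem dNum_spec : ∃ U : Set (ℕ → ℕ), Cardinal.mk U = dNum ∧ Gen U := by
  have hne : {κ : Cardinal.{0} | ∃ U : Set (ℕ → ℕ), Cardinal.mk U = κ ∧ Gen U}.Nonempty :=
    ⟨_, univ, rfl, Gen_univ⟩
  exact csInf_mem hne

theorem not_gen_of_lt {U : Set (ℕ → ℕ)} (hU : Cardinal.mk U < dNum) : ¬ Gen U := by
  intro hc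
  exact absurd (csInf_le' ⟨U, rfl, hc⟩ : dNum ≤ Cardinal.mk U) (not_le.mpr hU)

theorem aleph0_le_dNum : Cardinal.aleph0 ≤ dNum := by
  by_contra hc
  push Not at hc
  obtain ⟨U, hU, hU'⟩ := dNum_spec
  rw [← hU, Cardinal.lt_aleph0_iff_set_finite] at hc
  obtain ⟨F, hF, N, hN⟩ := hU' (fun n => hc.toFinset.sup id n + 1)
  have h1 : F ⊆ hc.toFinset := by
    intro v hv
    exact hc.mem_toFinset.mpr (hF hv)
  have h2 : F.sup id ≤ hc.toFinset.sup id := Finset.sup_mono h1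
  have h3 : hc.toFinset.sup id N + 1 ≤ F.sup id N := hN N le_rfl
  exact absurd (h3.trans (h2 N)) (Nat.not_succ_le_self _)

theorem MX_plus_exists : ∃ γ, Order.IsSuccLimit γ ∧ HasSeqPlus MX γ := by
  obtain ⟨F, hF, hF'⟩ := dNum_spec
  have heq : Nonempty (dNum.ord.ToType ≃ F) := by
    rw [← Cardinal.eq, Cardinal.mk_ord_toType, hF]
  obtain ⟨e⟩ := heq
  set δ := dNum.ord with hδ
  have hlim : Order.IsSuccLimit δ := Cardinal.isSuccLimit_ord aleph0_le_dNum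
  classical
  set u : Ordinal.{0} → (ℕ → ℕ) := fun ξ =>
    if h : ξ < δ then (e (Ordinal.ToType.mk ⟨ξ, h⟩)).1 else 0 with hu
  have hu1 : F ⊆ u '' Iio δ := by
    intro f hf
    have h1 : ((Ordinal.ToType.mk.symm (e.symm ⟨f, hf⟩)).1 : Ordinal) < δ :=
      (Ordinal.ToType.mk.symm (e.symm ⟨f, hf⟩)).2
    refine ⟨(Ordinal.ToType.mk.symm (e.symm ⟨f, hf⟩)).1, h1, ?_⟩
    simp only [hu]
    rw [dif_pos h1]
    simp
  have hcov : ∀ A ∈ MX, ∃ α < δ, Cov (u '' Iio α) A := by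
    rintro A ⟨h1, g, hg⟩
    obtain ⟨H, hH, hH'⟩ := hF' g
    obtain ⟨α, hα, hα'⟩ := fin_bound hlim H (hH.trans hu1)
    refine ⟨α, hα, H, hα', H.countable_toSet, _, h1, ?_⟩
    intro x hx
    rw [split2 A] at hx
    rcases hx with hx | hx
    · exact Or.inr hx
    · exact Or.inl (Bs_sup H (Bs_mono hH' (hg hx)))
  set r : Set Can → Ordinal.{0} := fun A => sInf {α | Cov (u '' Iio α) A} with hr
  have himg : ∀ {α β : Ordinal.{0}}, α ≤ β → u '' Iio α ⊆ u '' Iio β := fun h =>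
    image_mono (Iio_subset_Iio h)
  have hrle : ∀ A ∈ MX, ∀ s, r A ≤ s ↔ Cov (u '' Iio s) A := by
    intro A hA s
    obtain ⟨α, hα, hα'⟩ := hcov A hA
    constructor
    · intro h
      have h1 : r A ∈ {α | Cov (u '' Iio α) A} := csInf_mem ⟨α, hα'⟩
      exact Cov_mono (himg h) h1
    · intro h
      exact csInf_le' h
  obtain ⟨γ, _, hγ, hs⟩ := collapse (I := MX)
    (Q := fun J => IsSigmaIdeal J ∧ ∀ x, {x} ∈ J) (r := r) hlim (by
      intro A hA
      obtain ⟨α, hα, hα'⟩ := hcov A hA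
      exact lt_of_le_of_lt (csInf_le' hα') hα) (by
      intro ξ hξ
      have h1 : Cardinal.mk (u '' Iio ξ) < dNum :=
        lt_of_le_of_lt (card_small u) (Cardinal.lt_ord.1 hξ)
      obtain ⟨A, hA, hA'⟩ := exists_uncov (not_gen_of_lt h1)
      refine ⟨A, hA, ?_⟩
      by_contra hlt
      push Not at hlt
      exact hA' ((hrle A hA ξ).1 hlt.le)) (by
      intro s _
      have hEq : {A | A ∈ MX ∧ r A ≤ s} = {A | A ∈ MX ∧ Cov (u '' Iio s) A} := by
        ext A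
        simp only [mem_ofPred_eq]
        constructor
        · rintro ⟨h1, h2⟩
          exact ⟨h1, (hrle A h1 s).1 h2⟩
        · rintro ⟨h1, h2⟩
          exact ⟨h1, (hrle A h1 s).2 h2⟩
      rw [hEq]
      refine ⟨⟨⟨⟨MX_ideal.1.1.1, Cov_of_countable _ countable_empty⟩, ?_, ?_⟩, ?_⟩, ?_⟩
      · rintro A ⟨h1, h2⟩ B hB
        exact ⟨MX_ideal.1.1.2.1 _ h1 _ hB, Cov_sub h2 hB⟩
      · rintro A ⟨h1, h2⟩ B ⟨h3, h4⟩
        exact ⟨MX_ideal.1.1.2.2 _ h1 _ h3, Cov_union h2 h4⟩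
      · intro f hf
        exact ⟨MX_ideal.1.2 _ fun n => (hf n).1, Cov_countable fun n => (hf n).2⟩
      · intro x
        refine ⟨⟨(countable_singleton x).mono inter_subset_left, ?_⟩,
          Cov_of_countable _ (countable_singleton x)⟩
        refine ⟨fun k => dec x k + 1, ?_⟩
        rintro y ⟨hy, _⟩
        rw [mem_singleton_iff] at hy
        rw [hy]
        intro N
        exact ⟨N, le_rfl, Nat.lt_succ_self _⟩)
  obtain ⟨J, h1, h2, h3⟩ := hs
  exact ⟨γ, hγ, J, fun α hα => (h1 α hα).1, (h1 0 (pos_of_limit hγ)).2, h2, h3⟩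

theorem partC2 (h : Cardinal.aleph 1 < gNum) :
    LeastLT (HasSeq IsSigmaIdeal MX) (HasSeqPlus MX) := by
  refine ⟨Ordinal.omega 1, limit_omega1, MX_short, ?_⟩
  intro γ' hγ' hl'
  apply MX_plus_lower hl'
  have h1 : γ'.card ≤ (Ordinal.omega.{0} 1).card := Ordinal.card_le_card hγ'
  rw [Ordinal.card_omega] at h1
  exact lt_of_le_of_lt h1 h

end Pool.Agent.V11147.Cof
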