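import Pool.Agent.V11147.CofF

namespace Pool.Agent.V11147.Cof

open Set

theorem Ctb_short : HasSeq IsSigmaIdeal Ctb (Ordinal.omega 1) := by
  obtain ⟨r, hr1, hr2⟩ := exists_rank
  refine ⟨fun α => {A | A.Countable ∧ ∀ x ∈ A, r x ≤ α}, ?_, ?_, ?_⟩
  · intro α _
    refine ⟨⟨⟨countable_empty, by simp⟩, ?_, ?_⟩, ?_⟩
    · rintro A ⟨h1, h2⟩ B hB
      exact ⟨Set.Countable.mono hB h1, fun x hx => h2 x (hB hx)⟩
    · rintro A ⟨h1, h2⟩ B ⟨h3, h4⟩
      refine ⟨Set.Countable.union h1 h3, ?_⟩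
      rintro x (hx | hx)
      · exact h2 x hx
      · exact h4 x hx
    · intro f hf
      refine ⟨Set.countable_iUnion fun n => (hf n).1, ?_⟩
      intro x hx
      rw [mem_iUnion] at hx
      obtain ⟨n, hn⟩ := hx
      exact (hf n).2 x hn
  · intro A
    constructor
    · intro hA
      have hA' : A.Countable := hA
      rcases A.eq_empty_or_nonempty with hE | hE
      · exact ⟨0, Ordinal.omega_pos 1, hA', by rw [hE]; simp⟩
      · obtain ⟨f, hf⟩ := hA'.exists_eq_range hE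
        refine ⟨⨆ n, r (f n), Ordinal.iSup_lt_omega_one (fun n => hr1 (f n)), hA', ?_⟩
        intro x hx
        rw [hf] at hx
        obtain ⟨n, rfl⟩ := hx
        exact Ordinal.le_iSup (fun n => r (f n)) n
    · rintro ⟨α, _, hA, _⟩
      exact hA
  · intro α β hαβ hβ
    rw [ssubset_iff_of_subset]
    · obtain ⟨x, hx⟩ := hr2 β hβ
      refine ⟨{x}, ⟨countable_singleton x, ?_⟩, ?_⟩
      · intro y hy
        rw [mem_singleton_iff] at hy
        rw [hy, hx]
      · rintro ⟨_, h⟩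
        have := h x (mem_singleton x)
        rw [hx] at this
        exact absurd hαβ (not_lt.mpr this)
    · rintro A ⟨h1, h2⟩
      exact ⟨h1, fun x hx => (h2 x hx).trans hαβ.le⟩

theorem Ctb_plus {γ : Ordinal.{0}} (hγ : Order.IsSuccLimit γ) : ¬ HasSeqPlus Ctb γ := by
  rintro ⟨J, h1, h2, h3, h4⟩
  have h0 := pos_of_limit hγ
  have hone : Order.succ (0 : Ordinal.{0}) < γ := hγ.succ_lt h0
  have hss := h4 0 (Order.succ 0) (Order.lt_succ 0) hone
  apply hss.2
  intro A hA
  have hAC : A.Countable := (h3 A).2 ⟨_, hone, hA⟩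
  exact countable_mem (h1 0 h0) h2 hAC

end Pool.Agent.V11147.Cof
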