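import Mathlib

namespace Pool.Agent.V11147.Cub

/-- a latin cube of order 3 with coordinates indexed by `ι` -/
def Latin {ι : Type} [DecidableEq ι] (L : (ι → ZMod 3) → ZMod 3) : Prop :=
  ∀ (x : ι → ZMod 3) (j : ι), Function.Injective fun a => L (Function.update x j a)

theorem aff1 : ∀ g : ZMod 3 → ZMod 3, Function.Injective g →
    ∀ a, g a = g 0 + (g 1 - g 0) * a := by
  decide

theorem const_of_update {ι β : Type} [Fintype ι] [DecidableEq ι]
    (F : (ι → ZMod 3) → β) (h : ∀ x k a, F (Function.update x k a) = F x)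
    (x y : ι → ZMod 3) : F x = F y := by
  have key : ∀ S : Finset ι, F (S.piecewise x y) = F y := by
    intro S
    induction S using Finset.induction_on with
    | empty => rw [Finset.piecewise_empty]
    | insert a S _ ih => rw [Finset.piecewise_insert, h, ih]
  have := key Finset.univ
  rwa [Finset.piecewise_univ] at this

theorem aff2 (h : ZMod 3 → ZMod 3 → ZMod 3) (h1 : ∀ b, Function.Injective fun a => h a b)
    (h2 : ∀ a, Function.Injective fun b => h a b) (b b' : ZMod 3) :
    h 1 b - h 0 b = h 1 b' - h 0 b' := by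
  by_contra hne
  have hbb : b ≠ b' := by
    rintro rfl
    exact hne rfl
  have e1 : ∀ a, h a b = h 0 b + (h 1 b - h 0 b) * a := aff1 (fun a => h a b) (h1 b)
  have e2 : ∀ a, h a b' = h 0 b' + (h 1 b' - h 0 b') * a := aff1 (fun a => h a b') (h1 b')
  have h3 : (h 1 b - h 0 b) - (h 1 b' - h 0 b') ≠ 0 := sub_ne_zero.mpr hne
  set s := h 1 b - h 0 b with hs
  set s' := h 1 b' - h 0 b' with hs'
  obtain ⟨z, hz⟩ : ∃ z : ZMod 3, (s - s') * z = h 0 b' - h 0 b :=
    ⟨(s - s')⁻¹ * (h 0 b' - h 0 b), by rw [← mul_assoc, mul_inv_cancel₀ h3, one_mul]⟩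
  have h4 : h z b = h z b' := by
    rw [e1 z, e2 z]
    linear_combination hz
  exact hbb (h2 _ h4)

theorem affine {ι : Type} [Fintype ι] [DecidableEq ι] {L : (ι → ZMod 3) → ZMod 3}
    (hL : Latin L) : ∃ ε : ι → ZMod 3, (∀ j, ε j ≠ 0) ∧ ∀ x, L x = L 0 + ∑ j, ε j * x j := by
  set s : ι → (ι → ZMod 3) → ZMod 3 := fun j x =>
    L (Function.update x j 1) - L (Function.update x j 0) with hs
  have hconst : ∀ j x y, s j x = s j y := by
    intro j
    apply const_of_update
    intro x k a
    by_cases hkj : k = j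
    · subst hkj
      simp only [hs, Function.update_idem]
    · have h3 : L (Function.update (Function.update x k a) j 1) -
          L (Function.update (Function.update x k a) j 0) =
          L (Function.update (Function.update x k (x k)) j 1) -
          L (Function.update (Function.update x k (x k)) j 0) :=
        aff2 (fun p q => L (Function.update (Function.update x k q) j p))
        (fun b => hL _ j) (fun p => by
          have h4 := hL (Function.update x j p) k
          intro b b' hb
          apply h4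
          have hb' : L (Function.update (Function.update x k b) j p) =
            L (Function.update (Function.update x k b') j p) := hb
          rw [Function.update_comm hkj, Function.update_comm hkj] at hb'
          exact hb') a (x k)
      simp only [hs]
      rw [h3, Function.update_eq_self]
  refine ⟨fun j => s j 0, ?_, ?_⟩
  · intro j hj
    have h3 : L (Function.update 0 j 1) = L (Function.update 0 j 0) := sub_eq_zero.mp hj
    exact absurd (hL 0 j h3) (by decide)
  · intro x
    have key := const_of_update (fun x => L x - ∑ j, s j 0 * x j) (by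
      intro x k a
      have h3 : ∀ a, L (Function.update x k a) = L (Function.update x k 0) +
          (L (Function.update x k 1) - L (Function.update x k 0)) * a :=
        aff1 (fun a => L (Function.update x k a)) (hL x k)
      have h4 := h3 a
      have h5 := h3 (x k)
      rw [Function.update_eq_self] at h5
      have h6 : L (Function.update x k 1) - L (Function.update x k 0) = s k 0 := hconst k x 0
      rw [h6] at h4 h5
      have h7 : ∑ j, s j 0 * (Function.update x k a) j =
          ∑ j, s j 0 * x j + s k 0 * (a - x k) := by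
        have h8 : Function.update x k a = x + Pi.single k (a - x k) := by
          funext j
          by_cases hj : j = k
          · subst hj
            simp
          · simp [Function.update_of_ne hj, Pi.single_eq_of_ne hj]
        rw [h8]
        simp only [Pi.add_apply, mul_add, Finset.sum_add_distrib]
        congr 1
        rw [Finset.sum_eq_single k]
        · simp
        · intro j _ hj
          rw [Pi.single_eq_of_ne hj, mul_zero]
        · intro h
          exact absurd (Finset.mem_univ k) h
      show L (Function.update x k a) - ∑ j, s j 0 * (Function.update x k a) j =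
        L x - ∑ j, s j 0 * x j
      rw [h7, h4, h5]
      ring) x 0
    simp only [Pi.zero_apply, mul_zero, Finset.sum_const_zero, sub_zero] at key
    linear_combination key

theorem finite_check : ∀ a b c : ZMod 3, a ≠ 0 → b ≠ 0 → c ≠ 0 → a ≠ b → ∀ A B C : ZMod 3,
    ∃ t s : ZMod 3, s ≠ 0 ∧ A + a * t ≠ B + b * (t + s) ∧
      B + b * (t + s) ≠ C + c * (t + 2 * s) ∧ A + a * t ≠ C + c * (t + 2 * s) := by
  decide

/-- a transversal of a cuboid with `k` layers of order 3 -/
def Trans {ι : Type} {k : ℕ} (C : Fin k → (ι → ZMod 3) → ZMod 3) : Prop :=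
  ∃ (i : Fin 3 → Fin k) (x : Fin 3 → ι → ZMod 3), Function.Injective i ∧
    (∀ j, Function.Injective fun t => x t j) ∧ Function.Injective fun t => C (i t) (x t)

theorem inj3 {β : Type} (a b c : β) (hab : a ≠ b) (hbc : b ≠ c) (hac : a ≠ c) :
    Function.Injective (![a, b, c] : Fin 3 → β) := by
  intro s t hst
  fin_cases s <;> fin_cases t <;>
    first
      | rfl
      | exact absurd hst hab
      | exact absurd hst hbc
      | exact absurd hst hac
      | exact absurd hst.symm hab
      | exact absurd hst.symm hbc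
      | exact absurd hst.symm hac

/-- a transversal from three layers, a base point and a direction -/
theorem build {ι : Type} {k : ℕ} (C : Fin k → (ι → ZMod 3) → ZMod 3) (p q r : Fin k)
    (u d : ι → ZMod 3) (h1 : p ≠ q) (h2 : q ≠ r) (h3 : p ≠ r)
    (hd : ∀ j, d j ≠ 0) (h4 : C p u ≠ C q (u + d)) (h5 : C q (u + d) ≠ C r (u + 2 * d))
    (h6 : C p u ≠ C r (u + 2 * d)) : Trans C := by
  refine ⟨![p, q, r], ![u, u + d, u + 2 * d], inj3 _ _ _ h1 h2 h3, ?_, ?_⟩
  · intro j
    have h7 : (fun t => (![u, u + d, u + 2 * d] : Fin 3 → ι → ZMod 3) t j) =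
        ![u j, u j + d j, u j + 2 * d j] := by
      funext t
      fin_cases t <;> rfl
    rw [h7]
    have h8 : ∀ a b : ZMod 3, b ≠ 0 → a ≠ a + b ∧ a + b ≠ a + 2 * b ∧ a ≠ a + 2 * b := by
      decide
    obtain ⟨h9, h10, h11⟩ := h8 (u j) (d j) (hd j)
    exact inj3 _ _ _ h9 h10 h11
  · have h7 : (fun t => C ((![p, q, r] : Fin 3 → Fin k) t)
        ((![u, u + d, u + 2 * d] : Fin 3 → ι → ZMod 3) t)) =
        ![C p u, C q (u + d), C r (u + 2 * d)] := by
      funext t
      fin_cases t <;> rfl
    rw [h7]
    exact inj3 _ _ _ h4 h5 h6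

theorem sum_single {ι : Type} [Fintype ι] [DecidableEq ι] (ε : ι → ZMod 3) (j0 : ι)
    (z : ZMod 3) : ∑ j, ε j * (Pi.single j0 z : ι → ZMod 3) j = ε j0 * z := by
  rw [Finset.sum_eq_single j0]
  · simp
  · intro j _ hj
    rw [Pi.single_eq_of_ne hj, mul_zero]
  · intro h
    exact absurd (Finset.mem_univ j0) h

theorem T2 {ι : Type} [Fintype ι] [DecidableEq ι] [Nonempty ι] {k : ℕ}
    (C : Fin k → (ι → ZMod 3) → ZMod 3) (ε : ι → ZMod 3) (hε : ∀ j, ε j ≠ 0)
    (hL : ∀ i x, C i x = C i 0 + ∑ j, ε j * x j) (p q r : Fin k) (hpq : p ≠ q) (hqr : q ≠ r)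
    (hpr : p ≠ r) (hsum : C p 0 + (C q 0 + C r 0) = 0) : Trans C := by
  obtain ⟨j0⟩ := ‹Nonempty ι›
  have hval : ∀ d : ι → ZMod 3, C q (0 + d) = C q 0 + ∑ j, ε j * d j ∧
      C r (0 + 2 * d) = C r 0 + 2 * ∑ j, ε j * d j := by
    intro d
    constructor
    · rw [hL q, zero_add]
    · rw [hL r, zero_add, Finset.mul_sum]
      congr 1
      refine Finset.sum_congr rfl fun j _ => ?_
      show ε j * (2 * d j) = _
      ring
  have fin : ∀ a b c s : ZMod 3, a + (b + c) = 0 → a ≠ b + s →
      a ≠ b + s ∧ b + s ≠ c + 2 * s ∧ a ≠ c + 2 * s := by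
    decide
  obtain ⟨d, hd, hne⟩ : ∃ d : ι → ZMod 3, (∀ j, d j ≠ 0) ∧
      C p 0 ≠ C q 0 + ∑ j, ε j * d j := by
    by_cases hc : C p 0 = C q 0 + ∑ j, ε j * ε j
    · refine ⟨Function.update ε j0 (- ε j0), ?_, ?_⟩
      · intro j
        by_cases hj : j = j0
        · subst hj
          simpa using hε j
        · rw [Function.update_of_ne hj]
          exact hε j
      · have h8 : Function.update ε j0 (- ε j0) = ε + Pi.single j0 (ε j0) := by
          funext j
          by_cases hj : j = j0
          · subst hj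
            have h9 : ∀ a : ZMod 3, -a = a + a := by decide
            simpa using h9 (ε j)
          · simp [Function.update_of_ne hj, Pi.single_eq_of_ne hj]
        rw [h8]
        simp only [Pi.add_apply, mul_add, Finset.sum_add_distrib]
        rw [sum_single]
        intro h10
        rw [hc] at h10
        have h11 : ε j0 * ε j0 = 0 := by linear_combination -h10
        exact hε j0 (by simpa using h11)
    · exact ⟨ε, hε, hc⟩
  obtain ⟨h12, h13, h14⟩ := fin _ _ _ _ hsum hne
  obtain ⟨h15, h16⟩ := hval d
  exact build C p q r 0 d hpq hqr hpr hd (by rw [h15]; exact h12)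
    (by rw [h15, h16]; exact h13) (by rw [h16]; exact h14)

theorem T1 {ι : Type} [Fintype ι] [DecidableEq ι] {k : ℕ}
    (C : Fin k → (ι → ZMod 3) → ZMod 3) (ε : Fin k → ι → ZMod 3) (hε : ∀ i j, ε i j ≠ 0)
    (hL : ∀ i x, C i x = C i 0 + ∑ j, ε i j * x j) (p q r : Fin k) (hpq : p ≠ q) (hqr : q ≠ r)
    (hpr : p ≠ r) (j0 : ι) (hne : ε p j0 ≠ ε q j0) : Trans C := by
  obtain ⟨t, s, hs, h1, h2, h3⟩ := finite_check (ε p j0) (ε q j0) (ε r j0) (hε p j0) (hε q j0)
    (hε r j0) hne (C p 0) (C q 0 + (∑ j, ε q j - ε q j0)) (C r 0 + 2 * (∑ j, ε r j - ε r j0))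
  set u : ι → ZMod 3 := Pi.single j0 t with hu
  set d : ι → ZMod 3 := 1 + Pi.single j0 (s - 1) with hd
  have hdsum : ∀ i : Fin k, ∑ j, ε i j * d j = (∑ j, ε i j - ε i j0) + ε i j0 * s := by
    intro i
    simp only [hd, Pi.add_apply, Pi.one_apply, mul_add, mul_one, Finset.sum_add_distrib]
    rw [sum_single]
    ring
  have hA : C p u = C p 0 + ε p j0 * t := by rw [hL p, hu, sum_single]
  have hB : C q (u + d) = C q 0 + (∑ j, ε q j - ε q j0) + ε q j0 * (t + s) := by
    rw [hL q]
    simp only [Pi.add_apply, mul_add, Finset.sum_add_distrib]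
    rw [hdsum, hu, sum_single]
    ring
  have hCr : C r (u + 2 * d) = C r 0 + 2 * (∑ j, ε r j - ε r j0) + ε r j0 * (t + 2 * s) := by
    rw [hL r]
    have h4 : ∑ j, ε r j * (u + 2 * d) j = ∑ j, ε r j * u j + 2 * ∑ j, ε r j * d j := by
      rw [Finset.mul_sum, ← Finset.sum_add_distrib]
      refine Finset.sum_congr rfl fun j _ => ?_
      show ε r j * (u j + 2 * d j) = _
      ring
    rw [h4, hdsum, hu, sum_single]
    ring
  have hdne : ∀ j, d j ≠ 0 := by
    intro j
    by_cases hj : j = j0
    · subst hj
      simp only [hd, Pi.add_apply, Pi.one_apply, Pi.single_eq_same]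
      simpa using hs
    · simp [hd, Pi.single_eq_of_ne hj]
  exact build C p q r u d hpq hqr hpr hdne (by rw [hA, hB]; exact h1)
    (by rw [hB, hCr]; exact h2) (by rw [hA, hCr]; exact h3)

theorem classify {ι : Type} [Fintype ι] [DecidableEq ι] [Nonempty ι] {k : ℕ} (hk : 3 ≤ k)
    (C : Fin k → (ι → ZMod 3) → ZMod 3) (hC : ∀ i, Latin (C i)) :
    (¬ Trans C ↔ ∃ (f : (ι → ZMod 3) → ZMod 3) (c : Fin k → ZMod 3), Latin f ∧
      (∀ i x, C i x = f x + c i) ∧
      ∀ p q r, p ≠ q → q ≠ r → p ≠ r → c p + c q + c r ≠ 0) ∧ (5 ≤ k → Trans C) := by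
  choose ε hε hL using fun i => affine (hC i)
  have hiff : ¬ Trans C ↔ ∃ (f : (ι → ZMod 3) → ZMod 3) (c : Fin k → ZMod 3), Latin f ∧
      (∀ i x, C i x = f x + c i) ∧
      ∀ p q r, p ≠ q → q ≠ r → p ≠ r → c p + c q + c r ≠ 0 := by
    constructor
    · intro hn
      have hall : ∀ p q j, ε p j = ε q j := by
        intro p q j
        by_contra hne
        have hpq : p ≠ q := by
          rintro rfl
          exact hne rfl
        obtain ⟨r, hrp, hrq⟩ : ∃ r : Fin k, r ≠ p ∧ r ≠ q := by
          by_contra hc
          push Not at hc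
          have h1 : (Finset.univ : Finset (Fin k)) ⊆ {p, q} := by
            intro r _
            rw [Finset.mem_insert, Finset.mem_singleton]
            by_cases hr : r = p
            · exact Or.inl hr
            · exact Or.inr (hc r hr)
          have h2 := Finset.card_le_card h1
          have h3 := Finset.card_le_two (a := p) (b := q)
          rw [Finset.card_univ, Fintype.card_fin] at h2
          omega
        exact hn (T1 C ε hε hL p q r hpq (Ne.symm hrq) (Ne.symm hrp) j hne)
      set p0 : Fin k := ⟨0, by omega⟩ with hp0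
      refine ⟨fun x => C p0 x - C p0 0, fun i => C i 0, ?_, ?_, ?_⟩
      · intro x j a b hab
        exact hC p0 x j (sub_left_injective hab)
      · intro i x
        show C i x = C p0 x - C p0 0 + C i 0
        rw [hL i x, hL p0 x, Finset.sum_congr rfl fun j _ => by rw [hall i p0 j]]
        ring
      · intro p q r hpq hqr hpr hsum
        apply hn
        refine T2 C (ε p0) (hε p0) ?_ p q r hpq hqr hpr (by linear_combination hsum)
        intro i x
        rw [hL i x]
        congr 1
        exact Finset.sum_congr rfl fun j _ => by rw [hall i p0 j]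
    · rintro ⟨f, c, hf, hfc, hsum⟩ ⟨i, x, hi, hx, he⟩
      obtain ⟨η, _, hη⟩ := affine hf
      have key : ∀ e : Fin 3 → ZMod 3, Function.Injective e → e 0 + e 1 + e 2 = 0 := by decide
      have h1 := key _ he
      have h2 : ∀ j, x 0 j + x 1 j + x 2 j = 0 := fun j => key _ (hx j)
      have h3 : ∀ t, C (i t) (x t) = f 0 + ∑ j, η j * x t j + c (i t) := by
        intro t
        rw [hfc, hη]
      have h1' : C (i 0) (x 0) + C (i 1) (x 1) + C (i 2) (x 2) = 0 := h1
      rw [h3, h3, h3] at h1'
      have h4 : ∑ j, η j * x 0 j + ∑ j, η j * x 1 j + ∑ j, η j * x 2 j = 0 := by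
        rw [← Finset.sum_add_distrib, ← Finset.sum_add_distrib]
        apply Finset.sum_eq_zero
        intro j _
        linear_combination η j * h2 j
      have h5 : (3 : ZMod 3) = 0 := by decide
      apply hsum (i 0) (i 1) (i 2) (fun h => absurd (hi h) (by decide))
        (fun h => absurd (hi h) (by decide)) (fun h => absurd (hi h) (by decide))
      linear_combination h1' - h4 - f 0 * h5
  refine ⟨hiff, ?_⟩
  intro hk5
  by_contra hn
  obtain ⟨f, c, _, _, hsum⟩ := hiff.1 hn
  obtain ⟨T, _, hT, hTs⟩ := ZMod.erdos_ginzburg_ziv (n := 3) (s := (Finset.univ : Finset (Fin k)))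
    c (by rw [Finset.card_univ, Fintype.card_fin]; omega)
  obtain ⟨p, q, r, hpq, hpr, hqr, rfl⟩ := Finset.card_eq_three.mp hT
  rw [Finset.sum_insert (by simp [hpq, hpr]), Finset.sum_insert (by simp [hqr]),
    Finset.sum_singleton] at hTs
  exact hsum p q r hpq hqr hpr (by linear_combination hTs)

end Pool.Agent.V11147.Cub
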