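import Mathlib

namespace Pool.Agent.V11147.Dens

open Set Filter Topology

/-- the number of elements of `A` below `n` -/
noncomputable def cnt (A : Set ℕ) (n : ℕ) : ℕ := (A ∩ Iio n).ncard

/-- `A` has density `r` -/
def HasDens (A : Set ℕ) (r : ℝ) : Prop :=
  Tendsto (fun n : ℕ => (cnt A n : ℝ) / n) atTop (𝓝 r)

/-- `F` is a family of infinite-coinfinite sets of density `ρ` such that every permutation maps
some member to a set of density `ρ` -/
def Witness (ρ : ℝ) (F : Set (Set ℕ)) : Prop :=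
  (∀ A ∈ F, A.Infinite ∧ Aᶜ.Infinite ∧ HasDens A ρ) ∧
    ∀ π : Equiv.Perm ℕ, ∃ A ∈ F, HasDens (π '' A) ρ

/-- the dual density number at density `ρ` is at most `κ` -/
def DdLe (ρ : ℝ) (κ : Cardinal.{0}) : Prop :=
  ∃ F : Set (Set ℕ), Cardinal.mk F ≤ κ ∧ Witness ρ F

/-- the increasing enumeration of an infinite set -/
noncomputable def iso (A : Set ℕ) (hA : A.Infinite) : ℕ ≃o A :=
  haveI := hA.to_subtype
  Nat.Subtype.orderIsoOfNat A

/-- the increasing enumeration of an infinite set, as a function -/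
noncomputable def en (A : Set ℕ) (hA : A.Infinite) (n : ℕ) : ℕ := (iso A hA n : ℕ)

theorem en_mono {A : Set ℕ} (hA : A.Infinite) : StrictMono (en A hA) := by
  intro m n h
  exact (iso A hA).strictMono h

theorem en_image {A : Set ℕ} (hA : A.Infinite) {m : ℕ} (hm : m ∈ A) : ∃ n, en A hA n = m :=
  ⟨(iso A hA).symm ⟨m, hm⟩, by simp [en]⟩

theorem en_mem {A : Set ℕ} (hA : A.Infinite) (n : ℕ) : en A hA n ∈ A := (iso A hA n).2

theorem ncard_Iio (k : ℕ) : (Iio k : Set ℕ).ncard = k := by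
  rw [← Finset.coe_range, ncard_coe_finset, Finset.card_range]

theorem exists_cut {A : Set ℕ} (hA : A.Infinite) (m : ℕ) :
    ∀ n, en A hA n < m ↔ n < cnt A m := by
  have hne : {n | m ≤ en A hA n}.Nonempty := ⟨m, (en_mono hA).le_apply⟩
  have hk : ∀ n, en A hA n < m ↔ n < sInf {n | m ≤ en A hA n} := by
    intro n
    constructor
    · intro h
      by_contra hc
      push Not at hc
      have h1 : m ≤ en A hA (sInf {n | m ≤ en A hA n}) := Nat.sInf_mem hne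
      have h2 := (en_mono hA).monotone hc
      omega
    · intro h
      have := Nat.notMem_of_lt_sInf h
      by_contra hc
      push Not at hc
      exact this hc
  have hcard : cnt A m = sInf {n | m ≤ en A hA n} := by
    have h1 : A ∩ Iio m = en A hA '' Iio (sInf {n | m ≤ en A hA n}) := by
      ext x
      constructor
      · rintro ⟨hx, hx'⟩
        obtain ⟨n, rfl⟩ := en_image hA hx
        exact ⟨n, (hk n).1 hx', rfl⟩
      · rintro ⟨n, hn, rfl⟩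
        exact ⟨en_mem hA n, (hk n).2 hn⟩
    unfold cnt
    rw [h1, ncard_image_of_injective _ (en_mono hA).injective, ncard_Iio]
  rw [hcard]
  exact hk

theorem cnt_image {A : Set ℕ} (hA : A.Infinite) (A' : Set ℕ) (m : ℕ) :
    cnt (en A hA '' A') m = cnt A' (cnt A m) := by
  have h1 : en A hA '' A' ∩ Iio m = en A hA '' (A' ∩ Iio (cnt A m)) := by
    ext x
    constructor
    · rintro ⟨⟨n, hn, rfl⟩, hx⟩
      exact ⟨n, ⟨hn, (exists_cut hA m n).1 hx⟩, rfl⟩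
    · rintro ⟨n, ⟨hn, hn'⟩, rfl⟩
      exact ⟨⟨n, hn, rfl⟩, (exists_cut hA m n).2 hn'⟩
  show (en A hA '' A' ∩ Iio m).ncard = _
  rw [h1, ncard_image_of_injective _ (en_mono hA).injective]
  rfl

theorem cnt_tendsto {A : Set ℕ} (hA : A.Infinite) : Tendsto (cnt A) atTop atTop := by
  rw [tendsto_atTop]
  intro b
  filter_upwards [eventually_ge_atTop (en A hA b + 1)] with m hm
  exact ((exists_cut hA m b).1 (by omega)).le

theorem dens_image {A A' : Set ℕ} (hA : A.Infinite) {ρ τ : ℝ} (h : HasDens A ρ)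
    (h' : HasDens A' τ) : HasDens (en A hA '' A') (τ * ρ) := by
  have h1 : Tendsto (fun m : ℕ => ((cnt A' (cnt A m) : ℝ) / (cnt A m : ℕ)) *
      ((cnt A m : ℝ) / m)) atTop (𝓝 (τ * ρ)) :=
    (h'.comp (cnt_tendsto hA)).mul h
  refine h1.congr ?_
  intro m
  rw [cnt_image hA]
  by_cases h0 : cnt A m = 0
  · rw [h0]
    simp [cnt]
  · have : (cnt A m : ℝ) ≠ 0 := by exact_mod_cast h0
    field_simp

/-- the permutation induced by `π` between the enumerations of `A` and of its image -/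
noncomputable def ind (π : Equiv.Perm ℕ) (A : Set ℕ) (hA : A.Infinite)
    (hπ : (π '' A).Infinite) : Equiv.Perm ℕ :=
  (iso A hA).toEquiv.trans ((π.image A).trans (iso (π '' A) hπ).toEquiv.symm)

theorem ind_spec (π : Equiv.Perm ℕ) (A : Set ℕ) (hA : A.Infinite) (hπ : (π '' A).Infinite)
    (n : ℕ) : en (π '' A) hπ (ind π A hA hπ n) = π (en A hA n) := by
  unfold ind en
  simp

theorem image_image' (π : Equiv.Perm ℕ) (A : Set ℕ) (hA : A.Infinite) (hπ : (π '' A).Infinite)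
    (A' : Set ℕ) : π '' (en A hA '' A') = en (π '' A) hπ '' (ind π A hA hπ '' A') := by
  ext x
  constructor
  · rintro ⟨_, ⟨n, hn, rfl⟩, rfl⟩
    exact ⟨_, ⟨n, hn, rfl⟩, ind_spec π A hA hπ n⟩
  · rintro ⟨_, ⟨n, hn, rfl⟩, rfl⟩
    exact ⟨_, ⟨n, hn, rfl⟩, (ind_spec π A hA hπ n).symm⟩

theorem mul_closed {ρ τ : ℝ} {κ : Cardinal.{0}} (hκ : Cardinal.aleph0 ≤ κ) (h : DdLe ρ κ)
    (h' : DdLe τ κ) : DdLe (τ * ρ) κ := by
  obtain ⟨F, hF, hF1, hF2⟩ := h
  obtain ⟨G, hG, hG1, hG2⟩ := h'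
  refine ⟨range fun p : F × G => en p.1.1 (hF1 _ p.1.2).1 '' p.2.1, ?_, ?_, ?_⟩
  · refine Cardinal.mk_range_le.trans ?_
    rw [Cardinal.mk_prod, Cardinal.lift_id, Cardinal.lift_id]
    exact Cardinal.mul_le_of_le hκ hF hG
  · rintro _ ⟨⟨⟨A, hA⟩, ⟨A', hA'⟩⟩, rfl⟩
    refine ⟨?_, ?_, ?_⟩
    · exact (hG1 _ hA').1.image (en_mono _).injective.injOn
    · refine (hF1 _ hA).2.1.mono ?_
      intro x hx hx'
      obtain ⟨n, _, rfl⟩ := hx'
      exact hx (en_mem _ n)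
    · exact dens_image _ (hF1 _ hA).2.2 (hG1 _ hA').2.2
  · intro π
    obtain ⟨A, hA, hA'⟩ := hF2 π
    have hAi := (hF1 _ hA).1
    have hπ : (π '' A).Infinite := hAi.image π.injective.injOn
    obtain ⟨B, hB, hB'⟩ := hG2 (ind π A hAi hπ)
    refine ⟨_, ⟨⟨⟨A, hA⟩, ⟨B, hB⟩⟩, rfl⟩, ?_⟩
    rw [image_image' π A hAi hπ]
    exact dens_image hπ hA' hB'

theorem cnt_compl (A : Set ℕ) (n : ℕ) : cnt A n + cnt Aᶜ n = n := by
  unfold cnt
  have h1 : (Iio n : Set ℕ) = (A ∩ Iio n) ∪ (Aᶜ ∩ Iio n) := by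
    rw [← union_inter_distrib_right, union_compl_self, univ_inter]
  have h2 : Disjoint (A ∩ Iio n) (Aᶜ ∩ Iio n) :=
    disjoint_compl_right.mono inter_subset_left inter_subset_left
  rw [← ncard_union_eq h2 ((finite_Iio n).inter_of_right A)
    ((finite_Iio n).inter_of_right Aᶜ), ← h1, ncard_Iio]

theorem dens_compl {A : Set ℕ} {ρ : ℝ} (h : HasDens A ρ) : HasDens Aᶜ (1 - ρ) := by
  have h1 : Tendsto (fun n : ℕ => (1 : ℝ) - (cnt A n : ℝ) / n) atTop (𝓝 (1 - ρ)) :=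
    tendsto_const_nhds.sub h
  refine h1.congr' ?_
  filter_upwards [eventually_gt_atTop 0] with n hn
  have h2 : (cnt A n : ℝ) + cnt Aᶜ n = n := by exact_mod_cast cnt_compl A n
  have h3 : (n : ℝ) ≠ 0 := by exact_mod_cast hn.ne'
  field_simp
  linarith

theorem compl_closed {ρ : ℝ} {κ : Cardinal.{0}} (h : DdLe ρ κ) : DdLe (1 - ρ) κ := by
  obtain ⟨F, hF, hF1, hF2⟩ := h
  refine ⟨compl '' F, Cardinal.mk_image_le.trans hF, ?_, ?_⟩
  · rintro _ ⟨A, hA, rfl⟩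
    obtain ⟨h1, h2, h3⟩ := hF1 A hA
    exact ⟨h2, by rwa [compl_compl], dens_compl h3⟩
  · intro π
    obtain ⟨A, hA, hA'⟩ := hF2 π
    refine ⟨Aᶜ, ⟨A, hA, rfl⟩, ?_⟩
    rw [image_compl_eq π.bijective]
    exact dens_compl hA'

theorem dyadic {κ : Cardinal.{0}} (hκ : Cardinal.aleph0 ≤ κ) (h : DdLe (1 / 2) κ) :
    ∀ n k : ℕ, 0 < k → k < 2 ^ n → DdLe ((k : ℝ) / 2 ^ n) κ := by
  intro n
  induction n with
  | zero =>
    intro k h1 h2
    simp at h2
    omega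
  | succ n ih =>
    have small : ∀ k : ℕ, 0 < k → k < 2 ^ n → DdLe ((k : ℝ) / 2 ^ (n + 1)) κ := by
      intro k h1 h2
      have := mul_closed hκ h (ih k h1 h2)
      have e : (k : ℝ) / 2 ^ n * (1 / 2) = (k : ℝ) / 2 ^ (n + 1) := by
        rw [pow_succ]
        field_simp
      rwa [e] at this
    intro k h1 h2
    rcases lt_trichotomy k (2 ^ n) with h3 | h3 | h3
    · exact small k h1 h3
    · have e : (k : ℝ) / 2 ^ (n + 1) = 1 / 2 := by
        rw [h3, pow_succ]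
        push_cast
        field_simp
      rw [e]
      exact h
    · have h4 : 2 ^ (n + 1) - k < 2 ^ n := by
        have : 2 ^ (n + 1) = 2 ^ n + 2 ^ n := by ring
        omega
      have h5 := compl_closed (small (2 ^ (n + 1) - k) (by omega) h4)
      have e : (1 : ℝ) - ((2 ^ (n + 1) - k : ℕ) : ℝ) / 2 ^ (n + 1) = (k : ℝ) / 2 ^ (n + 1) := by
        rw [Nat.cast_sub h2.le]
        push_cast
        field_simp
        ring
      rwa [e] at h5

/-- the version without the demand that the sets be infinite-coinfinite -/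
def DdLe' (ρ : ℝ) (κ : Cardinal.{0}) : Prop :=
  ∃ F : Set (Set ℕ), Cardinal.mk F ≤ κ ∧ (∀ A ∈ F, HasDens A ρ) ∧
    ∀ π : Equiv.Perm ℕ, ∃ A ∈ F, HasDens (π '' A) ρ

theorem DdLe.weak {ρ : ℝ} {κ : Cardinal.{0}} (h : DdLe ρ κ) : DdLe' ρ κ := by
  obtain ⟨F, hF, hF1, hF2⟩ := h
  exact ⟨F, hF, fun A hA => (hF1 A hA).2.2, hF2⟩

theorem infinite_of_dens {A : Set ℕ} {ρ : ℝ} (h : HasDens A ρ) (hρ : 0 < ρ) : A.Infinite := by
  intro hA
  have h1 : Tendsto (fun n : ℕ => (cnt A n : ℝ) / n) atTop (𝓝 0) := by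
    have h2 : Tendsto (fun n : ℕ => (A.ncard : ℝ) / n) atTop (𝓝 0) :=
      tendsto_const_div_atTop_nhds_zero_nat _
    refine squeeze_zero (fun n => by positivity) (fun n => ?_) h2
    have h3 : (cnt A n : ℝ) ≤ A.ncard := by
      exact_mod_cast ncard_le_ncard inter_subset_left hA
    gcongr
  have := tendsto_nhds_unique h h1
  linarith

theorem DdLe'.strong {ρ : ℝ} {κ : Cardinal.{0}} (h : DdLe' ρ κ) (h0 : 0 < ρ) (h1 : ρ < 1) :
    DdLe ρ κ := by
  obtain ⟨F, hF, hF1, hF2⟩ := h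
  exact ⟨F, hF, fun A hA => ⟨infinite_of_dens (hF1 A hA) h0,
    infinite_of_dens (dens_compl (hF1 A hA)) (by linarith), hF1 A hA⟩, hF2⟩

theorem weak_zero {κ : Cardinal.{0}} (hκ : Cardinal.aleph0 ≤ κ) : DdLe' 0 κ := by
  refine ⟨{∅}, ?_, ?_, ?_⟩
  · rw [Cardinal.mk_singleton]
    exact Cardinal.one_le_aleph0.trans hκ
  · rintro A rfl
    simp [HasDens, cnt]
  · intro π
    refine ⟨∅, rfl, ?_⟩
    simp [HasDens, cnt]

theorem weak_compl {ρ : ℝ} {κ : Cardinal.{0}} (h : DdLe' ρ κ) : DdLe' (1 - ρ) κ := by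
  obtain ⟨F, hF, hF1, hF2⟩ := h
  refine ⟨compl '' F, Cardinal.mk_image_le.trans hF, ?_, ?_⟩
  · rintro _ ⟨A, hA, rfl⟩
    exact dens_compl (hF1 A hA)
  · intro π
    obtain ⟨A, hA, hA'⟩ := hF2 π
    refine ⟨Aᶜ, ⟨A, hA, rfl⟩, ?_⟩
    rw [image_compl_eq π.bijective]
    exact dens_compl hA'

theorem cnt_union {A B : Set ℕ} (h : Disjoint A B) (n : ℕ) :
    cnt (A ∪ B) n = cnt A n + cnt B n := by
  unfold cnt
  rw [union_inter_distrib_right, ncard_union_eq (h.mono inter_subset_left inter_subset_left)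
    ((finite_Iio n).inter_of_right A) ((finite_Iio n).inter_of_right B)]

theorem dens_union {A B : Set ℕ} {a b : ℝ} (h : Disjoint A B) (hA : HasDens A a)
    (hB : HasDens B b) : HasDens (A ∪ B) (a + b) := by
  refine (hA.add hB).congr fun n => ?_
  rw [cnt_union h]
  push_cast
  ring

theorem dens_mix {A A' B' : Set ℕ} (hA : A.Infinite) (hAc : Aᶜ.Infinite) {x y z : ℝ}
    (h : HasDens A x) (h' : HasDens A' y) (h'' : HasDens B' z) :
    HasDens (en A hA '' A' ∪ en Aᶜ hAc '' B') (x * y + (1 - x) * z) := by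
  have h1 := dens_image hA h h'
  have h2 := dens_image hAc (dens_compl h) h''
  rw [mul_comm x y, mul_comm (1 - x) z]
  refine dens_union ?_ h1 h2
  rw [disjoint_left]
  rintro _ ⟨n, _, rfl⟩ ⟨m, _, hm⟩
  have h3 := en_mem hAc m
  rw [hm] at h3
  exact h3 (en_mem hA n)

theorem mix {x y z : ℝ} {κ : Cardinal.{0}} (hκ : Cardinal.aleph0 ≤ κ) (hx : DdLe x κ)
    (hy : DdLe' y κ) (hz : DdLe' z κ) : DdLe' (x * y + (1 - x) * z) κ := by
  obtain ⟨F, hF, hF1, hF2⟩ := hx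
  obtain ⟨G, hG, hG1, hG2⟩ := hy
  obtain ⟨H, hH, hH1, hH2⟩ := hz
  refine ⟨range fun p : F × (G × H) => en p.1.1 (hF1 _ p.1.2).1 '' p.2.1.1 ∪
    en p.1.1ᶜ (hF1 _ p.1.2).2.1 '' p.2.2.1, ?_, ?_, ?_⟩
  · refine Cardinal.mk_range_le.trans ?_
    rw [Cardinal.mk_prod, Cardinal.lift_id, Cardinal.lift_id, Cardinal.mk_prod, Cardinal.lift_id,
      Cardinal.lift_id]
    exact Cardinal.mul_le_of_le hκ hF (Cardinal.mul_le_of_le hκ hG hH)
  · rintro _ ⟨⟨⟨A, hA⟩, ⟨⟨A', hA'⟩, ⟨B', hB'⟩⟩⟩, rfl⟩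
    exact dens_mix _ _ (hF1 _ hA).2.2 (hG1 _ hA') (hH1 _ hB')
  · intro π
    obtain ⟨A, hA, hA'⟩ := hF2 π
    have hAi := (hF1 _ hA).1
    have hAc := (hF1 _ hA).2.1
    have hπ : (π '' A).Infinite := hAi.image π.injective.injOn
    have hπc : (π '' Aᶜ).Infinite := hAc.image π.injective.injOn
    obtain ⟨B, hB, hB'⟩ := hG2 (ind π A hAi hπ)
    obtain ⟨D, hD, hD'⟩ := hH2 (ind π Aᶜ hAc hπc)
    refine ⟨_, ⟨⟨⟨A, hA⟩, ⟨⟨B, hB⟩, ⟨D, hD⟩⟩⟩, rfl⟩, ?_⟩
    show HasDens (π '' (en A hAi '' B ∪ en Aᶜ hAc '' D)) _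
    rw [image_union, image_image' π A hAi hπ, image_image' π Aᶜ hAc hπc]
    have h1 := dens_image hπ hA' hB'
    have h2 : HasDens (π '' Aᶜ) (1 - x) := by
      rw [image_compl_eq π.bijective]
      exact dens_compl hA'
    have h3 := dens_image hπc h2 hD'
    rw [mul_comm x y, mul_comm (1 - x) z]
    refine dens_union ?_ h1 h3
    rw [disjoint_left]
    rintro _ ⟨n, _, rfl⟩ ⟨m, _, hm⟩
    have h4 := en_mem hπc m
    rw [hm, image_compl_eq π.bijective] at h4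
    exact h4 (en_mem hπ n)

theorem mix_closed {x y z : ℝ} {κ : Cardinal.{0}} (hκ : Cardinal.aleph0 ≤ κ)
    (hx : DdLe x κ) (hy : DdLe y κ ∨ y = 0 ∨ y = 1) (hz : DdLe z κ ∨ z = 0 ∨ z = 1)
    (h0 : 0 < x * y + (1 - x) * z) (h1 : x * y + (1 - x) * z < 1) :
    DdLe (x * y + (1 - x) * z) κ := by
  have hone : DdLe' 1 κ := by
    have := weak_compl (weak_zero hκ)
    rwa [sub_zero] at this
  have key : ∀ {y : ℝ}, (DdLe y κ ∨ y = 0 ∨ y = 1) → DdLe' y κ := by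
    rintro y (h | rfl | rfl)
    · exact h.weak
    · exact weak_zero hκ
    · exact hone
  exact (mix hκ hx (key hy) (key hz)).strong h0 h1

theorem exists_equal : ∃ ρ τ : ℝ, (0 < ρ ∧ ρ < 1) ∧ (0 < τ ∧ τ < 1) ∧ τ ≠ ρ ∧ τ ≠ 1 - ρ ∧
    ∀ κ : Cardinal.{0}, Cardinal.aleph0 ≤ κ → (DdLe ρ κ ↔ DdLe τ κ) := by
  have hcont : ContinuousOn (fun x : ℝ => (1 - x ^ 2) ^ 2 - x) (Icc (1 / 2) (3 / 5)) := by
    fun_prop
  have hivt := intermediate_value_Icc' (by norm_num : (1 / 2 : ℝ) ≤ 3 / 5) hcont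
  have h0 : (0 : ℝ) ∈ Icc ((1 - (3 / 5 : ℝ) ^ 2) ^ 2 - 3 / 5) ((1 - (1 / 2 : ℝ) ^ 2) ^ 2 - 1 / 2) := by
    constructor <;> norm_num
  obtain ⟨ρ, ⟨h1, h2⟩, h3⟩ := hivt h0
  have h3' : (1 - ρ ^ 2) ^ 2 - ρ = 0 := h3
  refine ⟨ρ, ρ * ρ, ⟨by linarith, by linarith⟩, ⟨by nlinarith, by nlinarith⟩, ?_, ?_, ?_⟩
  · intro h
    nlinarith
  · intro h
    nlinarith
  · intro κ hκ
    constructor
    · intro h
      exact mul_closed hκ h h
    · intro h
      have h4 := compl_closed h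
      have h5 := mul_closed hκ h4 h4
      have e : (1 - ρ * ρ) * (1 - ρ * ρ) = ρ := by nlinarith
      rwa [e] at h5

end Pool.Agent.V11147.Dens
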