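import Mathlib

namespace Pool.Agent.V11147.Mas

open Finset

/-- the number of ascents among the positions `0..m` of `a` -/
def ascF (a : ℕ → ℕ) (m : ℕ) : ℕ := ((range m).filter (fun i => a i < a (i + 1))).card

/-- the number of distinct values less than `x` among the positions `< n` -/
def rk (n : ℕ) (a : ℕ → ℕ) (x : ℕ) : ℕ := (((range n).image a).filter (fun y => y < x)).card

/-- the rank version of the ascent sequence condition -/
def RA (n : ℕ) (a : ℕ → ℕ) : Prop :=
  ∀ i < n, rk n a (a i) ≤ if i = 0 then 0 else 1 + ascF a (i - 1)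

/-- a strictly decreasing chain of length `k` -/
def HD (k n : ℕ) (a : ℕ → ℕ) : Prop :=
  ∃ f : ℕ → ℕ, (∀ i j, i < j → j < k → f i < f j ∧ a (f j) < a (f i)) ∧ ∀ i < k, f i < n

structure Min (k n : ℕ) (a : ℕ → ℕ) : Prop where
  ra : RA n a
  hd : HD k n a
  min : ∀ n' < n, ∀ φ : ℕ → ℕ, (∀ i j, i < j → j < n' → φ i < φ j) → (∀ i < n', φ i < n) →
    RA n' (fun i => a (φ i)) → ¬ HD k n' (fun i => a (φ i))

theorem ascF_zero (a : ℕ → ℕ) : ascF a 0 = 0 := by simp [ascF]

theorem ascF_succ (a : ℕ → ℕ) (m : ℕ) :
    ascF a (m + 1) = ascF a m + if a m < a (m + 1) then 1 else 0 := by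
  unfold ascF
  rw [range_add_one, filter_insert]
  split_ifs with h
  · rw [card_insert_of_notMem (by simp)]
  · simp

theorem ascF_mono (a : ℕ → ℕ) {m m' : ℕ} (h : m ≤ m') : ascF a m ≤ ascF a m' := by
  induction m', h using Nat.le_induction with
  | base => exact le_rfl
  | succ m' _ ih => rw [ascF_succ]; omega

theorem ascF_congr {a b : ℕ → ℕ} {m : ℕ} (h : ∀ i ≤ m, a i = b i) : ascF a m = ascF b m := by
  unfold ascF
  congr 1
  apply filter_congr
  intro i hi
  rw [mem_range] at hi
  rw [h i (by omega), h (i + 1) (by omega)]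

theorem rk_mono (n : ℕ) (a : ℕ → ℕ) {x y : ℕ} (h : x ≤ y) : rk n a x ≤ rk n a y := by
  unfold rk
  apply card_le_card
  intro z
  simp only [mem_filter]
  rintro ⟨h1, h2⟩
  exact ⟨h1, by omega⟩

theorem rk_comp {n n' : ℕ} {a φ : ℕ → ℕ} (h : ∀ i < n', φ i < n) (x : ℕ) :
    rk n' (fun i => a (φ i)) x ≤ rk n a x := by
  unfold rk
  apply card_le_card
  intro z
  simp only [mem_filter, mem_image, mem_range]
  rintro ⟨⟨i, hi, rfl⟩, h2⟩
  exact ⟨⟨φ i, h i hi, rfl⟩, h2⟩

theorem rk_lt {n : ℕ} {a : ℕ → ℕ} {i : ℕ} (hi : i < n) {x : ℕ} (h : a i < x) :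
    rk n a (a i) < rk n a x := by
  unfold rk
  apply card_lt_card
  rw [ssubset_iff_of_subset]
  · exact ⟨a i, by simp only [mem_filter, mem_image, mem_range]; exact ⟨⟨i, hi, rfl⟩, h⟩, by simp⟩
  · intro z
    simp only [mem_filter]
    rintro ⟨h1, h2⟩
    exact ⟨h1, by omega⟩

theorem rk_drop {n n' : ℕ} {a φ : ℕ → ℕ} (h : ∀ i < n', φ i < n) {p : ℕ} (hp : p < n)
    (hn : ∀ i < n', a (φ i) ≠ a p) {x : ℕ} (hx : a p < x) :
    rk n' (fun i => a (φ i)) x + 1 ≤ rk n a x := by
  unfold rk
  have : ((range n').image (fun i => a (φ i))).filter (fun y => y < x) ⊂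
      ((range n).image a).filter (fun y => y < x) := by
    rw [ssubset_iff_of_subset]
    · refine ⟨a p, by simp only [mem_filter, mem_image, mem_range]; exact ⟨⟨p, hp, rfl⟩, hx⟩, ?_⟩
      simp only [mem_filter, mem_image, mem_range]
      rintro ⟨⟨i, hi, h1⟩, _⟩
      exact hn i hi h1
    · intro z
      simp only [mem_filter, mem_image, mem_range]
      rintro ⟨⟨i, hi, rfl⟩, h2⟩
      exact ⟨⟨φ i, h i hi, rfl⟩, h2⟩
  exact card_lt_card this

theorem mono_add {m : ℕ} {φ : ℕ → ℕ} (h : ∀ i j, i < j → j < m → φ i < φ j) (j d : ℕ)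
    (hd : j + d < m) : φ j + d ≤ φ (j + d) := by
  induction d with
  | zero => simp
  | succ d ih =>
    have := ih (by omega)
    have h2 := h (j + d) (j + (d + 1)) (by omega) hd
    omega

/-- Step 1: a minimal sequence ends with its decreasing chain. -/
theorem tail {k n : ℕ} {a : ℕ → ℕ} (hM : Min k n a) (hk : 2 ≤ k) :
    ∃ N, n = N + k ∧ 1 ≤ N ∧ (∀ i j, i < j → j < k → a (N + j) < a (N + i)) := by
  obtain ⟨f, hf, hfn⟩ := hM.hd
  set N := f 0 with hN
  have hN1 : 1 ≤ N := by
    by_contra h0
    have h0 : N = 0 := by omega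
    have h1 := hM.ra N (hfn 0 (by omega))
    rw [h0] at h1
    simp only [if_true] at h1
    have h2 := rk_lt (a := a) (hfn 1 (by omega)) (hf 0 1 (by omega) (by omega)).2
    rw [← hN, h0] at h2
    omega
  set φ : ℕ → ℕ := fun j => if j ≤ N then j else f (j - N) with hφ
  have hmono : ∀ i j, i < j → j < N + k → φ i < φ j := by
    intro i j hij hj
    simp only [hφ]
    by_cases h1 : j ≤ N
    · rw [if_pos h1, if_pos (by omega)]; exact hij
    · rw [if_neg h1]
      by_cases h2 : i ≤ N
      · rw [if_pos h2]
        have := (hf 0 (j - N) (by omega) (by omega)).1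
        omega
      · rw [if_neg h2]
        exact (hf (i - N) (j - N) (by omega) (by omega)).1
  have hbd : ∀ i < N + k, φ i < n := by
    intro i hi
    simp only [hφ]
    by_cases h1 : i ≤ N
    · rw [if_pos h1]; have := hfn 0 (by omega); omega
    · rw [if_neg h1]; exact hfn _ (by omega)
  have hφN : ∀ i < k, φ (N + i) = f i := by
    intro i hi
    simp only [hφ]
    by_cases h1 : i = 0
    · subst h1; simp [hN]
    · rw [if_neg (by omega)]; congr 1; omega
  have hle : N + k ≤ n := by
    have h1 := mono_add hmono 0 (N + k - 1) (by omega)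
    have h2 := hbd (0 + (N + k - 1)) (by omega)
    omega
  have hRA : RA (N + k) (fun i => a (φ i)) := by
    intro i hi
    by_cases h1 : i ≤ N
    · have hi' : φ i = i := by simp only [hφ]; rw [if_pos h1]
      have h2 := hM.ra i (by omega)
      have h3 := rk_comp (a := a) hbd (a i)
      simp only [hi']
      by_cases h0 : i = 0
      · simp only [h0, if_true] at h2 ⊢
        rw [h0] at h3
        exact h3.trans h2
      · rw [if_neg h0] at h2 ⊢
        have : ascF (fun i => a (φ i)) (i - 1) = ascF a (i - 1) := by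
          apply ascF_congr
          intro j hj
          simp only [hφ]
          rw [if_pos (by omega)]
        rw [this]
        exact h3.trans h2
    · rw [if_neg (by omega)]
      have h2 := hM.ra N (hfn 0 (by omega))
      rw [if_neg (by omega)] at h2
      have h3 : ascF a (N - 1) = ascF (fun i => a (φ i)) (N - 1) := by
        symm
        apply ascF_congr
        intro j hj
        simp only [hφ]
        rw [if_pos (by omega)]
      have h4 := ascF_mono (fun i => a (φ i)) (show N - 1 ≤ i - 1 by omega)
      have h5 := rk_comp (a := a) hbd (a (φ i))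
      have h6 : a (φ i) ≤ a N := by
        have h7 : φ i = f (i - N) := by simp only [hφ]; rw [if_neg h1]
        rw [h7]
        exact (hf 0 (i - N) (by omega) (by omega)).2.le
      have h7 := rk_mono n a h6
      simp only at h5 ⊢
      omega
  have hHD : HD k (N + k) (fun i => a (φ i)) := by
    refine ⟨fun i => N + i, ?_, ?_⟩
    · intro i j hij hj
      refine ⟨by show N + i < N + j; omega, ?_⟩
      show a (φ (N + j)) < a (φ (N + i))
      rw [hφN i (by omega), hφN j hj]
      exact (hf i j hij hj).2
    · intro i hi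
      show N + i < N + k
      omega
  have hn : n = N + k := by
    by_contra hne
    exact hM.min (N + k) (by omega) φ hmono hbd hRA hHD
  refine ⟨N, hn, hN1, ?_⟩
  have hid : ∀ j < N + k, φ j = j := by
    intro j hj
    have h1 := mono_add hmono 0 j (by omega)
    have h2 := mono_add hmono j (N + k - 1 - j) (by omega)
    have h3 := hbd (j + (N + k - 1 - j)) (by omega)
    simp only [Nat.zero_add] at h1
    omega
  intro i j hij hj
  have h1 := hφN i (by omega)
  have h2 := hφN j hj
  rw [hid _ (by omega)] at h1 h2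
  rw [h1, h2]
  exact (hf i j hij hj).2

/-- Step 2: the chain starts with the strict maximum. -/
theorem top {k N : ℕ} {a : ℕ → ℕ} (hM : Min k (N + k) a) (hk : 2 ≤ k)
    (hdec : ∀ i j, i < j → j < k → a (N + j) < a (N + i)) : ∀ p < N, a p < a N := by
  intro p hp
  by_contra hcon
  push Not at hcon
  have hp1 : 1 ≤ p := by
    by_contra h0
    have h0 : p = 0 := by omega
    subst h0
    have h1 := hM.ra 0 (by omega)
    simp only [if_true] at h1
    have h2 := hdec 0 1 (by omega) (by omega)
    simp only [Nat.add_zero] at h2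
    have h3 := rk_lt (n := N + k) (a := a) (i := N + 1) (by omega) (x := a 0) (by omega)
    omega
  set φ : ℕ → ℕ := fun j => if j < p then j else N + (j - p) with hφ
  have hmono : ∀ i j, i < j → j < p + k → φ i < φ j := by
    intro i j hij hj
    simp only [hφ]
    split_ifs <;> omega
  have hbd : ∀ i < p + k, φ i < N + k := by
    intro i hi
    simp only [hφ]
    split_ifs <;> omega
  have hRA : RA (p + k) (fun i => a (φ i)) := by
    intro i hi
    have h3 := rk_comp (a := a) hbd (a (φ i))
    by_cases h1 : i < p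
    · have hi' : φ i = i := by simp only [hφ]; rw [if_pos h1]
      have h2 := hM.ra i (by omega)
      simp only [hi'] at h3 ⊢
      by_cases h0 : i = 0
      · simp only [h0, if_true] at h2 h3 ⊢
        exact h3.trans h2
      · rw [if_neg h0] at h2 ⊢
        have : ascF (fun i => a (φ i)) (i - 1) = ascF a (i - 1) := by
          apply ascF_congr
          intro j hj
          simp only [hφ]
          rw [if_pos (by omega)]
        rw [this]
        exact h3.trans h2
    · rw [if_neg (by omega)]
      have h2 := hM.ra p (by omega)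
      rw [if_neg (by omega)] at h2
      have h4 : ascF (fun i => a (φ i)) (p - 1) = ascF a (p - 1) := by
        apply ascF_congr
        intro j hj
        simp only [hφ]
        rw [if_pos (by omega)]
      have h5 := ascF_mono (fun i => a (φ i)) (show p - 1 ≤ i - 1 by omega)
      have h6 : a (φ i) ≤ a N := by
        have h7 : φ i = N + (i - p) := by simp only [hφ]; rw [if_neg h1]
        rw [h7]
        by_cases h8 : i - p = 0
        · rw [h8]; simp
        · have := hdec 0 (i - p) (by omega) (by omega)
          simp only [Nat.add_zero] at this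
          exact this.le
      have h7 := rk_mono (N + k) a (h6.trans hcon)
      simp only at h3 ⊢
      omega
  have hHD : HD k (p + k) (fun i => a (φ i)) := by
    refine ⟨fun i => p + i, ?_, ?_⟩
    · intro i j hij hj
      refine ⟨by show p + i < p + j; omega, ?_⟩
      have e1 : φ (p + i) = N + i := by
        simp only [hφ]; rw [if_neg (by omega)]; omega
      have e2 : φ (p + j) = N + j := by
        simp only [hφ]; rw [if_neg (by omega)]; omega
      show a (φ (p + j)) < a (φ (p + i))
      rw [e1, e2]
      exact hdec i j hij hj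
    · intro i hi
      show p + i < p + k
      omega
  exact hM.min (p + k) (by omega) φ hmono hbd hRA hHD

/-- erasing a position -/
def er (a : ℕ → ℕ) (p : ℕ) : ℕ → ℕ := fun j => a (if j < p then j else j + 1)

theorem er_lt (a : ℕ → ℕ) {p j : ℕ} (h : j < p) : er a p j = a j := by
  simp only [er]; rw [if_pos h]

theorem er_ge (a : ℕ → ℕ) {p j : ℕ} (h : p ≤ j) : er a p j = a (j + 1) := by
  simp only [er]; rw [if_neg (by omega)]

theorem ascF_er_lt (a : ℕ → ℕ) {p m : ℕ} (h : m < p) : ascF (er a p) m = ascF a m := by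
  apply ascF_congr
  intro i hi
  exact er_lt a (by omega)

theorem ascF_er_ge (a : ℕ → ℕ) {p m : ℕ} (hp : 1 ≤ p) (h : p ≤ m) :
    ascF (er a p) m + (if a (p - 1) < a p then 1 else 0) + (if a p < a (p + 1) then 1 else 0) =
      ascF a (m + 1) + (if a (p - 1) < a (p + 1) then 1 else 0) := by
  induction m, h using Nat.le_induction with
  | base =>
    obtain ⟨q, rfl⟩ : ∃ q, p = q + 1 := ⟨p - 1, by omega⟩
    rw [ascF_succ, ascF_succ, ascF_succ, ascF_er_lt a (by omega), er_lt a (by omega),
      er_ge a le_rfl]
    simp only [Nat.add_sub_cancel]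
    omega
  | succ m hm ih =>
    rw [ascF_succ, er_ge a (by omega), er_ge a (by omega), ascF_succ a (m + 1)]
    omega

theorem ascF_er_zero (a : ℕ → ℕ) (m : ℕ) :
    ascF (er a 0) m + (if a 0 < a 1 then 1 else 0) = ascF a (m + 1) := by
  induction m with
  | zero => rw [ascF_succ]; simp [ascF_zero]
  | succ m ih =>
    rw [ascF_succ, er_ge a (by omega), er_ge a (by omega), ascF_succ a (m + 1)]
    omega

theorem erase_not {k N : ℕ} {a : ℕ → ℕ} (hM : Min k (N + k) a) (hk : 2 ≤ k)
    (hdec : ∀ i j, i < j → j < k → a (N + j) < a (N + i)) {p : ℕ} (hp : p < N) :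
    ¬ RA (N + k - 1) (er a p) := by
  intro hRA
  refine hM.min (N + k - 1) (by omega) (fun j => if j < p then j else j + 1) ?_ ?_ hRA ?_
  · intro i j hij hj
    split_ifs <;> omega
  · intro i hi
    split_ifs <;> omega
  · refine ⟨fun i => N - 1 + i, ?_, ?_⟩
    · intro i j hij hj
      refine ⟨by show N - 1 + i < N - 1 + j; omega, ?_⟩
      have e1 := er_ge a (p := p) (j := N - 1 + i) (by omega)
      have e2 := er_ge a (p := p) (j := N - 1 + j) (by omega)
      show er a p (N - 1 + j) < er a p (N - 1 + i)
      rw [e1, e2, show N - 1 + j + 1 = N + j by omega, show N - 1 + i + 1 = N + i by omega]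
      exact hdec i j hij hj
    · intro i hi
      show N - 1 + i < N + k - 1
      omega

theorem rk_er {n p : ℕ} {a : ℕ → ℕ} (hn : p < n) (x : ℕ) : rk (n - 1) (er a p) x ≤ rk n a x :=
  rk_comp (φ := fun j => if j < p then j else j + 1) (by
    intro i hi
    split_ifs <;> omega) x

theorem rk_er_drop {n p : ℕ} {a : ℕ → ℕ} (hn : p < n) (hu : ∀ q < n, q ≠ p → a q ≠ a p) {x : ℕ}
    (hx : a p < x) : rk (n - 1) (er a p) x + 1 ≤ rk n a x :=
  rk_drop (φ := fun j => if j < p then j else j + 1) (by
    intro i hi
    split_ifs <;> omega) hn (by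
    intro i hi
    apply hu
    · split_ifs <;> omega
    · split_ifs <;> omega) hx

end Pool.Agent.V11147.Mas
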