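import Pool.Agent.V11147.MasA

namespace Pool.Agent.V11147.Mas

open Finset

variable {k N : ℕ} {a : ℕ → ℕ}

/-- the indicator of an ascent from `x` to `y` -/
def ind (x y : ℕ) : ℕ := if x < y then 1 else 0

theorem ind_le (x y : ℕ) : ind x y ≤ 1 := by unfold ind; split_ifs <;> omega

theorem ind_cocycle (x v y : ℕ) : ind x y ≤ ind x v + ind v y ∧ ind x v + ind v y ≤ ind x y + 1 := by
  unfold ind
  split_ifs <;> omega

theorem ascF_succ' (a : ℕ → ℕ) (m : ℕ) : ascF a (m + 1) = ascF a m + ind (a m) (a (m + 1)) :=
  ascF_succ a m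

theorem er_ge' (a : ℕ → ℕ) {p m : ℕ} (hp : 1 ≤ p) (h : p ≤ m) :
    ascF (er a p) m + ind (a (p - 1)) (a p) + ind (a p) (a (p + 1)) =
      ascF a (m + 1) + ind (a (p - 1)) (a (p + 1)) := ascF_er_ge a hp h

theorem er_zero' (a : ℕ → ℕ) (m : ℕ) :
    ascF (er a 0) m + ind (a 0) (a 1) = ascF a (m + 1) := ascF_er_zero a m

theorem N_ge (hM : Min k (N + k) a) (hk : 3 ≤ k)
    (hdec : ∀ i j, i < j → j < k → a (N + j) < a (N + i)) (hN : 1 ≤ N) : 2 ≤ N := by
  by_contra h
  have h : N = 1 := by omega
  subst h
  have h1 := hM.ra 1 (by omega)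
  rw [if_neg (by omega), ascF_zero] at h1
  have h2 := hdec 0 1 (by omega) (by omega)
  have h3 := hdec 1 2 (by omega) (by omega)
  have h4 := rk_lt (n := 1 + k) (a := a) (i := 1 + 1) (by omega) h2
  have h5 := rk_lt (n := 1 + k) (a := a) (i := 1 + 2) (by omega) h3
  simp only [Nat.add_zero] at h4
  omega

theorem up_zero (hM : Min k (N + k) a) (hk : 2 ≤ k)
    (hdec : ∀ i j, i < j → j < k → a (N + j) < a (N + i)) (hN : 1 ≤ N) : a 0 < a 1 := by
  by_contra hc
  push Not at hc
  refine erase_not hM hk hdec (p := 0) (by omega) ?_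
  intro i hi
  have hr := rk_er (n := N + k) (p := 0) (a := a) (by omega) (er a 0 i)
  rw [er_ge a (Nat.zero_le i)] at hr ⊢
  by_cases h0 : i = 0
  · subst h0
    rw [if_pos rfl]
    have h1 := hM.ra 0 (by omega)
    rw [if_pos rfl] at h1
    have h2 := rk_mono (N + k) a hc
    simp only [Nat.zero_add] at hr ⊢
    omega
  · rw [if_neg h0]
    have h1 := hM.ra (i + 1) (by omega)
    rw [if_neg (by omega)] at h1
    simp only [Nat.add_sub_cancel] at h1
    have h2 := er_zero' a (i - 1)
    rw [show i - 1 + 1 = i by omega] at h2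
    have h3 : ind (a 0) (a 1) = 0 := by unfold ind; rw [if_neg (by omega)]
    omega

theorem loss (hM : Min k (N + k) a) (hk : 2 ≤ k)
    (hdec : ∀ i j, i < j → j < k → a (N + j) < a (N + i)) {p : ℕ} (hp1 : 1 ≤ p) (hp : p < N) :
    ind (a (p - 1)) (a p) + ind (a p) (a (p + 1)) = ind (a (p - 1)) (a (p + 1)) + 1 := by
  have hc := ind_cocycle (a (p - 1)) (a p) (a (p + 1))
  by_contra hne
  have he : ind (a (p - 1)) (a p) + ind (a p) (a (p + 1)) = ind (a (p - 1)) (a (p + 1)) := by omega
  refine erase_not hM hk hdec hp ?_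
  intro i hi
  have hr := rk_er (n := N + k) (p := p) (a := a) (by omega) (er a p i)
  by_cases h1 : i < p
  · rw [er_lt a h1] at hr ⊢
    have h2 := hM.ra i (by omega)
    by_cases h0 : i = 0
    · rw [if_pos h0] at h2 ⊢
      exact hr.trans h2
    · rw [if_neg h0] at h2 ⊢
      rw [ascF_er_lt a (by omega)]
      exact hr.trans h2
  · rw [er_ge a (by omega)] at hr ⊢
    rw [if_neg (by omega)]
    have h2 := hM.ra (i + 1) (by omega)
    rw [if_neg (by omega)] at h2
    simp only [Nat.add_sub_cancel] at h2
    by_cases h3 : i = p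
    · subst h3
      rw [ascF_er_lt a (by omega)]
      have h4 := ascF_succ' a (i - 1)
      rw [show i - 1 + 1 = i by omega] at h4
      by_cases h5 : ind (a (i - 1)) (a i) = 0
      · omega
      · have h6 := ind_le (a (i - 1)) (a i)
        have h7 := ind_le (a (i - 1)) (a (i + 1))
        have h8 : ind (a i) (a (i + 1)) = 0 := by omega
        have h9 : a (i + 1) ≤ a i := by
          unfold ind at h8
          split_ifs at h8 with h10
          omega
        have h11 := rk_mono (N + k) a h9
        have h12 := hM.ra i (by omega)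
        rw [if_neg (by omega)] at h12
        omega
    · have h4 := er_ge' a hp1 (show p ≤ i - 1 by omega)
      rw [show i - 1 + 1 = i by omega] at h4
      omega

theorem twice (hM : Min k (N + k) a) (hk : 2 ≤ k)
    (hdec : ∀ i j, i < j → j < k → a (N + j) < a (N + i)) {p : ℕ} (hp : p < N) :
    ∃ q < N + k, q ≠ p ∧ a q = a p := by
  by_contra hcon
  push Not at hcon
  have hu : ∀ q < N + k, q ≠ p → a q ≠ a p := hcon
  refine erase_not hM hk hdec hp ?_
  intro i hi
  have hr := rk_er (n := N + k) (p := p) (a := a) (by omega) (er a p i)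
  by_cases hp1 : 1 ≤ p
  · by_cases h1 : i < p
    · rw [er_lt a h1] at hr ⊢
      have h2 := hM.ra i (by omega)
      by_cases h0 : i = 0
      · rw [if_pos h0] at h2 ⊢
        exact hr.trans h2
      · rw [if_neg h0] at h2 ⊢
        rw [ascF_er_lt a (by omega)]
        exact hr.trans h2
    · rw [er_ge a (by omega)] at hr ⊢
      rw [if_neg (by omega)]
      have h2 := hM.ra (i + 1) (by omega)
      rw [if_neg (by omega)] at h2
      simp only [Nat.add_sub_cancel] at h2
      have hpp := hM.ra p (by omega)
      rw [if_neg (by omega)] at hpp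
      have hb : ascF (er a p) (p - 1) = ascF a (p - 1) := ascF_er_lt a (by omega)
      have hm := ascF_mono (er a p) (show p - 1 ≤ i - 1 by omega)
      by_cases h3 : a p < a (i + 1)
      · have h4 := rk_er_drop (n := N + k) (p := p) (a := a) (by omega) hu h3
        by_cases h5 : i = p
        · subst h5
          have h6 := ascF_succ' a (i - 1)
          rw [show i - 1 + 1 = i by omega] at h6
          have h7 := ind_le (a (i - 1)) (a i)
          omega
        · have h6 := er_ge' a hp1 (show p ≤ i - 1 by omega)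
          rw [show i - 1 + 1 = i by omega] at h6
          have h7 := (ind_cocycle (a (p - 1)) (a p) (a (p + 1))).2
          omega
      · have h4 := rk_mono (N + k) a (show a (i + 1) ≤ a p by omega)
        omega
  · have hp0 : p = 0 := by omega
    subst hp0
    rw [er_ge a (Nat.zero_le i)] at hr ⊢
    have h0 := hM.ra 0 (by omega)
    rw [if_pos rfl] at h0
    have h3 : a 0 < a (i + 1) := by
      rcases lt_trichotomy (a 0) (a (i + 1)) with h | h | h
      · exact h
      · exact absurd h.symm (hu (i + 1) (by omega) (by omega))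
      · have := rk_lt (n := N + k) (a := a) (i := i + 1) (by omega) h
        omega
    have h4 := rk_er_drop (n := N + k) (p := 0) (a := a) (by omega) hu h3
    have h2 := hM.ra (i + 1) (by omega)
    rw [if_neg (by omega)] at h2
    simp only [Nat.add_sub_cancel] at h2
    by_cases h5 : i = 0
    · subst h5
      rw [if_pos rfl]
      rw [ascF_zero] at h2
      omega
    · rw [if_neg h5]
      have h6 := er_zero' a (i - 1)
      rw [show i - 1 + 1 = i by omega] at h6
      have h7 := ind_le (a 0) (a 1)
      omega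

theorem exact_rk (hM : Min k (N + k) a) (hk : 2 ≤ k)
    (hdec : ∀ i j, i < j → j < k → a (N + j) < a (N + i)) (hN : 2 ≤ N) :
    rk (N + k) a (a N) = 1 + ascF a (N - 1) := by
  have hle := hM.ra N (by omega)
  rw [if_neg (by omega)] at hle
  by_contra hne
  have hlt : rk (N + k) a (a N) ≤ ascF a (N - 1) := by omega
  refine erase_not hM hk hdec (p := N - 1) (by omega) ?_
  intro i hi
  have hr := rk_er (n := N + k) (p := N - 1) (a := a) (by omega) (er a (N - 1) i)
  by_cases h1 : i < N - 1
  · rw [er_lt a h1] at hr ⊢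
    have h2 := hM.ra i (by omega)
    by_cases h0 : i = 0
    · rw [if_pos h0] at h2 ⊢
      exact hr.trans h2
    · rw [if_neg h0] at h2 ⊢
      rw [ascF_er_lt a (by omega)]
      exact hr.trans h2
  · rw [er_ge a (by omega)] at hr ⊢
    rw [if_neg (by omega)]
    have hb : ascF (er a (N - 1)) (N - 2) = ascF a (N - 2) := ascF_er_lt a (by omega)
    have hm := ascF_mono (er a (N - 1)) (show N - 2 ≤ i - 1 by omega)
    have h6 := ascF_succ' a (N - 2)
    rw [show N - 2 + 1 = N - 1 by omega] at h6
    have h7 := ind_le (a (N - 2)) (a (N - 1))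
    have h8 : a (i + 1) ≤ a N := by
      by_cases h9 : i + 1 = N
      · rw [h9]
      · have := hdec 0 (i + 1 - N) (by omega) (by omega)
        rw [show N + (i + 1 - N) = i + 1 by omega] at this
        exact this.le
    have h9 := rk_mono (N + k) a h8
    omega

/-- rank at most level -/
theorem rk_le_lev (hM : Min k (N + k) a) {p : ℕ} (hp : p < N) :
    rk (N + k) a (a p) ≤ ascF a p := by
  induction p with
  | zero =>
    have := hM.ra 0 (by omega)
    rw [if_pos rfl] at this
    omega
  | succ p ih =>
    have h1 := ih (by omega)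
    have h2 := hM.ra (p + 1) (by omega)
    rw [if_neg (by omega)] at h2
    simp only [Nat.add_sub_cancel] at h2
    rw [ascF_succ]
    split_ifs with h
    · omega
    · have := rk_mono (N + k) a (show a (p + 1) ≤ a p by omega)
      omega

end Pool.Agent.V11147.Mas
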