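import Pool.Agent.V11147.MasB

namespace Pool.Agent.V11147.Mas

open Finset

variable {k N : ℕ} {a : ℕ → ℕ}

/-- the counting inequality -/
theorem count (hM : Min k (N + k) a) (hk : 2 ≤ k)
    (hdec : ∀ i j, i < j → j < k → a (N + j) < a (N + i)) (hN : 2 ≤ N) (M : ℕ) :
    ((range N).filter (fun p => rk (N + k) a (a p) < M)).card + 2 * (1 + ascF a (N - 1)) ≤
      2 * M + N + 2 * (k - 1) := by
  set n := N + k with hn
  set V := ((range n).image a).filter (fun y => y < a N) with hV
  have hVc : V.card = 1 + ascF a (N - 1) := exact_rk hM hk hdec hN
  set V1 := V.filter (fun v => rk n a v < M) with hV1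
  set V2 := V.filter (fun v => ¬ rk n a v < M) with hV2
  have h12 : V1.card + V2.card = V.card := card_filter_add_card_filter_not _
  have hV1c : V1.card ≤ M := by
    have h1 : V1.card ≤ (range M).card := by
      apply card_le_card_of_injOn (fun v => rk n a v)
      · intro v hv
        simp only [hV1, coe_filter, Set.mem_ofPred_eq] at hv
        simp only [coe_range, Set.mem_Iio]
        exact hv.2
      · intro v hv w hw hvw
        simp only [hV1, hV, coe_filter, mem_filter, mem_image, mem_range, Set.mem_ofPred_eq] at hv hw
        obtain ⟨⟨⟨i, hi, rfl⟩, _⟩, _⟩ := hv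
        obtain ⟨⟨⟨j, hj, rfl⟩, _⟩, _⟩ := hw
        simp only at hvw
        rcases lt_trichotomy (a i) (a j) with h | h | h
        · have := rk_lt (n := n) (a := a) hi h
          omega
        · exact h
        · have := rk_lt (n := n) (a := a) hj h
          omega
    simpa using h1
  set T := (range (k - 1)).image (fun j => a (N + 1 + j)) with hT
  have hTc : T.card ≤ k - 1 := by
    have := card_image_le (s := range (k - 1)) (f := fun j => a (N + 1 + j))
    simpa using this
  set W := V2 \ T with hW
  have hWc : V2.card ≤ W.card + T.card := by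
    have h1 : W.card + T.card = (V2 ∪ T).card := card_sdiff_add_card V2 T
    have h2 : V2.card ≤ (V2 ∪ T).card := card_le_card subset_union_left
    omega
  set P := (range N).filter (fun p => ¬ rk n a (a p) < M) with hP
  have hPc : ((range N).filter (fun p => rk n a (a p) < M)).card + P.card = N := by
    have := card_filter_add_card_filter_not (s := range N) (fun p => rk n a (a p) < M)
    rw [card_range] at this
    exact this
  have hfib : 2 * W.card ≤ P.card := by
    have h1 : (P.filter (fun p => a p ∈ W)).card = ∑ v ∈ W, ((P.filter (fun p => a p ∈ W)).filter (fun p => a p = v)).card := by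
      apply card_eq_sum_card_fiberwise
      intro p hp
      simp only [coe_filter, Set.mem_ofPred_eq] at hp
      exact hp.2
    have h2 : W.card * 2 ≤ ∑ v ∈ W, ((P.filter (fun p => a p ∈ W)).filter (fun p => a p = v)).card := by
      rw [← smul_eq_mul]
      apply card_nsmul_le_sum
      intro v hv
      have hv0 := hv
      simp only [hW, hV2, hV, hT, mem_sdiff, mem_filter, mem_image, mem_range] at hv
      obtain ⟨⟨⟨⟨q, hq, hqv⟩, hvN⟩, hvM⟩, hvT⟩ := hv
      have key : ∀ r < n, a r = v → r < N := by
        intro r hr hrv
        by_contra hge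
        by_cases hrN : r = N
        · rw [hrN] at hrv; omega
        · apply hvT
          refine ⟨r - (N + 1), by omega, ?_⟩
          rw [show N + 1 + (r - (N + 1)) = r by omega]
          exact hrv
      have hqN := key q hq hqv
      obtain ⟨r, hr, hrq, hra⟩ := twice hM hk hdec hqN
      have hrN := key r hr (hra.trans hqv)
      have hsub : ({q, r} : Finset ℕ) ⊆ (P.filter (fun p => a p ∈ W)).filter (fun p => a p = v) := by
        intro s hs
        simp only [mem_insert, mem_singleton] at hs
        simp only [hP, mem_filter, mem_range]
        rcases hs with rfl | rfl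
        · rw [hqv]
          exact ⟨⟨⟨hqN, hvM⟩, hv0⟩, rfl⟩
        · rw [hra, hqv]
          exact ⟨⟨⟨hrN, hvM⟩, hv0⟩, rfl⟩
      have := card_le_card hsub
      rw [card_pair (fun h => hrq h.symm)] at this
      exact this
    have h3 : (P.filter (fun p => a p ∈ W)).card ≤ P.card := card_filter_le _ _
    omega
  omega

end Pool.Agent.V11147.Mas
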