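import Pool.Agent.V11147.MasC

namespace Pool.Agent.V11147.Mas

open Finset

variable {k N : ℕ} {a : ℕ → ℕ}

theorem ind_one {x y : ℕ} (h : x < y) : ind x y = 1 := by unfold ind; rw [if_pos h]

theorem ind_zero {x y : ℕ} (h : ¬ x < y) : ind x y = 0 := by unfold ind; rw [if_neg h]

theorem no_dd (hM : Min k (N + k) a) (hk : 2 ≤ k)
    (hdec : ∀ i j, i < j → j < k → a (N + j) < a (N + i)) {p : ℕ} (hp : p + 1 < N)
    (h : ¬ a p < a (p + 1)) : a (p + 1) < a (p + 2) := by
  have h1 := loss hM hk hdec (p := p + 1) (by omega) hp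
  simp only [Nat.add_sub_cancel] at h1
  rw [ind_zero h] at h1
  by_contra hc
  rw [show p + 1 + 1 = p + 2 by rfl, ind_zero hc] at h1
  omega

theorem pk (hM : Min k (N + k) a) (hk : 2 ≤ k)
    (hdec : ∀ i j, i < j → j < k → a (N + j) < a (N + i)) {p : ℕ} (hp : p + 1 < N)
    (h : a p < a (p + 1)) (h' : ¬ a (p + 1) < a (p + 2)) : a (p + 2) ≤ a p := by
  have h1 := loss hM hk hdec (p := p + 1) (by omega) hp
  simp only [Nat.add_sub_cancel] at h1
  rw [ind_one h, show p + 1 + 1 = p + 2 by rfl, ind_zero h'] at h1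
  by_contra hc
  rw [ind_one (by omega)] at h1
  omega

theorem vl (hM : Min k (N + k) a) (hk : 2 ≤ k)
    (hdec : ∀ i j, i < j → j < k → a (N + j) < a (N + i)) {p : ℕ} (hp : p + 1 < N)
    (h : ¬ a p < a (p + 1)) (h' : a (p + 1) < a (p + 2)) : a (p + 2) ≤ a p := by
  have h1 := loss hM hk hdec (p := p + 1) (by omega) hp
  simp only [Nat.add_sub_cancel] at h1
  rw [ind_zero h, show p + 1 + 1 = p + 2 by rfl, ind_one h'] at h1
  by_contra hc
  rw [ind_one (by omega)] at h1
  omega

theorem uN (hM : Min k (N + k) a) (hk : 2 ≤ k)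
    (hdec : ∀ i j, i < j → j < k → a (N + j) < a (N + i)) {p : ℕ} (hp : p + 1 = N) :
    a p < a (p + 1) := by
  rw [hp]
  exact top hM hk hdec p (by omega)

theorem uN2 (hM : Min k (N + k) a) (hk : 2 ≤ k)
    (hdec : ∀ i j, i < j → j < k → a (N + j) < a (N + i)) {p : ℕ} (hp : p + 2 = N) :
    a p < a (p + 1) := by
  by_contra hc
  have h1 := no_dd hM hk hdec (p := p) (by omega) hc
  have h2 := vl hM hk hdec (p := p) (by omega) hc h1
  have h3 := top hM hk hdec p (by omega)
  rw [hp] at h2
  omega

/-- a single position: an ascent into it (or it is the first), and an ascent out of it -/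
def Sg (a : ℕ → ℕ) (p : ℕ) : Prop := (p = 0 ∨ a (p - 1) < a p) ∧ a p < a (p + 1)

instance (a : ℕ → ℕ) : DecidablePred (Sg a) := fun p => by unfold Sg; infer_instance

def sc (a : ℕ → ℕ) (p : ℕ) : ℕ := ((range (p + 1)).filter (Sg a)).card

theorem sc_succ (a : ℕ → ℕ) (p : ℕ) : sc a (p + 1) = sc a p + if Sg a (p + 1) then 1 else 0 := by
  unfold sc
  rw [range_add_one (n := p + 1), filter_insert]
  split_ifs with h
  · rw [card_insert_of_notMem (by simp)]
  · simp

theorem sc_zero (h : Sg a 0) : sc a 0 = 1 := by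
  unfold sc
  rw [show (range (0 + 1)).filter (Sg a) = {0} from ?_]
  · simp
  · ext x
    simp only [mem_filter, mem_range, mem_singleton]
    constructor
    · rintro ⟨h1, _⟩; omega
    · rintro rfl; exact ⟨by omega, h⟩

theorem inv (hM : Min k (N + k) a) (hk : 2 ≤ k)
    (hdec : ∀ i j, i < j → j < k → a (N + j) < a (N + i)) {p : ℕ} (hp : p < N) :
    p + sc a p = 2 * ascF a p + ind (a p) (a (p + 1)) := by
  have h0 : a 0 < a 1 := up_zero hM hk hdec (by omega)
  induction p with
  | zero =>
    rw [sc_zero ⟨Or.inl rfl, h0⟩, ascF_zero, ind_one h0]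
  | succ p ih =>
    have ih := ih (by omega)
    rw [sc_succ, ascF_succ']
    by_cases h1 : a p < a (p + 1)
    · rw [ind_one h1] at ih ⊢
      by_cases h2 : a (p + 1) < a (p + 1 + 1)
      · rw [ind_one h2, if_pos ⟨Or.inr (by simpa using h1), h2⟩]
        omega
      · rw [ind_zero h2, if_neg (fun h => h2 h.2)]
        omega
    · rw [ind_zero h1] at ih ⊢
      have h2 := no_dd hM hk hdec (p := p) (by omega) h1
      rw [show p + 1 + 1 = p + 2 by rfl, ind_one h2, if_neg]
      · omega
      · rintro ⟨h3 | h3, _⟩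
        · omega
        · simp only [Nat.add_sub_cancel] at h3
          exact h1 h3

/-- the stretch following a single position -/
def St (N : ℕ) (a : ℕ → ℕ) (q x : ℕ) : Prop :=
  q + 2 * x + 1 < N ∧ Sg a (q + 2 * x + 1) ∧
    ∀ j < x, ¬ a (q + 1 + 2 * j) < a (q + 2 + 2 * j) ∧ a (q + 2 + 2 * j) < a (q + 3 + 2 * j)

theorem stretch (hM : Min k (N + k) a) (hk : 2 ≤ k)
    (hdec : ∀ i j, i < j → j < k → a (N + j) < a (N + i)) {q : ℕ} (hq : q + 1 < N)
    (hs : Sg a q) : ∃ x, St N a q x := by
  have key : ∀ m, (∃ x, St N a q x) ∨ (q + 2 * m + 2 < N ∧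
      ∀ j ≤ m, ¬ a (q + 1 + 2 * j) < a (q + 2 + 2 * j) ∧ a (q + 2 + 2 * j) < a (q + 3 + 2 * j)) := by
    intro m
    induction m with
    | zero =>
      by_cases h1 : a (q + 1) < a (q + 2)
      · left
        refine ⟨0, by omega, ⟨Or.inr ?_, ?_⟩, by intro j hj; omega⟩
        · simpa using hs.2
        · simpa using h1
      · right
        have h2 : q + 2 < N := by
          by_contra hc
          exact h1 (uN hM hk hdec (p := q + 1) (by omega))
        have h3 := no_dd hM hk hdec (p := q + 1) (by omega) h1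
        refine ⟨by omega, ?_⟩
        intro j hj
        have : j = 0 := by omega
        subst this
        exact ⟨by simpa using h1, by simpa using h3⟩
    | succ m ih =>
      rcases ih with ih | ⟨ih1, ih2⟩
      · exact Or.inl ih
      · have hm := ih2 m le_rfl
        have h2 : q + 2 * m + 3 < N := by
          by_contra hc
          apply hm.1
          have := uN2 hM hk hdec (p := q + 1 + 2 * m) (by omega)
          rw [show q + 2 + 2 * m = q + 1 + 2 * m + 1 by omega]
          exact this
        by_cases h1 : a (q + 2 * m + 3) < a (q + 2 * m + 4)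
        · left
          refine ⟨m + 1, by omega, ⟨Or.inr ?_, ?_⟩, by intro j hj; exact ih2 j (by omega)⟩
          · rw [show q + 2 * (m + 1) + 1 - 1 = q + 2 + 2 * m by omega,
              show q + 2 * (m + 1) + 1 = q + 3 + 2 * m by omega]
            exact hm.2
          · rw [show q + 2 * (m + 1) + 1 = q + 2 * m + 3 by omega,
              show q + 2 * m + 3 + 1 = q + 2 * m + 4 by omega]
            exact h1
        · right
          have h3 : q + 2 * m + 4 < N := by
            by_contra hc
            exact h1 (uN hM hk hdec (p := q + 2 * m + 3) (by omega))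
          have h4 := no_dd hM hk hdec (p := q + 2 * m + 3) (by omega) h1
          refine ⟨by omega, ?_⟩
          intro j hj
          by_cases hjm : j ≤ m
          · exact ih2 j hjm
          · have : j = m + 1 := by omega
            subst this
            rw [show q + 1 + 2 * (m + 1) = q + 2 * m + 3 by omega,
              show q + 2 + 2 * (m + 1) = q + 2 * m + 4 by omega,
              show q + 3 + 2 * (m + 1) = q + 2 * m + 5 by omega]
            exact ⟨h1, h4⟩
  rcases key N with h | h
  · exact h
  · omega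

theorem st_sc {q x : ℕ} (hs : St N a q x) : sc a (q + 2 * x + 1) = sc a q + 1 := by
  have key : ∀ m ≤ x, sc a (q + 2 * m) = sc a q := by
    intro m
    induction m with
    | zero => intro _; rfl
    | succ m ih =>
      intro hm
      have ih := ih (by omega)
      have h := hs.2.2 m (by omega)
      have n1 : ¬ Sg a (q + 2 * m + 1) := by
        rintro ⟨_, h2⟩
        apply h.1
        rw [show q + 1 + 2 * m = q + 2 * m + 1 by omega,
          show q + 2 + 2 * m = q + 2 * m + 1 + 1 by omega]
        exact h2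
      have n2 : ¬ Sg a (q + 2 * m + 1 + 1) := by
        rintro ⟨h3 | h3, _⟩
        · omega
        · apply h.1
          rw [show q + 1 + 2 * m = q + 2 * m + 1 + 1 - 1 by omega,
            show q + 2 + 2 * m = q + 2 * m + 1 + 1 by omega]
          exact h3
      rw [show q + 2 * (m + 1) = q + 2 * m + 1 + 1 by omega, sc_succ, sc_succ, ih,
        if_neg n1, if_neg n2, Nat.add_zero]
  rw [sc_succ, key x le_rfl, if_pos hs.2.1]

/-- valleys (and the initial single) of a stretch are at most the initial single -/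
theorem st_even (hM : Min k (N + k) a) (hk : 2 ≤ k)
    (hdec : ∀ i j, i < j → j < k → a (N + j) < a (N + i)) {q x : ℕ} (hq : Sg a q)
    (hs : St N a q x) : ∀ j ≤ x, a (q + 2 * j) ≤ a q := by
  intro j
  induction j with
  | zero => intro _; exact le_rfl
  | succ j ih =>
    intro hj
    have ih := ih (by omega)
    have h := hs.2.2 j (by omega)
    have h1 := hs.1
    have hu : a (q + 2 * j) < a (q + 2 * j + 1) := by
      by_cases hj0 : j = 0
      · subst hj0; exact hq.2
      · have h2 := (hs.2.2 (j - 1) (by omega)).2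
        rw [show q + 2 + 2 * (j - 1) = q + 2 * j by omega,
          show q + 3 + 2 * (j - 1) = q + 2 * j + 1 by omega] at h2
        exact h2
    have h3 := pk hM hk hdec (p := q + 2 * j) (by omega) hu (by
      rw [show q + 2 * j + 1 = q + 1 + 2 * j by omega,
        show q + 2 * j + 2 = q + 2 + 2 * j by omega]
      exact h.1)
    rw [show q + 2 * (j + 1) = q + 2 * j + 2 by omega]
    omega

theorem st_odd (hM : Min k (N + k) a) (hk : 2 ≤ k)
    (hdec : ∀ i j, i < j → j < k → a (N + j) < a (N + i)) {q x : ℕ}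
    (hs : St N a q x) : ∀ j ≤ x, a (q + 1 + 2 * j) ≤ a (q + 1) := by
  intro j
  induction j with
  | zero => intro _; exact le_rfl
  | succ j ih =>
    intro hj
    have ih := ih (by omega)
    have h := hs.2.2 j (by omega)
    have h1 := hs.1
    have h3 := vl hM hk hdec (p := q + 1 + 2 * j) (by omega)
      (by rw [show q + 1 + 2 * j + 1 = q + 2 + 2 * j by omega]; exact h.1)
      (by rw [show q + 1 + 2 * j + 1 = q + 2 + 2 * j by omega,
            show q + 1 + 2 * j + 2 = q + 3 + 2 * j by omega]; exact h.2)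
    rw [show q + 1 + 2 * (j + 1) = q + 1 + 2 * j + 2 by omega]
    omega

/-- the main inequality for a stretch and the next one -/
theorem st_main (hM : Min k (N + k) a) (hk : 2 ≤ k)
    (hdec : ∀ i j, i < j → j < k → a (N + j) < a (N + i)) {q x y : ℕ} (hq : Sg a q)
    (hs : St N a q x) (hy : y = 0 ∨ St N a (q + 2 * x + 1) y) :
    2 * x + y + sc a (N - 1) + 1 ≤ sc a q + 2 * k := by
  have h1 := hs.1
  set q' := q + 2 * x + 1 with hq'
  set l := ascF a q + 1 with hl
  have hC := count hM hk hdec (by omega) (l + 1)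
  have hI := inv hM hk hdec (p := q) (by omega)
  rw [ind_one hq.2] at hI
  have hIN := inv hM hk hdec (p := N - 1) (by omega)
  have hu : a (N - 1) < a (N - 1 + 1) := uN hM hk hdec (p := N - 1) (by omega)
  rw [ind_one hu] at hIN
  have hr1 : rk (N + k) a (a (q + 1)) ≤ l := by
    have := rk_le_lev hM (p := q + 1) (by omega)
    rw [ascF_succ', ind_one hq.2] at this
    exact this
  have hle : ∀ v, v ≤ a (q + 1) → rk (N + k) a v < l + 1 := by
    intro v hv
    have := rk_mono (N + k) a hv
    omega
  have hq1 := hq.2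
  have hall : ∀ p ≤ q', rk (N + k) a (a p) < l + 1 := by
    intro p hp
    by_cases hpq : p ≤ q
    · have h2 := rk_le_lev hM (p := p) (by omega)
      have h3 := ascF_mono a hpq
      omega
    · apply hle
      obtain ⟨d, hd⟩ : ∃ d, p = q + 1 + d := ⟨p - (q + 1), by omega⟩
      rcases Nat.even_or_odd' d with ⟨j, hj | hj⟩
      · rw [hd, hj]
        exact st_odd hM hk hdec hs j (by omega)
      · have h4 := st_even hM hk hdec hq hs (j + 1) (by omega)
        rw [hd, hj, show q + 1 + (2 * j + 1) = q + 2 * (j + 1) by omega]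
        omega
  have hq'v : a q' ≤ a (q + 1) := by
    have := st_odd hM hk hdec hs x le_rfl
    rw [show q + 1 + 2 * x = q' by omega] at this
    exact this
  have hcard : q' + 1 + y ≤ ((range N).filter (fun p => rk (N + k) a (a p) < l + 1)).card := by
    have hsub : range (q' + 1) ∪ (range y).image (fun j => q' + 2 + 2 * j) ⊆
        (range N).filter (fun p => rk (N + k) a (a p) < l + 1) := by
      intro p hp
      simp only [mem_union, mem_image, mem_range] at hp
      simp only [mem_filter, mem_range]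
      rcases hp with hp | ⟨j, hj, rfl⟩
      · exact ⟨by omega, hall p (by omega)⟩
      · rcases hy with hy | hy
        · omega
        · have h5 := hy.1
          refine ⟨by omega, ?_⟩
          apply hle
          have h6 := st_even hM hk hdec hs.2.1 hy (j + 1) (by omega)
          rw [show q' + 2 + 2 * j = q' + 2 * (j + 1) by omega]
          exact h6.trans hq'v
    have h7 := card_le_card hsub
    rw [card_union_of_disjoint, card_range, card_image_of_injective, card_range] at h7
    · exact h7
    · intro i j hij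
      simp only at hij
      omega
    · rw [disjoint_left]
      intro p hp hp2
      simp only [mem_image, mem_range] at hp hp2
      obtain ⟨j, hj, rfl⟩ := hp2
      omega
  omega

/-- the structure theorem -/
theorem struct (hM : Min k (N + k) a) (hk : 2 ≤ k)
    (hdec : ∀ i j, i < j → j < k → a (N + j) < a (N + i)) (hN : 2 ≤ N) :
    ∃ (J : ℕ) (x : ℕ → ℕ), N = (∑ i ∈ range J, (2 * x i + 1)) + 1 ∧ J + 3 ≤ 2 * k ∧ x J = 0 ∧
      ∀ i < J, 1 ≤ x i → 2 * x i + x (i + 1) + J + 1 ≤ i + 2 * k := by
  have hex : ∀ q, ∃ x, q + 1 < N → Sg a q → St N a q x := by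
    intro q
    by_cases h : q + 1 < N ∧ Sg a q
    · obtain ⟨x, hx⟩ := stretch hM hk hdec h.1 h.2
      exact ⟨x, fun _ _ => hx⟩
    · exact ⟨0, fun h1 h2 => absurd ⟨h1, h2⟩ h⟩
  choose X hX using hex
  set Q : ℕ → ℕ := fun i => Nat.rec 0 (fun _ q => q + 2 * X q + 1) i with hQ
  have hQ0 : Q 0 = 0 := rfl
  have hQs : ∀ i, Q (i + 1) = Q i + 2 * X (Q i) + 1 := fun i => rfl
  have hQge : ∀ i, i ≤ Q i := by
    intro i
    induction i with
    | zero => omega
    | succ i ih => rw [hQs]; omega
  have hfind : ∃ i, N ≤ Q i + 1 := ⟨N, by have := hQge N; omega⟩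
  set J := Nat.find hfind with hJ
  have hJ1 : N ≤ Q J + 1 := Nat.find_spec hfind
  have hJ2 : ∀ j < J, Q j + 1 < N := by
    intro j hj
    have := Nat.find_min hfind hj
    omega
  have h0 : a 0 < a 1 := up_zero hM hk hdec (by omega)
  have hinv : ∀ i ≤ J, Sg a (Q i) ∧ Q i < N ∧ sc a (Q i) = i + 1 ∧
      Q i = ∑ j ∈ range i, (2 * X (Q j) + 1) := by
    intro i
    induction i with
    | zero =>
      intro _
      have hs0 : Sg a 0 := ⟨Or.inl rfl, h0⟩
      refine ⟨hs0, ?_, sc_zero hs0, ?_⟩
      · rw [hQ0]; omega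
      · simp [hQ0]
    | succ i ih =>
      intro hi
      obtain ⟨i1, i2, i3, i4⟩ := ih (by omega)
      have hst := hX (Q i) (hJ2 i (by omega)) i1
      rw [hQs]
      refine ⟨hst.2.1, hst.1, ?_, ?_⟩
      · rw [st_sc hst, i3]
      · rw [sum_range_succ, ← i4]; omega
  have hJJ := hinv J le_rfl
  have hQJ : Q J = N - 1 := by omega
  refine ⟨J, fun i => if i < J then X (Q i) else 0, ?_, ?_, ?_, ?_⟩
  · have h1 := hJJ.2.2.2
    have h2 : ∑ i ∈ range J, (2 * (if i < J then X (Q i) else 0) + 1) =
        ∑ j ∈ range J, (2 * X (Q j) + 1) := by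
      apply sum_congr rfl
      intro i hi
      rw [mem_range] at hi
      rw [if_pos hi]
    simp only
    rw [h2, ← h1]
    omega
  · have hC := count hM hk hdec hN 0
    have hIN := inv hM hk hdec (p := N - 1) (by omega)
    have hu : a (N - 1) < a (N - 1 + 1) := uN hM hk hdec (p := N - 1) (by omega)
    rw [ind_one hu] at hIN
    have h3 := hJJ.2.2.1
    rw [hQJ] at h3
    omega
  · simp
  · intro i hi hxi
    simp only at hxi ⊢
    rw [if_pos hi] at hxi ⊢
    obtain ⟨i1, i2, i3, i4⟩ := hinv i hi.le
    have hst := hX (Q i) (hJ2 i hi) i1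
    have h3 := hJJ.2.2.1
    rw [hQJ] at h3
    by_cases hi1 : i + 1 < J
    · rw [if_pos hi1]
      obtain ⟨j1, j2, j3, j4⟩ := hinv (i + 1) hi1.le
      have hst' := hX (Q (i + 1)) (hJ2 (i + 1) hi1) j1
      have := st_main hM hk hdec i1 hst (Or.inr (by rw [← hQs]; exact hst'))
      omega
    · rw [if_neg hi1]
      have := st_main hM hk hdec i1 hst (Or.inl (rfl : (0:ℕ) = 0))
      omega

end Pool.Agent.V11147.Mas
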