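import Pool.Agent.V11147.MasD

namespace Pool.Agent.V11147.Mas

open Finset

theorem uncond {J k : ℕ} {x : ℕ → ℕ} (hJ : J + 3 ≤ 2 * k) (hxJ : x J = 0)
    (h : ∀ i < J, 1 ≤ x i → 2 * x i + x (i + 1) + J + 1 ≤ i + 2 * k) :
    ∀ i < J, 2 * x i + x (i + 1) + J + 1 ≤ i + 2 * k := by
  intro i hi
  by_cases h1 : 1 ≤ x i
  · exact h i hi h1
  · by_cases h2 : i + 1 = J
    · rw [h2, hxJ]; omega
    · by_cases h3 : 1 ≤ x (i + 1)
      · have := h (i + 1) (by omega) h3
        omega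
      · omega

theorem arith {J k N : ℕ} {x : ℕ → ℕ} (hk : 2 ≤ k) (hN : N = (∑ i ∈ range J, (2 * x i + 1)) + 1)
    (hJ : J + 3 ≤ 2 * k) (hxJ : x J = 0)
    (h : ∀ i < J, 1 ≤ x i → 2 * x i + x (i + 1) + J + 1 ≤ i + 2 * k) :
    3 * N + 4 ≤ 4 * k ^ 2 := by
  have hu := uncond hJ hxJ h
  have key : ∀ m ≤ J, 6 * (∑ i ∈ range m, x i) + 2 * x m + 2 * m * (J + 1) ≤
      2 * x 0 + m * m + 4 * k * m - m ∧ m ≤ m * m := by
    intro m
    induction m with
    | zero => intro _; simp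
    | succ m ih =>
      intro hm
      obtain ⟨ih, ih'⟩ := ih (by omega)
      have h1 := hu m (by omega)
      rw [sum_range_succ]
      have e1 : (m + 1) * (m + 1) = m * m + 2 * m + 1 := by ring
      have e2 : 2 * (m + 1) * (J + 1) = 2 * m * (J + 1) + 2 * (J + 1) := by ring
      have e3 : 4 * k * (m + 1) = 4 * k * m + 4 * k := by ring
      rw [e1, e2, e3]
      constructor
      · omega
      · omega
  have hA : N = 2 * (∑ i ∈ range J, x i) + J + 1 := by
    rw [hN, sum_add_distrib, ← mul_sum]; simp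
  obtain ⟨k1, k2⟩ := key J le_rfl
  set A := ∑ i ∈ range J, x i with hAd
  by_cases hJ0 : J = 0
  · subst hJ0
    simp at hAd
    rw [hAd] at hA
    nlinarith
  · have h0 := hu 0 (by omega)
    have k3 : 6 * A + 2 * J * (J + 1) + J ≤ 2 * x 0 + J * J + 4 * k * J := by omega
    have h0' : 2 * x 0 + J + 1 ≤ 2 * k := by omega
    obtain ⟨c, hc⟩ : ∃ c, 2 * k = J + 3 + c := ⟨2 * k - (J + 3), by omega⟩
    have e1 : 4 * k * J = 2 * (J + 3 + c) * J := by rw [← hc]; ring
    have e2 : 4 * k ^ 2 = (J + 3 + c) * (J + 3 + c) := by rw [← hc]; ring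
    rw [e2]
    rw [e1] at k3
    nlinarith

theorem small7 (a b c d e f g : ℕ) (h0 : 2 * a + b ≤ 2) (h1 : 2 * b + c ≤ 3) (h2 : 2 * c + d ≤ 4)
    (h3 : 2 * d + e ≤ 5) (h4 : 2 * e + f ≤ 6) (h5 : 2 * f + g ≤ 7) (h6 : g ≤ 4) :
    a + b + c + d + e + f + g ≤ 10 := by
  have hb : b ≤ 1 := by omega
  have hd : d ≤ 2 := by omega
  have hf : f ≤ 3 := by omega
  interval_cases b <;> interval_cases d <;> interval_cases f <;> omega

theorem arith_small {J k N : ℕ} {x : ℕ → ℕ} (hk3 : 3 ≤ k) (hk5 : k ≤ 5)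
    (hN : N = (∑ i ∈ range J, (2 * x i + 1)) + 1)
    (hJ : J + 3 ≤ 2 * k) (hxJ : x J = 0)
    (h : ∀ i < J, 1 ≤ x i → 2 * x i + x (i + 1) + J + 1 ≤ i + 2 * k) :
    N + k ≤ k ^ 2 + 2 * k - 2 := by
  have hu := uncond hJ hxJ h
  have hJ7 : J ≤ 7 := by omega
  clear h
  interval_cases k
  · have : J ≤ 3 := by omega
    have h0 := hu 0
    have h1 := hu 1
    have h2 := hu 2
    clear hu
    interval_cases J <;> simp only [sum_range_succ, sum_range_zero] at hN <;> norm_num at h0 h1 h2 ⊢ <;> omega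
  · have : J ≤ 5 := by omega
    have h0 := hu 0
    have h1 := hu 1
    have h2 := hu 2
    have h3 := hu 3
    have h4 := hu 4
    clear hu
    interval_cases J <;> simp only [sum_range_succ, sum_range_zero] at hN <;> norm_num at h0 h1 h2 h3 h4 ⊢ <;> omega
  · have h0 := hu 0
    have h1 := hu 1
    have h2 := hu 2
    have h3 := hu 3
    have h4 := hu 4
    have h5 := hu 5
    have h6 := hu 6
    clear hu
    by_cases hJ : J = 7
    · subst hJ
      simp only [sum_range_succ, sum_range_zero] at hN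
      norm_num at h0 h1 h2 h3 h4 h5 h6 ⊢
      have := small7 (x 0) (x 1) (x 2) (x 3) (x 4) (x 5) (x 6) (by omega) (by omega) (by omega)
        (by omega) (by omega) (by omega) (by omega)
      omega
    · have : J ≤ 6 := by omega
      interval_cases J <;> simp only [sum_range_succ, sum_range_zero] at hN <;> norm_num at h0 h1 h2 h3 h4 h5 h6 ⊢ <;> omega

variable {k n : ℕ} {a : ℕ → ℕ}

theorem main (hM : Min k n a) (hk : 3 ≤ k) :
    3 * n + 4 ≤ 4 * k ^ 2 + 3 * k ∧ (k ≤ 5 → n ≤ k ^ 2 + 2 * k - 2) := by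
  obtain ⟨N, rfl, hN1, hdec⟩ := tail hM (by omega)
  have hN := N_ge hM hk hdec hN1
  obtain ⟨J, x, h1, h2, h3, h4⟩ := struct hM (by omega) hdec hN
  constructor
  · have := arith (by omega) h1 h2 h3 h4
    omega
  · intro h5
    exact arith_small hk h5 h1 h2 h3 h4

end Pool.Agent.V11147.Mas
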