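import Pool.Agent.V11147.MasE

namespace Pool.Agent.V11147.Mas

open Finset

/-- the number of ascents of a finite sequence -/
def asc (s : List ℕ) : ℕ :=
  ((range (s.length - 1)).filter (fun i => s.getD i 0 < s.getD (i + 1) 0)).card

/-- ascent sequences -/
def IsAscentSeq (s : List ℕ) : Prop :=
  s ≠ [] ∧ s.getD 0 0 = 0 ∧ ∀ i, 1 ≤ i → i < s.length → s.getD i 0 ≤ 1 + asc (s.take i)

/-- containment of sequences -/
def Contains (s t : List ℕ) : Prop :=
  ∃ f : Fin t.length → Fin s.length, StrictMono f ∧ ∀ i j,
    (s.get (f i) < s.get (f j) ↔ t.get i < t.get j) ∧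
    (s.get (f i) = s.get (f j) ↔ t.get i = t.get j)

/-- the decreasing pattern of length `k` -/
def delta (k : ℕ) : List ℕ := (List.range k).reverse

/-- minimal ascent sequences for a pattern -/
def IsMinimalFor (r s : List ℕ) : Prop :=
  IsAscentSeq s ∧ Contains s r ∧
    ∀ t, IsAscentSeq t → Contains s t → t.length < s.length → ¬ Contains t r

theorem asc_take (s : List ℕ) {i : ℕ} (hi : 1 ≤ i) (his : i < s.length) :
    asc (s.take i) = ascF (fun j => s.getD j 0) (i - 1) := by
  unfold asc ascF
  rw [List.length_take, Nat.min_eq_left his.le]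
  congr 1
  apply filter_congr
  intro j hj
  rw [mem_range] at hj
  have e1 : (s.take i).getD j 0 = s.getD j 0 := by
    simp [List.getD_eq_getElem?_getD, show j < i by omega]
  have e2 : (s.take i).getD (j + 1) 0 = s.getD (j + 1) 0 := by
    simp [List.getD_eq_getElem?_getD, show j + 1 < i by omega]
  rw [e1, e2]

theorem rk_le_self (n : ℕ) (a : ℕ → ℕ) (x : ℕ) : rk n a x ≤ x := by
  unfold rk
  have : ((range n).image a).filter (fun y => y < x) ⊆ range x := by
    intro y hy
    simp only [mem_filter] at hy
    simpa using hy.2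
  simpa using card_le_card this

theorem get_getD (s : List ℕ) (i : Fin s.length) : s.get i = s.getD i.1 0 := by
  simp [List.getD_eq_getElem?_getD]

theorem delta_length (k : ℕ) : (delta k).length = k := by simp [delta]

theorem delta_get (k : ℕ) (i : Fin (delta k).length) : (delta k).get i = k - 1 - i.1 := by
  simp [delta]

theorem rk_lt_iff {n : ℕ} {b : ℕ → ℕ} {i j : ℕ} (hi : i < n) (_hj : j < n) :
    rk n b (b i) < rk n b (b j) ↔ b i < b j := by
  constructor
  · intro h
    by_contra hc
    have := rk_mono n b (show b j ≤ b i by omega)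
    omega
  · intro h
    exact rk_lt hi h

theorem rk_eq_iff {n : ℕ} {b : ℕ → ℕ} {i j : ℕ} (hi : i < n) (hj : j < n) :
    rk n b (b i) = rk n b (b j) ↔ b i = b j := by
  have h1 := rk_lt_iff (b := b) hi hj
  have h2 := rk_lt_iff (b := b) hj hi
  omega

/-- the standardisation of a subsequence -/
def std (n : ℕ) (b : ℕ → ℕ) : List ℕ := List.ofFn (n := n) (fun i => rk n b (b i.1))

theorem std_length (n : ℕ) (b : ℕ → ℕ) : (std n b).length = n := by simp [std]

theorem std_getD {n : ℕ} {b : ℕ → ℕ} {i : ℕ} (hi : i < n) :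
    (std n b).getD i 0 = rk n b (b i) := by
  simp [std, List.getD_eq_getElem?_getD, hi]

theorem std_asc {n : ℕ} {b : ℕ → ℕ} {m : ℕ} (hm : m < n) :
    ascF (fun j => (std n b).getD j 0) m = ascF b m := by
  unfold ascF
  congr 1
  apply filter_congr
  intro j hj
  rw [mem_range] at hj
  simp only
  rw [std_getD (by omega), std_getD (by omega)]
  exact rk_lt_iff (by omega) (by omega)

theorem chain_contains {k n : ℕ} {s : List ℕ} (hn : s.length = n) (f : ℕ → ℕ)
    (hf : ∀ i j, i < j → j < k → f i < f j ∧ s.getD (f j) 0 < s.getD (f i) 0)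
    (hfn : ∀ i < k, f i < n) : Contains s (delta k) := by
  have hl : ∀ i : Fin (delta k).length, i.1 < k := fun i => i.2.trans_eq (delta_length k)
  refine ⟨fun i => ⟨f i.1, (hfn _ (hl i)).trans_eq hn.symm⟩, ?_, ?_⟩
  · intro i j hij
    exact (hf i.1 j.1 hij (hl j)).1
  · intro i j
    have hi := hl i
    have hj := hl j
    rw [delta_get, delta_get, get_getD, get_getD]
    simp only
    rcases lt_trichotomy i.1 j.1 with h | h | h
    · have := (hf i.1 j.1 h hj).2
      omega
    · rw [h]
      simp
    · have := (hf j.1 i.1 h hi).2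
      omega

theorem toMin {k : ℕ} {s : List ℕ} (hk : 3 ≤ k) (h : IsMinimalFor (delta k) s) :
    Min k s.length (fun i => s.getD i 0) := by
  obtain ⟨⟨h1, h2, h3⟩, ⟨f, hf1, hf2⟩, h5⟩ := h
  refine ⟨?_, ?_, ?_⟩
  · intro i hi
    have hr := rk_le_self s.length (fun i => s.getD i 0) (s.getD i 0)
    by_cases h0 : i = 0
    · subst h0
      rw [if_pos rfl]
      simp only at hr ⊢
      rw [h2] at hr ⊢
      exact hr
    · rw [if_neg h0, ← asc_take s (by omega) hi]
      have := h3 i (by omega) hi
      simp only at hr ⊢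
      omega
  · refine ⟨fun i => if hi : i < k then (f ⟨i, by rw [delta_length]; exact hi⟩).1 else 0, ?_, ?_⟩
    · intro i j hij hj
      have hi : i < k := by omega
      simp only [dif_pos hi, dif_pos hj]
      constructor
      · exact hf1 (Fin.mk_lt_mk.mpr hij)
      · have := (hf2 ⟨j, by rw [delta_length]; exact hj⟩ ⟨i, by rw [delta_length]; exact hi⟩).1
        rw [get_getD, get_getD, delta_get, delta_get] at this
        apply this.mpr
        simp only
        omega
    · intro i hi
      simp only [dif_pos hi]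
      exact (f _).2
  · intro n' hn' φ hφ hφn hRA hHD
    obtain ⟨g, hg1, hg2⟩ := hHD
    set b : ℕ → ℕ := fun i => s.getD (φ i) 0 with hb
    have hn1 : 1 ≤ n' := by have := hg2 0 (by omega); omega
    refine h5 (std n' b) ⟨?_, ?_, ?_⟩ ?_ (by rw [std_length]; exact hn') ?_
    · intro he
      have := congrArg List.length he
      rw [std_length] at this
      simp at this
      omega
    · rw [std_getD (by omega)]
      have := hRA 0 (by omega)
      rw [if_pos rfl] at this
      exact Nat.le_zero.mp this
    · intro i hi1 hi2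
      rw [asc_take _ hi1 hi2]
      rw [std_length] at hi2
      rw [std_getD hi2, std_asc (by omega)]
      have := hRA i hi2
      rw [if_neg (by omega)] at this
      exact this
    · have hl : ∀ i : Fin (std n' b).length, i.1 < n' := fun i => i.2.trans_eq (std_length n' b)
      refine ⟨fun i => ⟨φ i.1, hφn _ (hl i)⟩, ?_, ?_⟩
      · intro i j hij
        exact Fin.mk_lt_mk.mpr (hφ _ _ hij (hl j))
      · intro i j
        have hi := hl i
        have hj := hl j
        rw [get_getD (std n' b), get_getD (std n' b), std_getD hi, std_getD hj, get_getD, get_getD]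
        exact ⟨(rk_lt_iff (b := b) hi hj).symm, (rk_eq_iff (b := b) hi hj).symm⟩
    · refine chain_contains (n := n') (std_length _ _) g ?_ hg2
      intro i j hij hj
      have h6 := hg1 i j hij hj
      refine ⟨h6.1, ?_⟩
      rw [std_getD (hg2 _ hj), std_getD (hg2 _ (by omega))]
      exact (rk_lt_iff (hg2 _ hj) (hg2 _ (by omega))).mpr h6.2

theorem upper {k : ℕ} (hk : 3 ≤ k) {s : List ℕ} (h : IsMinimalFor (delta k) s) :
    3 * s.length + 4 ≤ 4 * k ^ 2 + 3 * k ∧ (k ≤ 5 → s.length ≤ k ^ 2 + 2 * k - 2) :=
  main (toMin hk h) hk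

end Pool.Agent.V11147.Mas
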