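import Mathlib

/-! Window-counting functions modulo two and the key independence lemma. -/

namespace Pool.Agent.V11147.Pat

/-- Sum of the weights of all windows `n / 2 ^ p`. -/
def G (w : ℕ → ZMod 2) : ℕ → ZMod 2
  | 0 => 0
  | n + 1 => w (n + 1) + G w ((n + 1) / 2)
decreasing_by omega

theorem G_zero (w : ℕ → ZMod 2) : G w 0 = 0 := by rw [G]

theorem G_eq {w : ℕ → ZMod 2} (h0 : w 0 = 0) (n : ℕ) : G w n = w n + G w (n / 2) := by
  cases n with
  | zero => simp [G_zero, h0]
  | succ n => rw [G]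

section
variable {k : ℕ} {w : ℕ → ZMod 2}

theorem w_congr (hper : ∀ n, w n = w (n % 2 ^ k)) {a b : ℕ} (h : a % 2 ^ k = b % 2 ^ k) :
    w a = w b := by
  rw [hper a, hper b, h]

theorem G_concat (hper : ∀ n, w n = w (n % 2 ^ k)) (h0 : w 0 = 0) (K : ℕ) (hK : k ≤ K)
    (X : ℕ) : ∀ M Y : ℕ, Y < 2 ^ M → G w (2 ^ (M + K) * X + Y) = G w (2 ^ K * X) + G w Y := by
  intro M
  induction M with
  | zero =>
    intro Y hY
    have : Y = 0 := by simpa using hY
    subst this
    simp [G_zero]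
  | succ M ih =>
    intro Y hY
    rw [G_eq h0, G_eq h0 Y]
    have h1 : (2 ^ (M + 1 + K) * X + Y) / 2 = 2 ^ (M + K) * X + Y / 2 := by
      have : 2 ^ (M + 1 + K) * X = 2 * (2 ^ (M + K) * X) := by ring
      rw [this]; omega
    have h2 : Y / 2 < 2 ^ M := by
      rw [pow_succ] at hY; omega
    rw [h1, ih _ h2]
    have h3 : w (2 ^ (M + 1 + K) * X + Y) = w Y := by
      apply w_congr hper
      have : 2 ^ (M + 1 + K) * X = 2 ^ k * (2 ^ (M + 1 + K - k) * X) := by
        rw [← mul_assoc, ← pow_add]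
        congr 2
        omega
      rw [this, Nat.mul_add_mod]
    rw [h3]; ring

theorem G_double (hper : ∀ n, w n = w (n % 2 ^ k)) (h0 : w 0 = 0) (x : ℕ) :
    G w (2 ^ k * (2 * x)) = G w (2 ^ k * x) := by
  rw [G_eq h0]
  have h1 : 2 ^ k * (2 * x) / 2 = 2 ^ k * x := by
    have : 2 ^ k * (2 * x) = 2 * (2 ^ k * x) := by ring
    rw [this]; omega
  have h2 : w (2 ^ k * (2 * x)) = 0 := by
    rw [hper, Nat.mul_mod_right, h0]
  rw [h1, h2, zero_add]

theorem G_pow (hper : ∀ n, w n = w (n % 2 ^ k)) (h0 : w 0 = 0) (a x : ℕ) :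
    G w (2 ^ k * (2 ^ a * x)) = G w (2 ^ k * x) := by
  induction a with
  | zero => simp
  | succ a ih =>
    have : 2 ^ (a + 1) * x = 2 * (2 ^ a * x) := by ring
    rw [this, G_double hper h0, ih]

theorem G_diff (hk : 1 ≤ k) (hper : ∀ n, w n = w (n % 2 ^ k)) (h0 : w 0 = 0) :
    ∀ N n n' : ℕ, n % 2 ^ (N + k - 1) = n' % 2 ^ (N + k - 1) →
      G w n + G w (n / 2 ^ N) = G w n' + G w (n' / 2 ^ N) := by
  intro N
  induction N with
  | zero =>
    intro n n' _
    simp only [pow_zero, Nat.div_one]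
    rw [CharTwo.add_self_eq_zero, CharTwo.add_self_eq_zero]
  | succ N ih =>
    intro n n' h
    have e : N + 1 + k - 1 = (N + k - 1) + 1 := by omega
    have h1 : w n = w n' := by
      apply w_congr hper
      have hd : 2 ^ k ∣ 2 ^ (N + 1 + k - 1) := pow_dvd_pow 2 (by omega)
      rw [← Nat.mod_mod_of_dvd n hd, ← Nat.mod_mod_of_dvd n' hd, h]
    have h2 : (n / 2) % 2 ^ (N + k - 1) = (n' / 2) % 2 ^ (N + k - 1) := by
      rw [← Nat.mod_mul_right_div_self, ← Nat.mod_mul_right_div_self]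
      have : 2 * 2 ^ (N + k - 1) = 2 ^ (N + 1 + k - 1) := by rw [e, pow_succ]; ring
      rw [this, h]
    have h3 := ih _ _ h2
    rw [G_eq h0 n, G_eq h0 n', h1]
    have h4 : n / 2 ^ (N + 1) = n / 2 / 2 ^ N := by
      rw [pow_succ, mul_comm, Nat.div_div_eq_div_mul]
    have h5 : n' / 2 ^ (N + 1) = n' / 2 / 2 ^ N := by
      rw [pow_succ, mul_comm, Nat.div_div_eq_div_mul]
    rw [h4, h5, add_assoc, h3, add_assoc]

/-- The submodule of attainable vectors. -/
theorem key (hk : 1 ≤ k) (hper : ∀ n, w n = w (n % 2 ^ k)) (h0 : w 0 = 0)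
    (hC : ∀ l, Odd l → ∃ m m', m % 2 ^ (k - 1) = m' % 2 ^ (k - 1) ∧
      G w (l * m + 1) + G w (l * m) ≠ G w (l * m' + 1) + G w (l * m'))
    (L : ℕ) (t : ℕ → ZMod 2) :
    ∃ D, ∀ j, Odd j → j ≤ L → G w (2 ^ k * (j * D)) = t j := by
  classical
  let ι := {j : Fin (L + 1) // Odd (j : ℕ)}
  let S : Submodule (ZMod 2) (ι → ZMod 2) :=
    { carrier := {x | ∃ D, ∀ j : ι, x j = G w (2 ^ k * ((j : Fin (L + 1)) * D))}
      zero_mem' := ⟨0, fun j => by simp [G_zero]⟩
      add_mem' := by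
        rintro x y ⟨D1, h1⟩ ⟨D2, h2⟩
        refine ⟨2 ^ (2 ^ k * (L * D2)) * D1 + D2, fun j => ?_⟩
        have hj : ((j : Fin (L + 1)) : ℕ) ≤ L := by have := (j : Fin (L + 1)).isLt; omega
        have e : 2 ^ k * (((j : Fin (L + 1)) : ℕ) * (2 ^ (2 ^ k * (L * D2)) * D1 + D2)) =
            2 ^ (2 ^ k * (L * D2) + k) * (((j : Fin (L + 1)) : ℕ) * D1) +
              2 ^ k * (((j : Fin (L + 1)) : ℕ) * D2) := by
          rw [pow_add]; ring
        rw [e, G_concat hper h0 k le_rfl, ← h1, ← h2]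
        · rfl
        · refine lt_of_le_of_lt ?_ (Nat.lt_two_pow_self)
          exact Nat.mul_le_mul_left _ (Nat.mul_le_mul_right _ hj)
      smul_mem' := by
        rintro c x ⟨D, h⟩
        have hc : c = 0 ∨ c = 1 := by
          revert c; decide
        rcases hc with rfl | rfl
        · exact ⟨0, fun j => by simp [G_zero]⟩
        · exact ⟨D, fun j => by simpa using h j⟩ }
  have htop : S = ⊤ := by
    by_contra hne
    obtain ⟨φ, hφ, hle⟩ := Submodule.exists_le_ker_of_lt_top S (lt_top_iff_ne_top.mpr hne)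
    -- coefficients
    let c : ι → ZMod 2 := fun i => φ (fun j => if i = j then 1 else 0)
    have hφc : ∀ x : ι → ZMod 2, φ x = ∑ i, x i * c i := by
      intro x
      rw [LinearMap.pi_apply_eq_sum_univ φ x]
      rfl
    have hzero : ∀ D, ∑ i : ι, G w (2 ^ k * ((i : Fin (L + 1)) * D)) * c i = 0 := by
      intro D
      rw [← hφc (fun i : ι => G w (2 ^ k * ((i : Fin (L + 1)) * D)))]
      exact hle ⟨D, fun j => rfl⟩
    have hex : ∃ i, c i ≠ 0 := by
      by_contra hcon
      push Not at hcon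
      apply hφ
      ext x
      simp [hφc, hcon]
    obtain ⟨l, hl, hmax⟩ := Finset.exists_max_image (Finset.univ.filter (fun i : ι => c i ≠ 0))
      (fun i => ((i : Fin (L + 1)) : ℕ)) (by
        obtain ⟨i, hi⟩ := hex
        exact ⟨i, by simp [hi]⟩)
    have hcl : c l ≠ 0 := by simpa using hl
    have hmax' : ∀ j : ι, c j ≠ 0 → ((j : Fin (L + 1)) : ℕ) ≤ (l : Fin (L + 1)) :=
      fun j hj => hmax j (by simpa using hj)
    obtain ⟨l0, hl0⟩ : ∃ l0 : ℕ, l0 = ((l : Fin (L + 1)) : ℕ) := ⟨_, rfl⟩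
    have hodd : Odd l0 := by rw [hl0]; exact l.2
    have hl1 : 1 ≤ l0 := hodd.pos
    obtain ⟨m, m', hmm, hneq⟩ := hC l0 hodd
    -- N and D'
    obtain ⟨q, hq⟩ : ∃ q, q = 2 ^ (2 * l0) / l0 := ⟨_, rfl⟩
    have hq1 : l0 * q ≤ 2 ^ (2 * l0) := by rw [hq]; exact Nat.mul_div_le _ _
    have hq2 : 2 ^ (2 * l0) < l0 * (q + 1) := by
      rw [hq]; exact Nat.lt_mul_div_succ _ (by omega)
    have hq3 : l0 ≤ q := by
      rw [hq, Nat.le_div_iff_mul_le (by omega)]
      have h1 : l0 < 2 ^ l0 := Nat.lt_two_pow_self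
      have h2 : 2 ^ (2 * l0) = 2 ^ l0 * 2 ^ l0 := by rw [two_mul, pow_add]
      rw [h2]
      exact Nat.mul_le_mul h1.le h1.le
    have hN : l0 < 2 ^ (2 * l0) := by
      have h1 : l0 * l0 ≤ l0 * q := Nat.mul_le_mul_left _ hq3
      have h2 : l0 < 2 ^ l0 := Nat.lt_two_pow_self
      have h3 : 2 ^ l0 ≤ 2 ^ (2 * l0) := Nat.pow_le_pow_right (by omega) (by omega)
      omega
    -- quotients
    have hX : ∀ j n : ℕ, j ≤ l0 →
        (j * (2 ^ (2 * l0) * n + (q + 1))) / 2 ^ (2 * l0) = j * n + if j = l0 then 1 else 0 := by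
      intro j n hj
      have e : j * (2 ^ (2 * l0) * n + (q + 1)) = 2 ^ (2 * l0) * (j * n) + j * (q + 1) := by ring
      rw [e, Nat.mul_add_div (by positivity)]
      congr 1
      by_cases hjl : j = l0
      · rw [if_pos hjl, hjl]
        have h5 : l0 * (q + 1) = l0 * q + l0 := by ring
        apply Nat.div_eq_of_lt_le
        · omega
        · rw [h5]; omega
      · rw [if_neg hjl]
        apply Nat.div_eq_of_lt
        have h6 : j * (q + 1) ≤ (l0 - 1) * (q + 1) := Nat.mul_le_mul_right _ (by omega)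
        have h7 : (l0 - 1) * (q + 1) + (q + 1) = l0 * (q + 1) := by
          obtain ⟨a, rfl⟩ : ∃ a, l0 = a + 1 := ⟨l0 - 1, by omega⟩
          simp only [Nat.add_sub_cancel]; ring
        have h5 : l0 * (q + 1) = l0 * q + l0 := by ring
        omega
    have hbr : ∀ j : ℕ, j ≤ l0 →
        G w (2 ^ k * (j * (2 ^ (2 * l0) * m + (q + 1)))) +
        G w (2 ^ k * (j * (2 ^ (2 * l0) * m' + (q + 1)))) +
        (G w (2 ^ k * (j * m)) + G w (2 ^ k * (j * m'))) =
        G w (j * m + if j = l0 then 1 else 0) + G w (j * m' + if j = l0 then 1 else 0) +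
        (G w (j * m) + G w (j * m')) := by
      intro j hj
      have hdiv : ∀ x : ℕ, 2 ^ k * x / 2 ^ (2 * l0 + k) = x / 2 ^ (2 * l0) := by
        intro x
        rw [add_comm (2 * l0) k, pow_add, ← Nat.div_div_eq_div_mul,
          Nat.mul_div_cancel_left _ (by positivity)]
      have hmod : ∀ a b e : ℕ, m % 2 ^ (k - 1) = m' % 2 ^ (k - 1) →
          (2 ^ e * (a * m) + b) % 2 ^ (e + (k - 1)) =
          (2 ^ e * (a * m') + b) % 2 ^ (e + (k - 1)) := by
        intro a b e hmm
        have h8 : (2 ^ e * (a * m) + b) ≡ (2 ^ e * (a * m') + b) [MOD 2 ^ (e + (k - 1))] := by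
          apply Nat.ModEq.add_right
          rw [pow_add]
          apply Nat.ModEq.mul_left'
          exact Nat.ModEq.mul_left _ hmm
        exact h8
      have d1 := G_diff hk hper h0 (2 * l0 + k) (2 ^ k * (j * (2 ^ (2 * l0) * m + (q + 1))))
        (2 ^ k * (j * (2 ^ (2 * l0) * m' + (q + 1)))) (by
          have h9 := hmod j (2 ^ k * (j * (q + 1))) (2 * l0 + k) hmm
          have e1 : 2 ^ k * (j * (2 ^ (2 * l0) * m + (q + 1))) =
            2 ^ (2 * l0 + k) * (j * m) + 2 ^ k * (j * (q + 1)) := by rw [pow_add]; ring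
          have e2 : 2 ^ k * (j * (2 ^ (2 * l0) * m' + (q + 1))) =
            2 ^ (2 * l0 + k) * (j * m') + 2 ^ k * (j * (q + 1)) := by rw [pow_add]; ring
          have e3 : 2 * l0 + k + k - 1 = 2 * l0 + k + (k - 1) := by omega
          rw [e1, e2, e3]; exact h9)
      have d2 := G_diff hk hper h0 k (2 ^ k * (j * m)) (2 ^ k * (j * m')) (by
          have h9 := hmod j 0 k hmm
          have e3 : k + k - 1 = k + (k - 1) := by omega
          rw [e3]; simpa using h9)
      rw [hdiv, hdiv, hX j m hj, hX j m' hj] at d1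
      rw [Nat.mul_div_cancel_left _ (by positivity), Nat.mul_div_cancel_left _ (by positivity)]
        at d2
      generalize G w (2 ^ k * (j * (2 ^ (2 * l0) * m + (q + 1)))) = a1 at *
      generalize G w (2 ^ k * (j * (2 ^ (2 * l0) * m' + (q + 1)))) = a2 at *
      generalize G w (2 ^ k * (j * m)) = a3 at *
      generalize G w (2 ^ k * (j * m')) = a4 at *
      generalize G w (j * m + if j = l0 then 1 else 0) = a5 at *
      generalize G w (j * m' + if j = l0 then 1 else 0) = a6 at *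
      generalize G w (j * m) = a7 at *
      generalize G w (j * m') = a8 at *
      revert d1 d2
      clear * -
      revert a1 a2 a3 a4 a5 a6 a7 a8
      decide
    -- total sum
    have hsum : ∑ i : ι, (G w (2 ^ k * ((i : Fin (L + 1)) * (2 ^ (2 * l0) * m + (q + 1)))) +
        G w (2 ^ k * ((i : Fin (L + 1)) * (2 ^ (2 * l0) * m' + (q + 1)))) +
        (G w (2 ^ k * ((i : Fin (L + 1)) * m)) + G w (2 ^ k * ((i : Fin (L + 1)) * m')))) * c i
        = 0 := by
      simp only [add_mul, Finset.sum_add_distrib]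
      rw [hzero, hzero, hzero, hzero]; simp
    rw [Finset.sum_eq_single l] at hsum
    · rw [← hl0, hbr l0 le_rfl, if_pos rfl] at hsum
      have : G w (l0 * m + 1) + G w (l0 * m' + 1) + (G w (l0 * m) + G w (l0 * m')) ≠ 0 := by
        intro h
        apply hneq
        generalize G w (l0 * m + 1) = a1 at *
        generalize G w (l0 * m' + 1) = a2 at *
        generalize G w (l0 * m) = a3 at *
        generalize G w (l0 * m') = a4 at *
        revert h
        clear * -
        revert a1 a2 a3 a4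
        decide
      exact absurd hsum (mul_ne_zero this hcl)
    · intro j _ hj
      by_cases hc : c j = 0
      · rw [hc, mul_zero]
      · have hjl : ((j : Fin (L + 1)) : ℕ) < l0 := by
          have h1 := hmax' j hc
          have h2 : ((j : Fin (L + 1)) : ℕ) ≠ ((l : Fin (L + 1)) : ℕ) := by
            intro h; exact hj (Subtype.ext (Fin.ext h))
          omega
        rw [hbr _ hjl.le, if_neg (by omega)]
        simp only [add_zero]
        rw [CharTwo.add_self_eq_zero, zero_mul]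
    · intro h; exact absurd (Finset.mem_univ l) h
  have hmem : (fun j : ι => t ((j : Fin (L + 1)) : ℕ)) ∈ S := by rw [htop]; trivial
  obtain ⟨D, hD⟩ := hmem
  refine ⟨D, fun j hj hjL => ?_⟩
  have := hD ⟨⟨j, by omega⟩, hj⟩
  exact this.symm

end

end Pool.Agent.V11147.Pat
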