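import Pool.Agent.V11147.PatA

/-! Value sets for the abstract window counting functions. -/

namespace Pool.Agent.V11147.Pat

/-- number of `p` with `n / 2 ^ p ≠ 0` and `n / 2 ^ p ≡ V` modulo `2 ^ k` -/
def cnt (k V : ℕ) : ℕ → ℕ
  | 0 => 0
  | n + 1 => (if (n + 1) % 2 ^ k = V then 1 else 0) + cnt k V ((n + 1) / 2)
decreasing_by omega

theorem cnt_zero (k V : ℕ) : cnt k V 0 = 0 := by rw [cnt]

theorem cnt_eq {k V n : ℕ} (h : n ≠ 0) :
    cnt k V n = (if n % 2 ^ k = V then 1 else 0) + cnt k V (n / 2) := by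
  cases n with
  | zero => exact absurd rfl h
  | succ n => rw [cnt]

/-- `l` is the first multiplier at which the parity is odd. -/
def IsA (e : ℕ → ℕ) (d l : ℕ) : Prop :=
  1 ≤ l ∧ e (l * d) % 2 = 1 ∧ ∀ j, 1 ≤ j → j < l → e (j * d) % 2 = 0

theorem exists_IsA {e : ℕ → ℕ} {d l : ℕ} (hl : 1 ≤ l) (h : e (l * d) % 2 = 1) :
    ∃ l', l' ≤ l ∧ IsA e d l' := by
  classical
  have hex : ∃ l, 1 ≤ l ∧ e (l * d) % 2 = 1 := ⟨l, hl, h⟩
  refine ⟨Nat.find hex, Nat.find_min' hex ⟨hl, h⟩, (Nat.find_spec hex).1,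
    (Nat.find_spec hex).2, ?_⟩
  intro j hj hjl
  by_contra hcon
  exact Nat.find_min hex hjl ⟨hj, by omega⟩

theorem zmod2_zero {a : ℕ} (h : (a : ZMod 2) = 0) : a % 2 = 0 := by
  have := (ZMod.natCast_eq_zero_iff a 2).1 h
  omega

theorem zmod2_one {a : ℕ} (h : (a : ZMod 2) = 1) : a % 2 = 1 := by
  by_contra hcon
  have h2 : a % 2 = 0 := by omega
  have : (a : ZMod 2) = 0 := (ZMod.natCast_eq_zero_iff a 2).2 (Nat.dvd_of_mod_eq_zero h2)
  rw [this] at h
  exact absurd h (by decide)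

theorem two_pow_even {k : ℕ} (h : 1 ≤ k) : 2 ^ k % 2 = 0 := by
  obtain ⟨a, rfl⟩ : ∃ a, k = a + 1 := ⟨k - 1, by omega⟩
  rw [pow_succ]; omega

theorem mod_two_pow_parity {k n : ℕ} (h : 1 ≤ k) : n % 2 ^ k % 2 = n % 2 :=
  Nat.mod_mod_of_dvd n (dvd_pow_self 2 (by omega))

theorem pow_odd_inj {a b x y : ℕ} (hx : Odd x) (hy : Odd y) (h : 2 ^ a * x = 2 ^ b * y) :
    a = b ∧ x = y := by
  have key : ∀ a b x y : ℕ, Odd x → 2 ^ a * x = 2 ^ b * y → ¬ a < b := by
    intro a b x y hx h hab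
    obtain ⟨c, rfl⟩ : ∃ c, b = a + c + 1 := ⟨b - a - 1, by omega⟩
    have e : 2 ^ (a + c + 1) * y = 2 ^ a * (2 * (2 ^ c * y)) := by ring
    rw [e] at h
    have := Nat.eq_of_mul_eq_mul_left (by positivity) h
    rw [this] at hx
    exact absurd hx (by simp)
  have h1 := key a b x y hx h
  have h2 := key b a y x hy h.symm
  have h3 : a = b := by omega
  subst h3
  exact ⟨rfl, Nat.eq_of_mul_eq_mul_left (by positivity) h⟩

/-- the non-periodicity needed in the key lemma -/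
theorem hC_gen {k : ℕ} {w : ℕ → ZMod 2} (hk : 1 ≤ k) (hper : ∀ n, w n = w (n % 2 ^ k))
    (h0 : w 0 = 0) (n0 : ℕ) (hn0 : n0 % 2 = 0) (hn0' : n0 < 2 ^ k)
    (hw : ∀ n, n % 2 = 0 → w (n + 1) + w n = if n % 2 ^ k = n0 then 1 else 0) :
    ∀ l, Odd l → ∃ m m', m % 2 ^ (k - 1) = m' % 2 ^ (k - 1) ∧
      G w (l * m + 1) + G w (l * m) ≠ G w (l * m' + 1) + G w (l * m') := by
  intro l hl
  have hev : ∀ n, n % 2 = 0 → G w (n + 1) + G w n = if n % 2 ^ k = n0 then 1 else 0 := by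
    intro n hn
    rw [G_eq h0 (n + 1), G_eq h0 n, ← hw n hn]
    have : (n + 1) / 2 = n / 2 := by omega
    rw [this]
    generalize G w (n / 2) = g
    generalize w (n + 1) = a
    generalize w n = b
    revert a b g; decide
  by_cases hk1 : k = 1
  · subst hk1
    have hn00 : n0 = 0 := by omega
    subst hn00
    refine ⟨0, l, by simp [Nat.mod_one], ?_⟩
    have a1 := hev 0 rfl
    simp only [Nat.zero_mod, if_true, zero_add] at a1
    rw [mul_zero, zero_add, a1]
    obtain ⟨y, hy⟩ : ∃ y, l * l = 4 * y + 1 := by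
      obtain ⟨z, rfl⟩ := hl
      exact ⟨z * z + z, by ring⟩
    rw [hy]
    have w1 : w 1 = 1 := by
      have := hw 0 rfl
      simpa [h0] using this
    have g1 : G w (4 * y + 1 + 1) = 1 + G w y := by
      rw [G_eq h0]
      have e1 : (4 * y + 1 + 1) / 2 = 2 * y + 1 := by omega
      rw [e1, G_eq h0 (2 * y + 1)]
      have e2 : (2 * y + 1) / 2 = y := by omega
      have e3 : w (4 * y + 1 + 1) = 0 := by
        rw [hper]
        have : (4 * y + 1 + 1) % 2 ^ 1 = 0 := by omega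
        rw [this, h0]
      have e4 : w (2 * y + 1) = 1 := by
        rw [hper]
        have : (2 * y + 1) % 2 ^ 1 = 1 := by omega
        rw [this, w1]
      rw [e2, e3, e4, zero_add]
    have g2 : G w (4 * y + 1) = 1 + G w y := by
      rw [G_eq h0]
      have e1 : (4 * y + 1) / 2 = 2 * y := by omega
      rw [e1, G_eq h0 (2 * y)]
      have e2 : (2 * y) / 2 = y := by omega
      have e3 : w (4 * y + 1) = 1 := by
        rw [hper]
        have : (4 * y + 1) % 2 ^ 1 = 1 := by omega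
        rw [this, w1]
      have e4 : w (2 * y) = 0 := by
        rw [hper]
        have : (2 * y) % 2 ^ 1 = 0 := by omega
        rw [this, h0]
      rw [e2, e3, e4, zero_add]
    rw [g1, g2, CharTwo.add_self_eq_zero]
    decide
  · -- k ≥ 2
    have hco : Nat.Coprime l (2 ^ k) := by
      apply Nat.Coprime.pow_right
      exact (Nat.coprime_two_right).2 hl
    obtain ⟨m, hm⟩ : ∃ m, (l * m) % 2 ^ k = n0 := by
      obtain ⟨x, hx⟩ := Nat.exists_mul_mod_eq_of_coprime (n := l) (k := 2 ^ k) n0 hco (by positivity)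
      refine ⟨x, ?_⟩
      rw [hx.2]
      exact Nat.mod_eq_of_lt hn0'
    have hpar : (l * m) % 2 = 0 := by
      rw [← mod_two_pow_parity (k := k) hk, hm, hn0]
    refine ⟨m, m + 2 ^ (k - 1), by simp, ?_⟩
    have e : l * (m + 2 ^ (k - 1)) = l * m + l * 2 ^ (k - 1) := by ring
    have hpar2 : (l * 2 ^ (k - 1)) % 2 = 0 := by
      rw [Nat.mul_mod, two_pow_even (by omega : 1 ≤ k - 1)]; simp
    rw [e, hev _ hpar, hev _ (by omega), if_pos hm, if_neg]
    · decide
    · intro hcon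
      have h1 : (l * m + l * 2 ^ (k - 1)) ≡ l * m + 0 [MOD 2 ^ k] := by
        unfold Nat.ModEq
        rw [hcon, add_zero, hm]
      have h2 := Nat.ModEq.add_left_cancel' _ h1
      have h3 : 2 ^ k ∣ l * 2 ^ (k - 1) := (Nat.modEq_zero_iff_dvd).1 h2
      have h4 : 2 ^ k ∣ 2 ^ (k - 1) := (Nat.Coprime.dvd_of_dvd_mul_left hco.symm h3)
      have h5 := Nat.le_of_dvd (by positivity) h4
      have h6 : 2 ^ (k - 1) < 2 ^ k := Nat.pow_lt_pow_right (by omega) (by omega)
      omega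

end Pool.Agent.V11147.Pat
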