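import Pool.Agent.V11147.PatB

/-! Value sets for nonzero window value. -/

namespace Pool.Agent.V11147.Pat

theorem odd_decomp {j : ℕ} (h : 1 ≤ j) : ∃ a j', Odd j' ∧ j = 2 ^ a * j' :=
  Nat.exists_eq_two_pow_mul_odd (by omega)

section nonzero
variable {k V : ℕ}

/-- the weight of a nonzero pattern -/
def wV (k V n : ℕ) : ZMod 2 := if n % 2 ^ k = V then 1 else 0

theorem wV_per (k V n : ℕ) : wV k V n = wV k V (n % 2 ^ k) := by
  unfold wV; rw [Nat.mod_mod]

theorem wV_zero (hV : 0 < V) : wV k V 0 = 0 := by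
  unfold wV; rw [if_neg]; rw [Nat.zero_mod]; omega

theorem cnt_G (hV : 0 < V) (n : ℕ) : (cnt k V n : ZMod 2) = G (wV k V) n := by
  induction n using Nat.strong_induction_on with
  | _ n ih =>
    by_cases h : n = 0
    · subst h; simp [cnt_zero, G_zero]
    · rw [cnt_eq h, G_eq (wV_zero hV), Nat.cast_add, ih _ (by omega)]
      congr 1
      unfold wV
      split_ifs <;> simp

theorem wV_hC (hk : 1 ≤ k) (hV : 0 < V) (hV' : V < 2 ^ k) :
    ∀ l, Odd l → ∃ m m', m % 2 ^ (k - 1) = m' % 2 ^ (k - 1) ∧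
      G (wV k V) (l * m + 1) + G (wV k V) (l * m) ≠
        G (wV k V) (l * m' + 1) + G (wV k V) (l * m') := by
  have hpe := two_pow_even hk
  apply hC_gen hk (wV_per k V) (wV_zero hV) (V - V % 2) (by omega) (by omega)
  intro n hn
  have h1 : n % 2 ^ k % 2 = 0 := by rw [mod_two_pow_parity hk, hn]
  have h2 : (n + 1) % 2 ^ k = n % 2 ^ k + 1 := by
    have h3 := Nat.mod_lt n (by positivity : 0 < 2 ^ k)
    rw [Nat.add_mod, Nat.mod_eq_of_lt (by omega : 1 < 2 ^ k), Nat.mod_eq_of_lt]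
    omega
  unfold wV
  rw [h2]
  generalize n % 2 ^ k = x at *
  by_cases hp : V % 2 = 0
  · have : x + 1 ≠ V := by omega
    rw [if_neg this, hp, zero_add, Nat.sub_zero]
  · have : x ≠ V := by omega
    rw [if_neg this, add_zero]
    by_cases hx : x + 1 = V
    · rw [if_pos hx, if_pos (by omega)]
    · rw [if_neg hx, if_neg (by omega)]

theorem keyV (hk : 1 ≤ k) (hV : 0 < V) (hV' : V < 2 ^ k) (L : ℕ) (t : ℕ → ZMod 2) :
    ∃ D, ∀ j, Odd j → j ≤ L → G (wV k V) (2 ^ k * (j * D)) = t j :=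
  key hk (wV_per k V) (wV_zero hV) (wV_hC hk hV hV') L t

theorem nz_exists (hk : 1 ≤ k) (hV : 0 < V) (hV' : V < 2 ^ k) {d : ℕ} (hd : 1 ≤ d) :
    ∃ l, IsA (cnt k V) d l := by
  obtain ⟨s, d', hd', rfl⟩ := odd_decomp hd
  obtain ⟨D, hD⟩ := keyV hk hV hV' d' (fun _ => 1)
  have h1 := hD d' hd' le_rfl
  have hD0 : D ≠ 0 := by
    rintro rfl
    simp [G_zero] at h1
  obtain ⟨l, _, hl⟩ := exists_IsA (e := cnt k V) (d := 2 ^ s * d') (l := 2 ^ k * D)
    (Nat.one_le_iff_ne_zero.2 (by positivity)) (by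
      apply zmod2_one
      rw [cnt_G hV]
      have e : 2 ^ k * D * (2 ^ s * d') = 2 ^ k * (2 ^ s * (d' * D)) := by ring
      rw [e, G_pow (wV_per k V) (wV_zero hV), h1])
  exact ⟨l, hl⟩

theorem mod_pow_mul {i m x : ℕ} (hi : i ≤ m) :
    (2 ^ i * x) % 2 ^ m = 2 ^ i * (x % 2 ^ (m - i)) := by
  have : 2 ^ m = 2 ^ i * 2 ^ (m - i) := by rw [← pow_add]; congr 1; omega
  rw [this, Nat.mul_mod_mul_left]

/-- structure of multiples whose low window is the pattern -/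
theorem low_window {i V' q s x : ℕ} (hik : i < k) (hVo : Odd V')
    (hx : Odd x) (h : (2 ^ q * (2 ^ s * x)) % 2 ^ k = 2 ^ i * V') :
    q + s = i ∧ x % 2 ^ (k - i) = V' := by
  have h1 := Nat.div_add_mod (2 ^ q * (2 ^ s * x)) (2 ^ k)
  rw [h] at h1
  obtain ⟨c, hc⟩ : ∃ c, c = (2 ^ q * (2 ^ s * x)) / 2 ^ k := ⟨_, rfl⟩
  rw [← hc] at h1
  have e1 : 2 ^ k * c + 2 ^ i * V' = 2 ^ i * (2 ^ (k - i) * c + V') := by
    have : 2 ^ k = 2 ^ i * 2 ^ (k - i) := by rw [← pow_add]; congr 1; omega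
    rw [this]; ring
  have e2 : 2 ^ q * (2 ^ s * x) = 2 ^ (q + s) * x := by rw [pow_add]; ring
  rw [e1, e2] at h1
  have hodd : Odd (2 ^ (k - i) * c + V') := by
    have he : Even (2 ^ (k - i) * c) := by
      have : Even (2 ^ (k - i)) := (Nat.even_pow.2 ⟨even_two, by omega⟩)
      exact this.mul_right c
    exact he.add_odd hVo
  obtain ⟨h2, h3⟩ := pow_odd_inj hodd hx h1
  refine ⟨h2.symm, ?_⟩
  rw [e2, ← h2, mod_pow_mul hik.le] at h
  exact Nat.eq_of_mul_eq_mul_left (by positivity) h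

theorem nz_upper (hk : 1 ≤ k) (hV : 0 < V) (hV' : V < 2 ^ k) {i V' : ℕ}
    (hVi : V = 2 ^ i * V') (hVo : Odd V') {d l : ℕ} (hd : 1 ≤ d)
    (h : IsA (cnt k V) d l) :
    Odd l ∨ ∃ q o, 1 ≤ q ∧ q ≤ i ∧ Odd o ∧ o < 2 ^ (k - i) ∧ l = 2 ^ q * o := by
  obtain ⟨hl1, hl2, hl3⟩ := h
  rcases Nat.even_or_odd l with hev | hodd
  swap
  · exact Or.inl hodd
  right
  have hik : i < k := by
    have h1 : 2 ^ i ≤ V := by rw [hVi]; exact Nat.le_mul_of_pos_right _ hVo.pos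
    exact (Nat.pow_lt_pow_iff_right (by norm_num : 1 < 2)).1 (lt_of_le_of_lt h1 hV')
  obtain ⟨q, o, ho, hlo⟩ := odd_decomp hl1
  obtain ⟨s, d', hd', hds⟩ := odd_decomp hd
  have hq : 1 ≤ q := by
    by_contra hq
    have : q = 0 := by omega
    subst this
    rw [pow_zero, one_mul] at hlo
    rw [hlo] at hev
    exact absurd ho (Nat.not_odd_iff_even.2 hev)
  -- low window for multiples `2 ^ q * x`
  have hstep : ∀ x, 1 ≤ x → cnt k V (2 ^ q * x * d) =
      (if (2 ^ q * x * d) % 2 ^ k = V then 1 else 0) + cnt k V (2 ^ (q - 1) * x * d) := by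
    intro x hx
    have h0 : 2 ^ q * x * d ≠ 0 := by positivity
    rw [cnt_eq h0]
    have : 2 ^ q * x * d / 2 = 2 ^ (q - 1) * x * d := by
      obtain ⟨a, rfl⟩ : ∃ a, q = a + 1 := ⟨q - 1, by omega⟩
      have : 2 ^ (a + 1) * x * d = 2 * (2 ^ a * x * d) := by ring
      rw [this, Nat.add_sub_cancel]; omega
    rw [this]
  have hlt : ∀ x, 1 ≤ x → 2 ^ (q - 1) * x < 2 ^ q * x := by
    intro x hx
    apply Nat.mul_lt_mul_of_pos_right
    · exact Nat.pow_lt_pow_right (by omega) (by omega)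
    · omega
  have hwin : (2 ^ q * o * d) % 2 ^ k = V := by
    have h1 := hstep o ho.pos
    have h2 := hl3 (2 ^ (q - 1) * o) (Nat.one_le_iff_ne_zero.2 (by have := ho.pos; positivity))
      (by rw [hlo]; exact hlt o ho.pos)
    rw [hlo, h1] at hl2
    by_contra hne
    rw [if_neg hne] at hl2
    omega
  have hwin' : (2 ^ q * (2 ^ s * (o * d'))) % 2 ^ k = 2 ^ i * V' := by
    rw [← hVi, ← hwin, hds]
    congr 1; ring
  obtain ⟨hqs, hmod⟩ := low_window hik hVo (ho.mul hd') hwin'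
  refine ⟨q, o, hq, by omega, ho, ?_, hlo⟩
  by_contra hbig
  push Not at hbig
  -- smaller multiplier
  obtain ⟨o2, ho2⟩ : ∃ o2, o2 = o % 2 ^ (k - i) := ⟨_, rfl⟩
  have ho2odd : o2 % 2 = 1 := by
    rw [ho2, mod_two_pow_parity (by omega)]
    exact Nat.odd_iff.1 ho
  have ho2lt : o2 < o := by
    have := Nat.mod_lt o (by positivity : 0 < 2 ^ (k - i))
    omega
  have hl' : 2 ^ q * o2 < l := by
    rw [hlo]
    exact Nat.mul_lt_mul_of_pos_left ho2lt (by positivity)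
  have ho2pos : 0 < o2 := by omega
  have e1 := hstep o2 (by omega)
  have e2 := hl3 (2 ^ q * o2) (Nat.one_le_iff_ne_zero.2 (by positivity)) hl'
  have e3 := hl3 (2 ^ (q - 1) * o2) (Nat.one_le_iff_ne_zero.2 (by positivity))
    (lt_trans (hlt o2 (by omega)) hl')
  have hwin2 : (2 ^ q * o2 * d) % 2 ^ k = V := by
    rw [hVi, hds]
    have : 2 ^ q * o2 * (2 ^ s * d') = 2 ^ i * (o2 * d') := by
      rw [← hqs, pow_add]; ring
    rw [this, mod_pow_mul hik.le, ho2, Nat.mod_mul_mod, hmod]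
  rw [if_pos hwin2] at e1
  omega

theorem nz_odd (hk : 1 ≤ k) (hV : 0 < V) (hV' : V < 2 ^ k) {l : ℕ} (hl : Odd l) :
    ∃ d, 1 ≤ d ∧ IsA (cnt k V) d l := by
  obtain ⟨D, hD⟩ := keyV hk hV hV' l (fun j => if j = l then 1 else 0)
  have h1 := hD l hl le_rfl
  rw [if_pos rfl] at h1
  have hD0 : D ≠ 0 := by
    rintro rfl
    simp [G_zero] at h1
  refine ⟨2 ^ k * D, Nat.one_le_iff_ne_zero.2 (by positivity), hl.pos, ?_, ?_⟩
  · apply zmod2_one
    rw [cnt_G hV]
    have e : l * (2 ^ k * D) = 2 ^ k * (l * D) := by ring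
    rw [e, h1]
  · intro j hj hjl
    obtain ⟨a, j', hj', rfl⟩ := odd_decomp hj
    have hjj : j' ≤ 2 ^ a * j' := Nat.le_mul_of_pos_left _ (by positivity)
    apply zmod2_zero
    rw [cnt_G hV]
    have e : 2 ^ a * j' * (2 ^ k * D) = 2 ^ k * (2 ^ a * (j' * D)) := by ring
    rw [e, G_pow (wV_per k V) (wV_zero hV), hD j' hj' (by omega), if_neg (by omega)]

theorem nz_even (hk : 1 ≤ k) (hV : 0 < V) (hV' : V < 2 ^ k) {i V' : ℕ}
    (hVi : V = 2 ^ i * V') (hVo : Odd V') {q o : ℕ} (hq : 1 ≤ q) (hqi : q ≤ i) (ho : Odd o)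
    (hok : o < 2 ^ (k - i)) :
    ∃ d, 1 ≤ d ∧ IsA (cnt k V) d (2 ^ q * o) := by
  have hik : i < k := by
    have h1 : 2 ^ i ≤ V := by rw [hVi]; exact Nat.le_mul_of_pos_right _ hVo.pos
    exact (Nat.pow_lt_pow_iff_right (by norm_num : 1 < 2)).1 (lt_of_le_of_lt h1 hV')
  have hVlt : V' < 2 ^ (k - i) := by
    have h2 : 2 ^ k = 2 ^ i * 2 ^ (k - i) := by rw [← pow_add]; congr 1; omega
    rw [hVi, h2] at hV'
    exact Nat.lt_of_mul_lt_mul_left hV'
  have hco : Nat.Coprime o (2 ^ (k - i)) := by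
    apply Nat.Coprime.pow_right
    exact (Nat.coprime_two_right).2 ho
  obtain ⟨D0, -, hD0⟩ := Nat.exists_mul_mod_eq_of_coprime (n := o) (k := 2 ^ (k - i)) V' hco
    (by positivity)
  rw [Nat.mod_eq_of_lt hVlt] at hD0
  have hD0odd : Odd D0 := by
    rw [Nat.odd_iff]
    have h1 : (o * D0) % 2 = 1 := by
      rw [← mod_two_pow_parity (k := k - i) (by omega), hD0]
      exact Nat.odd_iff.1 hVo
    by_contra hcon
    have : D0 % 2 = 0 := by omega
    rw [Nat.mul_mod, this] at h1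
    simp at h1
  have hD0co : Nat.Coprime (2 ^ (k - i)) D0 := by
    apply Nat.Coprime.pow_left
    exact (Nat.coprime_two_left).2 hD0odd
  obtain ⟨b, hb⟩ : ∃ b, b = 2 ^ (i - q) * D0 := ⟨_, rfl⟩
  obtain ⟨l, hl⟩ : ∃ l, l = 2 ^ q * o := ⟨_, rfl⟩
  obtain ⟨a, ha⟩ := keyV hk hV hV' l (fun j => G (wV k V) (j * b))
  have hbpos : 1 ≤ b := by
    rw [hb]; exact Nat.one_le_iff_ne_zero.2 (by have := hD0odd.pos; positivity)
  obtain ⟨M, hM⟩ : ∃ M, M = l * b := ⟨_, rfl⟩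
  obtain ⟨d, hd⟩ : ∃ d, d = 2 ^ (M + k) * a + b := ⟨_, rfl⟩
  have hd1 : 1 ≤ d := by omega
  have hjd : ∀ j, j ≤ l → G (wV k V) (j * d) =
      G (wV k V) (2 ^ k * (j * a)) + G (wV k V) (j * b) := by
    intro j hj
    have e : j * d = 2 ^ (M + k) * (j * a) + j * b := by rw [hd]; ring
    rw [e, G_concat (wV_per k V) (wV_zero hV) k le_rfl]
    refine lt_of_le_of_lt ?_ Nat.lt_two_pow_self
    rw [hM]; exact Nat.mul_le_mul_right _ hj
  -- no window at the low end for smaller even multiples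
  have hnowin : ∀ α j', Odd j' → 2 ^ (α + 1) * j' < l →
      ¬ (2 ^ (α + 1) * j' * b) % 2 ^ k = V := by
    intro α j' hj' hlt hcon
    have h1 : (2 ^ (α + 1) * (2 ^ (i - q) * (j' * D0))) % 2 ^ k = 2 ^ i * V' := by
      rw [← hVi, ← hcon, hb]; congr 1; ring
    obtain ⟨h2, h3⟩ := low_window hik hVo (hj'.mul hD0odd) h1
    have h4 : α + 1 = q := by omega
    have h5 : (j' * D0) ≡ (o * D0) [MOD 2 ^ (k - i)] := by
      unfold Nat.ModEq; rw [h3, hD0]
    have h6 : j' ≡ o [MOD 2 ^ (k - i)] := Nat.ModEq.cancel_right_of_coprime hD0co h5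
    have h7 : o ≤ j' := by
      have h8 : j' % 2 ^ (k - i) = o := by
        unfold Nat.ModEq at h6
        rw [h6, Nat.mod_eq_of_lt hok]
      rw [← h8]; exact Nat.mod_le _ _
    rw [h4, hl] at hlt
    have := Nat.mul_le_mul_left (2 ^ q) h7
    omega
  have hGj : ∀ α j', Odd j' → 2 ^ α * j' < l →
      G (wV k V) (2 ^ α * j' * b) = G (wV k V) (j' * b) := by
    intro α
    induction α with
    | zero => intro j' _ _; simp
    | succ α ih =>
      intro j' hj' hlt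
      rw [G_eq (wV_zero hV)]
      have e1 : 2 ^ (α + 1) * j' * b / 2 = 2 ^ α * j' * b := by
        have : 2 ^ (α + 1) * j' * b = 2 * (2 ^ α * j' * b) := by ring
        rw [this]; omega
      have e2 : wV k V (2 ^ (α + 1) * j' * b) = 0 := by
        unfold wV; rw [if_neg (hnowin α j' hj' hlt)]
      have e3 : 2 ^ α * j' < l := by
        have : 2 ^ (α + 1) * j' = 2 * (2 ^ α * j') := by ring
        omega
      rw [e1, e2, zero_add, ih j' hj' e3]
  have hzero : ∀ j, 1 ≤ j → j < l → cnt k V (j * d) % 2 = 0 := by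
    intro j hj hjl
    obtain ⟨α, j', hj', rfl⟩ := odd_decomp hj
    have hjj : j' ≤ 2 ^ α * j' := Nat.le_mul_of_pos_left _ (by positivity)
    apply zmod2_zero
    rw [cnt_G hV, hjd _ hjl.le, hGj α j' hj' hjl]
    have e : 2 ^ k * (2 ^ α * j' * a) = 2 ^ k * (2 ^ α * (j' * a)) := by ring
    rw [e, G_pow (wV_per k V) (wV_zero hV), ha j' hj' (by omega), CharTwo.add_self_eq_zero]
  rw [← hl]
  refine ⟨d, hd1, ?_, ?_, hzero⟩
  · rw [hl]; exact Nat.one_le_iff_ne_zero.2 (by have := ho.pos; positivity)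
  · have hpos : 0 < 2 ^ q * o := by have := ho.pos; positivity
    have h0 : l * d ≠ 0 := by
      rw [hl]; positivity
    rw [cnt_eq h0]
    obtain ⟨c, hc⟩ : ∃ c, q = c + 1 := ⟨q - 1, by omega⟩
    have e1 : l * d / 2 = 2 ^ c * o * d := by
      have : l * d = 2 * (2 ^ c * o * d) := by rw [hl, hc]; ring
      rw [this]; omega
    have e2 : (l * d) % 2 ^ k = V := by
      have e3 : l * d = 2 ^ k * (2 ^ M * (l * a)) + l * b := by rw [hd, pow_add]; ring
      rw [e3, Nat.mul_add_mod]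
      have e4 : l * b = 2 ^ i * (o * D0) := by
        have : 2 ^ i = 2 ^ q * 2 ^ (i - q) := by rw [← pow_add]; congr 1; omega
        rw [hl, hb, this]; ring
      rw [e4, mod_pow_mul hik.le, hD0, hVi]
    have e5 := hzero (2 ^ c * o) (Nat.one_le_iff_ne_zero.2 (by have := ho.pos; positivity))
      (by rw [hl, hc, pow_succ]
          have : 0 < 2 ^ c * o := by have := ho.pos; positivity
          have e6 : 2 ^ c * 2 * o = 2 * (2 ^ c * o) := by ring
          omega)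
    rw [e1, if_pos e2]
    omega

end nonzero

end Pool.Agent.V11147.Pat
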