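import Pool.Agent.V11147.PatC

/-! Value sets for the zero pattern. -/

namespace Pool.Agent.V11147.Pat

/-- binary length -/
def sz : ℕ → ℕ
  | 0 => 0
  | n + 1 => 1 + sz ((n + 1) / 2)
decreasing_by omega

theorem sz_zero : sz 0 = 0 := by rw [sz]

theorem sz_eq {n : ℕ} (h : n ≠ 0) : sz n = 1 + sz (n / 2) := by
  cases n with
  | zero => exact absurd rfl h
  | succ n => rw [sz]

theorem sz_concat {X : ℕ} (hX : 1 ≤ X) : ∀ N Y, Y < 2 ^ N → sz (2 ^ N * X + Y) = N + sz X := by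
  intro N
  induction N with
  | zero =>
    intro Y hY
    have : Y = 0 := by simpa using hY
    subst this; simp
  | succ N ih =>
    intro Y hY
    have h0 : 2 ^ (N + 1) * X + Y ≠ 0 := by positivity
    rw [sz_eq h0]
    have h1 : (2 ^ (N + 1) * X + Y) / 2 = 2 ^ N * X + Y / 2 := by
      have : 2 ^ (N + 1) * X = 2 * (2 ^ N * X) := by ring
      rw [this]; omega
    rw [h1, ih _ (by rw [pow_succ] at hY; omega)]
    ring

section zero
variable {k : ℕ}

/-- weight of nonzero windows -/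
def w0 (k n : ℕ) : ZMod 2 := if n % 2 ^ k = 0 then 0 else 1

theorem w0_per (k n : ℕ) : w0 k n = w0 k (n % 2 ^ k) := by
  unfold w0; rw [Nat.mod_mod]

theorem w0_zero (k : ℕ) : w0 k 0 = 0 := by
  unfold w0; rw [if_pos (Nat.zero_mod _)]

theorem cnt0_G (n : ℕ) : (cnt k 0 n : ZMod 2) = G (w0 k) n + (sz n : ZMod 2) := by
  induction n using Nat.strong_induction_on with
  | _ n ih =>
    by_cases h : n = 0
    · subst h; simp [cnt_zero, G_zero, sz_zero]
    · rw [cnt_eq h, G_eq (w0_zero k), sz_eq h, Nat.cast_add, ih _ (by omega), Nat.cast_add]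
      have hw : w0 k n = if n % 2 ^ k = 0 then 0 else 1 := rfl
      rw [hw]
      generalize G (w0 k) (n / 2) = g
      generalize (sz (n / 2) : ZMod 2) = s
      clear ih hw
      split_ifs
      · simp; ring
      · simp only [Nat.cast_zero, Nat.cast_one]
        revert g s; decide

theorem w0_hC (hk : 1 ≤ k) :
    ∀ l, Odd l → ∃ m m', m % 2 ^ (k - 1) = m' % 2 ^ (k - 1) ∧
      G (w0 k) (l * m + 1) + G (w0 k) (l * m) ≠
        G (w0 k) (l * m' + 1) + G (w0 k) (l * m') := by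
  apply hC_gen hk (w0_per k) (w0_zero k) 0 rfl (by positivity)
  intro n hn
  have h1 : (n + 1) % 2 ^ k % 2 = 1 := by rw [mod_two_pow_parity hk]; omega
  unfold w0
  have h2 : ¬ (n + 1) % 2 ^ k = 0 := by omega
  rw [if_neg h2]
  split_ifs
  · simp
  · decide

theorem key0 (hk : 1 ≤ k) (L : ℕ) (t : ℕ → ZMod 2) :
    ∃ D, ∀ j, Odd j → j ≤ L → G (w0 k) (2 ^ k * (j * D)) = t j :=
  key hk (w0_per k) (w0_zero k) (w0_hC hk) L t

theorem top_step (hk : 1 ≤ k) {d : ℕ} (hd : 1 ≤ d) :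
    cnt k 0 (2 ^ k * d) = 1 + cnt k 0 (2 ^ (k - 1) * d) := by
  have h0 : 2 ^ k * d ≠ 0 := by positivity
  rw [cnt_eq h0, if_pos (Nat.mul_mod_right _ _)]
  congr 2
  obtain ⟨a, rfl⟩ : ∃ a, k = a + 1 := ⟨k - 1, by omega⟩
  have : 2 ^ (a + 1) * d = 2 * (2 ^ a * d) := by ring
  rw [this, Nat.add_sub_cancel]; omega

theorem z_exists (hk : 1 ≤ k) {d : ℕ} (hd : 1 ≤ d) : ∃ l, l ≤ 2 ^ k ∧ IsA (cnt k 0) d l := by
  have h := top_step hk hd
  by_cases h1 : cnt k 0 (2 ^ k * d) % 2 = 1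
  · exact exists_IsA Nat.one_le_two_pow h1
  · obtain ⟨l, hl, hA⟩ := exists_IsA (e := cnt k 0) (d := d) (l := 2 ^ (k - 1))
      Nat.one_le_two_pow (by omega)
    exact ⟨l, le_trans hl (Nat.pow_le_pow_right (by omega) (by omega)), hA⟩

theorem z_upper (hk : 1 ≤ k) {d l : ℕ} (hd : 1 ≤ d) (h : IsA (cnt k 0) d l) :
    (Odd l ∧ l < 2 ^ k) ∨ ∃ q, 1 ≤ q ∧ q ≤ k ∧ l = 2 ^ q := by
  have hle : l ≤ 2 ^ k := by
    obtain ⟨l', hl', hA'⟩ := z_exists hk hd
    by_contra hcon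
    have h1 := h.2.2 l' hA'.1 (by omega)
    have h2 := hA'.2.1
    omega
  obtain ⟨hl1, hl2, hl3⟩ := h
  rcases Nat.even_or_odd l with hev | hodd
  swap
  · left
    refine ⟨hodd, lt_of_le_of_ne hle ?_⟩
    rintro rfl
    have h1 := two_pow_even hk
    have h2 := Nat.odd_iff.1 hodd
    omega
  right
  obtain ⟨q, o, ho, hlo⟩ := odd_decomp hl1
  have hq : 1 ≤ q := by
    by_contra hq
    have : q = 0 := by omega
    subst this
    rw [pow_zero, one_mul] at hlo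
    rw [hlo] at hev
    exact absurd ho (Nat.not_odd_iff_even.2 hev)
  have hopos := ho.pos
  have hstep : ∀ x, 1 ≤ x → cnt k 0 (2 ^ q * x * d) =
      (if (2 ^ q * x * d) % 2 ^ k = 0 then 1 else 0) + cnt k 0 (2 ^ (q - 1) * x * d) := by
    intro x hx
    have h0 : 2 ^ q * x * d ≠ 0 := by positivity
    rw [cnt_eq h0]
    have : 2 ^ q * x * d / 2 = 2 ^ (q - 1) * x * d := by
      obtain ⟨a, rfl⟩ : ∃ a, q = a + 1 := ⟨q - 1, by omega⟩
      have : 2 ^ (a + 1) * x * d = 2 * (2 ^ a * x * d) := by ring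
      rw [this, Nat.add_sub_cancel]; omega
    rw [this]
  have hlt : ∀ x, 1 ≤ x → 2 ^ (q - 1) * x < 2 ^ q * x := by
    intro x hx
    apply Nat.mul_lt_mul_of_pos_right
    · exact Nat.pow_lt_pow_right (by omega) (by omega)
    · omega
  have hwin : (2 ^ q * o * d) % 2 ^ k = 0 := by
    have h1 := hstep o ho.pos
    have h2 := hl3 (2 ^ (q - 1) * o) (Nat.one_le_iff_ne_zero.2 (by positivity))
      (by rw [hlo]; exact hlt o ho.pos)
    rw [hlo, h1] at hl2
    by_contra hne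
    rw [if_neg hne] at hl2
    omega
  by_cases ho1 : o = 1
  · subst ho1
    rw [mul_one] at hlo
    refine ⟨q, hq, ?_, hlo⟩
    rw [hlo] at hle
    exact (Nat.pow_le_pow_iff_right (by norm_num : 1 < 2)).1 hle
  · exfalso
    have hl' : 2 ^ q * 1 < l := by
      rw [hlo]
      exact Nat.mul_lt_mul_of_pos_left (by omega) (by positivity)
    have e1 := hstep 1 le_rfl
    have e2 := hl3 (2 ^ q * 1) (Nat.one_le_iff_ne_zero.2 (by positivity)) hl'
    have e3 := hl3 (2 ^ (q - 1) * 1) (Nat.one_le_iff_ne_zero.2 (by positivity))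
      (lt_trans (hlt 1 le_rfl) hl')
    have hwin2 : (2 ^ q * 1 * d) % 2 ^ k = 0 := by
      apply Nat.mod_eq_zero_of_dvd
      have h1 : 2 ^ k ∣ 2 ^ q * o * d := Nat.dvd_of_mod_eq_zero hwin
      have h2 : 2 ^ q * o * d = o * (2 ^ q * 1 * d) := by ring
      rw [h2] at h1
      refine Nat.Coprime.dvd_of_dvd_mul_left ?_ h1
      apply Nat.Coprime.pow_left
      exact (Nat.coprime_two_left).2 ho
    rw [if_pos hwin2] at e1
    omega

/-- windows of small numbers are never zero -/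
theorem cnt_small (J : ℕ) (hJ : J < 2 ^ k) : cnt k 0 J = 0 := by
  induction J using Nat.strong_induction_on with
  | _ J ih =>
    by_cases h : J = 0
    · subst h; exact cnt_zero _ _
    · rw [cnt_eq h, ih _ (by omega) (by omega), if_neg]
      rw [Nat.mod_eq_of_lt hJ]; exact h

theorem build (hk : 1 ≤ k) (τ : ℕ → ZMod 2) :
    ∃ d, 1 ≤ d ∧ ∀ α j', Odd j' → 2 ^ α * j' < 2 ^ k →
      (cnt k 0 (2 ^ α * j' * d) : ZMod 2) = τ j' := by
  obtain ⟨a', ha'⟩ := key0 hk (2 ^ k) (fun j => G (w0 k) (2 ^ k * j) + k + τ j)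
  obtain ⟨E, hE⟩ : ∃ E, E = 2 ^ k * (2 ^ k * a') := ⟨_, rfl⟩
  obtain ⟨R, hR⟩ : ∃ R, R = 2 * E + k := ⟨_, rfl⟩
  obtain ⟨a, ha⟩ : ∃ a, a = 2 ^ R + a' := ⟨_, rfl⟩
  refine ⟨2 ^ (k + k) * a + 1, by omega, ?_⟩
  intro α j' hj' hlt
  obtain ⟨J, hJ⟩ : ∃ J, J = 2 ^ α * j' := ⟨_, rfl⟩
  have hj'pos := hj'.pos
  have hJpos : 1 ≤ J := by rw [hJ]; exact Nat.one_le_iff_ne_zero.2 (by positivity)
  rw [← hJ] at hlt ⊢
  have hJa' : 2 ^ k * (J * a') < 2 ^ (2 * E) := by
    have h1 : 2 ^ k * (J * a') ≤ E := by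
      rw [hE]; exact Nat.mul_le_mul_left _ (Nat.mul_le_mul_right _ hlt.le)
    have h2 : 2 * E < 2 ^ (2 * E) := Nat.lt_two_pow_self
    omega
  have hJa2 : J * a' < 2 ^ R := by
    have h1 : J * a' ≤ 2 ^ k * (J * a') := Nat.le_mul_of_pos_left _ (by positivity)
    have h2 : 2 ^ (2 * E) ≤ 2 ^ R := Nat.pow_le_pow_right (by omega) (by omega)
    omega
  have e1 : J * (2 ^ (k + k) * a + 1) = 2 ^ (k + k) * (J * a) + J := by ring
  have eJa : J * a = 2 ^ R * J + J * a' := by rw [ha]; ring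
  have hJa1 : 1 ≤ J * a := by
    rw [eJa]
    have : 1 ≤ 2 ^ R * J := Nat.one_le_iff_ne_zero.2 (by positivity)
    omega
  rw [cnt0_G, e1, G_concat (w0_per k) (w0_zero k) k le_rfl _ _ _ hlt,
    sz_concat hJa1 (k + k) J (lt_of_lt_of_le hlt (Nat.pow_le_pow_right (by omega) (by omega))),
    eJa, sz_concat hJpos R _ hJa2]
  have e2 : 2 ^ k * (2 ^ R * J + J * a') = 2 ^ (2 * E + k) * (2 ^ k * J) + 2 ^ k * (J * a') := by
    rw [hR]; ring
  rw [e2, G_concat (w0_per k) (w0_zero k) k le_rfl _ _ _ hJa', G_pow (w0_per k) (w0_zero k)]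
  have hGJ : G (w0 k) (2 ^ k * J) = G (w0 k) (2 ^ k * j') := by
    rw [hJ, G_pow (w0_per k) (w0_zero k)]
  have hGa : G (w0 k) (2 ^ k * (J * a')) = G (w0 k) (2 ^ k * j') + k + τ j' := by
    have e : 2 ^ k * (J * a') = 2 ^ k * (2 ^ α * (j' * a')) := by rw [hJ]; ring
    have hjle : j' ≤ 2 ^ k := by
      have : j' ≤ 2 ^ α * j' := Nat.le_mul_of_pos_left _ (by positivity)
      omega
    rw [e, G_pow (w0_per k) (w0_zero k), ha' j' hj' hjle]
  have hsmall : G (w0 k) J + (sz J : ZMod 2) = 0 := by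
    rw [← cnt0_G, cnt_small J hlt]; simp
  rw [hGJ, hGa, hR]
  push_cast
  generalize G (w0 k) (2 ^ k * j') = g at *
  generalize G (w0 k) J = g' at *
  generalize (sz J : ZMod 2) = s at *
  generalize (k : ZMod 2) = κ at *
  generalize (E : ZMod 2) = ε at *
  generalize τ j' = u at *
  revert hsmall
  clear * -
  revert g g' s κ ε u
  decide

theorem z_odd (hk : 1 ≤ k) {l : ℕ} (hl : Odd l) (hlk : l < 2 ^ k) :
    ∃ d, 1 ≤ d ∧ IsA (cnt k 0) d l := by
  obtain ⟨d, hd, h⟩ := build hk (fun j => if j = l then 1 else 0)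
  refine ⟨d, hd, hl.pos, ?_, ?_⟩
  · apply zmod2_one
    have := h 0 l hl (by simpa using hlk)
    simpa using this
  · intro j hj hjl
    obtain ⟨a, j', hj', rfl⟩ := odd_decomp hj
    have hjj : j' ≤ 2 ^ a * j' := Nat.le_mul_of_pos_left _ (by positivity)
    apply zmod2_zero
    rw [h a j' hj' (by omega), if_neg (by omega)]

theorem z_even (hk : 1 ≤ k) {q : ℕ} (hq : 1 ≤ q) (hqk : q ≤ k) :
    ∃ d, 1 ≤ d ∧ IsA (cnt k 0) d (2 ^ q) := by
  obtain ⟨d, hd, h⟩ := build hk (fun _ => 0)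
  have hall : ∀ J, 1 ≤ J → J < 2 ^ k → cnt k 0 (J * d) % 2 = 0 := by
    intro J hJ hJk
    obtain ⟨a, j', hj', rfl⟩ := odd_decomp hJ
    apply zmod2_zero
    rw [h a j' hj' hJk]
  have hpow : 2 ^ k = 2 ^ q * 2 ^ (k - q) := by rw [← pow_add]; congr 1; omega
  refine ⟨2 ^ (k - q) * d, Nat.one_le_iff_ne_zero.2 (by positivity), Nat.one_le_two_pow, ?_, ?_⟩
  · have e : 2 ^ q * (2 ^ (k - q) * d) = 2 ^ k * d := by rw [hpow]; ring
    rw [e, top_step hk hd]
    have := hall (2 ^ (k - 1)) Nat.one_le_two_pow (Nat.pow_lt_pow_right (by omega) (by omega))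
    omega
  · intro j hj hjq
    have e : j * (2 ^ (k - q) * d) = (j * 2 ^ (k - q)) * d := by ring
    rw [e]
    apply hall
    · exact Nat.one_le_iff_ne_zero.2 (by positivity)
    · rw [hpow]
      exact Nat.mul_lt_mul_of_pos_right hjq (by positivity)

end zero

end Pool.Agent.V11147.Pat
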