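import Mathlib

namespace Pool.Agent.V11147.Ret

open Set

section defs

variable {P : Type*} [PartialOrder P]

/-- an order-preserving idempotent self-map -/
def IsRetraction (r : P → P) : Prop := Monotone r ∧ ∀ x, r (r x) = r x

/-- a retract is the image of a retraction -/
def IsRetract (R : Set P) : Prop := ∃ r : P → P, IsRetraction r ∧ R = range r

/-- a closure operator -/
def IsClosureOp (f : P → P) : Prop := IsRetraction f ∧ ∀ x, x ≤ f x

/-- an anticlosure operator -/
def IsAnticlosureOp (g : P → P) : Prop := IsRetraction g ∧ ∀ x, g x ≤ x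

/-- `R` arises from a commuting pair of a closure operator and an anticlosure operator -/
def Arises (R : Set P) : Prop :=
  ∃ f g : P → P, IsClosureOp f ∧ IsAnticlosureOp g ∧ f ∘ g = g ∘ f ∧
    R = range (f ∘ g) ∧ R = range (g ∘ f) ∧ R = range f ∩ range g

/-- the same without `f ∘ g = g ∘ f`: only the images agree -/
def ArisesIm (R : Set P) : Prop :=
  ∃ f g : P → P, IsClosureOp f ∧ IsAnticlosureOp g ∧
    R = range (f ∘ g) ∧ R = range (g ∘ f) ∧ R = range f ∩ range g

/-- a retraction `r` with `r (x ∨ r x) = r x` and `r (x ∧ r x) = r x` for all `x` -/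
def IsGood (r : P → P) : Prop :=
  IsRetraction r ∧ (∀ x s, IsLUB {x, r x} s → r s = r x) ∧ ∀ x i, IsGLB {x, r x} i → r i = r x

end defs

/-- property (C) -/
def PropC (P : Type*) [PartialOrder P] : Prop :=
  ∀ R : Set P, R.Nonempty → (IsRetract R ↔ Arises R)

/-- property (C) read with equality of images instead of commuting operators -/
def PropCIm (P : Type*) [PartialOrder P] : Prop :=
  ∀ R : Set P, R.Nonempty → (IsRetract R ↔ ArisesIm R)

/-- `P` is a lattice -/
def IsLat (P : Type*) [PartialOrder P] : Prop :=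
  ∀ x y : P, (∃ s, IsLUB {x, y} s) ∧ ∃ i, IsGLB {x, y} i

/-- the modular law: if `x ≤ z` then `(x ∨ y) ∧ z = x ∨ (y ∧ z)`, whenever these exist -/
def ModLaw (P : Type*) [PartialOrder P] : Prop :=
  ∀ x y z s u i t : P, x ≤ z → IsLUB {x, y} s → IsGLB {s, z} u → IsGLB {y, z} i →
    IsLUB {x, i} t → u = t

/-- every subset has a supremum (hence also an infimum): `P` is a complete lattice -/
def IsCompl (P : Type*) [PartialOrder P] : Prop := ∀ S : Set P, ∃ s, IsLUB S s

section basic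

variable {P : Type*} [PartialOrder P]

theorem mem_range_iff {r : P → P} (hr : IsRetraction r) {x : P} : x ∈ range r ↔ r x = x := by
  constructor
  · rintro ⟨y, rfl⟩
    exact hr.2 y
  · intro h
    exact ⟨x, h⟩

theorem Arises.im {R : Set P} (h : Arises R) : ArisesIm R := by
  obtain ⟨f, g, hf, hg, _, h1, h2, h3⟩ := h
  exact ⟨f, g, hf, hg, h1, h2, h3⟩

theorem ArisesIm.retract {R : Set P} (h : ArisesIm R) : IsRetract R := by
  obtain ⟨f, g, hf, hg, h1, h2, h3⟩ := h
  refine ⟨f ∘ g, ⟨hf.1.1.comp hg.1.1, ?_⟩, h1⟩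
  intro x
  have hx : (f ∘ g) x ∈ R := by rw [h1]; exact ⟨x, rfl⟩
  rw [h3] at hx
  have e1 := (mem_range_iff hf.1).1 hx.1
  have e2 := (mem_range_iff hg.1).1 hx.2
  show f (g ((f ∘ g) x)) = (f ∘ g) x
  rw [e2, e1]

theorem downRetract (u : P) : IsRetract (Iic u) := by
  classical
  refine ⟨fun z => if z ≤ u then z else u, ⟨?_, ?_⟩, ?_⟩
  · intro z w hzw
    simp only
    by_cases h1 : w ≤ u
    · rw [if_pos h1, if_pos (hzw.trans h1)]
      exact hzw
    · rw [if_neg h1]
      split_ifs with h2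
      · exact h2
      · exact le_rfl
  · intro z
    simp only
    by_cases h1 : z ≤ u
    · simp [h1]
    · simp [h1]
  · ext z
    simp only [mem_Iic, mem_range]
    constructor
    · intro h
      exact ⟨z, by simp [h]⟩
    · rintro ⟨y, rfl⟩
      split_ifs with h
      · exact h
      · exact le_rfl

theorem upRetract (u : P) : IsRetract (Ici u) := by
  classical
  refine ⟨fun z => if u ≤ z then z else u, ⟨?_, ?_⟩, ?_⟩
  · intro z w hzw
    simp only
    by_cases h1 : u ≤ z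
    · rw [if_pos h1, if_pos (h1.trans hzw)]
      exact hzw
    · rw [if_neg h1]
      split_ifs with h2
      · exact h2
      · exact le_rfl
  · intro z
    simp only
    by_cases h1 : u ≤ z
    · simp [h1]
    · simp [h1]
  · ext z
    simp only [mem_Ici, mem_range]
    constructor
    · intro h
      exact ⟨z, by simp [h]⟩
    · rintro ⟨y, rfl⟩
      split_ifs with h
      · exact h
      · exact le_rfl

theorem glb_of_arises {u : P} (h : ArisesIm (Iic u)) (v : P) : ∃ i, IsGLB {u, v} i := by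
  obtain ⟨f, g, hf, hg, h1, h2, h3⟩ := h
  refine ⟨g v, ?_, ?_⟩
  · rintro w (rfl | hw)
    · have : f (g v) ∈ Iic w := by rw [h1]; exact ⟨v, rfl⟩
      exact (hf.2 _).trans this
    · rw [mem_singleton_iff] at hw
      rw [hw]
      exact hg.2 v
  · intro w hw
    have hwu : w ∈ Iic u := hw (by simp)
    have hwv : w ≤ v := hw (by simp)
    rw [h3] at hwu
    have e := (mem_range_iff hg.1).1 hwu.2
    rw [← e]
    exact hg.1.1 hwv

theorem lub_of_arises {u : P} (h : ArisesIm (Ici u)) (v : P) : ∃ s, IsLUB {u, v} s := by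
  obtain ⟨f, g, hf, hg, h1, h2, h3⟩ := h
  refine ⟨f v, ?_, ?_⟩
  · rintro w (rfl | hw)
    · have : g (f v) ∈ Ici w := by rw [h2]; exact ⟨v, rfl⟩
      exact le_trans this (hg.2 _)
    · rw [mem_singleton_iff] at hw
      rw [hw]
      exact hf.2 v
  · intro w hw
    have hwu : w ∈ Ici u := hw (by simp)
    have hwv : v ≤ w := hw (by simp)
    rw [h3] at hwu
    have e := (mem_range_iff hf.1).1 hwu.1
    rw [← e]
    exact hf.1.1 hwv

theorem isLat_of_im (h : PropCIm P) : IsLat P := by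
  intro x y
  have h1 : (Ici x).Nonempty := ⟨x, le_rfl⟩
  have h2 : (Iic x).Nonempty := ⟨x, le_rfl⟩
  exact ⟨lub_of_arises ((h _ h1).1 (upRetract x)) y, glb_of_arises ((h _ h2).1 (downRetract x)) y⟩

theorem PropC.im (h : PropC P) : PropCIm P := fun R hR =>
  ⟨fun h1 => ((h R hR).1 h1).im, fun h1 => h1.retract⟩

theorem isLat_of_propC (h : PropC P) : IsLat P := isLat_of_im h.im

end basic

section lattice

variable {L : Type*} [Lattice L]

theorem isLUB_pair' (x y : L) : IsLUB {x, y} (x ⊔ y) := isLUB_pair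

theorem isGLB_pair' (x y : L) : IsGLB {x, y} (x ⊓ y) := isGLB_pair

theorem good_iff (r : L → L) : IsGood r ↔
    IsRetraction r ∧ (∀ x, r (x ⊔ r x) = r x) ∧ ∀ x, r (x ⊓ r x) = r x := by
  constructor
  · rintro ⟨h1, h2, h3⟩
    exact ⟨h1, fun x => h2 x _ isLUB_pair, fun x => h3 x _ isGLB_pair⟩
  · rintro ⟨h1, h2, h3⟩
    refine ⟨h1, ?_, ?_⟩
    · intro x s hs
      rw [hs.unique isLUB_pair]
      exact h2 x
    · intro x i hi
      rw [hi.unique isGLB_pair]
      exact h3 x

theorem arises_of_good {r : L → L} (hr : IsGood r) : Arises (range r) := by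
  obtain ⟨⟨hm, hi⟩, h1, h2⟩ := (good_iff r).1 hr
  have hfm : Monotone (fun x => x ⊔ r x) := fun x y hxy => sup_le_sup hxy (hm hxy)
  have hgm : Monotone (fun x => x ⊓ r x) := fun x y hxy => inf_le_inf hxy (hm hxy)
  have hfg : ∀ x, (x ⊓ r x) ⊔ r (x ⊓ r x) = r x := by
    intro x
    rw [h2]
    exact sup_eq_right.2 inf_le_right
  have hgf : ∀ x, (x ⊔ r x) ⊓ r (x ⊔ r x) = r x := by
    intro x
    rw [h1]
    exact inf_eq_right.2 le_sup_right
  have hf : IsClosureOp (fun x => x ⊔ r x) := by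
    refine ⟨⟨hfm, ?_⟩, fun x => le_sup_left⟩
    intro x
    show (x ⊔ r x) ⊔ r (x ⊔ r x) = x ⊔ r x
    rw [h1, sup_assoc, sup_idem]
  have hg : IsAnticlosureOp (fun x => x ⊓ r x) := by
    refine ⟨⟨hgm, ?_⟩, fun x => inf_le_left⟩
    intro x
    show (x ⊓ r x) ⊓ r (x ⊓ r x) = x ⊓ r x
    rw [h2, inf_assoc, inf_idem]
  refine ⟨fun x => x ⊔ r x, fun x => x ⊓ r x, hf, hg, ?_, ?_, ?_, ?_⟩
  · funext x
    show (x ⊓ r x) ⊔ r (x ⊓ r x) = (x ⊔ r x) ⊓ r (x ⊔ r x)
    rw [hfg, hgf]
  · have : ((fun x => x ⊔ r x) ∘ fun x => x ⊓ r x) = r := funext hfg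
    rw [this]
  · have : ((fun x => x ⊓ r x) ∘ fun x => x ⊔ r x) = r := funext hgf
    rw [this]
  · ext y
    constructor
    · rintro ⟨x, rfl⟩
      exact ⟨⟨r x, by simp [hi]⟩, ⟨r x, by simp [hi]⟩⟩
    · rintro ⟨hy1, hy2⟩
      have e1 := (mem_range_iff hf.1).1 hy1
      have e2 := (mem_range_iff hg.1).1 hy2
      exact ⟨y, le_antisymm (sup_eq_left.1 e1) (inf_eq_left.1 e2)⟩

theorem good_of_arises {R : Set L} (h : Arises R) : ∃ r : L → L, IsGood r ∧ R = range r := by
  obtain ⟨f, g, hf, hg, hc, h1, h2, h3⟩ := h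
  have hc' : ∀ x, f (g x) = g (f x) := fun x => congrFun hc x
  have hm : Monotone (f ∘ g) := hf.1.1.comp hg.1.1
  have hii : ∀ x, (f ∘ g) ((f ∘ g) x) = (f ∘ g) x := by
    intro x
    show f (g (f (g x))) = f (g x)
    rw [← hc', hf.1.2, hg.1.2]
  refine ⟨f ∘ g, (good_iff _).2 ⟨⟨hm, hii⟩, ?_, ?_⟩, h1⟩
  · intro x
    apply le_antisymm
    · have e : (f ∘ g) (f x) = (f ∘ g) x := by
        show f (g (f x)) = f (g x)
        rw [← hc', hf.1.2]
      rw [← e]
      apply hm
      apply sup_le (hf.2 x)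
      show f (g (f x)) ≤ f x
      rw [← hc', hf.1.2]
      exact hf.1.1 (hg.2 x)
    · calc (f ∘ g) x = (f ∘ g) ((f ∘ g) x) := (hii x).symm
        _ ≤ (f ∘ g) (x ⊔ (f ∘ g) x) := hm le_sup_right
  · intro x
    apply le_antisymm
    · calc (f ∘ g) (x ⊓ (f ∘ g) x) ≤ (f ∘ g) ((f ∘ g) x) := hm inf_le_right
        _ = (f ∘ g) x := hii x
    · have e : (f ∘ g) (g x) = (f ∘ g) x := by
        show f (g (g x)) = f (g x)
        rw [hg.1.2]
      rw [← e]
      apply hm
      apply le_inf (hg.2 x)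
      show g x ≤ f (g (g x))
      rw [hg.1.2]
      exact hf.2 _

theorem propC_iff_good : PropC L ↔
    ∀ r : L → L, IsRetraction r → ∃ r' : L → L, IsGood r' ∧ range r' = range r := by
  constructor
  · intro h r hr
    by_cases hne : Nonempty L
    · obtain ⟨x⟩ := hne
      obtain ⟨r', h1, h2⟩ := good_of_arises ((h (range r) ⟨r x, x, rfl⟩).1 ⟨r, hr, rfl⟩)
      exact ⟨r', h1, h2.symm⟩
    · refine ⟨r, ?_, rfl⟩
      rw [not_nonempty_iff] at hne
      exact ⟨hr, fun x => (hne.false x).elim, fun x => (hne.false x).elim⟩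
  · intro h R _
    constructor
    · rintro ⟨r, hr, rfl⟩
      obtain ⟨r', h1, h2⟩ := h r hr
      rw [← h2]
      exact arises_of_good h1
    · intro h1
      exact h1.im.retract

theorem modular_of_propC (h : PropC L) : IsModularLattice L := by
  refine ⟨?_⟩
  intro x y z hxz
  set a := x ⊔ (y ⊓ z) with ha
  set b := (x ⊔ y) ⊓ z with hb
  have hab : a ≤ b := by
    apply sup_le
    · exact le_inf le_sup_left hxz
    · exact inf_le_inf le_sup_right le_rfl
  have hr : IsRetract (Icc a b) := by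
    refine ⟨fun t => (t ⊔ a) ⊓ b, ⟨?_, ?_⟩, ?_⟩
    · intro s t hst
      exact inf_le_inf (sup_le_sup hst le_rfl) le_rfl
    · intro t
      simp only
      have h1 : a ≤ (t ⊔ a) ⊓ b := le_inf le_sup_right hab
      rw [sup_eq_left.2 h1, inf_assoc, inf_idem]
    · ext t
      simp only [mem_Icc, mem_range]
      constructor
      · rintro ⟨h1, h2⟩
        exact ⟨t, by rw [sup_eq_left.2 h1, inf_eq_left.2 h2]⟩
      · rintro ⟨s, rfl⟩
        exact ⟨le_inf le_sup_right hab, inf_le_right⟩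
  obtain ⟨f, g, hf, hg, hc, h1, h2, h3⟩ := (h (Icc a b) ⟨a, le_rfl, hab⟩).1 hr
  have hc' : ∀ x, f (g x) = g (f x) := fun x => congrFun hc x
  have hfg : ∀ t, a ≤ f (g t) ∧ f (g t) ≤ b := by
    intro t
    have : (f ∘ g) t ∈ Icc a b := by rw [h1]; exact ⟨t, rfl⟩
    exact this
  have haR : a ∈ range f ∩ range g := by rw [← h3]; exact ⟨le_rfl, hab⟩
  have hbR : b ∈ range f ∩ range g := by rw [← h3]; exact ⟨hab, le_rfl⟩
  have fa := (mem_range_iff hf.1).1 haR.1
  have gb := (mem_range_iff hg.1).1 hbR.2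
  set l := y ⊓ z with hl
  set u := x ⊔ y with hu
  have hla : l ≤ a := le_sup_right
  have hbu : b ≤ u := inf_le_left
  have hfl : f l ≤ a := by
    have := hf.1.1 hla
    rwa [fa] at this
  have hgu : b ≤ g u := by
    have := hg.1.1 hbu
    rwa [gb] at this
  have hyb : y ⊓ b ≤ l := by
    rw [hb, hl]
    exact le_inf inf_le_left (inf_le_right.trans inf_le_right)
  have hya : u ≤ y ⊔ a := by
    rw [hu, ha]
    exact sup_le (le_sup_left.trans le_sup_right) le_sup_left
  have hal : a ≤ f l := (hfg l).1.trans (hf.1.1 (hg.2 l))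
  have hub : g u ≤ b := by
    have : g u ≤ g (f u) := hg.1.1 (hf.2 u)
    rw [← hc'] at this
    exact this.trans (hfg u).2
  have hgy : g y ≤ l := by
    apply le_trans _ hyb
    apply le_inf (hg.2 y)
    exact (hg.1.1 (le_sup_right : y ≤ u)).trans hub
  have hfy : u ≤ f y := by
    apply hya.trans
    apply sup_le (hf.2 y)
    exact hal.trans (hf.1.1 (inf_le_left : l ≤ y))
  have e1 : f (g y) ≤ a := (hf.1.1 hgy).trans hfl
  have e2 : b ≤ f (g y) := by
    rw [hc']
    exact hgu.trans (hg.1.1 hfy)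
  exact e2.trans e1

end lattice

section linear

variable {L : Type*} [LinearOrder L]

theorem propC_linear : PropC L := by
  rw [propC_iff_good]
  intro r hr
  refine ⟨r, (good_iff r).2 ⟨hr, ?_, ?_⟩, rfl⟩
  · intro x
    rcases le_total x (r x) with h | h
    · rw [sup_eq_right.2 h, hr.2]
    · rw [sup_eq_left.2 h]
  · intro x
    rcases le_total x (r x) with h | h
    · rw [inf_eq_left.2 h]
    · rw [inf_eq_right.2 h, hr.2]

end linear

section complete

variable {L : Type*} [CompleteLattice L]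

/-- the retractions onto `range r` that are good on the upper side -/
def Upp (r : L → L) : Set (L → L) :=
  {t | Monotone t ∧ (∀ x, t x ∈ range r) ∧ (∀ a ∈ range r, t a = a) ∧ ∀ x, t (x ⊔ t x) ≤ t x}

theorem upp_nonempty {r : L → L} (hr : IsRetraction r) : (Upp r).Nonempty := by
  have hfix : ∀ a ∈ range r, r a = a := fun a ha => (mem_range_iff hr).1 ha
  refine ⟨fun x => r (sInf {b | b ∈ range r ∧ x ≤ b}), ?_, fun x => ⟨_, rfl⟩, ?_, ?_⟩
  · intro x y hxy
    apply hr.1
    apply sInf_le_sInf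
    rintro b ⟨hb, hb'⟩
    exact ⟨hb, hxy.trans hb'⟩
  · intro a ha
    simp only
    have : sInf {b | b ∈ range r ∧ a ≤ b} = a := by
      apply le_antisymm
      · exact sInf_le ⟨ha, le_rfl⟩
      · exact le_sInf (fun b hb => hb.2)
    rw [this]
    exact hfix a ha
  · intro x
    simp only
    apply hr.1
    apply sInf_le_sInf
    rintro b ⟨hb, hb'⟩
    refine ⟨hb, sup_le hb' ?_⟩
    rw [← hfix b hb]
    exact hr.1 (sInf_le ⟨hb, hb'⟩)

/-- the least element of `Upp r` -/
def low (r : L → L) : L → L := fun x => r (sInf {y | ∃ t ∈ Upp r, y = t x})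

theorem low_le {r : L → L} (hr : IsRetraction r) {t : L → L} (ht : t ∈ Upp r) (x : L) :
    low r x ≤ t x := by
  have h1 := (mem_range_iff hr).1 (ht.2.1 x)
  rw [← h1]
  exact hr.1 (sInf_le ⟨t, ht, rfl⟩)

theorem low_mem {r : L → L} (hr : IsRetraction r) : low r ∈ Upp r := by
  have hfix : ∀ a ∈ range r, r a = a := fun a ha => (mem_range_iff hr).1 ha
  obtain ⟨t0, ht0⟩ := upp_nonempty hr
  refine ⟨?_, fun x => ⟨_, rfl⟩, ?_, ?_⟩
  · intro x y hxy
    apply hr.1
    apply le_sInf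
    rintro z ⟨t, ht, rfl⟩
    exact (sInf_le ⟨t, ht, rfl⟩ : sInf {z | ∃ t ∈ Upp r, z = t x} ≤ t x).trans (ht.1 hxy)
  · intro a ha
    have : sInf {y | ∃ t ∈ Upp r, y = t a} = a := by
      apply le_antisymm
      · exact sInf_le ⟨t0, ht0, (ht0.2.2.1 a ha).symm⟩
      · apply le_sInf
        rintro z ⟨t, ht, rfl⟩
        rw [ht.2.2.1 a ha]
    show r (sInf {y | ∃ t ∈ Upp r, y = t a}) = a
    rw [this]
    exact hfix a ha
  · intro x
    have h1 : low r (x ⊔ low r x) ≤ sInf {y | ∃ t ∈ Upp r, y = t x} := by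
      apply le_sInf
      rintro z ⟨t, ht, rfl⟩
      exact (low_le hr ht _).trans ((ht.1 (sup_le_sup le_rfl (low_le hr ht x))).trans
        (ht.2.2.2 x))
    have h2 : r (low r (x ⊔ low r x)) = low r (x ⊔ low r x) := hfix _ ⟨_, rfl⟩
    rw [← h2]
    exact hr.1 h1

theorem down_mem [IsModularLattice L] {r t : L → L} (ht : t ∈ Upp r) :
    (fun x => t (x ⊓ t x)) ∈ Upp r := by
  obtain ⟨h1, h2, h3, h4⟩ := ht
  refine ⟨?_, fun x => h2 _, ?_, ?_⟩
  · intro x y hxy
    exact h1 (inf_le_inf hxy (h1 hxy))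
  · intro a ha
    simp only
    rw [h3 a ha, inf_idem, h3 a ha]
  · intro x
    simp only
    set w := x ⊓ t x with hw
    have hwx : t w ≤ t x := by
      have := h1 (show w ≤ t x from inf_le_right)
      rwa [h3 (t x) (h2 x)] at this
    have e1 : t (x ⊔ t w) ≤ t x := (h1 (sup_le_sup le_rfl hwx)).trans (h4 x)
    have e2 : (x ⊔ t w) ⊓ t (x ⊔ t w) ≤ w ⊔ t w := by
      calc (x ⊔ t w) ⊓ t (x ⊔ t w) ≤ (x ⊔ t w) ⊓ t x := inf_le_inf le_rfl e1
        _ = (t w ⊔ x) ⊓ t x := by rw [sup_comm]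
        _ = t w ⊔ (x ⊓ t x) := sup_inf_assoc_of_le x hwx
        _ = w ⊔ t w := by rw [← hw, sup_comm]
    exact (h1 e2).trans (h4 w)

theorem propC_complete [IsModularLattice L] : PropC L := by
  rw [propC_iff_good]
  intro r hr
  have hm := low_mem hr
  have hd := down_mem hm
  have hle : ∀ x, low r x ≤ low r (x ⊓ low r x) := fun x => low_le hr hd x
  have hfix : ∀ a ∈ range r, low r a = a := hm.2.2.1
  refine ⟨low r, (good_iff _).2 ⟨⟨hm.1, fun x => hfix _ (hm.2.1 x)⟩, ?_, ?_⟩, ?_⟩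
  · intro x
    apply le_antisymm (hm.2.2.2 x)
    calc low r x = low r (low r x) := (hfix _ (hm.2.1 x)).symm
      _ ≤ low r (x ⊔ low r x) := hm.1 le_sup_right
  · intro x
    apply le_antisymm _ (hle x)
    calc low r (x ⊓ low r x) ≤ low r (low r x) := hm.1 inf_le_right
      _ = low r x := hfix _ (hm.2.1 x)
  · ext a
    constructor
    · rintro ⟨x, rfl⟩
      exact hm.2.1 x
    · intro ha
      exact ⟨a, hfix a ha⟩

theorem propCIm_complete : PropCIm L := by
  intro R _
  refine ⟨?_, fun h => h.retract⟩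
  rintro ⟨r, hr, rfl⟩
  set f : L → L := fun x => sInf {y | x ≤ y ∧ r y ≤ y} with hf
  set g : L → L := fun x => sSup {y | y ≤ x ∧ y ≤ r y} with hg
  have f1 : ∀ x, x ≤ f x := fun x => le_sInf (fun y hy => hy.1)
  have f2 : ∀ x, r (f x) ≤ f x := by
    intro x
    apply le_sInf
    intro y hy
    exact (hr.1 (sInf_le hy)).trans hy.2
  have f3 : ∀ x y, x ≤ y → r y ≤ y → f x ≤ y := fun x y h1 h2 => sInf_le ⟨h1, h2⟩
  have g1 : ∀ x, g x ≤ x := fun x => sSup_le (fun y hy => hy.1)
  have g2 : ∀ x, g x ≤ r (g x) := by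
    intro x
    apply sSup_le
    intro y hy
    exact hy.2.trans (hr.1 (le_sSup hy))
  have g3 : ∀ x y, y ≤ x → y ≤ r y → y ≤ g x := fun x y h1 h2 => le_sSup ⟨h1, h2⟩
  have hfc : IsClosureOp f := by
    refine ⟨⟨?_, ?_⟩, f1⟩
    · intro x y hxy
      exact f3 x _ (hxy.trans (f1 y)) (f2 y)
    · intro x
      exact le_antisymm (f3 _ _ le_rfl (f2 x)) (f1 _)
  have hgc : IsAnticlosureOp g := by
    refine ⟨⟨?_, ?_⟩, g1⟩
    · intro x y hxy
      exact g3 y _ ((g1 x).trans hxy) (g2 x)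
    · intro x
      exact le_antisymm (g1 _) (g3 _ _ le_rfl (g2 x))
  have fr : ∀ x, x ≤ r x → f x = r x := by
    intro x hx
    apply le_antisymm
    · exact f3 x _ hx (hr.2 x).le
    · exact (hr.1 (f1 x)).trans (f2 x)
  have gr : ∀ x, r x ≤ x → g x = r x := by
    intro x hx
    apply le_antisymm
    · exact (g2 x).trans (hr.1 (g1 x))
    · exact g3 x _ hx (hr.2 x).ge
  have frr : ∀ x, f (r x) = r x := fun x => by rw [fr _ (hr.2 x).ge, hr.2]
  have grr : ∀ x, g (r x) = r x := fun x => by rw [gr _ (hr.2 x).le, hr.2]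
  refine ⟨f, g, hfc, hgc, ?_, ?_, ?_⟩
  · ext y
    constructor
    · rintro ⟨x, rfl⟩
      exact ⟨r x, by show f (g (r x)) = r x; rw [grr, frr]⟩
    · rintro ⟨x, rfl⟩
      exact ⟨g x, by show r (g x) = f (g x); rw [fr _ (g2 x)]⟩
  · ext y
    constructor
    · rintro ⟨x, rfl⟩
      exact ⟨r x, by show g (f (r x)) = r x; rw [frr, grr]⟩
    · rintro ⟨x, rfl⟩
      exact ⟨f x, by show r (f x) = g (f x); rw [gr _ (f2 x)]⟩
  · ext y
    constructor
    · rintro ⟨x, rfl⟩
      exact ⟨⟨r x, frr x⟩, ⟨r x, grr x⟩⟩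
    · rintro ⟨hy1, hy2⟩
      have e1 := (mem_range_iff hfc.1).1 hy1
      have e2 := (mem_range_iff hgc.1).1 hy2
      refine ⟨y, le_antisymm ?_ ?_⟩
      · have := f2 y
        rwa [e1] at this
      · have := g2 y
        rwa [e2] at this

end complete

end Pool.Agent.V11147.Ret
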