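import Pool.Agent.V11147.Ret

namespace Pool.Agent.V11147.Ret

open Set

theorem modLaw_iff {L : Type*} [Lattice L] : ModLaw L ↔ IsModularLattice L := by
  constructor
  · intro h
    refine ⟨?_⟩
    intro x y z hxz
    exact (h x y z (x ⊔ y) ((x ⊔ y) ⊓ z) (y ⊓ z) (x ⊔ (y ⊓ z)) hxz isLUB_pair isGLB_pair
      isGLB_pair isLUB_pair).le
  · intro h x y z s u i t hxz hs hu hi ht
    rw [hs.unique isLUB_pair] at hu
    rw [hi.unique isGLB_pair] at ht
    rw [hu.unique isGLB_pair, ht.unique isLUB_pair]
    exact sup_inf_assoc_of_le y hxz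

/-- the lattice structure on a poset in which all pairs have suprema and infima -/
@[reducible] noncomputable def toLattice {P : Type*} [PartialOrder P] (h : IsLat P) : Lattice P :=
  { ‹PartialOrder P› with
    sup := fun x y => Classical.choose (h x y).1
    inf := fun x y => Classical.choose (h x y).2
    le_sup_left := fun x y => (Classical.choose_spec (h x y).1).1 (mem_insert x {y})
    le_sup_right := fun x y => (Classical.choose_spec (h x y).1).1
      (mem_insert_of_mem x (mem_singleton y))
    sup_le := fun x y z hx hy => (Classical.choose_spec (h x y).1).2 (by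
      rintro w (rfl | hw)
      · exact hx
      · rw [mem_singleton_iff] at hw; rw [hw]; exact hy)
    inf_le_left := fun x y => (Classical.choose_spec (h x y).2).1 (mem_insert x {y})
    inf_le_right := fun x y => (Classical.choose_spec (h x y).2).1
      (mem_insert_of_mem x (mem_singleton y))
    le_inf := fun x y z hx hy => (Classical.choose_spec (h y z).2).2 (by
      rintro w (rfl | hw)
      · exact hx
      · rw [mem_singleton_iff] at hw; rw [hw]; exact hy) }

theorem isLat_of_lattice (L : Type*) [Lattice L] : IsLat L :=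
  fun x y => ⟨⟨x ⊔ y, isLUB_pair⟩, ⟨x ⊓ y, isGLB_pair⟩⟩

theorem modLaw_of_propC {P : Type*} [PartialOrder P] (h : PropC P) : IsLat P ∧ ModLaw P := by
  have hl := isLat_of_propC h
  refine ⟨hl, ?_⟩
  letI := toLattice hl
  exact modLaw_iff.2 (modular_of_propC h)

theorem isCompl_iff {P : Type*} [PartialOrder P] (hc : IsCompl P) : PropC P ↔ ModLaw P := by
  refine ⟨fun h => (modLaw_of_propC h).2, fun h => ?_⟩
  letI : SupSet P := ⟨fun S => Classical.choose (hc S)⟩
  letI : CompleteLattice P := completeLatticeOfSup P (fun S => Classical.choose_spec (hc S))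
  haveI : IsModularLattice P := modLaw_iff.1 h
  exact propC_complete

theorem propCIm_of_compl {P : Type*} [PartialOrder P] (hc : IsCompl P) : PropCIm P := by
  letI : SupSet P := ⟨fun S => Classical.choose (hc S)⟩
  letI : CompleteLattice P := completeLatticeOfSup P (fun S => Classical.choose_spec (hc S))
  exact propCIm_complete

theorem isCompl_of_finite {P : Type*} [PartialOrder P] [Finite P] [Nonempty P] (h : IsLat P) :
    IsCompl P := by
  letI := toLattice h
  letI := Fintype.ofFinite P
  letI : BoundedOrder P := Fintype.toBoundedOrder P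
  letI : CompleteLattice P := Fintype.toCompleteLattice P
  intro S
  exact ⟨sSup S, isLUB_sSup S⟩

theorem finite_iff {P : Type*} [PartialOrder P] [Finite P] : PropC P ↔ IsLat P ∧ ModLaw P := by
  refine ⟨modLaw_of_propC, ?_⟩
  rintro ⟨h1, h2⟩
  rcases isEmpty_or_nonempty P with hE | hE
  · rintro R ⟨x, _⟩
    exact (hE.false x).elim
  · exact (isCompl_iff (isCompl_of_finite h1)).2 h2

theorem finite_im_iff {P : Type*} [PartialOrder P] [Finite P] : PropCIm P ↔ IsLat P := by
  refine ⟨isLat_of_im, ?_⟩
  intro h1
  rcases isEmpty_or_nonempty P with hE | hE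
  · rintro R ⟨x, _⟩
    exact (hE.false x).elim
  · exact propCIm_of_compl (isCompl_of_finite h1)

theorem propC_iff_good' {P : Type*} [PartialOrder P] : PropC P ↔
    IsLat P ∧ ∀ r : P → P, IsRetraction r → ∃ r' : P → P, IsGood r' ∧ range r' = range r := by
  constructor
  · intro h
    have hl := isLat_of_propC h
    refine ⟨hl, ?_⟩
    letI := toLattice hl
    exact propC_iff_good.1 h
  · rintro ⟨hl, h⟩
    letI := toLattice hl
    exact propC_iff_good.2 h

end Pool.Agent.V11147.Ret
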